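import Pool.Agent.H6.MF.Defs

/-!
# AAd: the Hardy-Littlewood asymptotics for almost all `k`-tuples
-/

set_option autoImplicit false

namespace Pool.Agent.H96.AE

open Finset Pool.Agent.H6.MF

/-- the sum over all sets `D` of `k - 1` integers in `[1,H]` of the error in the Hardy-Littlewood conjecture for `{0} ∪ D` is at
most `δ H^(k-1) x / (log x)^k` -/
def AAk (k : ℕ) (x : ℝ) (H : ℕ) (δ : ℝ) : Prop :=
  ∑ D ∈ Finset.powersetCard (k - 1) (Finset.Icc 1 (H : ℤ)),
    |(cnt x (insert 0 D) : ℝ) - sing (insert 0 D) * x / (Real.log x) ^ k|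
      ≤ δ * ((H : ℝ) ^ (k - 1) * x / (Real.log x) ^ k)

/-- one-sided version: the sum over all sets `D` of `k - 1` integers in `[1,H]` of the excess over the Hardy-Littlewood prediction for
`{0} ∪ D` is at most `δ H^(k-1) x / (log x)^k` -/
def UAk (k : ℕ) (x : ℝ) (H : ℕ) (δ : ℝ) : Prop :=
  ∑ D ∈ Finset.powersetCard (k - 1) (Finset.Icc 1 (H : ℤ)),
    max 0 ((cnt x (insert 0 D) : ℝ) - sing (insert 0 D) * x / (Real.log x) ^ k)
      ≤ δ * ((H : ℝ) ^ (k - 1) * x / (Real.log x) ^ k)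

lemma UAk_of_AAk {k : ℕ} {x : ℝ} {H : ℕ} {δ : ℝ} (h : AAk k x H δ) : UAk k x H δ :=
  (Finset.sum_le_sum fun _ _ => max_le (abs_nonneg _) (le_abs_self _)).trans h

end Pool.Agent.H96.AE
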