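import Pool.Agent.H96.AE.Df

/-!
# CNT: counting prime tuples with `La`

Let `k = |D| + 1`, `L = log x ≥ 1`, `N = ⌊x⌋₊ + 1`. `L^k * cnt x (insert 0 D) = ∑_{n<N} L^k [n and all n - d are prime]` (`0 ∉ D` because `d ≥ 1`), `cf x (La x) D = ∑_{n<N} L^k [n, n-d prime and in (x^(1/4), x]]`. All `n - d ≤ n ≤ x`. The two summands differ only if
`n` and all `n - d` are primes and one of them is `≤ x^(1/4)`; then `n ≤ x^(1/4) + L^2` (as `d ≤ L^2`). So `0 ≤ L^k cnt - cf ≤ L^k (x^(1/4) + L^2 + 1) ≤ ε x` for large `x` (`k ≤ k₀` fixed, `L ≥ 1`: bound `L^k ≤ L^k₀`; `isLittleO_log_rpow_rpow_atTop` or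
`Real.log_le_rpow_div`).
-/

set_option autoImplicit false

namespace Pool.Agent.H96.AE

open Finset Pool.Agent.H17 Pool.Agent.H6.MF Pool.Agent.H6.MB Pool.Agent.H12.DM Pool.Agent.H6.AE

lemma CNT_pt (x : ℝ) (hx : 1 ≤ x) (hL : 1 ≤ Real.log x) (D : Finset ℤ)
    (hD : ∀ d ∈ D, 1 ≤ d ∧ (d : ℝ) ≤ (Real.log x) ^ 2) (n : ℕ) (hn : n < ⌊x⌋₊ + 1) :
    |(Real.log x) ^ (D.card + 1) * (if ∀ h ∈ insert (0 : ℤ) D, isP ((n : ℤ) - h) then (1 : ℝ) else 0) -
      La x (n : ℤ) * ∏ d ∈ D, La x ((n : ℤ) - d)| ≤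
      if (n : ℝ) ≤ x ^ (1 / 4 : ℝ) + (Real.log x) ^ 2 then (Real.log x) ^ (D.card + 1) else 0 := by
  have hL0 : 0 ≤ Real.log x := by linarith
  have hle : ∀ m : ℤ, 0 ≤ La x m ∧ La x m ≤ Real.log x := by
    intro m
    unfold La
    split_ifs
    · exact ⟨hL0, le_refl _⟩
    · exact ⟨le_refl _, hL0⟩
  have hB0 : 0 ≤ La x (n : ℤ) * ∏ d ∈ D, La x ((n : ℤ) - d) :=
    mul_nonneg (hle _).1 (Finset.prod_nonneg fun d _ => (hle _).1)
  have hB1 : La x (n : ℤ) * ∏ d ∈ D, La x ((n : ℤ) - d) ≤ (Real.log x) ^ (D.card + 1) := by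
    have h1 : ∏ d ∈ D, La x ((n : ℤ) - d) ≤ (Real.log x) ^ D.card := by
      calc ∏ d ∈ D, La x ((n : ℤ) - d) ≤ ∏ _d ∈ D, Real.log x :=
            Finset.prod_le_prod (fun d _ => (hle _).1) (fun d _ => (hle _).2)
        _ = (Real.log x) ^ D.card := by simp
    calc La x (n : ℤ) * ∏ d ∈ D, La x ((n : ℤ) - d) ≤ Real.log x * (Real.log x) ^ D.card :=
          mul_le_mul (hle _).2 h1 (Finset.prod_nonneg fun d _ => (hle _).1) hL0
      _ = (Real.log x) ^ (D.card + 1) := by ring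
  have hnx : (n : ℝ) ≤ x := by
    have h1 : n ≤ ⌊x⌋₊ := by omega
    exact le_trans (by exact_mod_cast h1) (Nat.floor_le (by linarith))
  by_cases hp : ∀ h ∈ insert (0 : ℤ) D, isP ((n : ℤ) - h)
  · rw [if_pos hp, mul_one]
    by_cases hs : (n : ℝ) ≤ x ^ (1 / 4 : ℝ) + (Real.log x) ^ 2
    · rw [if_pos hs, abs_le]
      constructor <;> linarith
    · rw [if_neg hs]
      push Not at hs
      have h0 : La x (n : ℤ) = Real.log x := by
        unfold La
        rw [if_pos]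
        refine ⟨?_, ?_, ?_⟩
        · have := hp 0 (Finset.mem_insert_self _ _)
          simpa using this
        · push_cast
          nlinarith [sq_nonneg (Real.log x)]
        · push_cast
          exact hnx
      have h1 : ∀ d ∈ D, La x ((n : ℤ) - d) = Real.log x := by
        intro d hd
        obtain ⟨hd1, hd2⟩ := hD d hd
        unfold La
        rw [if_pos]
        refine ⟨hp d (Finset.mem_insert_of_mem hd), ?_, ?_⟩
        · push_cast
          linarith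
        · push_cast
          have : (1 : ℝ) ≤ (d : ℝ) := by exact_mod_cast hd1
          linarith
      rw [h0, Finset.prod_congr rfl h1]
      simp only [Finset.prod_const]
      rw [show (Real.log x) ^ (D.card + 1) - Real.log x * (Real.log x) ^ D.card = 0 by ring]
      simp
  · rw [if_neg hp, mul_zero]
    have hz : La x (n : ℤ) * ∏ d ∈ D, La x ((n : ℤ) - d) = 0 := by
      push Not at hp
      obtain ⟨h, hh, hnp⟩ := hp
      rcases Finset.mem_insert.1 hh with rfl | hh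
      · have : La x (n : ℤ) = 0 := by
          unfold La
          rw [if_neg]
          rintro ⟨h1, -⟩
          exact hnp (by simpa using h1)
        rw [this, zero_mul]
      · have : La x ((n : ℤ) - h) = 0 := by
          unfold La
          rw [if_neg]
          rintro ⟨h1, -⟩
          exact hnp h1
        rw [Finset.prod_eq_zero hh this, mul_zero]
    rw [hz]
    simp only [sub_zero, abs_zero]
    split_ifs
    · positivity
    · exact le_refl _

lemma CNT_asym (k : ℕ) (ε : ℝ) (hε : 0 < ε) : ∃ X : ℝ, ∀ x : ℝ, X ≤ x →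
    1 ≤ x ∧ 1 ≤ Real.log x ∧ (x ^ (1 / 4 : ℝ) + (Real.log x) ^ 2 + 1) * (Real.log x) ^ k ≤ ε * x := by
  have h1 : ∀ᶠ x : ℝ in Filter.atTop, (Real.log x) ^ k ≤ x ^ (1 / 4 : ℝ) := by
    have h := (isLittleO_log_rpow_rpow_atTop (k : ℝ) (show (0 : ℝ) < 1 / 4 by norm_num)).bound
      (show (0 : ℝ) < 1 by norm_num)
    filter_upwards [h, Filter.eventually_ge_atTop (1 : ℝ)] with x hx hx1
    have h0 : 0 ≤ Real.log x := Real.log_nonneg hx1
    rw [Real.rpow_natCast, one_mul, Real.norm_of_nonneg (pow_nonneg h0 k),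
      Real.norm_of_nonneg (Real.rpow_nonneg (by linarith) _)] at hx
    exact hx
  have h2 : ∀ᶠ x : ℝ in Filter.atTop, (Real.log x) ^ 2 ≤ x ^ (1 / 4 : ℝ) := by
    have h := (isLittleO_log_rpow_rpow_atTop ((2 : ℕ) : ℝ) (show (0 : ℝ) < 1 / 4 by norm_num)).bound
      (show (0 : ℝ) < 1 by norm_num)
    filter_upwards [h, Filter.eventually_ge_atTop (1 : ℝ)] with x hx hx1
    have h0 : 0 ≤ Real.log x := Real.log_nonneg hx1
    rw [Real.rpow_natCast, one_mul, Real.norm_of_nonneg (pow_nonneg h0 2),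
      Real.norm_of_nonneg (Real.rpow_nonneg (by linarith) _)] at hx
    exact hx
  have h3 : ∀ᶠ x : ℝ in Filter.atTop, 1 ≤ Real.log x :=
    Real.tendsto_log_atTop.eventually_ge_atTop 1
  obtain ⟨X, hX⟩ := Filter.eventually_atTop.1
    ((h1.and h2).and (h3.and ((Filter.eventually_ge_atTop (1 : ℝ)).and
      (Filter.eventually_ge_atTop ((3 / ε) ^ 2)))))
  refine ⟨X, fun x hx => ?_⟩
  obtain ⟨⟨a1, a2⟩, a3, a4, a5⟩ := hX x hx
  refine ⟨a4, a3, ?_⟩
  set q : ℝ := x ^ (1 / 4 : ℝ) with hq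
  have hq1 : 1 ≤ q := Real.one_le_rpow a4 (by norm_num)
  have hq4 : q ^ 4 = x := by
    rw [hq, ← Real.rpow_natCast, ← Real.rpow_mul (by linarith)]
    norm_num
  have hL0 : (0 : ℝ) ≤ (Real.log x) ^ k := pow_nonneg (by linarith) k
  have b1 : (q + (Real.log x) ^ 2 + 1) * (Real.log x) ^ k ≤ (3 * q) * q := by
    apply mul_le_mul _ a1 hL0 (by positivity)
    linarith
  have b2 : 3 / ε ≤ q ^ 2 := by
    have h : (3 / ε) ^ 2 ≤ (q ^ 2) ^ 2 := by
      calc (3 / ε) ^ 2 ≤ x := a5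
        _ = (q ^ 2) ^ 2 := by rw [← hq4]; ring
    exact le_of_sq_le_sq h (by positivity)
  have b3 : 3 ≤ ε * q ^ 2 := by
    have := (div_le_iff₀ hε).1 b2
    linarith
  calc (q + (Real.log x) ^ 2 + 1) * (Real.log x) ^ k ≤ (3 * q) * q := b1
    _ = 3 * q ^ 2 := by ring
    _ ≤ (ε * q ^ 2) * q ^ 2 := by
        apply mul_le_mul_of_nonneg_right b3 (by positivity)
    _ = ε * x := by rw [← hq4]; ring

theorem CNT (k : ℕ) (ε : ℝ) (hε : 0 < ε) : ∃ X : ℝ, ∀ x : ℝ, X ≤ x → ∀ D : Finset ℤ,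
    (∀ d ∈ D, 1 ≤ d ∧ (d : ℝ) ≤ (Real.log x) ^ 2) → D.card + 1 ≤ k →
    |(Real.log x) ^ (D.card + 1) * (cnt x (insert 0 D) : ℝ) - cf x (La x) D| ≤ ε * x := by
  obtain ⟨X, hX⟩ := CNT_asym k ε hε
  refine ⟨X, fun x hx D hD hk => ?_⟩
  obtain ⟨h1, hL, hb⟩ := hX x hx
  have hcnt : (cnt x (insert 0 D) : ℝ) = ∑ n ∈ Finset.range (⌊x⌋₊ + 1),
      (if ∀ h ∈ insert (0 : ℤ) D, isP ((n : ℤ) - h) then (1 : ℝ) else 0) := by
    unfold cnt
    rw [Finset.card_filter]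
    push_cast
    rfl
  rw [hcnt, Finset.mul_sum]
  unfold cf
  rw [← Finset.sum_sub_distrib]
  have hLk : (Real.log x) ^ (D.card + 1) ≤ (Real.log x) ^ k := pow_le_pow_right₀ hL hk
  have hLk0 : 0 ≤ (Real.log x) ^ (D.card + 1) := pow_nonneg (by linarith) _
  have hq0 : 0 ≤ x ^ (1 / 4 : ℝ) + (Real.log x) ^ 2 := by
    have := Real.rpow_nonneg (show 0 ≤ x by linarith) (1 / 4 : ℝ)
    positivity
  calc |∑ n ∈ Finset.range (⌊x⌋₊ + 1), ((Real.log x) ^ (D.card + 1) *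
        (if ∀ h ∈ insert (0 : ℤ) D, isP ((n : ℤ) - h) then (1 : ℝ) else 0) -
          La x (n : ℤ) * ∏ d ∈ D, La x ((n : ℤ) - d))|
      ≤ ∑ n ∈ Finset.range (⌊x⌋₊ + 1), |(Real.log x) ^ (D.card + 1) *
        (if ∀ h ∈ insert (0 : ℤ) D, isP ((n : ℤ) - h) then (1 : ℝ) else 0) -
          La x (n : ℤ) * ∏ d ∈ D, La x ((n : ℤ) - d)| := Finset.abs_sum_le_sum_abs _ _
    _ ≤ ∑ n ∈ Finset.range (⌊x⌋₊ + 1),
        (if (n : ℝ) ≤ x ^ (1 / 4 : ℝ) + (Real.log x) ^ 2 then (Real.log x) ^ (D.card + 1) else 0) :=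
        Finset.sum_le_sum fun n hn => CNT_pt x h1 hL D hD n (Finset.mem_range.1 hn)
    _ = (((Finset.range (⌊x⌋₊ + 1)).filter
        (fun n : ℕ => (n : ℝ) ≤ x ^ (1 / 4 : ℝ) + (Real.log x) ^ 2)).card : ℝ) *
          (Real.log x) ^ (D.card + 1) := by
        rw [← Finset.sum_filter, Finset.sum_const, nsmul_eq_mul]
    _ ≤ (x ^ (1 / 4 : ℝ) + (Real.log x) ^ 2 + 1) * (Real.log x) ^ k := by
        apply mul_le_mul _ hLk hLk0 (by linarith)
        have hsub : (Finset.range (⌊x⌋₊ + 1)).filter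
            (fun n : ℕ => (n : ℝ) ≤ x ^ (1 / 4 : ℝ) + (Real.log x) ^ 2) ⊆
            Finset.range (⌊x ^ (1 / 4 : ℝ) + (Real.log x) ^ 2⌋₊ + 1) := by
          intro n hn
          rw [Finset.mem_filter] at hn
          rw [Finset.mem_range]
          have := Nat.le_floor hn.2
          omega
        have hc := Finset.card_le_card hsub
        rw [Finset.card_range] at hc
        calc (((Finset.range (⌊x⌋₊ + 1)).filter
            (fun n : ℕ => (n : ℝ) ≤ x ^ (1 / 4 : ℝ) + (Real.log x) ^ 2)).card : ℝ)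
            ≤ ((⌊x ^ (1 / 4 : ℝ) + (Real.log x) ^ 2⌋₊ + 1 : ℕ) : ℝ) := by exact_mod_cast hc
          _ ≤ x ^ (1 / 4 : ℝ) + (Real.log x) ^ 2 + 1 := by
              push_cast
              have := Nat.floor_le hq0
              linarith
    _ ≤ ε * x := hb

end Pool.Agent.H96.AE
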