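import Pool.Agent.H96.AE.Df
import Pool.Agent.H12.DM.Vc

/-!
# BMU: `Bm` is bounded by a constant times `uu`

* `BMU_maj`: copy the proof of `Vmaj` (`Pool/Agent/H12/DM/Vc.lean`, which only uses the second property in `GoodV`) with `dlm m b` in place of `dl b` (`dlm_pos`, `dlm_le : dlm m b ≤ 1/320 ≤ 1/4`; `Vc_large` has to be copied too).
* `BMU`: let `w = yy x ≥ y ≥ y₁` (`x` large), `r₁ = rr y₁ y n`, `r₂ = rr y w n`. `Mm y n = Mm y₁ n * r₁ ≤ wp y₁ * r₁`, `Mm w n = Mm y n * r₂ ≤ wp y₁ * (r₁ r₂)` (`Mm_split`, `Mm_le`, `rr_nonneg`), so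
  `La x n ≤ (1/dlm m b) wp y₁ (r₁ r₂ V n)` and `Bm y x n ≤ wp y₁ (1/dlm m b + 5) (r₁ + r₁ r₂ + r₁ r₂ V n) ≤ wp y₁ (1/dlm m b + 5) uu y₁ y x V n` (`uu = wt 0 + wt 1 + wt 2 + wt 3 = 1 + r₁ + r₁ r₂ + r₁ r₂ V`, `Fin.sum_univ_four`;
  `5 ≤ 1/dlm m b + 5`).
-/

set_option autoImplicit false

namespace Pool.Agent.H96.AE

open Finset Pool.Agent.H17 Pool.Agent.H6.MF Pool.Agent.H6.MB Pool.Agent.H12.DM Pool.Agent.H6.AE

private theorem BMU_large (m b : ℕ) : ∃ X : ℝ, ∀ x : ℝ, X ≤ x → 1 ≤ x ∧ 1 ≤ Real.log x ∧ 2 ≤ x ^ dlm m b ∧ (yy x : ℝ) ≤ x ^ dlm m b := by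
  have hd := dlm_pos m b
  have h1 : ∀ᶠ x : ℝ in Filter.atTop, 1 ≤ x := Filter.eventually_ge_atTop 1
  have h2 : ∀ᶠ x : ℝ in Filter.atTop, 1 ≤ Real.log x := Real.tendsto_log_atTop.eventually_ge_atTop 1
  have h3 : ∀ᶠ x : ℝ in Filter.atTop, 2 ≤ x ^ dlm m b := (tendsto_rpow_atTop hd).eventually_ge_atTop 2
  have h4 : ∀ᶠ t : ℝ in Filter.atTop, ‖Real.log t‖ ≤ dlm m b * ‖id t‖ := Real.isLittleO_log_id_atTop.bound hd
  have h5 : ∀ᶠ x : ℝ in Filter.atTop, ‖Real.log (Real.log x)‖ ≤ dlm m b * ‖id (Real.log x)‖ :=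
    Real.tendsto_log_atTop.eventually h4
  obtain ⟨X, hX⟩ := Filter.eventually_atTop.1 (h1.and (h2.and (h3.and h5)))
  refine ⟨X, fun x hx => ?_⟩
  obtain ⟨a1, a2, a3, a4⟩ := hX x hx
  refine ⟨a1, a2, a3, ?_⟩
  have e1 : 0 ≤ Real.log (Real.log x) := Real.log_nonneg a2
  have e2 : Real.log (Real.log x) ≤ dlm m b * Real.log x := by
    simp only [id, Real.norm_eq_abs] at a4
    rw [abs_of_nonneg e1, abs_of_nonneg (by linarith)] at a4
    exact a4
  have e3 : ((yy x : ℕ) : ℝ) ≤ Real.log (Real.log x) / 100 := by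
    unfold yy
    exact Nat.floor_le (by positivity)
  have e4 : x ^ dlm m b = Real.exp (Real.log x * dlm m b) := Real.rpow_def_of_pos (by linarith) _
  rw [e4]
  have e5 := Real.add_one_le_exp (Real.log x * dlm m b)
  linarith

theorem BMU_maj (m b : ℕ) : ∃ X : ℝ, ∀ x : ℝ, X ≤ x → ∀ V : ℤ → ℝ, GoodVm m b x V → ∀ n : ℤ,
    La x n ≤ 1 / dlm m b * (Mm (yy x) n * V n) := by
  obtain ⟨X, hX⟩ := BMU_large m b
  refine ⟨X, fun x hx V hV n => ?_⟩
  obtain ⟨a1, a2, a3, a4⟩ := hX x hx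
  have hd := dlm_pos m b
  by_cases h : isP n ∧ x ^ (1 / 4 : ℝ) < (n : ℝ) ∧ (n : ℝ) ≤ x
  · obtain ⟨hp, hn1, hn2⟩ := h
    have hz4 : x ^ dlm m b ≤ x ^ (1 / 4 : ℝ) := Real.rpow_le_rpow_of_exponent_le a1 ((dlm_le m b).trans (by norm_num))
    have hp' : n.toNat.Prime := hp
    have hnn : ((n.toNat : ℕ) : ℤ) = n := by
      apply Int.toNat_of_nonneg
      by_contra hneg
      have : n.toNat = 0 := Int.toNat_of_nonpos (by omega)
      rw [this] at hp'
      exact Nat.not_prime_zero hp'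
    set k := n.toNat with hk
    have hmn : (k : ℝ) = (n : ℝ) := by
      rw [← hnn]; simp
    have hndvd : ∀ p : ℕ, p.Prime → (p : ℝ) ≤ x ^ dlm m b → ¬ p ∣ k := by
      intro p hpp hle hdv
      have : p = k := (Nat.prime_dvd_prime_iff_eq hpp hp').1 hdv
      rw [this, hmn] at hle
      linarith
    have hMm : Mm (yy x) n = wp (yy x) := by
      unfold Mm
      rw [if_pos]
      rw [← hnn, Int.gcd_natCast_natCast]
      show k.Coprime (WW (yy x))
      rw [coprime_WW]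
      intro p hpm
      have hpm' := mem_PP.mp hpm
      refine hndvd p hpm'.2 ?_
      have : (p : ℝ) ≤ (yy x : ℝ) := by exact_mod_cast hpm'.1
      linarith
    have hVn : V n = (EP (yy x : ℝ) (x ^ dlm m b))⁻¹ := by
      apply hV.2.1
      intro p hpp hdv
      have hq := Vc_memPI (by linarith) hpp
      refine hndvd p hq.1 hq.2 ?_
      rw [← hnn] at hdv
      exact_mod_cast hdv
    have hLa : La x n = Real.log x := by
      unfold La
      rw [if_pos ⟨hp, hn1, hn2⟩]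
    rw [hLa, hMm, hVn, wp_eq, ← mul_inv, ← EP_mul (by positivity) a4]
    have h3 := mer3 (x ^ dlm m b) a3
    have hpos := EP_pos 0 (x ^ dlm m b)
    have hlog : Real.log (x ^ dlm m b) = dlm m b * Real.log x := Real.log_rpow (by linarith) _
    rw [hlog] at h3
    have hL : 0 < dlm m b * Real.log x := by
      apply mul_pos hd
      linarith
    have h4 : dlm m b * Real.log x ≤ (EP 0 (x ^ dlm m b))⁻¹ := by
      rw [le_inv_comm₀ hL hpos, inv_eq_one_div]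
      exact h3
    calc Real.log x = 1 / dlm m b * (dlm m b * Real.log x) := by
          field_simp
      _ ≤ 1 / dlm m b * (EP 0 (x ^ dlm m b))⁻¹ := by
          apply mul_le_mul_of_nonneg_left h4
          positivity
  · have hLa : La x n = 0 := by
      unfold La
      rw [if_neg h]
    rw [hLa]
    have e1 := hV.1 n
    have e2 := Mm_nonneg (yy x) n
    positivity


theorem BMU (m b y₁ y : ℕ) (h1 : y₁ ≤ y) : ∃ X : ℝ, ∀ x : ℝ, X ≤ x → ∀ V : ℤ → ℝ, GoodVm m b x V → ∀ n : ℤ,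
    Bm y x n ≤ (1 / dlm m b + 5) * wp y₁ * uu y₁ y x V n := by
  obtain ⟨X, hX⟩ := BMU_maj m b
  obtain ⟨X', hX'⟩ := Filter.eventually_atTop.1 (tendsto_yy.eventually_ge_atTop y)
  refine ⟨max X X', fun x hx V hV n => ?_⟩
  have hL := hX x ((le_max_left _ _).trans hx) V hV n
  have hyx : y ≤ yy x := hX' x ((le_max_right _ _).trans hx)
  have hd : 0 < 1 / dlm m b := one_div_pos.mpr (dlm_pos m b)
  have hu : uu y₁ y x V n = 1 + rr y₁ y n + rr y₁ y n * rr y (yy x) n + rr y₁ y n * (rr y (yy x) n * V n) := by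
    unfold uu
    rw [Fin.sum_univ_four]
    simp [wt]
  have hr1 := rr_nonneg y₁ y n
  have hr2 := rr_nonneg y (yy x) n
  have hv := hV.1 n
  have hw := wp_pos y₁
  have m1 : Mm y n ≤ wp y₁ * rr y₁ y n := by
    rw [Mm_split h1 n]
    exact mul_le_mul_of_nonneg_right (Mm_le _ _) hr1
  have m2 : Mm (yy x) n ≤ wp y₁ * (rr y₁ y n * rr y (yy x) n) := by
    rw [Mm_split hyx n, ← mul_assoc]
    exact mul_le_mul_of_nonneg_right m1 hr2
  have m3 : Mm (yy x) n * V n ≤ wp y₁ * (rr y₁ y n * (rr y (yy x) n * V n)) := by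
    have := mul_le_mul_of_nonneg_right m2 hv
    calc Mm (yy x) n * V n ≤ wp y₁ * (rr y₁ y n * rr y (yy x) n) * V n := this
      _ = wp y₁ * (rr y₁ y n * (rr y (yy x) n * V n)) := by ring
  have m4 : La x n ≤ 1 / dlm m b * (wp y₁ * (rr y₁ y n * (rr y (yy x) n * V n))) :=
    hL.trans (mul_le_mul_of_nonneg_left m3 hd.le)
  rw [hu]
  unfold Bm
  set D := 1 / dlm m b with hD
  set r1 := rr y₁ y n with hr1'
  set r2 := rr y (yy x) n with hr2'
  have p1 : 0 ≤ wp y₁ * r1 := by positivity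
  have p2 : 0 ≤ wp y₁ * (r1 * r2) := by positivity
  have p3 : 0 ≤ wp y₁ * (r1 * (r2 * V n)) := by positivity
  have q1 : 0 ≤ D * (wp y₁ * r1) := by positivity
  have q2 : 0 ≤ D * (wp y₁ * (r1 * r2)) := by positivity
  have q3 : 0 ≤ D * wp y₁ := by positivity
  have e : (D + 5) * wp y₁ * (1 + r1 + r1 * r2 + r1 * (r2 * V n)) =
      D * wp y₁ + 5 * wp y₁ + (D * (wp y₁ * r1) + 5 * (wp y₁ * r1)) +
      (D * (wp y₁ * (r1 * r2)) + 5 * (wp y₁ * (r1 * r2))) +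
      (D * (wp y₁ * (r1 * (r2 * V n))) + 5 * (wp y₁ * (r1 * (r2 * V n)))) := by ring
  rw [e]
  nlinarith

end Pool.Agent.H96.AE
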