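import Pool.Agent.H96.AE.Df

/-!
# ISO: sums over pairs (set, element)

* `ISO1`: `(C, t) ↦ (C.erase t, t)` is a bijection from `{(C,t) : C ∈ powersetCard (j+1) I, t ∈ C}` onto `{(C,t) : C ∈ powersetCard j I, t ∈ I \ C}` with inverse `(C,t) ↦ (insert t C, t)`
  (`Finset.sum_sigma'`, `Finset.sum_nbij'`).
* `ISO2`: `ISO1` for `Φ (insert t C)`: `insert t (C.erase t) = C` for `t ∈ C`, and every `C` with `j+1` elements is counted `j+1` times.
* `ISO_card`: `(powersetCard j I).card = choose |I| j ≤ |I|^j` (`Nat.choose_le_pow` type bound).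
* `ISO_pair`: for `1 ≤ |I|`, the number of `C ∈ powersetCard j I` which contain two given different elements is at most `|I|^(j-2)` (`j ≥ 2`): the map `C ↦ (C.erase a).erase b` is injective into `powersetCard (j-2) I`.
-/

set_option autoImplicit false

namespace Pool.Agent.H96.AE

open Finset

theorem ISO1 (I : Finset ℤ) (j : ℕ) (Φ : Finset ℤ → ℤ → ℝ) :
    ∑ C ∈ Finset.powersetCard (j + 1) I, ∑ t ∈ C, Φ (C.erase t) t =
      ∑ C ∈ Finset.powersetCard j I, ∑ t ∈ I \ C, Φ C t := by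
  rw [Finset.sum_sigma', Finset.sum_sigma']
  refine Finset.sum_bij' (fun x _ => ⟨x.1.erase x.2, x.2⟩) (fun x _ => ⟨insert x.2 x.1, x.2⟩)
    ?_ ?_ ?_ ?_ ?_
  · rintro ⟨C, t⟩ h
    simp only [Finset.mem_sigma, Finset.mem_powersetCard, Finset.mem_sdiff] at h ⊢
    obtain ⟨⟨h1, h2⟩, h3⟩ := h
    refine ⟨⟨(Finset.erase_subset _ _).trans h1, ?_⟩, h1 h3, Finset.notMem_erase _ _⟩
    rw [Finset.card_erase_of_mem h3, h2, Nat.add_sub_cancel]
  · rintro ⟨C, t⟩ h
    simp only [Finset.mem_sigma, Finset.mem_powersetCard, Finset.mem_sdiff] at h ⊢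
    obtain ⟨⟨h1, h2⟩, h3, h4⟩ := h
    refine ⟨⟨Finset.insert_subset h3 h1, ?_⟩, Finset.mem_insert_self _ _⟩
    rw [Finset.card_insert_of_notMem h4, h2]
  · rintro ⟨C, t⟩ h
    simp only [Finset.mem_sigma] at h
    simp only [Finset.insert_erase h.2]
  · rintro ⟨C, t⟩ h
    simp only [Finset.mem_sigma, Finset.mem_sdiff] at h
    simp only [Finset.erase_insert h.2.2]
  · rintro ⟨C, t⟩ _
    rfl

theorem ISO2 (I : Finset ℤ) (j : ℕ) (Φ : Finset ℤ → ℝ) :
    ∑ C ∈ Finset.powersetCard j I, ∑ t ∈ I \ C, Φ (insert t C) =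
      ((j : ℝ) + 1) * ∑ C ∈ Finset.powersetCard (j + 1) I, Φ C := by
  rw [← ISO1 I j (fun C t => Φ (insert t C)), Finset.mul_sum]
  refine Finset.sum_congr rfl fun C hC => ?_
  rw [Finset.mem_powersetCard] at hC
  have h1 : ∀ t ∈ C, Φ (insert t (C.erase t)) = Φ C := fun t ht => by
    rw [Finset.insert_erase ht]
  rw [Finset.sum_congr rfl h1, Finset.sum_const, hC.2, nsmul_eq_mul]
  push_cast
  ring

theorem ISO_card (I : Finset ℤ) (j : ℕ) : (Finset.powersetCard j I).card ≤ I.card ^ j := by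
  rw [Finset.card_powersetCard]
  exact Nat.choose_le_pow _ _

theorem ISO_pair (I : Finset ℤ) (j : ℕ) (a b : ℤ) (hab : a ≠ b) :
    ((Finset.powersetCard (j + 2) I).filter (fun C => a ∈ C ∧ b ∈ C)).card ≤ I.card ^ j := by
  refine (Finset.card_le_card_of_injOn (t := Finset.powersetCard j I)
    (fun C => (C.erase a).erase b) ?_ ?_).trans (ISO_card I j)
  · intro C hC
    simp only [Finset.coe_filter, Finset.mem_powersetCard, Set.mem_ofPred_eq] at hC
    obtain ⟨⟨h1, h2⟩, h3, h4⟩ := hC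
    simp only [Finset.mem_coe, Finset.mem_powersetCard]
    refine ⟨((Finset.erase_subset _ _).trans (Finset.erase_subset _ _)).trans h1, ?_⟩
    have h5 : b ∈ C.erase a := Finset.mem_erase.2 ⟨hab.symm, h4⟩
    rw [Finset.card_erase_of_mem h5, Finset.card_erase_of_mem h3, h2]
    omega
  · intro C hC D hD h
    simp only [Finset.coe_filter, Finset.mem_powersetCard, Set.mem_ofPred_eq] at hC hD
    have e1 : ∀ E : Finset ℤ, a ∈ E → b ∈ E → insert a (insert b ((E.erase a).erase b)) = E := by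
      intro E h1 h2
      rw [Finset.insert_erase (Finset.mem_erase.2 ⟨hab.symm, h2⟩), Finset.insert_erase h1]
    rw [← e1 C hC.2.1 hC.2.2, ← e1 D hD.2.1 hD.2.2]
    simp only at h
    rw [h]

end Pool.Agent.H96.AE
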