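import Pool.Agent.H96.AE.CSm
import Pool.Agent.H96.AE.ISO
import Pool.Agent.H6.AE.Gam

/-!
# SUa: sums of correlations of `uu` over sets of shifts

`I = Icc 1 H`, `L = log x`, `1 ≤ L ≤ H ≤ 4 L^2`. `Gam_sum` (`Pool/Agent/H6/AE/Gam.lean`, `r = 1`): `∑_{S ∈ powersetCard i I} Gs m y₁ S ≤ C' H^i` (`Gs` is the product there, by definition, to the power `1`).

* `SU_it2`, `SU_it3`, `SU_it4`: iterate `ISO2` (apply it to the inner sum with `Φ' C = ∑_{t ∈ I \ C} Φ (insert t C)` and so on: for `SU_it2`, `∑_{C ∈ P_j} ∑_{a ∈ I\C} Ψ (insert a C) = (j+1) ∑_{C ∈ P_{j+1}} Ψ C` with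
  `Ψ C = ∑_{b ∈ I\C} Φ (insert b C)`).
* `SU1`: `CSm` with `e = 1` (all exponents `e a - 1 = 0`): `≤ C M Gs m y₁ S` for each `S = C`; sum with `Gam_sum`.
* `SU2`: for `C ∈ powersetCard j I`, `e ∈ I \ C`: `I \ C = insert e (I \ insert e C)` (disjoint), so the sum over `e'` is the term `e' = e` plus the sum over `e' ∈ I \ insert e C`.
  The term `e' = e`: the summand is `∏_{a ∈ insert e C} uu (n-a)^(if a = e then 2 else 1)`; `CSm` gives `≤ C M L Gs m y₁ (insert e C)`; sum over `C, e` by `ISO2` and `Gam_sum`: `≤ (j+1) C C' M L H^(j+1) ≤ ... M H^(j+2)` as `L ≤ H`.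
  The terms `e' ≠ e`: `∏_{a ∈ insert e' (insert e C)} uu (n-a)`, `CSm` with exponents `1`, `≤ C M Gs m y₁ (insert e' (insert e C))`; `SU_it2` and `Gam_sum` for `j + 2`.
-/

set_option autoImplicit false

namespace Pool.Agent.H96.AE

open Finset Pool.Agent.H17 Pool.Agent.H6.MF Pool.Agent.H6.MB Pool.Agent.H12.DM Pool.Agent.H6.AE

private theorem SUa_sp (I S : Finset ℤ) {e : ℤ} (he : e ∈ I \ S) (f : ℤ → ℝ) :
    ∑ x ∈ I \ S, f x = f e + ∑ x ∈ I \ insert e S, f x := by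
  have h : I \ S = insert e (I \ insert e S) := by
    rw [Finset.mem_sdiff] at he
    ext a
    simp only [Finset.mem_sdiff, Finset.mem_insert]
    by_cases h : a = e
    · subst h
      tauto
    · tauto
  rw [h, Finset.sum_insert (by simp)]

theorem SU_it2 (I : Finset ℤ) (j : ℕ) (Φ : Finset ℤ → ℝ) :
    ∑ C ∈ Finset.powersetCard j I, ∑ a ∈ I \ C, ∑ b ∈ I \ insert a C, Φ (insert b (insert a C)) =
      ((j : ℝ) + 1) * ((j : ℝ) + 2) * ∑ S ∈ Finset.powersetCard (j + 2) I, Φ S := by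
  have h := ISO2 I j (fun C => ∑ b ∈ I \ C, Φ (insert b C))
  have h2 := ISO2 I (j + 1) Φ
  rw [h2] at h
  refine h.trans ?_
  push_cast
  ring

theorem SU_it3 (I : Finset ℤ) (j : ℕ) (Φ : Finset ℤ → ℝ) :
    ∑ C ∈ Finset.powersetCard j I, ∑ a ∈ I \ C, ∑ b ∈ I \ insert a C, ∑ c ∈ I \ insert b (insert a C),
        Φ (insert c (insert b (insert a C))) =
      ((j : ℝ) + 1) * ((j : ℝ) + 2) * ((j : ℝ) + 3) * ∑ S ∈ Finset.powersetCard (j + 3) I, Φ S := by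
  have h := ISO2 I j (fun C => ∑ b ∈ I \ C, ∑ c ∈ I \ insert b C, Φ (insert c (insert b C)))
  have h2 := SU_it2 I (j + 1) Φ
  rw [h2] at h
  refine h.trans ?_
  push_cast
  ring

theorem SU_it4 (I : Finset ℤ) (j : ℕ) (Φ : Finset ℤ → ℝ) :
    ∑ C ∈ Finset.powersetCard j I, ∑ a ∈ I \ C, ∑ b ∈ I \ insert a C, ∑ c ∈ I \ insert b (insert a C),
        ∑ d ∈ I \ insert c (insert b (insert a C)), Φ (insert d (insert c (insert b (insert a C)))) =
      ((j : ℝ) + 1) * ((j : ℝ) + 2) * ((j : ℝ) + 3) * ((j : ℝ) + 4) *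
        ∑ S ∈ Finset.powersetCard (j + 4) I, Φ S := by
  have h := ISO2 I j (fun C => ∑ b ∈ I \ C, ∑ c ∈ I \ insert b C, ∑ d ∈ I \ insert c (insert b C),
    Φ (insert d (insert c (insert b C))))
  have h2 := SU_it3 I (j + 1) Φ
  rw [h2] at h
  refine h.trans ?_
  push_cast
  ring

theorem SU1 (m i : ℕ) (hm : 2 ≤ m) (hi : i ≤ m) : ∃ C : ℝ, 0 < C ∧ ∀ b y₁ y : ℕ, 3 ≤ y₁ → y₁ ≤ y → ∃ X : ℝ,
    ∀ x : ℝ, X ≤ x → ∀ V : ℤ → ℝ, GoodVm m b x V → ∀ H : ℕ, Real.log x ≤ (H : ℝ) → (H : ℝ) ≤ 4 * (Real.log x) ^ 2 →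
    ∀ M : ℕ, x ≤ (M : ℝ) →
    ∑ S ∈ Finset.powersetCard i (Finset.Icc 1 (H : ℤ)), ∑ n ∈ Finset.range M, ∏ c ∈ S, uu y₁ y x V ((n : ℤ) - c)
      ≤ C * (M : ℝ) * (H : ℝ) ^ i := by
  obtain ⟨C, hC, hCS⟩ := CSm m hm
  obtain ⟨G, hG, hGs⟩ := Gam_sum m i 1
  refine ⟨C * G, by positivity, fun b y₁ y hy h1 => ?_⟩
  obtain ⟨X1, hX1⟩ := hCS b y₁ y hy h1
  obtain ⟨X2, hX2⟩ := hGs y₁ (by omega)
  refine ⟨max X1 X2, fun x hx V hV H hH1 hH2 M hM => ?_⟩
  have hx1 : X1 ≤ x := le_trans (le_max_left _ _) hx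
  have hx2 : X2 ≤ x := le_trans (le_max_right _ _) hx
  have h3 := hX2 x hx2 H hH1 hH2
  simp only [pow_one] at h3
  have h4 : ∑ T ∈ Finset.powersetCard i (Finset.Icc 1 (H : ℤ)), Gs m y₁ T ≤ G * (H : ℝ) ^ i := h3
  calc _ ≤ ∑ S ∈ Finset.powersetCard i (Finset.Icc 1 (H : ℤ)), C * (M : ℝ) * Gs m y₁ S := by
        refine Finset.sum_le_sum fun S hS => ?_
        rw [Finset.mem_powersetCard] at hS
        have h5 := hX1 x hx1 V hV S (by rw [hS.2]; exact hi) (fun _ => 1) (fun _ => ⟨le_rfl, by norm_num⟩)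
          (by simp) M hM
        simp only [pow_one, Nat.sub_self, Finset.sum_const_zero, pow_zero, mul_one] at h5
        exact h5
    _ = C * (M : ℝ) * ∑ S ∈ Finset.powersetCard i (Finset.Icc 1 (H : ℤ)), Gs m y₁ S := by
        rw [Finset.mul_sum]
    _ ≤ C * (M : ℝ) * (G * (H : ℝ) ^ i) := mul_le_mul_of_nonneg_left h4 (by positivity)
    _ = _ := by ring

private theorem SUa_pow (T : Finset ℤ) {e : ℤ} (he : e ∈ T) (f : ℤ → ℝ) :
    ∏ a ∈ T, f a ^ (if a = e then 2 else 1) = (∏ a ∈ T, f a) * f e := by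
  have h1 : ∀ a ∈ T, f a ^ (if a = e then 2 else 1) = f a * (if a = e then f a else 1) := by
    intro a _
    split_ifs
    · ring
    · ring
  rw [Finset.prod_congr rfl h1, Finset.prod_mul_distrib]
  congr 1
  rw [Finset.prod_ite_eq', if_pos he]

private theorem SUa_exp (T : Finset ℤ) {e : ℤ} (he : e ∈ T) :
    ∑ a ∈ T, ((if a = e then 2 else 1) - 1) = 1 := by
  have h1 : ∀ a ∈ T, ((if a = e then 2 else 1) - 1) = (if a = e then 1 else 0) := by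
    intro a _
    split_ifs <;> rfl
  rw [Finset.sum_congr rfl h1, Finset.sum_ite_eq', if_pos he]

theorem SU2 (m j : ℕ) (hm : j + 2 ≤ m) : ∃ C : ℝ, 0 < C ∧ ∀ b y₁ y : ℕ, 3 ≤ y₁ → y₁ ≤ y → ∃ X : ℝ,
    ∀ x : ℝ, X ≤ x → ∀ V : ℤ → ℝ, GoodVm m b x V → ∀ H : ℕ, Real.log x ≤ (H : ℝ) → (H : ℝ) ≤ 4 * (Real.log x) ^ 2 →
    ∀ M : ℕ, x ≤ (M : ℝ) →
    ∑ S ∈ Finset.powersetCard j (Finset.Icc 1 (H : ℤ)), ∑ e ∈ Finset.Icc 1 (H : ℤ) \ S,
      ∑ e' ∈ Finset.Icc 1 (H : ℤ) \ S, ∑ n ∈ Finset.range M, (∏ c ∈ S, uu y₁ y x V ((n : ℤ) - c)) *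
        (uu y₁ y x V ((n : ℤ) - e) * uu y₁ y x V ((n : ℤ) - e'))
      ≤ C * (M : ℝ) * (H : ℝ) ^ (j + 2) := by
  obtain ⟨C, hC, hCS⟩ := CSm m (by omega)
  obtain ⟨G1, hG1, hGs1⟩ := Gam_sum m (j + 1) 1
  obtain ⟨G2, hG2, hGs2⟩ := Gam_sum m (j + 2) 1
  refine ⟨((j : ℝ) + 1) * (C * G1) + ((j : ℝ) + 1) * ((j : ℝ) + 2) * (C * G2), by positivity,
    fun b y₁ y hy h1 => ?_⟩
  obtain ⟨X1, hX1⟩ := hCS b y₁ y hy h1
  obtain ⟨X2, hX2⟩ := hGs1 y₁ (by omega)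
  obtain ⟨X3, hX3⟩ := hGs2 y₁ (by omega)
  refine ⟨max (max X1 X2) (max X3 (Real.exp 1)), fun x hx V hV H hH1 hH2 M hM => ?_⟩
  have hx1 : X1 ≤ x := le_trans (le_trans (le_max_left _ _) (le_max_left _ _)) hx
  have hx2 : X2 ≤ x := le_trans (le_trans (le_max_right _ _) (le_max_left _ _)) hx
  have hx3 : X3 ≤ x := le_trans (le_trans (le_max_left _ _) (le_max_right _ _)) hx
  have hxe : Real.exp 1 ≤ x := le_trans (le_trans (le_max_right _ _) (le_max_right _ _)) hx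
  have hL1 : 1 ≤ Real.log x := (Real.le_log_iff_exp_le (lt_of_lt_of_le (Real.exp_pos 1) hxe)).2 hxe
  have hH0 : (0 : ℝ) < H := by linarith
  have hM0 : (0 : ℝ) ≤ M := Nat.cast_nonneg M
  set L : ℝ := Real.log x with hL
  set I : Finset ℤ := Finset.Icc 1 (H : ℤ) with hI
  have hA1 : ∑ T ∈ Finset.powersetCard (j + 1) I, Gs m y₁ T ≤ G1 * (H : ℝ) ^ (j + 1) := by
    have h3 := hX2 x hx2 H hH1 hH2
    simp only [pow_one] at h3
    exact h3
  have hA2 : ∑ T ∈ Finset.powersetCard (j + 2) I, Gs m y₁ T ≤ G2 * (H : ℝ) ^ (j + 2) := by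
    have h3 := hX3 x hx3 H hH1 hH2
    simp only [pow_one] at h3
    exact h3
  have hsplit : ∑ S ∈ Finset.powersetCard j I, ∑ e ∈ I \ S, ∑ e' ∈ I \ S, ∑ n ∈ Finset.range M,
        (∏ c ∈ S, uu y₁ y x V ((n : ℤ) - c)) * (uu y₁ y x V ((n : ℤ) - e) * uu y₁ y x V ((n : ℤ) - e')) =
      ∑ S ∈ Finset.powersetCard j I, ∑ e ∈ I \ S, ∑ n ∈ Finset.range M,
        (∏ c ∈ S, uu y₁ y x V ((n : ℤ) - c)) * (uu y₁ y x V ((n : ℤ) - e) * uu y₁ y x V ((n : ℤ) - e)) +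
      ∑ S ∈ Finset.powersetCard j I, ∑ e ∈ I \ S, ∑ e' ∈ I \ insert e S, ∑ n ∈ Finset.range M,
        (∏ c ∈ S, uu y₁ y x V ((n : ℤ) - c)) * (uu y₁ y x V ((n : ℤ) - e) * uu y₁ y x V ((n : ℤ) - e')) := by
    rw [← Finset.sum_add_distrib]
    refine Finset.sum_congr rfl fun S _ => ?_
    rw [← Finset.sum_add_distrib]
    refine Finset.sum_congr rfl fun e he => ?_
    exact SUa_sp I S he (fun e' => ∑ n ∈ Finset.range M,
      (∏ c ∈ S, uu y₁ y x V ((n : ℤ) - c)) * (uu y₁ y x V ((n : ℤ) - e) * uu y₁ y x V ((n : ℤ) - e')))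
  rw [hsplit]
  have hT1 : ∑ S ∈ Finset.powersetCard j I, ∑ e ∈ I \ S, ∑ n ∈ Finset.range M,
        (∏ c ∈ S, uu y₁ y x V ((n : ℤ) - c)) * (uu y₁ y x V ((n : ℤ) - e) * uu y₁ y x V ((n : ℤ) - e)) ≤
      ((j : ℝ) + 1) * (C * (M : ℝ) * L * (G1 * (H : ℝ) ^ (j + 1))) := by
    calc _ ≤ ∑ S ∈ Finset.powersetCard j I, ∑ e ∈ I \ S,
          (fun T => C * (M : ℝ) * L * Gs m y₁ T) (insert e S) := by
          refine Finset.sum_le_sum fun S hS => Finset.sum_le_sum fun e he => ?_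
          rw [Finset.mem_powersetCard] at hS
          rw [Finset.mem_sdiff] at he
          have hmem : e ∈ insert e S := Finset.mem_insert_self _ _
          have hTc : (insert e S).card ≤ m := by
            rw [Finset.card_insert_of_notMem he.2, hS.2]
            omega
          have h3 := hX1 x hx1 V hV (insert e S) hTc (fun a => if a = e then 2 else 1)
            (fun a => by split_ifs <;> simp) (by rw [SUa_exp _ hmem]; norm_num) M hM
          rw [SUa_exp _ hmem, pow_one] at h3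
          refine le_trans (le_of_eq ?_) h3
          refine Finset.sum_congr rfl fun n _ => ?_
          rw [SUa_pow (insert e S) hmem (fun a => uu y₁ y x V ((n : ℤ) - a)), Finset.prod_insert he.2]
          ring
      _ = ((j : ℝ) + 1) * (C * (M : ℝ) * L * ∑ T ∈ Finset.powersetCard (j + 1) I, Gs m y₁ T) := by
          rw [ISO2 I j (fun T => C * (M : ℝ) * L * Gs m y₁ T), ← Finset.mul_sum]
      _ ≤ _ := by
          gcongr
  have hT2 : ∑ S ∈ Finset.powersetCard j I, ∑ e ∈ I \ S, ∑ e' ∈ I \ insert e S, ∑ n ∈ Finset.range M,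
        (∏ c ∈ S, uu y₁ y x V ((n : ℤ) - c)) * (uu y₁ y x V ((n : ℤ) - e) * uu y₁ y x V ((n : ℤ) - e')) ≤
      ((j : ℝ) + 1) * ((j : ℝ) + 2) * (C * (M : ℝ) * (G2 * (H : ℝ) ^ (j + 2))) := by
    calc _ ≤ ∑ S ∈ Finset.powersetCard j I, ∑ e ∈ I \ S, ∑ e' ∈ I \ insert e S,
          (fun T => C * (M : ℝ) * Gs m y₁ T) (insert e' (insert e S)) := by
          refine Finset.sum_le_sum fun S hS => Finset.sum_le_sum fun e he => Finset.sum_le_sum fun e' he' => ?_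
          rw [Finset.mem_powersetCard] at hS
          rw [Finset.mem_sdiff] at he he'
          have hTc : (insert e' (insert e S)).card ≤ m := by
            rw [Finset.card_insert_of_notMem he'.2, Finset.card_insert_of_notMem he.2, hS.2]
            omega
          have h3 := hX1 x hx1 V hV (insert e' (insert e S)) hTc (fun _ => 1) (fun _ => ⟨le_rfl, by norm_num⟩)
            (by simp) M hM
          simp only [pow_one, Nat.sub_self, Finset.sum_const_zero, pow_zero, mul_one] at h3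
          refine le_trans (le_of_eq ?_) h3
          refine Finset.sum_congr rfl fun n _ => ?_
          rw [Finset.prod_insert he'.2, Finset.prod_insert he.2]
          ring
      _ = ((j : ℝ) + 1) * ((j : ℝ) + 2) * (C * (M : ℝ) * ∑ T ∈ Finset.powersetCard (j + 2) I, Gs m y₁ T) := by
          rw [SU_it2 I j (fun T => C * (M : ℝ) * Gs m y₁ T), ← Finset.mul_sum]
      _ ≤ _ := by
          gcongr
  have hT1' : ((j : ℝ) + 1) * (C * (M : ℝ) * L * (G1 * (H : ℝ) ^ (j + 1))) ≤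
      ((j : ℝ) + 1) * (C * (M : ℝ) * H * (G1 * (H : ℝ) ^ (j + 1))) := by
    gcongr
  refine (add_le_add (hT1.trans hT1') hT2).trans (le_of_eq ?_)
  ring

end Pool.Agent.H96.AE
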