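import Pool.Agent.H96.AE.CVa
import Pool.Agent.H96.AE.SUa
import Pool.Agent.H96.AE.BMU
import Pool.Agent.H6.AE.Num

/-!
# CVb: all moments of the number of primes in short windows

`N = ⌊x⌋₊ + 1`, `M = N + H ≤ 2N` for large `x`, `A n = nf (Icc 1 H) (La x) n = ∑_{d ∈ Icc 1 H} La x (n - d)`, `0 ≤ La ≤ log x`. Induction on `i` (the constants `C_i`, `X_i`); `i = 0`: the sum is `M ≤ 2N`.
Step `i → i + 1`: `CV_exp_up` with `a d = La x (n-d)`, `B₀ = log x`, `j = i`: `A^(i+1) ≤ (i+1)! ∑_{C ∈ P_(i+1)} ∏_C La x (n-c) + (i+1)^2 log x * A^i`. Sum over `n`: the last term gives `≤ (i+1)^2 log x * C_i N H^i ≤ (i+1)^2 C_i N H^(i+1)` (`log x ≤ H`).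
For the first let `m = i + 2`, fix `b = b₁` of `Num m` and `y₁ = y = 3`: for large `x` there is `V` with `GoodVm m b x V` and `La ≤ Bm 3 x ≤ P uu 3 3 x V`, `P = (1/dlm m b + 5) wp 3` (`BMU`), so
`∑_{C ∈ P_(i+1)} ∑_n ∏_C La ≤ P^(i+1) ∑_C ∑_n ∏_C uu ≤ P^(i+1) C M H^(i+1)` (`SU1` with `m`, `i + 1 ≤ m`).
-/

set_option autoImplicit false

namespace Pool.Agent.H96.AE

open Finset Pool.Agent.H17 Pool.Agent.H6.MF Pool.Agent.H6.MB Pool.Agent.H12.DM Pool.Agent.H6.AE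

theorem CVb_H : ∃ X : ℝ, 1 ≤ X ∧ ∀ x : ℝ, X ≤ x → ∀ H : ℕ, (H : ℝ) ≤ 4 * (Real.log x) ^ 2 → (H : ℝ) ≤ (⌊x⌋₊ : ℝ) + 1 := by
  have h2 := isLittleO_log_rpow_atTop (show (0 : ℝ) < 1 / 2 by norm_num)
  have h3 := h2.bound (show (0 : ℝ) < 1 / 2 by norm_num)
  obtain ⟨X, hX⟩ := Filter.eventually_atTop.1 h3
  refine ⟨max X 1, le_max_right _ _, fun x hx H hH => ?_⟩
  have hx1 : 1 ≤ x := le_trans (le_max_right _ _) hx
  have hx0 : 0 ≤ x := by linarith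
  have h4 := hX x (le_trans (le_max_left _ _) hx)
  rw [Real.norm_eq_abs, Real.norm_eq_abs, abs_of_nonneg (Real.log_nonneg hx1),
    abs_of_nonneg (by positivity)] at h4
  have hlog := Real.log_nonneg hx1
  have h5 : (Real.log x) ^ 2 ≤ (1 / 2 * x ^ (1 / 2 : ℝ)) ^ 2 := pow_le_pow_left₀ hlog h4 2
  have h6 : (x ^ (1 / 2 : ℝ)) ^ 2 = x := by
    rw [← Real.rpow_natCast, ← Real.rpow_mul hx0]
    norm_num
  rw [mul_pow, h6] at h5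
  have h7 := Nat.lt_floor_add_one x
  linarith

theorem CVb_La_uu {m b : ℕ} {x : ℝ} {V : ℤ → ℝ} (n : ℤ)
    (h : Bm 3 x n ≤ (1 / dlm m b + 5) * wp 3 * uu 3 3 x V n) :
    La x n ≤ (1 / dlm m b + 5) * wp 3 * uu 3 3 x V n := by
  refine le_trans ?_ h
  unfold Bm
  have h2 := Mm_nonneg (yy x) n
  have h3 := Mm_nonneg 3 n
  linarith

theorem CV_mom (i : ℕ) : ∃ C X : ℝ, 0 < C ∧ ∀ x : ℝ, X ≤ x → ∀ H : ℕ, Real.log x ≤ (H : ℝ) →
    (H : ℝ) ≤ 4 * (Real.log x) ^ 2 →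
    ∑ n ∈ rgH x H, (nf (Finset.Icc 1 (H : ℤ)) (La x) (n : ℤ)) ^ i ≤ C * ((⌊x⌋₊ : ℝ) + 1) * (H : ℝ) ^ i := by
  obtain ⟨X0, hX01, hX0⟩ := CVb_H
  induction i with
  | zero =>
    refine ⟨2, X0, by norm_num, fun x hx H _ hH => ?_⟩
    have h1 := hX0 x hx H hH
    simp only [pow_zero, Finset.sum_const, nsmul_eq_mul, mul_one]
    unfold rgH
    rw [Finset.card_range]
    push_cast
    linarith
  | succ i ih =>
    obtain ⟨Ci, Xi, hCi, hi⟩ := ih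
    obtain ⟨b, hb⟩ := Num (i + 2)
    obtain ⟨X1, hX1⟩ := hb b le_rfl
    obtain ⟨X2, hX2⟩ := BMU (i + 2) b 3 3 le_rfl
    obtain ⟨C1, hC1, hSU⟩ := SU1 (i + 2) (i + 1) (by omega) (by omega)
    obtain ⟨X3, hX3⟩ := hSU b 3 3 le_rfl le_rfl
    set P : ℝ := (1 / dlm (i + 2) b + 5) * wp 3 with hP
    have hdl := dlm_pos (i + 2) b
    have hwp := wp_pos 3
    have hP0 : 0 < P := by positivity
    refine ⟨((i + 1).factorial : ℝ) * (P ^ (i + 1) * (C1 * 2)) + ((i : ℝ) + 1) ^ 2 * Ci,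
      max (max X0 Xi) (max X1 (max X2 X3)), by positivity, fun x hx H hlH hH => ?_⟩
    have hx0 : X0 ≤ x := le_trans (le_trans (le_max_left _ _) (le_max_left _ _)) hx
    have hxi : Xi ≤ x := le_trans (le_trans (le_max_right _ _) (le_max_left _ _)) hx
    have hx1 : X1 ≤ x := le_trans (le_trans (le_max_left _ _) (le_max_right _ _)) hx
    have hx2 : X2 ≤ x := le_trans (le_trans (le_trans (le_max_left _ _) (le_max_right _ _)) (le_max_right _ _)) hx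
    have hx3 : X3 ≤ x := le_trans (le_trans (le_trans (le_max_right _ _) (le_max_right _ _)) (le_max_right _ _)) hx
    have hxx : 1 ≤ x := hX01.trans hx0
    have hHN := hX0 x hx0 H hH
    have hlog : 0 ≤ Real.log x := Real.log_nonneg hxx
    obtain ⟨V, hV⟩ := hX1 x hx1
    have hBM := hX2 x hx2 V hV
    have hN : x ≤ ((⌊x⌋₊ + 1 + H : ℕ) : ℝ) := by
      have h7 := Nat.lt_floor_add_one x
      push_cast
      have : (0 : ℝ) ≤ H := Nat.cast_nonneg H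
      linarith
    have hS := hX3 x hx3 V hV H hlH hH (⌊x⌋₊ + 1 + H) hN
    have hI := hi x hxi H hlH hH
    -- pointwise expansion
    have h1 : ∀ n : ℕ, (nf (Finset.Icc 1 (H : ℤ)) (La x) (n : ℤ)) ^ (i + 1) ≤
        ((i + 1).factorial : ℝ) * (∑ C ∈ Finset.powersetCard (i + 1) (Finset.Icc 1 (H : ℤ)), ∏ c ∈ C, La x ((n : ℤ) - c))
        + ((i : ℝ) + 1) ^ 2 * Real.log x * (nf (Finset.Icc 1 (H : ℤ)) (La x) (n : ℤ)) ^ i := fun n =>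
      CV_exp_up (Finset.Icc 1 (H : ℤ)) (fun d => La x ((n : ℤ) - d)) (Real.log x)
        (fun d => La_nonneg hxx _) (fun d => La_le hxx _) i
    have h2 : ∀ n : ℕ, ∀ C ∈ Finset.powersetCard (i + 1) (Finset.Icc 1 (H : ℤ)), ∏ c ∈ C, La x ((n : ℤ) - c) ≤
        P ^ (i + 1) * ∏ c ∈ C, uu 3 3 x V ((n : ℤ) - c) := by
      intro n C hC
      have hcard := (Finset.mem_powersetCard.1 hC).2
      calc ∏ c ∈ C, La x ((n : ℤ) - c) ≤ ∏ c ∈ C, (P * uu 3 3 x V ((n : ℤ) - c)) :=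
            Finset.prod_le_prod (fun c _ => La_nonneg hxx _) (fun c _ => CVb_La_uu _ (hBM _))
        _ = P ^ (i + 1) * ∏ c ∈ C, uu 3 3 x V ((n : ℤ) - c) := by
            rw [Finset.prod_mul_distrib, Finset.prod_const, hcard]
    have h3 : ∑ n ∈ rgH x H, ∑ C ∈ Finset.powersetCard (i + 1) (Finset.Icc 1 (H : ℤ)), ∏ c ∈ C, La x ((n : ℤ) - c) ≤
        P ^ (i + 1) * (C1 * ((⌊x⌋₊ + 1 + H : ℕ) : ℝ) * (H : ℝ) ^ (i + 1)) := by
      calc ∑ n ∈ rgH x H, ∑ C ∈ Finset.powersetCard (i + 1) (Finset.Icc 1 (H : ℤ)), ∏ c ∈ C, La x ((n : ℤ) - c)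
          ≤ ∑ n ∈ rgH x H, ∑ C ∈ Finset.powersetCard (i + 1) (Finset.Icc 1 (H : ℤ)),
            P ^ (i + 1) * ∏ c ∈ C, uu 3 3 x V ((n : ℤ) - c) :=
            Finset.sum_le_sum fun n _ => Finset.sum_le_sum fun C hC => h2 n C hC
        _ = P ^ (i + 1) * ∑ C ∈ Finset.powersetCard (i + 1) (Finset.Icc 1 (H : ℤ)),
            ∑ n ∈ Finset.range (⌊x⌋₊ + 1 + H), ∏ c ∈ C, uu 3 3 x V ((n : ℤ) - c) := by
            rw [Finset.sum_comm, Finset.mul_sum]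
            refine Finset.sum_congr rfl fun C _ => ?_
            rw [Finset.mul_sum]
            rfl
        _ ≤ _ := mul_le_mul_of_nonneg_left hS (by positivity)
    have h4 : ∑ n ∈ rgH x H, (nf (Finset.Icc 1 (H : ℤ)) (La x) (n : ℤ)) ^ (i + 1) ≤
        ((i + 1).factorial : ℝ) * (∑ n ∈ rgH x H, ∑ C ∈ Finset.powersetCard (i + 1) (Finset.Icc 1 (H : ℤ)),
          ∏ c ∈ C, La x ((n : ℤ) - c))
        + ((i : ℝ) + 1) ^ 2 * Real.log x * ∑ n ∈ rgH x H, (nf (Finset.Icc 1 (H : ℤ)) (La x) (n : ℤ)) ^ i := by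
      rw [Finset.mul_sum, Finset.mul_sum, ← Finset.sum_add_distrib]
      exact Finset.sum_le_sum fun n _ => h1 n
    have hH0 : (0 : ℝ) ≤ H := Nat.cast_nonneg H
    have hN0 : (0 : ℝ) ≤ (⌊x⌋₊ : ℝ) + 1 := by positivity
    have h5 : ((⌊x⌋₊ + 1 + H : ℕ) : ℝ) ≤ 2 * ((⌊x⌋₊ : ℝ) + 1) := by
      push_cast
      linarith
    have h6 : P ^ (i + 1) * (C1 * ((⌊x⌋₊ + 1 + H : ℕ) : ℝ) * (H : ℝ) ^ (i + 1)) ≤
        P ^ (i + 1) * (C1 * 2) * ((⌊x⌋₊ : ℝ) + 1) * (H : ℝ) ^ (i + 1) := by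
      have e1 : C1 * ((⌊x⌋₊ + 1 + H : ℕ) : ℝ) ≤ C1 * (2 * ((⌊x⌋₊ : ℝ) + 1)) :=
        mul_le_mul_of_nonneg_left h5 hC1.le
      have e2 : C1 * ((⌊x⌋₊ + 1 + H : ℕ) : ℝ) * (H : ℝ) ^ (i + 1) ≤ C1 * (2 * ((⌊x⌋₊ : ℝ) + 1)) * (H : ℝ) ^ (i + 1) :=
        mul_le_mul_of_nonneg_right e1 (by positivity)
      have e3 := mul_le_mul_of_nonneg_left e2 (show (0 : ℝ) ≤ P ^ (i + 1) by positivity)
      refine e3.trans (le_of_eq (by ring))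
    have h7 : Real.log x * ∑ n ∈ rgH x H, (nf (Finset.Icc 1 (H : ℤ)) (La x) (n : ℤ)) ^ i ≤
        Ci * ((⌊x⌋₊ : ℝ) + 1) * (H : ℝ) ^ (i + 1) := by
      have e1 : Real.log x * ∑ n ∈ rgH x H, (nf (Finset.Icc 1 (H : ℤ)) (La x) (n : ℤ)) ^ i ≤
          (H : ℝ) * (Ci * ((⌊x⌋₊ : ℝ) + 1) * (H : ℝ) ^ i) :=
        (mul_le_mul_of_nonneg_left hI hlog).trans (mul_le_mul_of_nonneg_right hlH (by positivity))
      refine e1.trans (le_of_eq (by ring))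
    have h8 : ((i + 1).factorial : ℝ) * (∑ n ∈ rgH x H, ∑ C ∈ Finset.powersetCard (i + 1) (Finset.Icc 1 (H : ℤ)),
          ∏ c ∈ C, La x ((n : ℤ) - c)) ≤
        ((i + 1).factorial : ℝ) * (P ^ (i + 1) * (C1 * 2) * ((⌊x⌋₊ : ℝ) + 1) * (H : ℝ) ^ (i + 1)) :=
      mul_le_mul_of_nonneg_left (h3.trans h6) (by positivity)
    have h9 : ((i : ℝ) + 1) ^ 2 * Real.log x * ∑ n ∈ rgH x H, (nf (Finset.Icc 1 (H : ℤ)) (La x) (n : ℤ)) ^ i ≤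
        ((i : ℝ) + 1) ^ 2 * (Ci * ((⌊x⌋₊ : ℝ) + 1) * (H : ℝ) ^ (i + 1)) := by
      rw [mul_assoc]
      exact mul_le_mul_of_nonneg_left h7 (by positivity)
    calc ∑ n ∈ rgH x H, (nf (Finset.Icc 1 (H : ℤ)) (La x) (n : ℤ)) ^ (i + 1)
        ≤ ((i + 1).factorial : ℝ) * (P ^ (i + 1) * (C1 * 2) * ((⌊x⌋₊ : ℝ) + 1) * (H : ℝ) ^ (i + 1)) +
          ((i : ℝ) + 1) ^ 2 * (Ci * ((⌊x⌋₊ : ℝ) + 1) * (H : ℝ) ^ (i + 1)) := h4.trans (add_le_add h8 h9)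
      _ = _ := by ring

end Pool.Agent.H96.AE
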