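import Pool.Agent.H96.AE.Df
import Pool.Agent.H12.DM.Ob

/-!
# OBm: the products over the primes dividing differences

`OBm`: the primes in `PI y₁ y`, `PI y w`, `PI w z` are different and `> y₁`; each prime in the filters of `Dp` divides a difference of two elements of `s`, i.e. occurs in
`gfm m y₁ (a - a')` for some `(a,a') ∈ s.offDiag`. Adapt `off_bound`/`ob_main` in `Pool/Agent/H12/DM/Ob.lean` (two intervals, constant `14`) to three intervals and the constant `2^m`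
(or apply the argument to the union `PI y₁ z`: the product of the three filtered products is the product over a filtered subset of `PI y₁ z`, and
`∏_{p ∈ T} (1 + 2^m/p) ≤ ∏_{q ∈ offDiag} ∏_{p ∣ q.1 - q.2, p > y₁} (1 + 2^m/p)` for every set `T` of primes `> y₁` each dividing some `q.1 - q.2`, `q ∈ s.offDiag`).
`OB_neg`: `Gs` of the reflected set: `offDiag` of the image under `Neg`, `gfm_neg`. `OB_mono`: `gfm ≥ 1`. `OB_card`: `Gs = 1` for sets with at most one element.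
-/

set_option autoImplicit false

namespace Pool.Agent.H96.AE

open Finset Pool.Agent.H17 Pool.Agent.H6.MF Pool.Agent.H6.MB Pool.Agent.H12.DM Pool.Agent.H6.AE

private lemma OBm_cover {ι : Type*} [DecidableEq ι] (I : Finset ι) (A : ι → Finset ℕ) (T : Finset ℕ) (c : ℕ → ℝ)
    (hc : ∀ p, 1 ≤ c p) (h : ∀ p ∈ T, ∃ i ∈ I, p ∈ A i) :
    ∏ p ∈ T, c p ≤ ∏ i ∈ I, ∏ p ∈ A i, c p := by
  have h1 : ∏ p ∈ T, c p ≤ ∏ p ∈ T, ∏ i ∈ I, (if p ∈ A i then c p else 1) := by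
    refine Finset.prod_le_prod (fun p _ => le_trans zero_le_one (hc p)) fun p hp => ?_
    obtain ⟨i, hi, hpi⟩ := h p hp
    rw [← Finset.mul_prod_erase I _ hi, if_pos hpi]
    have h2 : (1 : ℝ) ≤ ∏ j ∈ I.erase i, (if p ∈ A j then c p else 1) := by
      refine Finset.one_le_prod fun j _ => ?_
      split_ifs
      · exact hc p
      · exact le_rfl
    have h3 : 0 ≤ c p := le_trans zero_le_one (hc p)
    nlinarith
  refine h1.trans ?_
  rw [Finset.prod_comm]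
  refine Finset.prod_le_prod (fun i _ => Finset.prod_nonneg fun p _ => ?_) fun i _ => ?_
  · split_ifs
    · exact le_trans zero_le_one (hc p)
    · exact zero_le_one
  · rw [← Finset.prod_filter]
    have hsub : T.filter (fun p => p ∈ A i) ⊆ A i := fun p hp => (Finset.mem_filter.1 hp).2
    rw [← Finset.prod_sdiff hsub]
    have h4 : (1 : ℝ) ≤ ∏ p ∈ A i \ T.filter (fun p => p ∈ A i), c p := Finset.one_le_prod fun p _ => hc p
    have h5 : (0 : ℝ) ≤ ∏ p ∈ T.filter (fun p => p ∈ A i), c p :=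
      Finset.prod_nonneg fun p _ => le_trans zero_le_one (hc p)
    nlinarith

private lemma OBm_mem {w z : ℝ} (hz : 0 ≤ z) {p : ℕ} : p ∈ PI w z ↔ p.Prime ∧ w < (p : ℝ) ∧ (p : ℝ) ≤ z := by
  unfold PI
  rw [Finset.mem_filter, Finset.mem_range, Nat.lt_succ_iff, Nat.le_floor_iff hz]
  tauto

private lemma OBm_main (m y₁ : ℕ) (s : Finset ℤ) (T : Finset ℕ)
    (hT : ∀ p ∈ T, p.Prime ∧ y₁ < p ∧ ∃ a ∈ s, ∃ a' ∈ s, a ≠ a' ∧ (p : ℤ) ∣ a - a') :
    ∏ p ∈ T, (1 + 2 ^ m / (p : ℝ)) ≤ Gs m y₁ s := by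
  unfold Gs gfm gfB
  refine OBm_cover s.offDiag (fun q => (q.1 - q.2).natAbs.primeFactors.filter (fun p => y₁ < p)) T
    (fun p => 1 + 2 ^ m / (p : ℝ)) ?_ ?_
  · intro p
    have : (0 : ℝ) ≤ 2 ^ m / p := by positivity
    linarith
  · intro p hp
    obtain ⟨hpp, hyp, a, ha, a', ha', hne, hd⟩ := hT p hp
    refine ⟨(a, a'), Finset.mem_offDiag.2 ⟨ha, ha', hne⟩, ?_⟩
    rw [Finset.mem_filter, Nat.mem_primeFactors]
    exact ⟨⟨hpp, Int.natCast_dvd.1 hd, Int.natAbs_ne_zero.2 (sub_ne_zero.2 hne)⟩, hyp⟩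

theorem OBm (m y₁ : ℕ) {y w z : ℝ} (h1 : (y₁ : ℝ) ≤ y) (h2 : y ≤ w) (hz : 0 ≤ z) (s s₁ s₂ s₃ : Finset ℤ)
    (hs₁ : s₁ ⊆ s) (hs₂ : s₂ ⊆ s) (hs₃ : s₃ ⊆ s) :
    Dp m y₁ y s₁ * (Dp m y w s₂ * Dp m w z s₃) ≤ Gs m y₁ s := by
  have hy0 : (0 : ℝ) ≤ y := le_trans (Nat.cast_nonneg y₁) h1
  have hw0 : (0 : ℝ) ≤ w := le_trans hy0 h2
  unfold Dp
  have hd2 : Disjoint ((PI y w).filter (fun p : ℕ => ∃ a ∈ s₂, ∃ a' ∈ s₂, a ≠ a' ∧ (p : ℤ) ∣ a - a'))
      ((PI w z).filter (fun p : ℕ => ∃ a ∈ s₃, ∃ a' ∈ s₃, a ≠ a' ∧ (p : ℤ) ∣ a - a')) := by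
    rw [Finset.disjoint_left]
    intro p hp hp'
    have a := (OBm_mem hw0).1 (Finset.mem_filter.1 hp).1
    have b := (OBm_mem hz).1 (Finset.mem_filter.1 hp').1
    exact absurd a.2.2 (not_le.2 b.2.1)
  rw [← Finset.prod_union hd2]
  have hd1 : Disjoint ((PI (y₁ : ℝ) y).filter (fun p : ℕ => ∃ a ∈ s₁, ∃ a' ∈ s₁, a ≠ a' ∧ (p : ℤ) ∣ a - a'))
      ((PI y w).filter (fun p : ℕ => ∃ a ∈ s₂, ∃ a' ∈ s₂, a ≠ a' ∧ (p : ℤ) ∣ a - a') ∪
      (PI w z).filter (fun p : ℕ => ∃ a ∈ s₃, ∃ a' ∈ s₃, a ≠ a' ∧ (p : ℤ) ∣ a - a')) := by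
    rw [Finset.disjoint_left]
    intro p hp hp'
    have a := (OBm_mem hy0).1 (Finset.mem_filter.1 hp).1
    rcases Finset.mem_union.1 hp' with hp' | hp'
    · have b := (OBm_mem hw0).1 (Finset.mem_filter.1 hp').1
      exact absurd a.2.2 (not_le.2 b.2.1)
    · have b := (OBm_mem hz).1 (Finset.mem_filter.1 hp').1
      exact absurd a.2.2 (not_le.2 (lt_of_le_of_lt h2 b.2.1))
  rw [← Finset.prod_union hd1]
  refine OBm_main m y₁ s _ ?_
  intro p hp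
  rcases Finset.mem_union.1 hp with hp | hp
  · have a := (OBm_mem hy0).1 (Finset.mem_filter.1 hp).1
    obtain ⟨b, hb, b', hb', hne, hd⟩ := (Finset.mem_filter.1 hp).2
    exact ⟨a.1, by exact_mod_cast a.2.1, b, hs₁ hb, b', hs₁ hb', hne, hd⟩
  · rcases Finset.mem_union.1 hp with hp | hp
    · have a := (OBm_mem hw0).1 (Finset.mem_filter.1 hp).1
      obtain ⟨b, hb, b', hb', hne, hd⟩ := (Finset.mem_filter.1 hp).2
      exact ⟨a.1, by exact_mod_cast lt_of_le_of_lt h1 a.2.1, b, hs₂ hb, b', hs₂ hb', hne, hd⟩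
    · have a := (OBm_mem hz).1 (Finset.mem_filter.1 hp).1
      obtain ⟨b, hb, b', hb', hne, hd⟩ := (Finset.mem_filter.1 hp).2
      exact ⟨a.1, by exact_mod_cast lt_of_le_of_lt (h1.trans h2) a.2.1, b, hs₃ hb, b', hs₃ hb', hne, hd⟩

private lemma OBm_image (m y₁ : ℕ) (s : Finset ℤ) (f : ℤ → ℤ) (hf : Function.Injective f)
    (hg : ∀ a b : ℤ, gfm m y₁ (f a - f b) = gfm m y₁ (a - b)) : Gs m y₁ (s.image f) = Gs m y₁ s := by
  unfold Gs
  symm
  refine Finset.prod_bij (fun q _ => (f q.1, f q.2)) ?_ ?_ ?_ ?_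
  · intro q hq
    obtain ⟨ha, hb, hne⟩ := Finset.mem_offDiag.1 hq
    exact Finset.mem_offDiag.2 ⟨Finset.mem_image_of_mem f ha, Finset.mem_image_of_mem f hb, fun h => hne (hf h)⟩
  · intro q _ q' _ h
    have h1 := (Prod.mk.injEq _ _ _ _).mp h
    exact Prod.ext (hf h1.1) (hf h1.2)
  · intro q hq
    obtain ⟨ha, hb, hne⟩ := Finset.mem_offDiag.1 hq
    obtain ⟨a, ha, hfa⟩ := Finset.mem_image.1 ha
    obtain ⟨b, hb, hfb⟩ := Finset.mem_image.1 hb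
    refine ⟨(a, b), Finset.mem_offDiag.2 ⟨ha, hb, ?_⟩, Prod.ext hfa hfb⟩
    intro hab
    simp only at hab
    exact hne (by rw [← hfa, ← hfb, hab])
  · intro q _
    exact (hg q.1 q.2).symm

theorem OB_neg (m y₁ : ℕ) (s : Finset ℤ) : Gs m y₁ (s.image (fun a => -a)) = Gs m y₁ s := by
  refine OBm_image m y₁ s _ neg_injective fun a b => ?_
  have : -a - -b = -(a - b) := by ring
  rw [this, gfm_neg]

theorem OB_shift (m y₁ : ℕ) (s : Finset ℤ) (t : ℤ) : Gs m y₁ (s.image (fun a => a + t)) = Gs m y₁ s := by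
  refine OBm_image m y₁ s _ (add_left_injective t) fun a b => ?_
  have : a + t - (b + t) = a - b := by ring
  rw [this]

theorem OB_mono (m y₁ : ℕ) {s t : Finset ℤ} (h : s ⊆ t) : Gs m y₁ s ≤ Gs m y₁ t := by
  unfold Gs
  rw [← Finset.prod_sdiff (Finset.offDiag_mono h)]
  have h4 : (1 : ℝ) ≤ ∏ q ∈ t.offDiag \ s.offDiag, gfm m y₁ (q.1 - q.2) :=
    Finset.one_le_prod fun q _ => one_le_gfm _ _ _
  have h5 : (0 : ℝ) ≤ ∏ q ∈ s.offDiag, gfm m y₁ (q.1 - q.2) :=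
    Finset.prod_nonneg fun q _ => le_trans zero_le_one (one_le_gfm _ _ _)
  nlinarith

end Pool.Agent.H96.AE
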