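import Pool.Agent.H6.AE.Df
import Pool.Agent.H12.DM.Rr

/-!
# AE: almost all tuples (MP_1039f5_nt). Definitions and basic facts

`L = log x`, `N = ⌊x⌋₊ + 1`, `w = yy x`, `z = x ^ dlm m b`. `3 ≤ y₁ ≤ y ≤ w` (`y₁`, `y` fixed, `x` large).
`wt` has four types of weights: `1`, `r₁`, `r₁ r₂`, `r₁ r₂ V`, where `r₁ = rr y₁ y`, `r₂ = rr y w`; each has mean `1`; `uu` is their sum
(mean `4`).
-/

set_option autoImplicit false

namespace Pool.Agent.H96.AE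

open Finset Pool.Agent.H17 Pool.Agent.H6.MF Pool.Agent.H6.MB Pool.Agent.H12.DM Pool.Agent.H6.AE

/-- the product of `gfm` over all differences of elements of `s` (each difference twice) -/
noncomputable def Gs (m y : ℕ) (s : Finset ℤ) : ℝ := ∏ q ∈ s.offDiag, gfm m y (q.1 - q.2)

/-- the product of `1 + 2^m/p` over the primes in `(w,z]` dividing a difference of two elements of `s` -/
noncomputable def Dp (m : ℕ) (w z : ℝ) (s : Finset ℤ) : ℝ :=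
  ∏ p ∈ (PI w z).filter (fun p : ℕ => ∃ a ∈ s, ∃ a' ∈ s, a ≠ a' ∧ (p : ℤ) ∣ a - a'), (1 + 2 ^ m / (p : ℝ))

/-- the weight of type `i` -/
noncomputable def wt (y₁ y : ℕ) (x : ℝ) (V : ℤ → ℝ) (i : Fin 4) (n : ℤ) : ℝ :=
  (if 1 ≤ i.val then rr y₁ y n else 1) *
    ((if 2 ≤ i.val then rr y (yy x) n else 1) * (if 3 ≤ i.val then V n else 1))

/-- `1 + r₁ + r₁ r₂ + r₁ r₂ V` -/
noncomputable def uu (y₁ y : ℕ) (x : ℝ) (V : ℤ → ℝ) (n : ℤ) : ℝ := ∑ i : Fin 4, wt y₁ y x V i n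

/-- a common majorant of everything -/
noncomputable def Bm (y : ℕ) (x : ℝ) (n : ℤ) : ℝ := La x n + 5 * Mm (yy x) n + 5 * Mm y n

/-- `f` vanishes outside `[0, N)` -/
def Sp (x : ℝ) (f : ℤ → ℝ) : Prop := ∀ n : ℤ, n < 0 ∨ ((⌊x⌋₊ + 1 : ℕ) : ℤ) ≤ n → f n = 0

/-- the windows of `f` and `g` are close in `L²`, for all `D ⊆ [1,H]` -/
def Win (x : ℝ) (H : ℕ) (δ : ℝ) (f g : ℤ → ℝ) : Prop :=
  ∀ D : Finset ℤ, D ⊆ Finset.Icc 1 (H : ℤ) →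
    ∑ n ∈ rgH x H, (nf D (fun n => f n - g n) (n : ℤ)) ^ 2 ≤ δ * ((⌊x⌋₊ : ℝ) + 1) * (H : ℝ) ^ 2

/-- the correlation of `f` along `{0} ∪ D` -/
noncomputable def cf (x : ℝ) (f : ℤ → ℝ) (D : Finset ℤ) : ℝ :=
  ∑ n ∈ Finset.range (⌊x⌋₊ + 1), f (n : ℤ) * ∏ d ∈ D, f ((n : ℤ) - d)

/-- the auxiliary functional of the telescoping identity -/
noncomputable def AA (a h : ℤ → ℝ) (C : Finset ℤ) : ℝ :=
  ∑ B ∈ C.powerset, (1 / ((B.card : ℝ) + 1)) * ((∏ c ∈ B, h c) * ∏ c ∈ C \ B, a c)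

/-! ### basic facts -/

lemma one_le_Gs (m y : ℕ) (s : Finset ℤ) : 1 ≤ Gs m y s :=
  Finset.one_le_prod fun q _ => one_le_gfm _ _ _

lemma one_le_Dp (m : ℕ) (w z : ℝ) (s : Finset ℤ) : 1 ≤ Dp m w z s := by
  unfold Dp
  refine Finset.one_le_prod fun p _ => ?_
  have : (0 : ℝ) ≤ 2 ^ m / p := by positivity
  linarith

lemma wt_nonneg {y₁ y : ℕ} {x : ℝ} {V : ℤ → ℝ} (hV : ∀ n, 0 ≤ V n) (i : Fin 4) (n : ℤ) : 0 ≤ wt y₁ y x V i n := by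
  unfold wt
  have h1 := rr_nonneg y₁ y n
  have h2 := rr_nonneg y (yy x) n
  have h3 := hV n
  split_ifs <;> positivity

lemma one_le_uu {y₁ y : ℕ} {x : ℝ} {V : ℤ → ℝ} (hV : ∀ n, 0 ≤ V n) (n : ℤ) : 1 ≤ uu y₁ y x V n := by
  unfold uu
  have h0 : wt y₁ y x V 0 n = 1 := by simp [wt]
  calc (1 : ℝ) = wt y₁ y x V 0 n := h0.symm
    _ ≤ ∑ i : Fin 4, wt y₁ y x V i n :=
      Finset.single_le_sum (fun i _ => wt_nonneg hV i n) (Finset.mem_univ 0)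

lemma uu_nonneg {y₁ y : ℕ} {x : ℝ} {V : ℤ → ℝ} (hV : ∀ n, 0 ≤ V n) (n : ℤ) : 0 ≤ uu y₁ y x V n :=
  le_trans zero_le_one (one_le_uu hV n)

lemma Bm_nonneg {y : ℕ} {x : ℝ} (hx : 1 ≤ x) (n : ℤ) : 0 ≤ Bm y x n := by
  unfold Bm
  have h1 := La_nonneg hx n
  have h2 := Mm_nonneg (yy x) n
  have h3 := Mm_nonneg y n
  positivity

end Pool.Agent.H96.AE
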