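import Pool.Agent.H96.AE.ISO

/-!
# TRN: translations of sets of shifts

Let `I = Icc 1 H`. For `D ∈ powersetCard j I` and `t ∈ I` the set `C = (insert 0 D).image (· + t)` consists of `t` and the `t + d`, `d ∈ D`; it has `j + 1` elements, all in `Icc 1 (2H)`, and minimum `t`. The map `(D, t) ↦ C` is injective
(`t = min C`, `D = (C.erase t).image (· - t)`).
* `TRNa`: `H ∑_D Ψ D = ∑_{(D,t)} Φ C` and `Φ ≥ 0` (`Finset.sum_le_sum_of_subset_of_nonneg`, `Finset.sum_image` or `Finset.sum_nbij'`).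
* `TRNb`: every `C ∈ powersetCard (j+1) I` is of this form with `t = min C ∈ I`, `D = (C.erase t).image (· - t) ∈ powersetCard j I`; `Ψ ≥ 0`.
* `TRNc`: `(D,t) ↦ (S, t)`, `S = D.image (· + t) ∈ powersetCard j (Icc 1 (2H))`, `t ∈ Icc 1 (2H) \ S`, is injective; `H ∑_D Ψ D = ∑_{(D,t)} Φ S t`, and `Φ S t = 0` for the other pairs.
-/

set_option autoImplicit false

namespace Pool.Agent.H96.AE

open Finset

theorem TRN_sum (H j : ℕ) (Ψ : Finset ℤ → ℝ) :
    (H : ℝ) * ∑ D ∈ Finset.powersetCard j (Finset.Icc 1 (H : ℤ)), Ψ D =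
      ∑ x ∈ (Finset.powersetCard j (Finset.Icc 1 (H : ℤ))) ×ˢ (Finset.Icc 1 (H : ℤ)), Ψ x.1 := by
  rw [Finset.sum_product, Finset.mul_sum]
  refine Finset.sum_congr rfl fun D _ => ?_
  simp

theorem TRN_pos {H j : ℕ} {D : Finset ℤ} (hD : D ∈ Finset.powersetCard j (Finset.Icc 1 (H : ℤ)))
    {d : ℤ} (hd : d ∈ D) : 1 ≤ d ∧ d ≤ (H : ℤ) := by
  have := (Finset.mem_powersetCard.1 hD).1 hd
  exact Finset.mem_Icc.1 this

theorem TRN_zero {H j : ℕ} {D : Finset ℤ} (hD : D ∈ Finset.powersetCard j (Finset.Icc 1 (H : ℤ))) :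
    (0 : ℤ) ∉ D := fun h => by
  have := (TRN_pos hD h).1
  omega

theorem TRN_ge {H j : ℕ} {D : Finset ℤ} (hD : D ∈ Finset.powersetCard j (Finset.Icc 1 (H : ℤ)))
    {t x : ℤ} (hx : x ∈ (insert 0 D).image (fun d => d + t)) : t ≤ x := by
  obtain ⟨d, hd, rfl⟩ := Finset.mem_image.1 hx
  rcases Finset.mem_insert.1 hd with rfl | hd
  · simp
  · have := (TRN_pos hD hd).1
    show t ≤ d + t
    omega

theorem TRN_inj (H j : ℕ) : Set.InjOn
    (fun x : Finset ℤ × ℤ => (insert 0 x.1).image (fun d => d + x.2))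
    (((Finset.powersetCard j (Finset.Icc 1 (H : ℤ))) ×ˢ (Finset.Icc 1 (H : ℤ)) :
      Finset (Finset ℤ × ℤ)) : Set (Finset ℤ × ℤ)) := by
  rintro ⟨D, t⟩ hx ⟨D', t'⟩ hx' he
  obtain ⟨hD, ht⟩ := Finset.mem_product.1 (Finset.mem_coe.1 hx)
  obtain ⟨hD', ht'⟩ := Finset.mem_product.1 (Finset.mem_coe.1 hx')
  simp only at hD ht hD' ht' he
  have h1 : t ∈ (insert 0 D).image (fun d => d + t) :=
    Finset.mem_image.2 ⟨0, by simp, by simp⟩
  have h2 : t' ∈ (insert 0 D').image (fun d => d + t') :=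
    Finset.mem_image.2 ⟨0, by simp, by simp⟩
  have e : t = t' := le_antisymm (TRN_ge hD (he ▸ h2)) (TRN_ge hD' (he ▸ h1))
  subst e
  have h3 := Finset.image_injective (add_left_injective t) he
  have h4 : D = D' := by
    rw [← Finset.erase_insert (TRN_zero hD), h3, Finset.erase_insert (TRN_zero hD')]
  rw [h4]

theorem TRNa (H j : ℕ) (Φ Ψ : Finset ℤ → ℝ) (h0 : ∀ C, 0 ≤ Φ C)
    (h : ∀ D ∈ Finset.powersetCard j (Finset.Icc 1 (H : ℤ)), ∀ t ∈ Finset.Icc 1 (H : ℤ),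
      Φ ((insert 0 D).image (fun d => d + t)) = Ψ D) :
    (H : ℝ) * ∑ D ∈ Finset.powersetCard j (Finset.Icc 1 (H : ℤ)), Ψ D ≤
      ∑ C ∈ Finset.powersetCard (j + 1) (Finset.Icc 1 ((2 * H : ℕ) : ℤ)), Φ C := by
  rw [TRN_sum]
  have e1 : ∑ x ∈ (Finset.powersetCard j (Finset.Icc 1 (H : ℤ))) ×ˢ (Finset.Icc 1 (H : ℤ)), Ψ x.1 =
      ∑ C ∈ ((Finset.powersetCard j (Finset.Icc 1 (H : ℤ))) ×ˢ (Finset.Icc 1 (H : ℤ))).image
        (fun x : Finset ℤ × ℤ => (insert 0 x.1).image (fun d => d + x.2)), Φ C := by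
    rw [Finset.sum_image (TRN_inj H j)]
    refine Finset.sum_congr rfl fun x hx => ?_
    obtain ⟨hD, ht⟩ := Finset.mem_product.1 hx
    exact (h x.1 hD x.2 ht).symm
  rw [e1]
  refine Finset.sum_le_sum_of_subset_of_nonneg ?_ fun C _ _ => h0 C
  intro C hC
  obtain ⟨⟨D, t⟩, hx, rfl⟩ := Finset.mem_image.1 hC
  obtain ⟨hD, ht⟩ := Finset.mem_product.1 hx
  simp only at hD ht ⊢
  have ht' := Finset.mem_Icc.1 ht
  refine Finset.mem_powersetCard.2 ⟨?_, ?_⟩
  · intro x hx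
    obtain ⟨d, hd, rfl⟩ := Finset.mem_image.1 hx
    rcases Finset.mem_insert.1 hd with rfl | hd
    · rw [Finset.mem_Icc]; push_cast; constructor <;> omega
    · have := TRN_pos hD hd
      rw [Finset.mem_Icc]; push_cast; constructor <;> omega
  · rw [Finset.card_image_of_injective _ (add_left_injective t),
      Finset.card_insert_of_notMem (TRN_zero hD), (Finset.mem_powersetCard.1 hD).2]

theorem TRNb (H j : ℕ) (Φ Ψ : Finset ℤ → ℝ) (h0 : ∀ D, 0 ≤ Ψ D)
    (h : ∀ D ∈ Finset.powersetCard j (Finset.Icc 1 (H : ℤ)), ∀ t ∈ Finset.Icc 1 (H : ℤ),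
      Φ ((insert 0 D).image (fun d => d + t)) ≤ Ψ D) :
    ∑ C ∈ Finset.powersetCard (j + 1) (Finset.Icc 1 (H : ℤ)), Φ C ≤
      (H : ℝ) * ∑ D ∈ Finset.powersetCard j (Finset.Icc 1 (H : ℤ)), Ψ D := by
  rw [TRN_sum]
  have e1 : ∑ x ∈ (Finset.powersetCard j (Finset.Icc 1 (H : ℤ))) ×ˢ (Finset.Icc 1 (H : ℤ)),
      max (Φ ((insert 0 x.1).image (fun d => d + x.2))) 0 =
      ∑ C ∈ ((Finset.powersetCard j (Finset.Icc 1 (H : ℤ))) ×ˢ (Finset.Icc 1 (H : ℤ))).image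
        (fun x : Finset ℤ × ℤ => (insert 0 x.1).image (fun d => d + x.2)), max (Φ C) 0 := by
    rw [Finset.sum_image (TRN_inj H j)]
  calc ∑ C ∈ Finset.powersetCard (j + 1) (Finset.Icc 1 (H : ℤ)), Φ C
      ≤ ∑ C ∈ Finset.powersetCard (j + 1) (Finset.Icc 1 (H : ℤ)), max (Φ C) 0 :=
        Finset.sum_le_sum fun C _ => le_max_left _ _
    _ ≤ ∑ C ∈ ((Finset.powersetCard j (Finset.Icc 1 (H : ℤ))) ×ˢ (Finset.Icc 1 (H : ℤ))).image
        (fun x : Finset ℤ × ℤ => (insert 0 x.1).image (fun d => d + x.2)), max (Φ C) 0 := by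
        refine Finset.sum_le_sum_of_subset_of_nonneg ?_ fun C _ _ => le_max_right _ _
        intro C hC
        obtain ⟨hs, hc⟩ := Finset.mem_powersetCard.1 hC
        have hne : C.Nonempty := by
          rw [← Finset.card_pos, hc]; omega
        have htC : C.min' hne ∈ C := Finset.min'_mem C hne
        set t := C.min' hne with ht
        have htI := Finset.mem_Icc.1 (hs htC)
        have e : (C.erase t).image (fun d => d - t) ∈
            Finset.powersetCard j (Finset.Icc 1 (H : ℤ)) := by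
          refine Finset.mem_powersetCard.2 ⟨?_, ?_⟩
          · intro x hx
            obtain ⟨d, hd, rfl⟩ := Finset.mem_image.1 hx
            obtain ⟨hdt, hdC⟩ := Finset.mem_erase.1 hd
            have h1 := Finset.mem_Icc.1 (hs hdC)
            have h2 : t ≤ d := Finset.min'_le C d hdC
            have h3 : t < d := lt_of_le_of_ne h2 (Ne.symm hdt)
            rw [Finset.mem_Icc]; constructor <;> omega
          · rw [Finset.card_image_of_injective _ (sub_left_injective),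
              Finset.card_erase_of_mem htC, hc]
            rfl
        refine Finset.mem_image.2 ⟨((C.erase t).image (fun d => d - t), t),
          Finset.mem_product.2 ⟨e, hs htC⟩, ?_⟩
        ext x
        simp only [Finset.mem_image, Finset.mem_insert, Finset.mem_erase]
        constructor
        · rintro ⟨d, rfl | ⟨y, ⟨_, hy⟩, rfl⟩, rfl⟩
          · simpa using htC
          · simpa using hy
        · intro hx
          by_cases hxt : x = t
          · exact ⟨0, Or.inl rfl, by simp [hxt]⟩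
          · exact ⟨x - t, Or.inr ⟨x, ⟨hxt, hx⟩, rfl⟩, by simp⟩
    _ = ∑ x ∈ (Finset.powersetCard j (Finset.Icc 1 (H : ℤ))) ×ˢ (Finset.Icc 1 (H : ℤ)),
      max (Φ ((insert 0 x.1).image (fun d => d + x.2))) 0 := e1.symm
    _ ≤ ∑ x ∈ (Finset.powersetCard j (Finset.Icc 1 (H : ℤ))) ×ˢ (Finset.Icc 1 (H : ℤ)), Ψ x.1 := by
        refine Finset.sum_le_sum fun x hx => ?_
        obtain ⟨hD, ht⟩ := Finset.mem_product.1 hx
        exact max_le (h x.1 hD x.2 ht) (h0 _)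

theorem TRNc (H j : ℕ) (Φ : Finset ℤ → ℤ → ℝ) (Ψ : Finset ℤ → ℝ)
    (h : ∀ D ∈ Finset.powersetCard j (Finset.Icc 1 (H : ℤ)), ∀ t ∈ Finset.Icc 1 (H : ℤ),
      Φ (D.image (fun d => d + t)) t = Ψ D)
    (h' : ∀ S t, (¬ ∃ D ∈ Finset.powersetCard j (Finset.Icc 1 (H : ℤ)), t ∈ Finset.Icc 1 (H : ℤ) ∧
      S = D.image (fun d => d + t)) → Φ S t = 0) :
    ∑ S ∈ Finset.powersetCard j (Finset.Icc 1 ((2 * H : ℕ) : ℤ)), ∑ t ∈ Finset.Icc 1 ((2 * H : ℕ) : ℤ) \ S, Φ S t =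
      (H : ℝ) * ∑ D ∈ Finset.powersetCard j (Finset.Icc 1 (H : ℤ)), Ψ D := by
  rw [TRN_sum, Finset.sum_sigma']
  have hinj : Set.InjOn (fun x : Finset ℤ × ℤ =>
      (⟨x.1.image (fun d => d + x.2), x.2⟩ : (_ : Finset ℤ) × ℤ))
      (((Finset.powersetCard j (Finset.Icc 1 (H : ℤ))) ×ˢ (Finset.Icc 1 (H : ℤ)) :
      Finset (Finset ℤ × ℤ)) : Set (Finset ℤ × ℤ)) := by
    rintro ⟨D, t⟩ _ ⟨D', t'⟩ _ he
    simp only [Sigma.mk.injEq] at he
    obtain ⟨he1, he2⟩ := he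
    have he2 := eq_of_heq he2
    subst he2
    rw [Finset.image_injective (add_left_injective t) he1]
  have e1 : ∑ x ∈ (Finset.powersetCard j (Finset.Icc 1 (H : ℤ))) ×ˢ (Finset.Icc 1 (H : ℤ)), Ψ x.1 =
      ∑ y ∈ ((Finset.powersetCard j (Finset.Icc 1 (H : ℤ))) ×ˢ (Finset.Icc 1 (H : ℤ))).image
        (fun x : Finset ℤ × ℤ => (⟨x.1.image (fun d => d + x.2), x.2⟩ : (_ : Finset ℤ) × ℤ)),
        Φ y.1 y.2 := by
    rw [Finset.sum_image hinj]
    refine Finset.sum_congr rfl fun x hx => ?_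
    obtain ⟨hD, ht⟩ := Finset.mem_product.1 hx
    exact (h x.1 hD x.2 ht).symm
  rw [e1]
  symm
  refine Finset.sum_subset ?_ ?_
  · intro y hy
    obtain ⟨⟨D, t⟩, hx, rfl⟩ := Finset.mem_image.1 hy
    obtain ⟨hD, ht⟩ := Finset.mem_product.1 hx
    simp only at hD ht ⊢
    have ht' := Finset.mem_Icc.1 ht
    refine Finset.mem_sigma.2 ⟨Finset.mem_powersetCard.2 ⟨?_, ?_⟩, ?_⟩
    · intro x hx
      obtain ⟨d, hd, rfl⟩ := Finset.mem_image.1 hx
      have := TRN_pos hD hd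
      rw [Finset.mem_Icc]; push_cast; constructor <;> omega
    · rw [Finset.card_image_of_injective _ (add_left_injective t),
        (Finset.mem_powersetCard.1 hD).2]
    · refine Finset.mem_sdiff.2 ⟨?_, ?_⟩
      · rw [Finset.mem_Icc]; push_cast; constructor <;> omega
      · intro hx
        obtain ⟨d, hd, hd'⟩ := Finset.mem_image.1 hx
        have := TRN_pos hD hd
        have hd'' : d + t = t := hd'
        omega
  · rintro ⟨S, t⟩ _ hn
    refine h' S t ?_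
    rintro ⟨D, hD, ht, rfl⟩
    exact hn (Finset.mem_image.2 ⟨(D, t), Finset.mem_product.2 ⟨hD, ht⟩, rfl⟩)

end Pool.Agent.H96.AE
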