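import Pool.Agent.H96.AE.CC
import Pool.Agent.H96.AE.TRN

/-!
# LL: correlations of two functions with close windows agree in `L¹`

`N = ⌊x⌋₊ + 1`, `h = f - g` (vanishes outside `[0,N)`), `|h| ≤ 2 Bm`. All sums at the scale `2H ≤ 4 (log x)^2`: `I₂ = Icc 1 (2H)` (`((2 * H : ℕ) : ℤ)`), `rgH x (2H) = range (N + 2H)`.
* `LL_win` (windows at the scale `2H`): let `D ⊆ I₂`, `D₁ = D ∩ Icc 1 H`, `D₂ = {d - H : d ∈ D, d > H} ⊆ Icc 1 H`. `nf D h n = nf D₁ h n + nf D₂ h (n - H)`, `(a+b)^2 ≤ 2a^2 + 2b^2`. For `n ≥ N + H` and `d ≤ H`: `n - d ≥ N`, so `h(n-d) = 0`, and for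
  `n < 0`: `n - d < 0`, `h(n-d) = 0`. So `∑_{n < N+2H} (nf D₁ h n)^2 = ∑_{n < N+H} (nf D₁ h n)^2` and `∑_{n<N+2H} (nf D₂ h (n-H))^2 = ∑_{n<N+H} (nf D₂ h n)^2` (`n = n' + H`), each `≤ δ N H^2`; total `≤ 4 δ N H^2 = δ N (2H)^2`.
* `L1`: `CC` with `ε' = ε/2^(j+2)` at the scale `2H`. For `C ⊆ I₂` let `S(C) = ∑_{n ∈ rgH x (2H)} (∏_{c∈C} f(n-c) - ∏_{c∈C} g(n-c))`, `sg C ∈ {-1,0,1}` the sign of `S(C)` (`SignType.sign` or `if`), `σ S e = sg (insert e S)`,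
  `G S n = AA (fun c => g (n-c)) (fun c => h (n-c)) S`; `|G S n| ≤ ∏_S (|g(n-c)| + |h(n-c)|) ≤ ∏_S 3 Bm(n-c)` (`ALG_abs`). By `ALG`, `∏_C f(n-c) - ∏_C g(n-c) = ∑_{e∈C} h(n-e) G (C.erase e) n`. So
  `∑_{C ∈ P_{j+2}} |S(C)| = ∑_C sg(C) S(C) = ∑_C ∑_{e ∈ C} σ (C.erase e) e ∑_n h(n-e) G (C.erase e) n = ∑_{S ∈ P_{j+1}} ∑_{e ∈ I₂ \ S} ...` (`ISO1` with `Φ S e = σ S e * ∑_n h(n-e) G S n`; `insert e (C.erase e) = C`), which is the sum in `CC`:
  `≤ ε' N (2H)^(j+2)`. `TRNa` with `Φ = |S|`, `Ψ D = |cf x f D - cf x g D|`: for `C = (insert 0 D) + t`: `∏_{c∈C} f(n-c) = f(n-t) ∏_{d∈D} f((n-t)-d)` (`Finset.prod_image`, `0 ∉ D`) which vanishes unless `0 ≤ n - t < N`, so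
  (`n' = n - t`, `1 ≤ t ≤ H`) `S(C) = cf x f D - cf x g D`. Divide by `H > 0`.
* `L1b`: `CC` with `ε' = ε/2^(j+2)`, `G S n = ∏_S Mm y (n-c) ≤ ∏_S 3 Bm` (`La, Mm ≥ 0`), `Ψ D = |T(D)|`, `T(D) = ∑_{n<N} (f n - g n) ∏_{d∈D} Mm y (n-d)`; `σ S e = sign T(D)` if `e ∈ Icc 1 H` and `S = D + e` for a `D ∈ powersetCard (j+1) (Icc 1 H)` (then
  `D = S.image (· - e)`), and `0` otherwise. For such `(S,e)`: `∑_{n<N+2H} h(n-e) ∏_S Mm y (n-c) = T(D)` (`n' = n - e`, `h = 0` outside `[0,N)`). So the sum in `CC` is `∑_S ∑_{e ∈ I₂\S} Φ S e` with `Φ S e = |T(D)|` resp. `0`, and equals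
  `H ∑_D |T(D)|` by `TRNc`.
-/

set_option autoImplicit false

namespace Pool.Agent.H96.AE

open Finset Pool.Agent.H17 Pool.Agent.H6.MF Pool.Agent.H6.MB Pool.Agent.H12.DM Pool.Agent.H6.AE

lemma LL_shift (F : ℤ → ℝ) (N M : ℕ) (t : ℤ) (h0 : 0 ≤ t) (ht : t ≤ (M : ℤ))
    (hF : ∀ m : ℤ, m < 0 ∨ (N : ℤ) ≤ m → F m = 0) :
    ∑ n ∈ Finset.range (N + M), F ((n : ℤ) - t) = ∑ n ∈ Finset.range N, F (n : ℤ) := by
  lift t to ℕ using h0
  have ht' : t ≤ M := by exact_mod_cast ht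
  obtain ⟨k, rfl⟩ := Nat.exists_eq_add_of_le ht'
  have e1 : N + (t + k) = t + (N + k) := by omega
  rw [e1, Finset.sum_range_add, Finset.sum_range_add]
  have h1 : ∑ n ∈ Finset.range t, F ((n : ℤ) - (t : ℤ)) = 0 := by
    refine Finset.sum_eq_zero fun n hn => hF _ (Or.inl ?_)
    rw [Finset.mem_range] at hn
    omega
  have h2 : ∑ n ∈ Finset.range k, F (((t + (N + n) : ℕ) : ℤ) - (t : ℤ)) = 0 := by
    refine Finset.sum_eq_zero fun n _ => hF _ (Or.inr ?_)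
    push_cast
    omega
  rw [h1, h2, zero_add, add_zero]
  refine Finset.sum_congr rfl fun n _ => ?_
  congr 1
  push_cast
  ring

lemma LL_nf_zero {x : ℝ} {h : ℤ → ℝ} (hh : Sp x h) {H : ℕ} {D : Finset ℤ} (hD : D ⊆ Finset.Icc 1 (H : ℤ)) (n : ℤ)
    (hn : n < 0 ∨ ((⌊x⌋₊ + 1 + H : ℕ) : ℤ) ≤ n) : nf D h n = 0 := by
  unfold nf
  refine Finset.sum_eq_zero fun d hd => hh _ ?_
  have := hD hd
  rw [Finset.mem_Icc] at this
  rcases hn with hn | hn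
  · left; omega
  · right; push_cast at hn ⊢; omega

theorem LL_win {x : ℝ} {H : ℕ} {δ : ℝ} {f g : ℤ → ℝ} (hf : Sp x f) (hg : Sp x g) (h : Win x H δ f g) :
    ∀ D : Finset ℤ, D ⊆ Finset.Icc 1 ((2 * H : ℕ) : ℤ) →
      ∑ n ∈ rgH x (2 * H), (nf D (fun n => f n - g n) (n : ℤ)) ^ 2 ≤ δ * ((⌊x⌋₊ : ℝ) + 1) * ((2 * H : ℕ) : ℝ) ^ 2 := by
  intro D hD
  set u : ℤ → ℝ := fun n => f n - g n with hu
  have hus : Sp x u := fun n hn => by simp only [hu, hf n hn, hg n hn, sub_self]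
  set D₁ := D.filter (fun d => d ≤ (H : ℤ)) with hD1
  set D₂ := (D.filter (fun d => ¬ d ≤ (H : ℤ))).image (fun d => d - (H : ℤ)) with hD2
  have hs1 : D₁ ⊆ Finset.Icc 1 (H : ℤ) := by
    intro d hd
    rw [hD1, Finset.mem_filter] at hd
    have := hD hd.1
    rw [Finset.mem_Icc] at this ⊢
    omega
  have hs2 : D₂ ⊆ Finset.Icc 1 (H : ℤ) := by
    intro d hd
    rw [hD2, Finset.mem_image] at hd
    obtain ⟨e, he, rfl⟩ := hd
    rw [Finset.mem_filter] at he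
    have := hD he.1
    rw [Finset.mem_Icc] at this ⊢
    push_cast at this
    omega
  have hsplit : ∀ n : ℤ, nf D u n = nf D₁ u n + nf D₂ u (n - (H : ℤ)) := by
    intro n
    unfold nf
    rw [← Finset.sum_filter_add_sum_filter_not D (fun d => d ≤ (H : ℤ)), hD2,
      Finset.sum_image (fun a _ b _ hab => by simpa using hab)]
    congr 1
    refine Finset.sum_congr rfl fun d _ => ?_
    congr 1
    ring
  have hpt : ∀ n ∈ rgH x (2 * H), (nf D u (n : ℤ)) ^ 2 ≤ 2 * (nf D₁ u ((n : ℤ) - 0)) ^ 2 + 2 * (nf D₂ u ((n : ℤ) - (H : ℤ))) ^ 2 := by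
    intro n _
    rw [hsplit, sub_zero]
    nlinarith [sq_nonneg (nf D₁ u (n : ℤ) - nf D₂ u ((n : ℤ) - (H : ℤ)))]
  refine (Finset.sum_le_sum hpt).trans ?_
  rw [Finset.sum_add_distrib, ← Finset.mul_sum, ← Finset.mul_sum]
  have hN : rgH x (2 * H) = Finset.range ((⌊x⌋₊ + 1 + H) + H) := by
    unfold rgH
    congr 1
    ring
  have hz1 : ∀ m : ℤ, m < 0 ∨ ((⌊x⌋₊ + 1 + H : ℕ) : ℤ) ≤ m → (fun m => (nf D₁ u m) ^ 2) m = 0 := fun m hm => by
    simp only [LL_nf_zero hus hs1 m hm]; norm_num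
  have hz2 : ∀ m : ℤ, m < 0 ∨ ((⌊x⌋₊ + 1 + H : ℕ) : ℤ) ≤ m → (fun m => (nf D₂ u m) ^ 2) m = 0 := fun m hm => by
    simp only [LL_nf_zero hus hs2 m hm]; norm_num
  rw [hN, LL_shift (fun m => (nf D₁ u m) ^ 2) _ _ 0 le_rfl (by positivity) hz1,
    LL_shift (fun m => (nf D₂ u m) ^ 2) _ _ (H : ℤ) (by positivity) le_rfl hz2]
  have a1 := h D₁ hs1
  have a2 := h D₂ hs2
  unfold rgH at a1 a2
  rw [← hu] at a1 a2
  have e : δ * ((⌊x⌋₊ : ℝ) + 1) * ((2 * H : ℕ) : ℝ) ^ 2 =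
      2 * (δ * ((⌊x⌋₊ : ℝ) + 1) * (H : ℝ) ^ 2) + 2 * (δ * ((⌊x⌋₊ : ℝ) + 1) * (H : ℝ) ^ 2) := by
    push_cast; ring
  rw [e]
  gcongr

lemma LL_mm_le {y : ℕ} {x : ℝ} (hx : 1 ≤ x) (n : ℤ) : Mm y n ≤ 3 * Bm y x n := by
  unfold Bm
  have h1 := La_nonneg hx n
  have h2 := Mm_nonneg (yy x) n
  have h3 := Mm_nonneg y n
  linarith

/-- the sign, as a real number -/
noncomputable def LLsg (r : ℝ) : ℝ := if 0 ≤ r then 1 else -1

lemma LLsg_abs (r : ℝ) : |LLsg r| ≤ 1 := by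
  unfold LLsg; split_ifs <;> simp

lemma LLsg_mul (r : ℝ) : LLsg r * r = |r| := by
  unfold LLsg
  split_ifs with h
  · rw [one_mul, abs_of_nonneg h]
  · rw [abs_of_neg (not_le.mp h)]; ring

lemma LL_cf {x : ℝ} {H : ℕ} {φ : ℤ → ℝ} (hφ : Sp x φ) {D : Finset ℤ} (hD : D ⊆ Finset.Icc 1 (H : ℤ)) {t : ℤ}
    (ht : t ∈ Finset.Icc 1 (H : ℤ)) :
    ∑ n ∈ rgH x (2 * H), ∏ c ∈ (insert 0 D).image (fun d => d + t), φ ((n : ℤ) - c) = cf x φ D := by
  rw [Finset.mem_Icc] at ht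
  have h0 : (0 : ℤ) ∉ D := fun h => by
    have := hD h
    rw [Finset.mem_Icc] at this
    omega
  have e : ∀ n : ℕ, ∏ c ∈ (insert 0 D).image (fun d => d + t), φ ((n : ℤ) - c) =
      (fun m : ℤ => φ m * ∏ d ∈ D, φ (m - d)) ((n : ℤ) - t) := by
    intro n
    rw [Finset.prod_image (fun a _ b _ hab => by simpa using hab), Finset.prod_insert h0]
    simp only
    congr 1
    · congr 1; ring
    · refine Finset.prod_congr rfl fun d _ => ?_
      congr 1; ring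
  rw [Finset.sum_congr rfl fun n _ => e n]
  unfold rgH cf
  rw [LL_shift (fun m : ℤ => φ m * ∏ d ∈ D, φ (m - d)) (⌊x⌋₊ + 1) (2 * H) t (by omega) (by push_cast; omega)
    (fun m hm => by simp only [hφ m hm, zero_mul])]

lemma LL_fin {A ε N : ℝ} {H j : ℕ} (hH : 1 ≤ (H : ℝ))
    (h : (H : ℝ) * A ≤ ε / 2 ^ (j + 2) * N * ((2 * H : ℕ) : ℝ) ^ (j + 2)) : A ≤ ε * N * (H : ℝ) ^ (j + 1) := by
  have e : ε / 2 ^ (j + 2) * N * ((2 * H : ℕ) : ℝ) ^ (j + 2) = (H : ℝ) * (ε * N * (H : ℝ) ^ (j + 1)) := by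
    push_cast
    rw [mul_pow]
    have : (2 : ℝ) ^ (j + 2) ≠ 0 := by positivity
    field_simp
    ring
  rw [e] at h
  exact le_of_mul_le_mul_left h (by linarith)

theorem L1 (j : ℕ) (ε : ℝ) (hε : 0 < ε) : ∃ y₀ : ℕ, ∃ δ K : ℝ, 0 < δ ∧ 1 ≤ K ∧ ∀ y : ℕ, y₀ ≤ y → ∃ X : ℝ,
    ∀ x : ℝ, X ≤ x → ∀ H : ℕ, K * Real.log x ≤ (H : ℝ) → (H : ℝ) ≤ (Real.log x) ^ 2 → ∀ f g : ℤ → ℝ,
    (∀ n, |f n| ≤ Bm y x n) → (∀ n, |g n| ≤ Bm y x n) → Sp x f → Sp x g → Win x H δ f g →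
    ∑ D ∈ Finset.powersetCard (j + 1) (Finset.Icc 1 (H : ℤ)), |cf x f D - cf x g D|
      ≤ ε * ((⌊x⌋₊ : ℝ) + 1) * (H : ℝ) ^ (j + 1) := by
  obtain ⟨y₀, δ, K, hδ, hK, hCC⟩ := CC j (ε / 2 ^ (j + 2)) (by positivity)
  refine ⟨y₀, δ, K, hδ, hK, fun y hy => ?_⟩
  obtain ⟨X, hX⟩ := hCC y hy
  refine ⟨max X (Real.exp 1), fun x hx H hH1 hH2 f g hf hg hfs hgs hw => ?_⟩
  have hxX : X ≤ x := le_trans (le_max_left _ _) hx
  have hxe : Real.exp 1 ≤ x := le_trans (le_max_right _ _) hx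
  have hlog : 1 ≤ Real.log x := by
    rw [Real.le_log_iff_exp_le (lt_of_lt_of_le (Real.exp_pos 1) hxe)]; exact hxe
  have hHR : (1 : ℝ) ≤ H := le_trans (by nlinarith) hH1
  set h : ℤ → ℝ := fun n => f n - g n with hh
  have hhb : ∀ n, |h n| ≤ 2 * Bm y x n := fun n => by
    have := abs_sub (f n) (g n)
    have h1 := hf n; have h2 := hg n
    simp only [hh]
    linarith
  set SS : Finset ℤ → ℝ := fun C => ∑ n ∈ rgH x (2 * H), (∏ c ∈ C, f ((n : ℤ) - c) - ∏ c ∈ C, g ((n : ℤ) - c)) with hSS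
  set G : Finset ℤ → ℤ → ℝ := fun S n => AA (fun c => g (n - c)) (fun c => h (n - c)) S with hG
  set σ : Finset ℤ → ℤ → ℝ := fun S e => LLsg (SS (insert e S)) with hσ
  have key := hX x hxX (2 * H) (by push_cast; linarith) (by push_cast; nlinarith [sq_nonneg (Real.log x)]) h hhb
    (LL_win hfs hgs hw) σ (fun S e => LLsg_abs _) G (fun S _ n => by
      refine (ALG_abs _ _ _).trans (Finset.prod_le_prod (fun c _ => by positivity) fun c _ => ?_)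
      have h1 := hg (n - c); have h2 := hhb (n - c)
      linarith)
  set I : Finset ℤ := Finset.Icc 1 ((2 * H : ℕ) : ℤ) with hI
  set Φ : Finset ℤ → ℤ → ℝ := fun S e => σ S e * ∑ n ∈ rgH x (2 * H), h ((n : ℤ) - e) * G S n with hΦ
  have hSum : ∑ C ∈ Finset.powersetCard (j + 2) I, |SS C| =
      ∑ S ∈ Finset.powersetCard (j + 1) I, ∑ n ∈ rgH x (2 * H), G S (n : ℤ) * ∑ e ∈ I \ S, σ S e * h ((n : ℤ) - e) := by
    have e1 : ∀ C ∈ Finset.powersetCard (j + 2) I, |SS C| = ∑ e ∈ C, Φ (C.erase e) e := by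
      intro C _
      rw [← LLsg_mul]
      have e2 : SS C = ∑ e ∈ C, ∑ n ∈ rgH x (2 * H), h ((n : ℤ) - e) * G (C.erase e) n := by
        rw [Finset.sum_comm]
        simp only [hSS]
        refine Finset.sum_congr rfl fun n _ => ?_
        have := ALG (fun c => g ((n : ℤ) - c)) (fun c => h ((n : ℤ) - c)) C
        simp only [hG]
        rw [← this]
        congr 1
        refine Finset.prod_congr rfl fun c _ => ?_
        simp only [hh]; ring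
      have e3 : LLsg (SS C) * SS C = LLsg (SS C) * ∑ e ∈ C, ∑ n ∈ rgH x (2 * H), h ((n : ℤ) - e) * G (C.erase e) n :=
        congrArg (fun r => LLsg (SS C) * r) e2
      rw [e3, Finset.mul_sum]
      refine Finset.sum_congr rfl fun e he => ?_
      simp only [hΦ, hσ]
      rw [Finset.insert_erase he]
    rw [Finset.sum_congr rfl e1, ISO1 I (j + 1) Φ]
    refine Finset.sum_congr rfl fun S _ => ?_
    simp only [hΦ, Finset.mul_sum]
    rw [Finset.sum_comm]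
    refine Finset.sum_congr rfl fun n _ => Finset.sum_congr rfl fun e _ => ?_
    ring
  have hT := TRNa H (j + 1) (fun C => |SS C|) (fun D => |cf x f D - cf x g D|) (fun C => abs_nonneg _)
    (fun D hD t ht => by
      rw [Finset.mem_powersetCard] at hD
      simp only [hSS]
      rw [Finset.sum_sub_distrib, LL_cf hfs hD.1 ht, LL_cf hgs hD.1 ht])
  refine LL_fin hHR (hT.trans ?_)
  rw [show j + 1 + 1 = j + 2 from rfl, hSum]
  exact (le_abs_self _).trans key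

theorem L1b (j : ℕ) (ε : ℝ) (hε : 0 < ε) : ∃ y₀ : ℕ, ∃ δ K : ℝ, 0 < δ ∧ 1 ≤ K ∧ ∀ y : ℕ, y₀ ≤ y → ∃ X : ℝ,
    ∀ x : ℝ, X ≤ x → ∀ H : ℕ, K * Real.log x ≤ (H : ℝ) → (H : ℝ) ≤ (Real.log x) ^ 2 → ∀ f g : ℤ → ℝ,
    (∀ n, |f n| ≤ Bm y x n) → (∀ n, |g n| ≤ Bm y x n) → Sp x f → Sp x g → Win x H δ f g →
    ∑ D ∈ Finset.powersetCard (j + 1) (Finset.Icc 1 (H : ℤ)),
      |∑ n ∈ Finset.range (⌊x⌋₊ + 1), (f (n : ℤ) - g (n : ℤ)) * ∏ d ∈ D, Mm y ((n : ℤ) - d)|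
      ≤ ε * ((⌊x⌋₊ : ℝ) + 1) * (H : ℝ) ^ (j + 1) := by
  obtain ⟨y₀, δ, K, hδ, hK, hCC⟩ := CC j (ε / 2 ^ (j + 2)) (by positivity)
  refine ⟨y₀, δ, K, hδ, hK, fun y hy => ?_⟩
  obtain ⟨X, hX⟩ := hCC y hy
  refine ⟨max X (Real.exp 1), fun x hx H hH1 hH2 f g hf hg hfs hgs hw => ?_⟩
  have hxX : X ≤ x := le_trans (le_max_left _ _) hx
  have hxe : Real.exp 1 ≤ x := le_trans (le_max_right _ _) hx
  have hx1 : 1 ≤ x := le_trans (by have := Real.add_one_le_exp (1 : ℝ); linarith) hxe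
  have hlog : 1 ≤ Real.log x := by
    rw [Real.le_log_iff_exp_le (lt_of_lt_of_le (Real.exp_pos 1) hxe)]; exact hxe
  have hHR : (1 : ℝ) ≤ H := le_trans (by nlinarith) hH1
  set h : ℤ → ℝ := fun n => f n - g n with hh
  have hhs : Sp x h := fun n hn => by simp only [hh, hfs n hn, hgs n hn, sub_self]
  have hhb : ∀ n, |h n| ≤ 2 * Bm y x n := fun n => by
    have := abs_sub (f n) (g n)
    have h1 := hf n; have h2 := hg n
    simp only [hh]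
    linarith
  set T : Finset ℤ → ℝ := fun D => ∑ n ∈ Finset.range (⌊x⌋₊ + 1), h (n : ℤ) * ∏ d ∈ D, Mm y ((n : ℤ) - d) with hTd
  set G : Finset ℤ → ℤ → ℝ := fun S n => ∏ c ∈ S, Mm y (n - c) with hG
  set P : Finset ℤ → ℤ → Prop := fun S e => e ∈ Finset.Icc 1 (H : ℤ) ∧
    S.image (fun c => c - e) ∈ Finset.powersetCard (j + 1) (Finset.Icc 1 (H : ℤ)) with hP
  classical
  set σ : Finset ℤ → ℤ → ℝ := fun S e => if P S e then LLsg (T (S.image (fun c => c - e))) else 0 with hσ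
  have hσ1 : ∀ S e, |σ S e| ≤ 1 := fun S e => by
    simp only [hσ]
    split_ifs
    · exact LLsg_abs _
    · simp
  have key := hX x hxX (2 * H) (by push_cast; linarith) (by push_cast; nlinarith [sq_nonneg (Real.log x)]) h hhb
    (LL_win hfs hgs hw) σ hσ1 G (fun S _ n => by
      simp only [hG]
      rw [Finset.abs_prod]
      refine Finset.prod_le_prod (fun c _ => abs_nonneg _) fun c _ => ?_
      rw [abs_of_nonneg (Mm_nonneg y _)]
      exact LL_mm_le hx1 _)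
  set I : Finset ℤ := Finset.Icc 1 ((2 * H : ℕ) : ℤ) with hI
  set Φ : Finset ℤ → ℤ → ℝ := fun S e => σ S e * ∑ n ∈ rgH x (2 * H), h ((n : ℤ) - e) * G S n with hΦ
  have hSum : ∑ S ∈ Finset.powersetCard (j + 1) I, ∑ e ∈ I \ S, Φ S e =
      ∑ S ∈ Finset.powersetCard (j + 1) I, ∑ n ∈ rgH x (2 * H), G S (n : ℤ) * ∑ e ∈ I \ S, σ S e * h ((n : ℤ) - e) := by
    refine Finset.sum_congr rfl fun S _ => ?_
    simp only [hΦ, Finset.mul_sum]
    rw [Finset.sum_comm]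
    refine Finset.sum_congr rfl fun n _ => Finset.sum_congr rfl fun e _ => ?_
    ring
  have hback : ∀ (D : Finset ℤ) (t : ℤ), (D.image (fun d => d + t)).image (fun c => c - t) = D := by
    intro D t
    rw [Finset.image_image]
    have hid : ((fun c : ℤ => c - t) ∘ (fun d : ℤ => d + t)) = id := by funext d; simp
    rw [hid, Finset.image_id]
  have hback' : ∀ (S : Finset ℤ) (t : ℤ), (S.image (fun c => c - t)).image (fun d => d + t) = S := by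
    intro S t
    rw [Finset.image_image]
    have hid : ((fun d : ℤ => d + t) ∘ (fun c : ℤ => c - t)) = id := by funext d; simp
    rw [hid, Finset.image_id]
  have hT := TRNc H (j + 1) Φ (fun D => |T D|)
    (fun D hD t ht => by
      have hPD : P (D.image (fun d => d + t)) t := by
        simp only [hP]
        exact ⟨ht, by rw [hback]; exact hD⟩
      simp only [hΦ, hσ]
      rw [if_pos hPD, hback]
      have e : ∑ n ∈ rgH x (2 * H), h ((n : ℤ) - t) * G (D.image (fun d => d + t)) n = T D := by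
        rw [Finset.mem_Icc] at ht
        have e2 : ∀ n : ℕ, h ((n : ℤ) - t) * G (D.image (fun d => d + t)) n =
            (fun m : ℤ => h m * ∏ d ∈ D, Mm y (m - d)) ((n : ℤ) - t) := by
          intro n
          simp only [hG]
          rw [Finset.prod_image (fun a _ b _ hab => by simpa using hab)]
          congr 1
          refine Finset.prod_congr rfl fun d _ => ?_
          congr 1; ring
        rw [Finset.sum_congr rfl fun n _ => e2 n]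
        unfold rgH
        rw [LL_shift (fun m : ℤ => h m * ∏ d ∈ D, Mm y (m - d)) (⌊x⌋₊ + 1) (2 * H) t (by omega) (by push_cast; omega)
          (fun m hm => by simp only [hhs m hm, zero_mul])]
      rw [e, LLsg_mul])
    (fun S t hno => by
      simp only [hΦ, hσ]
      rw [if_neg, zero_mul]
      rintro ⟨h1, h2⟩
      exact hno ⟨_, h2, h1, (hback' S t).symm⟩)
  refine LL_fin hHR ?_
  have hgoal : ∑ D ∈ Finset.powersetCard (j + 1) (Finset.Icc 1 (H : ℤ)),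
      |∑ n ∈ Finset.range (⌊x⌋₊ + 1), (f (n : ℤ) - g (n : ℤ)) * ∏ d ∈ D, Mm y ((n : ℤ) - d)| =
      ∑ D ∈ Finset.powersetCard (j + 1) (Finset.Icc 1 (H : ℤ)), |T D| := rfl
  rw [hgoal, ← hT, hSum]
  exact (le_abs_self _).trans key

end Pool.Agent.H96.AE
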