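import Pool.Agent.H96.AE.Df

/-!
# ALG: a symmetric telescoping identity

`AA a h C = ∑_{B ⊆ C} (1/(|B|+1)) ∏_{B} h ∏_{C \ B} a`.
* `ALG`: `∏_{c∈C} (a c + h c) = ∑_{B ⊆ C} ∏_B h ∏_{C \ B} a` (`Finset.prod_add`, up to the order of the factors). The term `B = ∅` is `∏_C a`. For `B ≠ ∅`: `1 = (1/|B|) ∑_{e ∈ B} 1`, so the rest is
  `∑_{e ∈ C} ∑_{B ⊆ C, e ∈ B} (1/|B|) ∏_B h ∏_{C\B} a`; for given `e` the map `B ↦ B.erase e` is a bijection from `{B ⊆ C : e ∈ B}` to `(C.erase e).powerset` (inverse `insert e`), and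
  `∏_B h = h e ∏_{B.erase e} h`, `C \ B = C.erase e \ B.erase e`, `|B| = |B.erase e| + 1`.
* `ALG_abs`: `1/(|B|+1) ≤ 1`, triangle inequality, `Finset.prod_add` for `|a|`, `|h|`.
-/

set_option autoImplicit false

namespace Pool.Agent.H96.AE

open Finset

theorem ALG_one (B : Finset ℤ) (hB : B.Nonempty) : ∑ _e ∈ B, (1 / (B.card : ℝ)) = 1 := by
  rw [sum_const, nsmul_eq_mul, mul_one_div_cancel]
  exact_mod_cast (card_pos.2 hB).ne'

theorem ALG (a h : ℤ → ℝ) (C : Finset ℤ) :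
    ∏ c ∈ C, (a c + h c) - ∏ c ∈ C, a c = ∑ e ∈ C, h e * AA a h (C.erase e) := by
  have h1 : ∏ c ∈ C, (a c + h c) = ∑ B ∈ C.powerset, (∏ c ∈ B, h c) * ∏ c ∈ C \ B, a c := by
    rw [show ∏ c ∈ C, (a c + h c) = ∏ c ∈ C, (h c + a c) from prod_congr rfl fun c _ => add_comm _ _, prod_add]
  have h2 : ∑ B ∈ C.powerset, (∏ c ∈ B, h c) * ∏ c ∈ C \ B, a c =
      ∏ c ∈ C, a c + ∑ B ∈ C.powerset.erase ∅, (∏ c ∈ B, h c) * ∏ c ∈ C \ B, a c := by
    rw [← add_sum_erase _ _ (empty_mem_powerset C)]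
    simp
  rw [h1, h2, add_sub_cancel_left]
  have h3 : ∑ B ∈ C.powerset.erase ∅, (∏ c ∈ B, h c) * ∏ c ∈ C \ B, a c =
      ∑ B ∈ C.powerset.erase ∅, ∑ e ∈ C, if e ∈ B then 1 / (B.card : ℝ) * ((∏ c ∈ B, h c) * ∏ c ∈ C \ B, a c) else 0 := by
    apply sum_congr rfl
    intro B hB
    rw [mem_erase, mem_powerset] at hB
    rw [← sum_filter]
    have e : C.filter (fun e => e ∈ B) = B := by
      ext x
      rw [mem_filter]
      exact ⟨fun k => k.2, fun k => ⟨hB.2 k, k⟩⟩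
    rw [e, ← sum_mul, ALG_one B (nonempty_iff_ne_empty.2 hB.1), one_mul]
  rw [h3, sum_comm]
  apply sum_congr rfl
  intro e he
  rw [← sum_filter]
  unfold AA
  rw [mul_sum]
  refine sum_bij' (fun B _ => B.erase e) (fun B _ => insert e B) ?_ ?_ ?_ ?_ ?_
  · intro B hB
    rw [mem_filter, mem_erase, mem_powerset] at hB
    rw [mem_powerset]
    exact erase_subset_erase e hB.1.2
  · intro B hB
    rw [mem_powerset] at hB
    rw [mem_filter, mem_erase, mem_powerset]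
    refine ⟨⟨insert_ne_empty _ _, ?_⟩, mem_insert_self _ _⟩
    exact insert_subset he (hB.trans (erase_subset _ _))
  · intro B hB
    rw [mem_filter] at hB
    exact insert_erase hB.2
  · intro B hB
    rw [mem_powerset] at hB
    exact erase_insert fun k => (mem_erase.1 (hB k)).1 rfl
  · intro B hB
    rw [mem_filter, mem_erase, mem_powerset] at hB
    have hc : (B.erase e).card + 1 = B.card := card_erase_add_one hB.2
    have hp : ∏ c ∈ B, h c = h e * ∏ c ∈ B.erase e, h c := (mul_prod_erase B h hB.2).symm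
    have hs : C.erase e \ B.erase e = C \ B := by
      ext x
      rw [mem_sdiff, mem_erase, mem_erase, mem_sdiff]
      constructor
      · rintro ⟨⟨k1, k2⟩, k3⟩
        exact ⟨k2, fun k => k3 ⟨k1, k⟩⟩
      · rintro ⟨k1, k2⟩
        exact ⟨⟨fun k => k2 (k ▸ hB.2), k1⟩, fun k => k2 k.2⟩
    rw [hs, hp, ← hc]
    push_cast
    ring

theorem ALG_abs (a h : ℤ → ℝ) (C : Finset ℤ) : |AA a h C| ≤ ∏ c ∈ C, (|a c| + |h c|) := by
  rw [show ∏ c ∈ C, (|a c| + |h c|) = ∏ c ∈ C, (|h c| + |a c|) from prod_congr rfl fun c _ => add_comm _ _, prod_add]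
  unfold AA
  refine (abs_sum_le_sum_abs _ _).trans (sum_le_sum fun B _ => ?_)
  rw [abs_mul, abs_mul, abs_prod, abs_prod]
  have h0 : 0 ≤ (∏ c ∈ B, |h c|) * ∏ c ∈ C \ B, |a c| :=
    mul_nonneg (prod_nonneg fun _ _ => abs_nonneg _) (prod_nonneg fun _ _ => abs_nonneg _)
  have h1 : |1 / ((B.card : ℝ) + 1)| ≤ 1 := by
    have hp : (0 : ℝ) < (B.card : ℝ) + 1 := by positivity
    rw [abs_of_nonneg (by positivity), div_le_one hp]
    have : (0 : ℝ) ≤ B.card := Nat.cast_nonneg _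
    linarith
  exact mul_le_of_le_one_left h0 h1

end Pool.Agent.H96.AE
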