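import Pool.Agent.H96.AE.Df
import Pool.Agent.H12.DM.Tr
import Pool.Agent.H6.MB.TDT

/-!
# TRm: sums of products of the three kinds of weights

`P₁ = PR y₁ y`, `P₂ = PR y w`, `P₃ = PR w z`, `w = yy x`, `z = x ^ dlm m b`, pairwise coprime (`MAJ_cop`; the primes lie in disjoint intervals). Copy the proof of `Tr`
(`Pool/Agent/H12/DM/Tr.lean`) with three factors instead of two and with modulus `W = 1`, `t = 0` in `TRN` (the filter `n % 1 = 0` is trivial: `Nat.mod_one`).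

* `X₁ n = ∏_{s₁} rr y₁ y (n+a)^{e a}` has period `P₁` (`rr_period`) and `0 ≤ X₁ ≤ (WW w)^(2m)` (`rr_le`: `rr y₁ y ≤ wp y/wp y₁ ≤ WW y ≤ WW w`), so `TD P₁ (WW w)^(2m+1)` (`TD_per`);
  the same for `X₂` with `P₂` (`P₂ ≤ WW w`). As `WW (yy x) ≤ log x` (`WW_yy_pow_le`), both bounds are `≤ (log x)^(2m+1)`.
* `X₃ n = ∏_{s₃} V(n+a)^{e a}`: `TD P₃ (x^(1/(10(m+1))))^(∑ e) ≤ x^((m+2)/(10(m+1))) ≤ x^(1/5)` (`m ≥ 0`: `(m+2)/(m+1) ≤ 2`).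
* `TD_mono` to the modulus `P₁ (P₂ P₃)`, `TD_mul` twice: the product is `TD` with bound `(log x)^(4m+2) x^(1/5) ≤ x^(1/2)` for large `x`.
* `avg_mul` twice: the average over the period is `avg₁ * (avg₂ * avg₃)`. `TRN` gives the claim for every `M`.
-/

set_option autoImplicit false

namespace Pool.Agent.H96.AE

open Finset Pool.Agent.H17 Pool.Agent.H6.MF Pool.Agent.H6.MB Pool.Agent.H12.DM Pool.Agent.H6.AE

theorem TRm_PR_le {a b w : ℕ} (hb : b ≤ w) : ((PR (a : ℝ) (b : ℝ) : ℕ) : ℝ) ≤ (WW w : ℝ) := by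
  have h1 : PR (a : ℝ) (b : ℝ) ∣ WW w := by
    unfold PR WW
    apply prod_dvd_prod_of_subset
    intro p hp
    rw [MAJ_mem (Nat.cast_nonneg _)] at hp
    rw [mem_PP]
    exact ⟨le_trans (by exact_mod_cast hp.2.2) hb, hp.1⟩
  exact_mod_cast Nat.le_of_dvd (WW_pos w) h1

theorem TRm_WW_le {b w : ℕ} (hb : b ≤ w) : (WW b : ℝ) ≤ (WW w : ℝ) := by
  have h1 : WW b ∣ WW w := by
    unfold WW
    apply prod_dvd_prod_of_subset
    intro p hp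
    rw [mem_PP] at hp ⊢
    exact ⟨hp.1.trans hb, hp.2⟩
  exact_mod_cast Nat.le_of_dvd (WW_pos w) h1

theorem TRm_rr_le {a b w : ℕ} (hab : a ≤ b) (hb : b ≤ w) (n : ℤ) : rr a b n ≤ (WW w : ℝ) := by
  refine (rr_le hab n).trans ?_
  have h1 : wp b / wp a ≤ wp b := div_le_self (wp_pos b).le (one_le_wp a)
  have hW1 : (1 : ℝ) ≤ (WW b : ℝ) := by exact_mod_cast WW_pos b
  have h2 : wp b ≤ (WW b : ℝ) := by
    unfold wp
    apply div_le_self (by linarith)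
    exact_mod_cast Nat.totient_pos.mpr (WW_pos b)
  exact h1.trans (h2.trans (TRm_WW_le hb))

/-- a product of at most `m` squares of values of `rr a b` is `TD` with bound `(WW w)^(2m+1)` -/
theorem TRm_TD {a b w m : ℕ} (hab : a ≤ b) (hb : b ≤ w) {s : Finset ℤ} (hs : s.card ≤ m) {e : ℤ → ℕ}
    (he : ∀ a, e a ≤ 2) :
    (∀ n k : ℤ, (fun t : ℤ => ∏ c ∈ s, rr a b (t + c) ^ e c) (n + k * (PR (a : ℝ) (b : ℝ) : ℤ))
      = (fun t : ℤ => ∏ c ∈ s, rr a b (t + c) ^ e c) n) ∧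
    TD (PR (a : ℝ) (b : ℝ)) ((WW w : ℝ) ^ (2 * m + 1)) (fun t : ℤ => ∏ c ∈ s, rr a b (t + c) ^ e c) := by
  have hW1 : (1 : ℝ) ≤ (WW w : ℝ) := by exact_mod_cast WW_pos w
  have hper : ∀ n k : ℤ, (fun t : ℤ => ∏ c ∈ s, rr a b (t + c) ^ e c) (n + k * (PR (a : ℝ) (b : ℝ) : ℤ))
      = (fun t : ℤ => ∏ c ∈ s, rr a b (t + c) ^ e c) n := by
    intro n k
    refine prod_congr rfl fun c _ => ?_
    rw [show n + k * (PR (a : ℝ) (b : ℝ) : ℤ) + c = (n + c) + k * (PR (a : ℝ) (b : ℝ) : ℤ) by ring,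
      rr_period]
  have hB : ∀ n : ℤ, |(fun t : ℤ => ∏ c ∈ s, rr a b (t + c) ^ e c) n| ≤ (WW w : ℝ) ^ (2 * m) := by
    intro n
    have h0 : 0 ≤ ∏ c ∈ s, rr a b (n + c) ^ e c := prod_nonneg fun c _ => pow_nonneg (rr_nonneg _ _ _) _
    have h1 : ∏ c ∈ s, rr a b (n + c) ^ e c ≤ ∏ _c ∈ s, (WW w : ℝ) ^ 2 := by
      refine prod_le_prod (fun c _ => pow_nonneg (rr_nonneg _ _ _) _) fun c _ => ?_
      exact (pow_le_pow_left₀ (rr_nonneg _ _ _) (TRm_rr_le hab hb _) _).trans (pow_le_pow_right₀ hW1 (he c))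
    have h2 : ∏ _c ∈ s, (WW w : ℝ) ^ 2 ≤ (WW w : ℝ) ^ (2 * m) := by
      rw [prod_const, ← pow_mul]
      exact pow_le_pow_right₀ hW1 (Nat.mul_le_mul_left 2 hs)
    show |∏ c ∈ s, rr a b (n + c) ^ e c| ≤ _
    rw [abs_of_nonneg h0]
    exact h1.trans h2
  refine ⟨hper, TD_mono (TD_per (MAJ_PR_pos _ _) hper hB) dvd_rfl ?_⟩
  calc ((PR (a : ℝ) (b : ℝ) : ℕ) : ℝ) * (WW w : ℝ) ^ (2 * m) ≤ (WW w : ℝ) * (WW w : ℝ) ^ (2 * m) :=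
        mul_le_mul_of_nonneg_right (TRm_PR_le hb) (by positivity)
    _ = (WW w : ℝ) ^ (2 * m + 1) := by ring

theorem TRm (m b y₁ y : ℕ) (h1 : y₁ ≤ y) : ∃ X : ℝ, ∀ x : ℝ, X ≤ x → y ≤ yy x ∧ ∀ V : ℤ → ℝ, GoodVm m b x V →
    ∀ s₁ s₂ s₃ : Finset ℤ, s₁.card ≤ m → s₂.card ≤ m → ∀ e : ℤ → ℕ, (∀ a, e a ≤ 2) → ∑ a ∈ s₃, e a ≤ m + 2 →
    ∀ M : ℕ, |∑ n ∈ Finset.range M, ((∏ a ∈ s₁, rr y₁ y ((n : ℤ) + a) ^ e a) *
        ((∏ a ∈ s₂, rr y (yy x) ((n : ℤ) + a) ^ e a) * ∏ a ∈ s₃, V ((n : ℤ) + a) ^ e a))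
      - (M : ℝ) * (avgP (PR (y₁ : ℝ) (y : ℝ)) (fun n => ∏ a ∈ s₁, rr y₁ y (n + a) ^ e a) *
        (avgP (PR (y : ℝ) (yy x : ℝ)) (fun n => ∏ a ∈ s₂, rr y (yy x) (n + a) ^ e a) *
          avgP (PR (yy x : ℝ) (x ^ dlm m b)) (fun n => ∏ a ∈ s₃, V (n + a) ^ e a)))| ≤ x ^ (1 / 2 : ℝ) := by
  have e1 : ∀ᶠ x : ℝ in Filter.atTop, y ≤ yy x := tendsto_yy.eventually_ge_atTop y
  have e2 : ∀ᶠ x : ℝ in Filter.atTop, 1 ≤ Real.log x :=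
    Real.tendsto_log_atTop.eventually_ge_atTop 1
  obtain ⟨k, hk⟩ : ∃ k : ℕ, k = 2 * (2 * m + 1) := ⟨_, rfl⟩
  have hk0 : 0 < k := by omega
  have hkR : (0 : ℝ) < (k : ℝ) := by exact_mod_cast hk0
  have hc0 : (0 : ℝ) < 1 / (4 * (k : ℝ)) := by positivity
  have e3 := (isLittleO_log_rpow_atTop hc0).bound (show (0 : ℝ) < 1 by norm_num)
  obtain ⟨X, hX⟩ := Filter.eventually_atTop.1 (e1.and (e2.and (e3.and
    (Filter.eventually_ge_atTop (1 : ℝ)))))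
  refine ⟨X, fun x hx => ?_⟩
  obtain ⟨hy, hL, hLx, hx1⟩ := hX x hx
  refine ⟨hy, fun V hV s₁ s₂ s₃ hs₁ hs₂ e he hf M => ?_⟩
  have hx0 : 0 < x := by linarith
  have hL0 : 0 < Real.log x := by linarith
  have hLx' : Real.log x ≤ x ^ (1 / (4 * (k : ℝ))) := by
    rw [Real.norm_eq_abs, Real.norm_eq_abs, abs_of_pos hL0,
      abs_of_pos (Real.rpow_pos_of_pos hx0 _), one_mul] at hLx
    exact hLx
  have hz0 : (0 : ℝ) ≤ x ^ dlm m b := Real.rpow_nonneg hx0.le _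
  obtain ⟨w, hw⟩ : ∃ w, w = yy x := ⟨_, rfl⟩
  have hyw : y ≤ w := by rw [hw]; exact hy
  have hW1 : (1 : ℝ) ≤ (WW w : ℝ) := by exact_mod_cast WW_pos w
  have hWL : (WW w : ℝ) ≤ Real.log x := by
    have h1 := WW_yy_pow_le hL
    rw [← hw] at h1
    have h2 : Real.sqrt (Real.log x) ≤ Real.log x := by
      rw [Real.sqrt_le_left hL0.le]
      nlinarith
    exact (le_self_pow₀ hW1 (by norm_num)).trans (h1.trans h2)
  have hP1 : 0 < PR (y₁ : ℝ) (y : ℝ) := MAJ_PR_pos _ _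
  have hP2 : 0 < PR (y : ℝ) (w : ℝ) := MAJ_PR_pos _ _
  have hP3 : 0 < PR (w : ℝ) (x ^ dlm m b) := MAJ_PR_pos _ _
  have hP23 : 0 < PR (y : ℝ) (w : ℝ) * PR (w : ℝ) (x ^ dlm m b) := Nat.mul_pos hP2 hP3
  have hP : 0 < PR (y₁ : ℝ) (y : ℝ) * (PR (y : ℝ) (w : ℝ) * PR (w : ℝ) (x ^ dlm m b)) := Nat.mul_pos hP1 hP23
  obtain ⟨hper1, hTD1⟩ := TRm_TD (w := w) h1 hyw hs₁ he
  obtain ⟨hper2, hTD2⟩ := TRm_TD (w := w) hyw le_rfl hs₂ he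
  have hTDV : TD (PR (w : ℝ) (x ^ dlm m b)) (x ^ (1 / (10 * ((m : ℝ) + 1)))) V := by
    rw [hw]
    exact hV.2.2.1
  have hTD3 : TD (PR (w : ℝ) (x ^ dlm m b)) (∏ a ∈ s₃, (x ^ (1 / (10 * ((m : ℝ) + 1)))) ^ e a)
      (fun t : ℤ => ∏ a ∈ s₃, V (t + a) ^ e a) :=
    TD_prod s₃ hP3 fun a _ => TD_pow hP3 (TD_add_shift hTDV a) (e a)
  have hper3 : ∀ n k : ℤ, (fun t : ℤ => ∏ a ∈ s₃, V (t + a) ^ e a) (n + k * (PR (w : ℝ) (x ^ dlm m b) : ℤ))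
      = (fun t : ℤ => ∏ a ∈ s₃, V (t + a) ^ e a) n := fun n k => TD_period hTD3 n k
  have hm1 : (0 : ℝ) < (m : ℝ) + 1 := by positivity
  have hxm : (1 : ℝ) ≤ x ^ (1 / (10 * ((m : ℝ) + 1))) := Real.one_le_rpow hx1 (by positivity)
  have hB3 : ∏ a ∈ s₃, (x ^ (1 / (10 * ((m : ℝ) + 1)))) ^ e a ≤ x ^ (1 / 5 : ℝ) := by
    rw [prod_pow_eq_pow_sum]
    refine (pow_le_pow_right₀ hxm hf).trans ?_
    rw [← Real.rpow_natCast, ← Real.rpow_mul hx0.le]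
    apply Real.rpow_le_rpow_of_exponent_le hx1
    push_cast
    rw [div_mul_eq_mul_div, one_mul, div_le_div_iff₀ (by positivity) (by norm_num)]
    nlinarith
  have hTD1' := TD_mono hTD1 (Dvd.intro (PR (y : ℝ) (w : ℝ) * PR (w : ℝ) (x ^ dlm m b)) rfl) le_rfl
  have hTD2' := TD_mono hTD2 (Dvd.intro (PR (w : ℝ) (x ^ dlm m b)) rfl) le_rfl
  have hTD3' := TD_mono hTD3 (Dvd.intro_left (PR (y : ℝ) (w : ℝ)) rfl) hB3
  have hTD23 := TD_mul hP23 hTD2' hTD3'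
  have hTD23' := TD_mono hTD23 (Dvd.intro_left (PR (y₁ : ℝ) (y : ℝ)) rfl) le_rfl
  have hTD := TD_mul hP hTD1' hTD23'
  have hcop12 : (PR (y₁ : ℝ) (y : ℝ)).Coprime (PR (y : ℝ) (w : ℝ)) :=
    MAJ_cop (Nat.cast_nonneg _) (Nat.cast_nonneg _)
  have hcop23 : (PR (y : ℝ) (w : ℝ)).Coprime (PR (w : ℝ) (x ^ dlm m b)) :=
    MAJ_cop (Nat.cast_nonneg _) hz0
  have hcop13 : (PR (y₁ : ℝ) (y : ℝ)).Coprime (PR (w : ℝ) (x ^ dlm m b)) := by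
    have h2 : PR (y₁ : ℝ) (y : ℝ) ∣ WW y := by
      unfold PR WW
      apply prod_dvd_prod_of_subset
      intro p hp
      rw [MAJ_mem (Nat.cast_nonneg _)] at hp
      rw [mem_PP]
      exact ⟨by exact_mod_cast hp.2.2, hp.1⟩
    exact Nat.Coprime.coprime_dvd_left h2 (MAJ_copW hz0 (by exact_mod_cast hyw))
  have havg23 := avg_mul hP2 hP3 hcop23 (F := fun t : ℤ => ∏ a ∈ s₂, rr y w (t + a) ^ e a)
    (G := fun t : ℤ => ∏ a ∈ s₃, V (t + a) ^ e a) hper2 hper3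
  have havg := avg_mul hP1 hP23 (Nat.Coprime.mul_right hcop12 hcop13)
    (F := fun t : ℤ => ∏ a ∈ s₁, rr y₁ y (t + a) ^ e a)
    (G := fun t : ℤ => (∏ a ∈ s₂, rr y w (t + a) ^ e a) * ∏ a ∈ s₃, V (t + a) ^ e a) hper1
    (fun n k => TD_period hTD23 n k)
  rw [havg23] at havg
  have hmain := TRN hTD (W := 1) one_pos (Nat.coprime_one_left _) (t := 0) one_pos M hP
  rw [havg] at hmain
  rw [← hw]
  have hfil : (Finset.range M).filter (fun n => n % 1 = 0) = Finset.range M := by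
    apply Finset.filter_true_of_mem
    intro n _
    exact Nat.mod_one n
  rw [hfil, Nat.cast_one, div_one] at hmain
  refine hmain.trans ?_
  have hWk : (WW w : ℝ) ^ (2 * m + 1) * (WW w : ℝ) ^ (2 * m + 1) ≤ x ^ (1 / 4 : ℝ) := by
    calc (WW w : ℝ) ^ (2 * m + 1) * (WW w : ℝ) ^ (2 * m + 1) = (WW w : ℝ) ^ k := by
          rw [hk, ← pow_add]
          congr 1
          ring
      _ ≤ Real.log x ^ k := pow_le_pow_left₀ (by linarith) hWL _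
      _ ≤ (x ^ (1 / (4 * (k : ℝ)))) ^ k := pow_le_pow_left₀ hL0.le hLx' _
      _ = x ^ (1 / 4 : ℝ) := by
          rw [← Real.rpow_natCast, ← Real.rpow_mul hx0.le]
          congr 1
          field_simp
  calc (WW w : ℝ) ^ (2 * m + 1) * ((WW w : ℝ) ^ (2 * m + 1) * x ^ (1 / 5 : ℝ))
      = ((WW w : ℝ) ^ (2 * m + 1) * (WW w : ℝ) ^ (2 * m + 1)) * x ^ (1 / 5 : ℝ) := by ring
    _ ≤ x ^ (1 / 4 : ℝ) * x ^ (1 / 5 : ℝ) :=
        mul_le_mul_of_nonneg_right hWk (Real.rpow_nonneg hx0.le _)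
    _ = x ^ (9 / 20 : ℝ) := by
        rw [← Real.rpow_add hx0]
        norm_num
    _ ≤ x ^ (1 / 2 : ℝ) := Real.rpow_le_rpow_of_exponent_le hx1 (by norm_num)

end Pool.Agent.H96.AE
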