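import Pool.Agent.H96.AE.RRm
import Pool.Agent.H96.AE.TRm
import Pool.Agent.H96.AE.OBm

/-!
# ASm: the correlations of the weights are asymptotically `1`

Let `s' = s.image (fun a => -a)`, so that `∏_{a ∈ s} F (n - a) = ∏_{a ∈ s'} F (n + a)` (`Finset.prod_image`, negation is injective), `s'.card = s.card`, and put
`s₁ = {a ∈ s' : 1 ≤ τ (-a)}`, `s₂ = {2 ≤ τ (-a)}`, `s₃ = {3 ≤ τ (-a)}`. By the definition of `wt` the product is `∏_{s₁} rr y₁ y * (∏_{s₂} rr y w * ∏_{s₃} V)` (`Finset.prod_mul_distrib`, `Finset.prod_filter`).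
Apply `TRm` with `e = 1` (`∑_{s₃} 1 ≤ m ≤ m + 2`): the sum over `n < M` is `M a₁ (a₂ a₃) + O*(x^{1/2})`.
* Upper bound: `RR_up` (exponents `1`, so `∑ (e-1) = 0`): `a₁ ≤ Dp m y₁ y s₁`, `a₂ ≤ Dp m y w s₂`; `a₃ ≤ (1 + 4 (1/2)^b) Dp m w z s₃` (fourth part of `GoodVm`, whose product over the filter is `Dp` by definition;
  `e = 1`, `1 ≤ m`). All are nonnegative. `OBm` and `OB_neg`: the product is `≤ (1 + 4 (1/2)^b) Gs m y₁ s ≤ 1 + 5 (Gs - 1) + 4 (1/2)^b` (`(1/2)^b ≤ 1`).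
* Lower bound: `a₁ ≥ 1 - 2m²/y₁`, `a₂ ≥ 1 - 2m²/y` (`RR_lo`; `y ≥ y₁ ≥ 2m+3`), `a₃ ≥ 1 - m²/w` (fifth part of `GoodVm`), `y₁ ≤ y ≤ w`. If `2m²/y₁ ≥ 1` the claimed lower bound is trivial (the product is `≥ 0`). Otherwise the
  three lower bounds are nonnegative and the product is `≥ 1 - 5m²/y₁`.
* `x^{1/2} ≤ (1/2)^b M` for `x ≥ 4^b`, `M ≥ x`.
`GoodVm` gives `V ≥ 0`; the averages are nonnegative because the functions are.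
-/

set_option autoImplicit false

namespace Pool.Agent.H96.AE

open Finset Pool.Agent.H17 Pool.Agent.H6.MF Pool.Agent.H6.MB Pool.Agent.H12.DM Pool.Agent.H6.AE

/-- the elementary numerical part -/
private theorem ASm_num {S M x G t u a1 a2 a3 : ℝ} (hM : 0 ≤ M) (hG : 1 ≤ G) (ht0 : 0 ≤ t) (ht1 : t ≤ 1) (hu : 0 ≤ u)
    (h1 : 0 ≤ a1) (h2 : 0 ≤ a2) (h3 : 0 ≤ a3) (hup : a1 * (a2 * a3) ≤ (1 + 4 * t) * G)
    (l1 : 1 - 2 * u ≤ a1) (l2 : 1 - 2 * u ≤ a2) (l3 : 1 - u ≤ a3) (hS : |S - M * (a1 * (a2 * a3))| ≤ x)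
    (hx : x ≤ t * M) : |S - M| ≤ M * (5 * (G - 1) + 5 * t + 6 * u) := by
  have hA0 : 0 ≤ a1 * (a2 * a3) := by positivity
  have hup' : a1 * (a2 * a3) ≤ 1 + (5 * (G - 1) + 4 * t) := by
    have : t * (G - 1) ≤ 1 * (G - 1) := mul_le_mul_of_nonneg_right ht1 (by linarith)
    nlinarith
  have hlo : 1 - 6 * u ≤ a1 * (a2 * a3) := by
    rcases le_or_gt 1 (2 * u) with h | h
    · linarith
    · have q1 : 0 ≤ 1 - 2 * u := by linarith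
      have q3 : 0 ≤ 1 - u := by linarith
      have q4 : (1 - 2 * u) * (1 - u) ≤ a2 * a3 := mul_le_mul l2 l3 q3 h2
      have q5 : (1 - 2 * u) * ((1 - 2 * u) * (1 - u)) ≤ a1 * (a2 * a3) :=
        mul_le_mul l1 q4 (mul_nonneg q1 q3) h1
      have q6 : 1 - 6 * u ≤ (1 - 2 * u) * ((1 - 2 * u) * (1 - u)) := by
        have e : (1 - 2 * u) * ((1 - 2 * u) * (1 - u)) = 1 - 5 * u + (8 * u ^ 2 - 4 * u ^ 3) := by ring
        have : 0 ≤ u ^ 2 * (8 - 4 * u) := mul_nonneg (by positivity) (by linarith)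
        rw [e]
        nlinarith
      linarith
  have hd : |a1 * (a2 * a3) - 1| ≤ 5 * (G - 1) + 4 * t + 6 * u := by
    rw [abs_le]
    constructor <;> linarith
  have e : S - M = (S - M * (a1 * (a2 * a3))) + M * (a1 * (a2 * a3) - 1) := by ring
  rw [e]
  refine (abs_add_le _ _).trans ?_
  rw [abs_mul, abs_of_nonneg hM]
  have := mul_le_mul_of_nonneg_left hd hM
  nlinarith

/-- splitting the product of the weights -/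
private theorem ASm_split (y₁ y : ℕ) (x : ℝ) (V : ℤ → ℝ) (s : Finset ℤ) (τ : ℤ → Fin 4) (n : ℤ) :
    ∏ a ∈ s, wt y₁ y x V (τ a) (n - a) =
      (∏ a ∈ (s.image (fun a => -a)).filter (fun a => 1 ≤ (τ (-a)).val), rr y₁ y (n + a) ^ 1) *
        ((∏ a ∈ (s.image (fun a => -a)).filter (fun a => 2 ≤ (τ (-a)).val), rr y (yy x) (n + a) ^ 1) *
          ∏ a ∈ (s.image (fun a => -a)).filter (fun a => 3 ≤ (τ (-a)).val), V (n + a) ^ 1) := by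
  have h : ∏ a ∈ s, wt y₁ y x V (τ a) (n - a) =
      ∏ a ∈ s.image (fun a => -a), wt y₁ y x V (τ (-a)) (n + a) := by
    rw [Finset.prod_image (fun a _ b _ h => neg_injective h)]
    refine Finset.prod_congr rfl fun a _ => ?_
    rw [neg_neg, sub_eq_add_neg]
  rw [h]
  unfold wt
  simp only [pow_one]
  rw [Finset.prod_mul_distrib, Finset.prod_mul_distrib, Finset.prod_filter, Finset.prod_filter,
    Finset.prod_filter]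

theorem ASm (m b y₁ y : ℕ) (hm : 1 ≤ m) (hy : 2 * m + 3 ≤ y₁) (h1 : y₁ ≤ y) : ∃ X : ℝ, ∀ x : ℝ, X ≤ x →
    ∀ V : ℤ → ℝ, GoodVm m b x V → ∀ s : Finset ℤ, s.card ≤ m → ∀ τ : ℤ → Fin 4, ∀ M : ℕ, x ≤ (M : ℝ) →
    |∑ n ∈ Finset.range M, ∏ a ∈ s, wt y₁ y x V (τ a) ((n : ℤ) - a) - (M : ℝ)|
      ≤ (M : ℝ) * (5 * (Gs m y₁ s - 1) + 5 * (1 / 2 : ℝ) ^ b + 6 * (m : ℝ) ^ 2 / (y₁ : ℝ)) := by
  obtain ⟨X, hX⟩ := TRm m b y₁ y h1
  refine ⟨max X ((4 : ℝ) ^ b), fun x hx V hV s hs τ M hM => ?_⟩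
  have hx1 : X ≤ x := (le_max_left _ _).trans hx
  have hx2 : (4 : ℝ) ^ b ≤ x := (le_max_right _ _).trans hx
  have hx0 : 0 < x := lt_of_lt_of_le (by positivity) hx2
  obtain ⟨hyx, hT⟩ := hX x hx1
  set s' : Finset ℤ := s.image (fun a => -a) with hs'
  have hc : s'.card ≤ m := Finset.card_image_le.trans hs
  set s₁ := s'.filter (fun a => 1 ≤ (τ (-a)).val) with hs₁
  set s₂ := s'.filter (fun a => 2 ≤ (τ (-a)).val) with hs₂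
  set s₃ := s'.filter (fun a => 3 ≤ (τ (-a)).val) with hs₃
  have k1 : s₁ ⊆ s' := Finset.filter_subset _ _
  have k2 : s₂ ⊆ s' := Finset.filter_subset _ _
  have k3 : s₃ ⊆ s' := Finset.filter_subset _ _
  have c1 : s₁.card ≤ m := (Finset.card_le_card k1).trans hc
  have c2 : s₂.card ≤ m := (Finset.card_le_card k2).trans hc
  have c3 : s₃.card ≤ m := (Finset.card_le_card k3).trans hc
  have hT' := hT V hV s₁ s₂ s₃ c1 c2 (fun _ => 1) (fun _ => by norm_num)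
    (by rw [Finset.sum_const, smul_eq_mul, mul_one]; omega) M
  obtain ⟨v0, v1, v2, v3, v4⟩ := hV
  have hy0 : (0 : ℝ) < y₁ := by
    have : 0 < y₁ := by omega
    exact_mod_cast this
  have hy1 : (y₁ : ℝ) ≤ y := by exact_mod_cast h1
  have hy2 : (y : ℝ) ≤ yy x := by exact_mod_cast hyx
  have hsum : ∑ n ∈ Finset.range M, ∏ a ∈ s, wt y₁ y x V (τ a) ((n : ℤ) - a) =
      ∑ n ∈ Finset.range M, ((∏ a ∈ s₁, rr y₁ y ((n : ℤ) + a) ^ 1) *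
        ((∏ a ∈ s₂, rr y (yy x) ((n : ℤ) + a) ^ 1) * ∏ a ∈ s₃, V ((n : ℤ) + a) ^ 1)) :=
    Finset.sum_congr rfl fun n _ => ASm_split y₁ y x V s τ n
  rw [hsum]
  have hz : (0 : ℝ) ≤ x ^ dlm m b := Real.rpow_nonneg hx0.le _
  have u1 := RR_up m h1 s₁ c1 (fun _ => 1) (fun _ _ => le_rfl)
  have u2 := RR_up m hyx s₂ c2 (fun _ => 1) (fun _ _ => le_rfl)
  have u3 := v3 s₃ c3 (fun _ => 1) (fun _ => ⟨le_rfl, hm⟩)
  simp only [Nat.sub_self, Finset.sum_const_zero, pow_zero, one_mul, mul_one] at u1 u2 u3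
  have l1 := RR_lo m hy h1 s₁ c1
  have l2 := RR_lo m (hy.trans h1) hyx s₂ c2
  have l3 := v4 s₃ c3
  have n1 : 0 ≤ avgP (PR (y₁ : ℝ) (y : ℝ)) (fun n => ∏ a ∈ s₁, rr y₁ y (n + a) ^ 1) :=
    MAJ_avg_nonneg fun n => Finset.prod_nonneg fun a _ => pow_nonneg (rr_nonneg _ _ _) _
  have n2 : 0 ≤ avgP (PR (y : ℝ) (yy x : ℝ)) (fun n => ∏ a ∈ s₂, rr y (yy x) (n + a) ^ 1) :=
    MAJ_avg_nonneg fun n => Finset.prod_nonneg fun a _ => pow_nonneg (rr_nonneg _ _ _) _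
  have n3 : 0 ≤ avgP (PR (yy x : ℝ) (x ^ dlm m b)) (fun n => ∏ a ∈ s₃, V (n + a) ^ 1) :=
    MAJ_avg_nonneg fun n => Finset.prod_nonneg fun a _ => pow_nonneg (v0 _) _
  have hob := OBm m y₁ hy1 hy2 hz s' s₁ s₂ s₃ k1 k2 k3
  rw [OB_neg] at hob
  have d1 := one_le_Dp m (y₁ : ℝ) y s₁
  have d2 := one_le_Dp m (y : ℝ) (yy x) s₂
  have d3 := one_le_Dp m (yy x : ℝ) (x ^ dlm m b) s₃
  have ht0 : (0 : ℝ) < (1 / 2 : ℝ) ^ b := by positivity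
  have ht1 : (1 / 2 : ℝ) ^ b ≤ 1 := pow_le_one₀ (by norm_num) (by norm_num)
  have hm2 : (0 : ℝ) ≤ (m : ℝ) ^ 2 := by positivity
  have hw0 : (0 : ℝ) < yy x := lt_of_lt_of_le hy0 (hy1.trans hy2)
  have hfin : 6 * (m : ℝ) ^ 2 / (y₁ : ℝ) = 6 * ((m : ℝ) ^ 2 / (y₁ : ℝ)) := by ring
  rw [hfin]
  refine ASm_num (x := x ^ (1 / 2 : ℝ)) (Nat.cast_nonneg M) (one_le_Gs m y₁ s) ht0.le ht1 (by positivity) n1 n2 n3 ?_ ?_ ?_ ?_
    hT' ?_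
  · simp only [pow_one]
    simp only [pow_one] at n1 n2 n3
    have q3 : avgP (PR (yy x : ℝ) (x ^ dlm m b)) (fun n => ∏ a ∈ s₃, V (n + a)) ≤
        (1 + 4 * (1 / 2 : ℝ) ^ b) * Dp m (yy x : ℝ) (x ^ dlm m b) s₃ := by
      simpa only [pow_one, Dp] using u3
    simp only [pow_one] at u1 u2
    have p1 : avgP (PR (y : ℝ) (yy x : ℝ)) (fun n => ∏ a ∈ s₂, rr y (yy x) (n + a)) *
        avgP (PR (yy x : ℝ) (x ^ dlm m b)) (fun n => ∏ a ∈ s₃, V (n + a)) ≤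
        Dp m (y : ℝ) (yy x) s₂ * ((1 + 4 * (1 / 2 : ℝ) ^ b) * Dp m (yy x : ℝ) (x ^ dlm m b) s₃) :=
      mul_le_mul u2 q3 n3 (by linarith)
    have p2 := mul_le_mul u1 p1 (mul_nonneg n2 n3) (by linarith)
    refine p2.trans ?_
    calc Dp m (y₁ : ℝ) y s₁ * (Dp m (y : ℝ) (yy x) s₂ * ((1 + 4 * (1 / 2 : ℝ) ^ b) * Dp m (yy x : ℝ) (x ^ dlm m b) s₃))
        = (1 + 4 * (1 / 2 : ℝ) ^ b) * (Dp m (y₁ : ℝ) y s₁ * (Dp m (y : ℝ) (yy x) s₂ * Dp m (yy x : ℝ) (x ^ dlm m b) s₃)) := by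
          ring
      _ ≤ (1 + 4 * (1 / 2 : ℝ) ^ b) * Gs m y₁ s := mul_le_mul_of_nonneg_left hob (by positivity)
  · simp only [pow_one]
    calc 1 - 2 * ((m : ℝ) ^ 2 / (y₁ : ℝ)) = 1 - 2 * (m : ℝ) ^ 2 / (y₁ : ℝ) := by ring
      _ ≤ _ := l1
  · simp only [pow_one]
    refine le_trans ?_ l2
    have : 2 * (m : ℝ) ^ 2 / (y : ℝ) ≤ 2 * (m : ℝ) ^ 2 / (y₁ : ℝ) := by
      gcongr
    have e : 2 * ((m : ℝ) ^ 2 / (y₁ : ℝ)) = 2 * (m : ℝ) ^ 2 / (y₁ : ℝ) := by ring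
    linarith
  · simp only [pow_one]
    refine le_trans ?_ l3
    have : (m : ℝ) ^ 2 / (yy x : ℝ) ≤ (m : ℝ) ^ 2 / (y₁ : ℝ) := by
      gcongr
      exact h1.trans hyx
    linarith
  · have r0 : (0 : ℝ) ≤ x ^ (1 / 2 : ℝ) := Real.rpow_nonneg hx0.le _
    have r1 : x ^ (1 / 2 : ℝ) * x ^ (1 / 2 : ℝ) = x := by
      rw [← Real.rpow_add hx0]
      norm_num
    have r2 : (2 : ℝ) ^ b ≤ x ^ (1 / 2 : ℝ) := by
      have e1 : ((2 : ℝ) ^ b) ^ 2 ≤ (x ^ (1 / 2 : ℝ)) ^ 2 := by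
        rw [pow_two (x ^ (1 / 2 : ℝ)), r1, ← pow_mul, mul_comm b 2, pow_mul]
        norm_num
        exact hx2
      exact le_of_sq_le_sq e1 r0
    have r3 : (1 / 2 : ℝ) ^ b * (2 : ℝ) ^ b = 1 := by
      rw [← mul_pow]
      norm_num
    have r4 : 1 ≤ (1 / 2 : ℝ) ^ b * x ^ (1 / 2 : ℝ) := by
      calc (1 : ℝ) = (1 / 2 : ℝ) ^ b * (2 : ℝ) ^ b := r3.symm
        _ ≤ (1 / 2 : ℝ) ^ b * x ^ (1 / 2 : ℝ) := mul_le_mul_of_nonneg_left r2 ht0.le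
    calc x ^ (1 / 2 : ℝ) = 1 * x ^ (1 / 2 : ℝ) := (one_mul _).symm
      _ ≤ ((1 / 2 : ℝ) ^ b * x ^ (1 / 2 : ℝ)) * x ^ (1 / 2 : ℝ) := mul_le_mul_of_nonneg_right r4 r0
      _ = (1 / 2 : ℝ) ^ b * x := by rw [mul_assoc, r1]
      _ ≤ (1 / 2 : ℝ) ^ b * (M : ℝ) := mul_le_mul_of_nonneg_left hM ht0.le

end Pool.Agent.H96.AE
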