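import Pool.Agent.H96.AE.CORE
import Pool.Agent.H96.AE.BMU
import Pool.Agent.H6.AE.Num

/-!
# CC: the core theorem, free of the sieve weight

* `CC_choose` (as `Vc_choose` in `Pool/Agent/H12/DM/Vc.lean`): `1/dlm m b = 40 (m+1)(4b+8) ≤ 480 (m+1) b` for `b ≥ 1`, so `P = (1/dlm m b + 5) (b/c) ≤ C' b^2`, and `√(4 P^2 √(3 (1/2)^b)) = 2 P (3 (1/2)^b)^{1/4} ≤ 2 P * 2 * r^b`
  with `r = √(√(1/2)) < 1`. So the left side is at most `C'' (b^2)^(j+2) r^b = C'' b^(2(j+2)) r^b`, which tends to `0` (`tendsto_pow_const_mul_const_pow_of_abs_lt_one`); `2 (j+4) + 3 ≤ 2^b` for all `b ≥ 2j + 11` (`b < 2^b`).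
* `CC`: `C` from `CORE j`, `b₁` from `Num (j+4)`, `c` from `mer2`. Choose `b` by `CC_choose` with `ε/2`; `y₀ = y₁ = 2^b`, `K = 2^b`, `P₁ = (1/dlm (j+4) b + 5) wp y₁`. As in `Vc`: `wp y₁ ≤ b/c`, so `P₁ ≤ P`; and
  `log x/H ≤ (1/2)^b`, `1/y₁ = (1/2)^b`, so `(1/2)^b + 1/y₁ + log x/H ≤ 3 (1/2)^b`. Choose `δ > 0` with `C (3P)^(j+1) √δ ≤ ε/2`.
  Given `y ≥ y₀`: `X` = maximum of the ones in `CORE`, `Num`, `BMU`, and `1 ≤ log x`. `V` from `Num`. By `BMU`, `|h| ≤ 2 Bm ≤ 2 P₁ uu`, `|G S n| ≤ ∏ 3 Bm ≤ (3 P₁)^(j+1) ∏ uu` (`Finset.prod_le_prod`, `|S| = j + 1`).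
  `CORE` with `A = 2 P₁`, `B = (3 P₁)^(j+1)`: the sum is at most `C (3P)^(j+1) √(δ + 4 P^2 √(3 (1/2)^b)) N H^(j+2)` and `√(a + b) ≤ √a + √b`.
-/

set_option autoImplicit false

namespace Pool.Agent.H96.AE

open Finset Pool.Agent.H17 Pool.Agent.H6.MF Pool.Agent.H6.MB Pool.Agent.H12.DM Pool.Agent.H6.AE

lemma CC_sqrt {P : ℝ} (hP : 0 ≤ P) (b : ℕ) :
    Real.sqrt (4 * P ^ 2 * Real.sqrt (3 * (1 / 2 : ℝ) ^ b)) ≤ 4 * P * (Real.sqrt (Real.sqrt (1 / 2))) ^ b := by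
  have hr : (0 : ℝ) ≤ Real.sqrt (Real.sqrt (1 / 2)) := Real.sqrt_nonneg _
  rw [Real.sqrt_le_left (by positivity)]
  have h1 : (Real.sqrt (Real.sqrt (1 / 2 : ℝ)) ^ b) ^ 2 = Real.sqrt (1 / 2 : ℝ) ^ b := by
    rw [← pow_mul, mul_comm b 2, pow_mul, Real.sq_sqrt (Real.sqrt_nonneg _)]
  have h2 : Real.sqrt (3 * (1 / 2 : ℝ) ^ b) ≤ 2 * (Real.sqrt (1 / 2)) ^ b := by
    rw [Real.sqrt_le_left (by positivity)]
    have : (Real.sqrt (1 / 2 : ℝ) ^ b) ^ 2 = (1 / 2 : ℝ) ^ b := by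
      rw [← pow_mul, mul_comm, pow_mul, Real.sq_sqrt (by norm_num)]
    rw [mul_pow, this]
    have : (0 : ℝ) < (1 / 2 : ℝ) ^ b := by positivity
    linarith
  have h3 : (4 * P * (Real.sqrt (Real.sqrt (1 / 2 : ℝ))) ^ b) ^ 2 = 16 * P ^ 2 * Real.sqrt (1 / 2 : ℝ) ^ b := by
    rw [mul_pow, h1]
    ring
  rw [h3]
  have h4 : 0 ≤ P ^ 2 * Real.sqrt (1 / 2 : ℝ) ^ b := by positivity
  calc 4 * P ^ 2 * Real.sqrt (3 * (1 / 2 : ℝ) ^ b) ≤ 4 * P ^ 2 * (2 * (Real.sqrt (1 / 2)) ^ b) :=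
        mul_le_mul_of_nonneg_left h2 (by positivity)
    _ ≤ 16 * P ^ 2 * Real.sqrt (1 / 2 : ℝ) ^ b := by nlinarith

lemma CC_choose (m j : ℕ) (C c ε : ℝ) (hC : 0 < C) (hc : 0 < c) (hε : 0 < ε) (b₁ : ℕ) : ∃ b : ℕ, b₁ ≤ b ∧ 2 ≤ b ∧
    2 * m + 3 ≤ 2 ^ b ∧
    C * (3 * ((1 / dlm m b + 5) * ((b : ℝ) / c))) ^ (j + 1) *
      Real.sqrt (4 * ((1 / dlm m b + 5) * ((b : ℝ) / c)) ^ 2 * Real.sqrt (3 * (1 / 2 : ℝ) ^ b)) ≤ ε := by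
  set r : ℝ := Real.sqrt (Real.sqrt (1 / 2)) with hr
  have hr0 : (0 : ℝ) ≤ r := Real.sqrt_nonneg _
  have hr1 : r < 1 := by
    rw [hr, Real.sqrt_lt' one_pos, one_pow, Real.sqrt_lt' one_pos]
    norm_num
  set K : ℝ := 325 * ((m : ℝ) + 1) / c with hK
  have hm0 : (0 : ℝ) ≤ m := Nat.cast_nonneg m
  have hK0 : 0 < K := by positivity
  set C₂ : ℝ := C * (3 * K) ^ (j + 1) * (4 * K) with hC₂
  have hlim : Filter.Tendsto (fun n : ℕ => C₂ * ((n : ℝ) ^ (2 * (j + 2)) * r ^ n)) Filter.atTop (nhds (C₂ * 0)) := by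
    apply Filter.Tendsto.const_mul
    apply tendsto_pow_const_mul_const_pow_of_abs_lt_one
    rw [abs_of_nonneg hr0]
    exact hr1
  rw [mul_zero] at hlim
  have h1 := hlim.eventually (gt_mem_nhds hε)
  obtain ⟨b, hb, hb1, hb2, hb3⟩ := (h1.and ((Filter.eventually_ge_atTop b₁).and ((Filter.eventually_ge_atTop 2).and
    (Filter.eventually_ge_atTop (2 * m + 3))))).exists
  refine ⟨b, hb1, hb2, hb3.trans Nat.lt_two_pow_self.le, ?_⟩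
  have hbR : (2 : ℝ) ≤ b := by exact_mod_cast hb2
  have hinv : 1 / dlm m b + 5 ≤ 325 * ((m : ℝ) + 1) * b := by
    unfold dlm
    rw [one_div_one_div]
    have h2 : 0 ≤ (m : ℝ) * b := by positivity
    have h3 : 0 ≤ (m : ℝ) * (b - 2) := mul_nonneg hm0 (by linarith)
    nlinarith
  have hinv0 : 0 ≤ 1 / dlm m b + 5 := by
    have := dlm_pos m b
    positivity
  set P : ℝ := (1 / dlm m b + 5) * ((b : ℝ) / c) with hP
  have hP0 : 0 ≤ P := by positivity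
  have hPK : P ≤ K * (b : ℝ) ^ 2 := by
    calc P ≤ 325 * ((m : ℝ) + 1) * b * ((b : ℝ) / c) := mul_le_mul_of_nonneg_right hinv (by positivity)
      _ = K * (b : ℝ) ^ 2 := by rw [hK]; ring
  calc C * (3 * P) ^ (j + 1) * Real.sqrt (4 * P ^ 2 * Real.sqrt (3 * (1 / 2 : ℝ) ^ b))
      ≤ C * (3 * P) ^ (j + 1) * (4 * P * r ^ b) := mul_le_mul_of_nonneg_left (CC_sqrt hP0 b) (by positivity)
    _ ≤ C * (3 * (K * (b : ℝ) ^ 2)) ^ (j + 1) * (4 * (K * (b : ℝ) ^ 2) * r ^ b) := by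
        gcongr
    _ = C₂ * ((b : ℝ) ^ (2 * (j + 2)) * r ^ b) := by
        rw [hC₂]
        rw [show (b : ℝ) ^ (2 * (j + 2)) = ((b : ℝ) ^ 2) ^ (j + 1) * (b : ℝ) ^ 2 by
          rw [← pow_mul, ← pow_add]; congr 1]
        rw [show 3 * (K * (b : ℝ) ^ 2) = (3 * K) * (b : ℝ) ^ 2 by ring, mul_pow (3 * K)]
        ring
    _ ≤ ε := hb.le

theorem CC (j : ℕ) (ε : ℝ) (hε : 0 < ε) : ∃ y₀ : ℕ, ∃ δ K : ℝ, 0 < δ ∧ 1 ≤ K ∧ ∀ y : ℕ, y₀ ≤ y → ∃ X : ℝ,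
    ∀ x : ℝ, X ≤ x → ∀ H : ℕ, K * Real.log x ≤ (H : ℝ) → (H : ℝ) ≤ 4 * (Real.log x) ^ 2 → ∀ h : ℤ → ℝ,
    (∀ n, |h n| ≤ 2 * Bm y x n) →
    (∀ D : Finset ℤ, D ⊆ Finset.Icc 1 (H : ℤ) →
      ∑ n ∈ rgH x H, (nf D h (n : ℤ)) ^ 2 ≤ δ * ((⌊x⌋₊ : ℝ) + 1) * (H : ℝ) ^ 2) →
    ∀ σ : Finset ℤ → ℤ → ℝ, (∀ S e, |σ S e| ≤ 1) → ∀ G : Finset ℤ → ℤ → ℝ,
    (∀ S ∈ Finset.powersetCard (j + 1) (Finset.Icc 1 (H : ℤ)), ∀ n, |G S n| ≤ ∏ c ∈ S, (3 * Bm y x (n - c))) →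
    |∑ S ∈ Finset.powersetCard (j + 1) (Finset.Icc 1 (H : ℤ)), ∑ n ∈ rgH x H,
        G S (n : ℤ) * ∑ e ∈ Finset.Icc 1 (H : ℤ) \ S, σ S e * h ((n : ℤ) - e)|
      ≤ ε * ((⌊x⌋₊ : ℝ) + 1) * (H : ℝ) ^ (j + 2) := by
  obtain ⟨C, hC, hCORE⟩ := CORE j
  obtain ⟨b₁, hNum⟩ := Num (j + 4)
  obtain ⟨c, hc, hmer⟩ := mer2
  obtain ⟨b, hb1, hb2, hbm, hbε⟩ := CC_choose (j + 4) j C c (ε / 2) hC hc (half_pos hε) b₁
  set y₁ : ℕ := 2 ^ b with hy₁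
  have hyR : (y₁ : ℝ) = 2 ^ b := by rw [hy₁]; push_cast; rfl
  have hy4 : 4 ≤ y₁ := by
    calc 4 = 2 ^ 2 := by norm_num
      _ ≤ 2 ^ b := Nat.pow_le_pow_right (by norm_num) hb2
  have hwp : wp y₁ ≤ (b : ℝ) / c := by
    rw [wp_eq]
    have h1 := hmer (y₁ : ℝ) (by exact_mod_cast (by omega : 2 ≤ y₁))
    have h2 : Real.log (y₁ : ℝ) ≤ (b : ℝ) := by
      rw [hyR, Real.log_pow]
      have : Real.log 2 ≤ 1 := by
        have := Real.log_two_lt_d9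
        linarith
      have hb0 : (0 : ℝ) ≤ b := Nat.cast_nonneg b
      nlinarith
    have h3 : 0 < Real.log (y₁ : ℝ) := Real.log_pos (by exact_mod_cast (by omega : 1 < y₁))
    have h4 : 0 < c / Real.log (y₁ : ℝ) := div_pos hc h3
    calc (EP 0 (y₁ : ℝ))⁻¹ ≤ (c / Real.log (y₁ : ℝ))⁻¹ := inv_anti₀ h4 h1
      _ = Real.log (y₁ : ℝ) / c := inv_div _ _
      _ ≤ (b : ℝ) / c := by
          exact div_le_div_of_nonneg_right h2 hc.le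
  have hwp0 := wp_pos y₁
  have hbR : (2 : ℝ) ≤ b := by exact_mod_cast hb2
  have hd := dlm_pos (j + 4) b
  have hC₁ : 0 < 1 / dlm (j + 4) b + 5 := by positivity
  set P : ℝ := (1 / dlm (j + 4) b + 5) * ((b : ℝ) / c) with hP
  have hP0 : 0 < P := by positivity
  set P₁ : ℝ := (1 / dlm (j + 4) b + 5) * wp y₁ with hP₁
  have hP₁0 : 0 ≤ P₁ := by positivity
  have hP₁P : P₁ ≤ P := mul_le_mul_of_nonneg_left hwp hC₁.le
  set q : ℝ := C * (3 * P) ^ (j + 1) with hq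
  have hq0 : 0 < q := by positivity
  set δ : ℝ := (ε / 2 / q) ^ 2 with hδ
  have hδ0 : 0 < δ := by positivity
  have hδs : q * Real.sqrt δ = ε / 2 := by
    rw [hδ, Real.sqrt_sq (by positivity)]
    field_simp
  have hK1 : (1 : ℝ) ≤ 2 ^ b := one_le_pow₀ (by norm_num)
  refine ⟨y₁, δ, 2 ^ b, hδ0, hK1, fun y hy => ?_⟩
  obtain ⟨X₁, hX₁⟩ := hNum b hb1
  obtain ⟨X₂, hX₂⟩ := BMU (j + 4) b y₁ y hy
  obtain ⟨X₃, hX₃⟩ := hCORE b y₁ y hbm hy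
  refine ⟨max (Real.exp 1) (max X₁ (max X₂ X₃)), fun x hx H hH1 hH2 h hh hwin σ hσ G hG => ?_⟩
  have hxe : Real.exp 1 ≤ x := (le_max_left _ _).trans hx
  have hx1' : X₁ ≤ x := ((le_max_left _ _).trans (le_max_right _ _)).trans hx
  have hx2' : X₂ ≤ x := (((le_max_left _ _).trans (le_max_right _ _)).trans (le_max_right _ _)).trans hx
  have hx3' : X₃ ≤ x := (((le_max_right _ _).trans (le_max_right _ _)).trans (le_max_right _ _)).trans hx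
  have hx0 : 0 < x := lt_of_lt_of_le (Real.exp_pos 1) hxe
  have hlog : 1 ≤ Real.log x := by rwa [Real.le_log_iff_exp_le hx0]
  have hx1 : 1 ≤ x := by
    have := Real.add_one_le_exp (1 : ℝ)
    linarith
  obtain ⟨V, hV⟩ := hX₁ x hx1'
  have hBu : ∀ n, Bm y x n ≤ P₁ * uu y₁ y x V n := fun n => hX₂ x hx2' V hV n
  have hHlog : Real.log x ≤ (H : ℝ) := by
    refine le_trans ?_ hH1
    nlinarith
  have hHpos : (0 : ℝ) < H := by linarith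
  have hBn : ∀ n, 0 ≤ Bm y x n := fun n => Bm_nonneg hx1 n
  have key := hX₃ x hx3' V hV H hHlog hH2 (2 * P₁) ((3 * P₁) ^ (j + 1)) δ (by positivity) (by positivity) hδ0.le h
    (fun n => by
      refine (hh n).trans ?_
      have := hBu n
      linarith) hwin σ hσ G (fun S hS n => by
      refine (hG S hS n).trans ?_
      have hcard : S.card = j + 1 := (Finset.mem_powersetCard.1 hS).2
      rw [← hcard, ← Finset.prod_const, ← Finset.prod_mul_distrib]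
      refine Finset.prod_le_prod (fun c _ => ?_) (fun c _ => ?_)
      · have := hBn (n - c)
        positivity
      · have := hBu (n - c)
        linarith)
  refine key.trans ?_
  have hN : (0 : ℝ) ≤ (⌊x⌋₊ : ℝ) + 1 := by positivity
  have hHp : (0 : ℝ) ≤ (H : ℝ) ^ (j + 2) := by positivity
  refine mul_le_mul_of_nonneg_right (mul_le_mul_of_nonneg_right ?_ hN) hHp
  have e1 : 1 / (y₁ : ℝ) = (1 / 2 : ℝ) ^ b := by
    rw [hyR, one_div, one_div, inv_pow]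
  have e2 : Real.log x / (H : ℝ) ≤ (1 / 2 : ℝ) ^ b := by
    rw [div_le_iff₀ hHpos]
    have e3 : (1 / 2 : ℝ) ^ b * (2 ^ b * Real.log x) ≤ (1 / 2 : ℝ) ^ b * (H : ℝ) :=
      mul_le_mul_of_nonneg_left hH1 (by positivity)
    have e4 : (1 / 2 : ℝ) ^ b * (2 ^ b * Real.log x) = Real.log x := by
      rw [← mul_assoc, ← mul_pow]
      norm_num
    linarith
  have e5 : (1 / 2 : ℝ) ^ b + 1 / (y₁ : ℝ) + Real.log x / (H : ℝ) ≤ 3 * (1 / 2 : ℝ) ^ b := by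
    rw [e1]
    linarith
  have e6 : (2 * P₁) ^ 2 * Real.sqrt ((1 / 2 : ℝ) ^ b + 1 / (y₁ : ℝ) + Real.log x / (H : ℝ)) ≤
      4 * P ^ 2 * Real.sqrt (3 * (1 / 2 : ℝ) ^ b) := by
    have e7 : (2 * P₁) ^ 2 ≤ 4 * P ^ 2 := by
      have : P₁ ^ 2 ≤ P ^ 2 := pow_le_pow_left₀ hP₁0 hP₁P 2
      nlinarith
    exact mul_le_mul e7 (Real.sqrt_le_sqrt e5) (Real.sqrt_nonneg _) (by positivity)
  have e8 : Real.sqrt (δ + (2 * P₁) ^ 2 *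
      Real.sqrt ((1 / 2 : ℝ) ^ b + 1 / (y₁ : ℝ) + Real.log x / (H : ℝ))) ≤
      Real.sqrt δ + Real.sqrt (4 * P ^ 2 * Real.sqrt (3 * (1 / 2 : ℝ) ^ b)) := by
    refine (Real.sqrt_le_sqrt (add_le_add_right e6 δ)).trans ?_
    rw [Real.sqrt_le_left (by positivity)]
    have f1 := Real.sq_sqrt hδ0.le
    have f2 : Real.sqrt (4 * P ^ 2 * Real.sqrt (3 * (1 / 2 : ℝ) ^ b)) ^ 2 =
        4 * P ^ 2 * Real.sqrt (3 * (1 / 2 : ℝ) ^ b) := Real.sq_sqrt (by positivity)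
    have f3 : 0 ≤ Real.sqrt δ * Real.sqrt (4 * P ^ 2 * Real.sqrt (3 * (1 / 2 : ℝ) ^ b)) := by positivity
    nlinarith
  have e9 : C * (3 * P₁) ^ (j + 1) ≤ q := by
    rw [hq]
    refine mul_le_mul_of_nonneg_left (pow_le_pow_left₀ (by positivity) ?_ _) hC.le
    linarith
  calc C * (3 * P₁) ^ (j + 1) * Real.sqrt (δ + (2 * P₁) ^ 2 *
        Real.sqrt ((1 / 2 : ℝ) ^ b + 1 / (y₁ : ℝ) + Real.log x / (H : ℝ)))
      ≤ q * (Real.sqrt δ + Real.sqrt (4 * P ^ 2 * Real.sqrt (3 * (1 / 2 : ℝ) ^ b))) :=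
        mul_le_mul e9 e8 (Real.sqrt_nonneg _) hq0.le
    _ ≤ ε := by
        rw [mul_add, hδs]
        linarith

end Pool.Agent.H96.AE
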