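import Pool.Agent.H96.AE.ALG
import Pool.Agent.H96.AE.ISO

/-!
# CO2: the second Cauchy-Schwarz step (abstract)

`u : ℤ → ℝ`, `u ≥ 1`, `T = u - 4`, so `|T| ≤ 5 u`, `4 + |T| ≤ 9 u`. `|h| ≤ A u`, `|σ| ≤ 1`, `Y C n = ∑_{e ∈ I \ C} σ C e * h (n - e)`. `P_j = powersetCard j I`.
1. For every `n`, `ALG` with `a c = 4`, `h c = T (n - c)`: `∏_{c ∈ C} u(n-c) - 4^{|C|} = ∑_{t ∈ C} T(n-t) * AA (C.erase t)`, and `|AA D| ≤ ∏_D (4 + |T(n-c)|) ≤ 9^{|D|} ∏_D u(n-c)` (`ALG_abs`).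
2. So `∑_{C ∈ P_{j+1}} ∑_n (∏_C u(n-c) - 4^(j+1)) (Y C n)^2 = ∑_{C ∈ P_{j+1}} ∑_{t ∈ C} Φ (C.erase t) t`, `Φ S t = ∑_n T(n-t) AA(S) (Y (insert t S) n)^2` (`insert t (C.erase t) = C`), which by `ISO1` is
   `∑_{S ∈ P_j} ∑_{t ∈ I \ S} ∑_n T(n-t) AA(S) (Y (insert t S) n)^2`.
3. Open the square: `(Y (insert t S) n)^2 = ∑_{e, e' ∈ I \ insert t S} σ(insert t S, e) σ(insert t S, e') h(n-e) h(n-e')`. For fixed `S`: the triples `(t,e,e')` with `t ∈ I \ S`, `e, e' ∈ I \ insert t S` are the triples with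
   `e, e' ∈ I \ S`, `t ∈ I \ insert e (insert e' S)`. So the sum is `∑_{S ∈ P_j} ∑_{e,e' ∈ I \ S} ∑_n AA(S) h(n-e) h(n-e') Z`, `Z = ∑_{t ∈ I \ insert e (insert e' S)} s S e e' t * T(n-t)` with
   `s S e e' t = σ (insert t S) e * σ (insert t S) e'` (this function `s`, `|s| ≤ 1`, is the witness).
4. Its absolute value is at most `9^j A^2 ∑ ∏_S u(n-c) u(n-e) u(n-e') |Z|`, and by Cauchy-Schwarz for the sum over all `(S,e,e',n)` with the weight `∏_S u(n-c) u(n-e) u(n-e') ≥ 0` its square is at most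
   `(9^j A^2)^2 * (∑ weight) * (∑ weight * Z^2)`.
-/

set_option autoImplicit false

namespace Pool.Agent.H96.AE

open Finset

theorem CO2_cs (P : Finset (Finset ℤ)) (J : Finset ℤ → Finset ℤ) (R : Finset ℕ)
    (w Z : Finset ℤ → ℤ → ℤ → ℕ → ℝ) (hw : ∀ S e e' n, 0 ≤ w S e e' n) :
    (∑ S ∈ P, ∑ e ∈ J S, ∑ e' ∈ J S, ∑ n ∈ R, w S e e' n * |Z S e e' n|) ^ 2 ≤
      (∑ S ∈ P, ∑ e ∈ J S, ∑ e' ∈ J S, ∑ n ∈ R, w S e e' n) *
      (∑ S ∈ P, ∑ e ∈ J S, ∑ e' ∈ J S, ∑ n ∈ R, w S e e' n * (Z S e e' n) ^ 2) := by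
  simp only [Finset.sum_sigma']
  apply Finset.sum_sq_le_sum_mul_sum_of_sq_le_mul
  · intro i _
    exact hw _ _ _ _
  · intro i _
    exact mul_nonneg (hw _ _ _ _) (sq_nonneg _)
  · intro i _
    rw [mul_pow, sq_abs]
    exact le_of_eq (by ring)

theorem CO2_swap (J : Finset ℤ) (F : ℤ → ℤ → ℤ → ℝ) :
    ∑ t ∈ J, ∑ e ∈ J.erase t, ∑ e' ∈ J.erase t, F t e e' =
      ∑ e ∈ J, ∑ e' ∈ J, ∑ t ∈ (J.erase e).erase e', F t e e' := by
  have h1 : ∀ t : ℤ, J.erase t = J.filter (fun e => e ≠ t) := by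
    intro t
    ext e
    simp [Finset.mem_erase, and_comm]
  have h2 : ∀ e e' : ℤ, (J.erase e).erase e' = J.filter (fun t => e ≠ t ∧ e' ≠ t) := by
    intro e e'
    ext t
    simp only [Finset.mem_erase, Finset.mem_filter, ne_eq]
    constructor
    · rintro ⟨a, b, c⟩
      exact ⟨c, fun h => b h.symm, fun h => a h.symm⟩
    · rintro ⟨a, b, c⟩
      exact ⟨fun h => c h.symm, fun h => b h.symm, a⟩
  have e1 : ∀ t ∈ J, (∑ e ∈ J.erase t, ∑ e' ∈ J.erase t, F t e e') =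
      ∑ e ∈ J, ∑ e' ∈ J, (if e ≠ t ∧ e' ≠ t then F t e e' else 0) := by
    intro t _
    rw [h1 t, Finset.sum_filter]
    refine Finset.sum_congr rfl fun e _ => ?_
    by_cases he : e ≠ t
    · rw [if_pos he, Finset.sum_filter]
      refine Finset.sum_congr rfl fun e' _ => ?_
      by_cases he' : e' ≠ t
      · rw [if_pos he', if_pos ⟨he, he'⟩]
      · rw [if_neg he', if_neg (fun h => he' h.2)]
    · rw [if_neg he]
      symm
      apply Finset.sum_eq_zero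
      intro e' _
      rw [if_neg (fun h => he h.1)]
  rw [Finset.sum_congr rfl e1, Finset.sum_comm]
  refine Finset.sum_congr rfl fun e _ => ?_
  rw [Finset.sum_comm]
  refine Finset.sum_congr rfl fun e' _ => ?_
  rw [h2, Finset.sum_filter]

theorem CO2_set1 (I S : Finset ℤ) (t : ℤ) : I \ insert t S = (I \ S).erase t := by
  ext e
  simp only [Finset.mem_sdiff, Finset.mem_insert, Finset.mem_erase, not_or, ne_eq]
  tauto

theorem CO2_set2 (I S : Finset ℤ) (e e' : ℤ) :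
    I \ insert e (insert e' S) = ((I \ S).erase e).erase e' := by
  ext t
  simp only [Finset.mem_sdiff, Finset.mem_insert, Finset.mem_erase, not_or, ne_eq]
  tauto

theorem CO2_T (x : ℝ) (hx : 1 ≤ x) : |x - 4| ≤ 5 * x ∧ |(4 : ℝ)| + |x - 4| ≤ 9 * x := by
  have h4 : |(4 : ℝ)| = 4 := abs_of_pos (by norm_num)
  have h5 : |x - 4| ≤ 5 * x := by
    rw [abs_le]
    constructor <;> linarith
  refine ⟨h5, ?_⟩
  rw [h4]
  linarith

theorem CO2_AA (u : ℤ → ℝ) (hu : ∀ n, 1 ≤ u n) (n : ℤ) (S : Finset ℤ) :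
    |AA (fun _ => (4 : ℝ)) (fun c => u (n - c) - 4) S| ≤ 9 ^ S.card * ∏ c ∈ S, u (n - c) := by
  refine (ALG_abs _ _ _).trans ?_
  rw [← Finset.prod_const, ← Finset.prod_mul_distrib]
  refine Finset.prod_le_prod (fun c _ => by positivity) (fun c _ => ?_)
  exact (CO2_T _ (hu _)).2

theorem CO2_open (J : Finset ℤ) (g : ℤ → ℝ) :
    (∑ e ∈ J, g e) ^ 2 = ∑ e ∈ J, ∑ e' ∈ J, g e * g e' := by
  rw [sq, Finset.sum_mul_sum]

theorem CO2_S (I S : Finset ℤ) (M : ℕ) (u h : ℤ → ℝ) (σ : Finset ℤ → ℤ → ℝ) (a : ℤ → ℝ) :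
    ∑ t ∈ I \ S, ∑ n ∈ Finset.range M, (u ((n : ℤ) - t) - 4) * a n *
        (∑ e ∈ I \ insert t S, σ (insert t S) e * h ((n : ℤ) - e)) ^ 2 =
      ∑ e ∈ I \ S, ∑ e' ∈ I \ S, ∑ n ∈ Finset.range M,
        a n * (h ((n : ℤ) - e) * h ((n : ℤ) - e')) *
        (∑ t ∈ I \ insert e (insert e' S), (σ (insert t S) e * σ (insert t S) e') *
          (u ((n : ℤ) - t) - 4)) := by
  have h1 : ∀ t ∈ I \ S, (∑ n ∈ Finset.range M, (u ((n : ℤ) - t) - 4) * a n *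
        (∑ e ∈ I \ insert t S, σ (insert t S) e * h ((n : ℤ) - e)) ^ 2) =
      ∑ e ∈ (I \ S).erase t, ∑ e' ∈ (I \ S).erase t, ∑ n ∈ Finset.range M,
        a n * (h ((n : ℤ) - e) * h ((n : ℤ) - e')) * ((σ (insert t S) e * σ (insert t S) e') *
          (u ((n : ℤ) - t) - 4)) := by
    intro t _
    rw [CO2_set1]
    have h2 : ∀ n ∈ Finset.range M, (u ((n : ℤ) - t) - 4) * a n *
        (∑ e ∈ (I \ S).erase t, σ (insert t S) e * h ((n : ℤ) - e)) ^ 2 =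
        ∑ e ∈ (I \ S).erase t, ∑ e' ∈ (I \ S).erase t,
        a n * (h ((n : ℤ) - e) * h ((n : ℤ) - e')) * ((σ (insert t S) e * σ (insert t S) e') *
          (u ((n : ℤ) - t) - 4)) := by
      intro n _
      rw [CO2_open, Finset.mul_sum]
      refine Finset.sum_congr rfl fun e _ => ?_
      rw [Finset.mul_sum]
      refine Finset.sum_congr rfl fun e' _ => ?_
      ring
    rw [Finset.sum_congr rfl h2, Finset.sum_comm]
    refine Finset.sum_congr rfl fun e _ => ?_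
    rw [Finset.sum_comm]
  rw [Finset.sum_congr rfl h1, CO2_swap]
  refine Finset.sum_congr rfl fun e _ => ?_
  refine Finset.sum_congr rfl fun e' _ => ?_
  rw [Finset.sum_comm, CO2_set2]
  refine Finset.sum_congr rfl fun n _ => ?_
  rw [Finset.mul_sum]

theorem CO2 (I : Finset ℤ) (j M : ℕ) (u h : ℤ → ℝ) (A : ℝ) (σ : Finset ℤ → ℤ → ℝ) (hu : ∀ n, 1 ≤ u n)
    (hA : 0 ≤ A) (hh : ∀ n, |h n| ≤ A * u n) (hσ : ∀ C e, |σ C e| ≤ 1) :
    ∃ s : Finset ℤ → ℤ → ℤ → ℤ → ℝ, (∀ S e e' t, |s S e e' t| ≤ 1) ∧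
    (∑ C ∈ Finset.powersetCard (j + 1) I, ∑ n ∈ Finset.range M,
        (∏ c ∈ C, u ((n : ℤ) - c)) * (∑ e ∈ I \ C, σ C e * h ((n : ℤ) - e)) ^ 2
      - 4 ^ (j + 1) * ∑ C ∈ Finset.powersetCard (j + 1) I, ∑ n ∈ Finset.range M,
        (∑ e ∈ I \ C, σ C e * h ((n : ℤ) - e)) ^ 2) ^ 2 ≤
    (9 ^ j * A ^ 2) ^ 2 *
      (∑ S ∈ Finset.powersetCard j I, ∑ e ∈ I \ S, ∑ e' ∈ I \ S, ∑ n ∈ Finset.range M,
        (∏ c ∈ S, u ((n : ℤ) - c)) * (u ((n : ℤ) - e) * u ((n : ℤ) - e'))) *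
      (∑ S ∈ Finset.powersetCard j I, ∑ e ∈ I \ S, ∑ e' ∈ I \ S, ∑ n ∈ Finset.range M,
        (∏ c ∈ S, u ((n : ℤ) - c)) * (u ((n : ℤ) - e) * u ((n : ℤ) - e')) *
        (∑ t ∈ I \ insert e (insert e' S), s S e e' t * (u ((n : ℤ) - t) - 4)) ^ 2) := by
  refine ⟨fun S e e' t => σ (insert t S) e * σ (insert t S) e', ?_, ?_⟩
  · intro S e e' t
    rw [abs_mul]
    exact mul_le_one₀ (hσ _ _) (abs_nonneg _) (hσ _ _)
  -- the difference as a sum of the telescoped terms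
  have hX : (∑ C ∈ Finset.powersetCard (j + 1) I, ∑ n ∈ Finset.range M,
        (∏ c ∈ C, u ((n : ℤ) - c)) * (∑ e ∈ I \ C, σ C e * h ((n : ℤ) - e)) ^ 2
      - 4 ^ (j + 1) * ∑ C ∈ Finset.powersetCard (j + 1) I, ∑ n ∈ Finset.range M,
        (∑ e ∈ I \ C, σ C e * h ((n : ℤ) - e)) ^ 2) =
      ∑ S ∈ Finset.powersetCard j I, ∑ e ∈ I \ S, ∑ e' ∈ I \ S, ∑ n ∈ Finset.range M,
        AA (fun _ => (4 : ℝ)) (fun c => u ((n : ℤ) - c) - 4) S *
          (h ((n : ℤ) - e) * h ((n : ℤ) - e')) *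
        (∑ t ∈ I \ insert e (insert e' S), (σ (insert t S) e * σ (insert t S) e') *
          (u ((n : ℤ) - t) - 4)) := by
    have h1 : (∑ C ∈ Finset.powersetCard (j + 1) I, ∑ n ∈ Finset.range M,
        (∏ c ∈ C, u ((n : ℤ) - c)) * (∑ e ∈ I \ C, σ C e * h ((n : ℤ) - e)) ^ 2
      - 4 ^ (j + 1) * ∑ C ∈ Finset.powersetCard (j + 1) I, ∑ n ∈ Finset.range M,
        (∑ e ∈ I \ C, σ C e * h ((n : ℤ) - e)) ^ 2) =
        ∑ C ∈ Finset.powersetCard (j + 1) I, ∑ t ∈ C,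
          (fun (S : Finset ℤ) (t : ℤ) => ∑ n ∈ Finset.range M, (u ((n : ℤ) - t) - 4) *
            AA (fun _ => (4 : ℝ)) (fun c => u ((n : ℤ) - c) - 4) S *
            (∑ e ∈ I \ insert t S, σ (insert t S) e * h ((n : ℤ) - e)) ^ 2) (C.erase t) t := by
      rw [Finset.mul_sum, ← Finset.sum_sub_distrib]
      refine Finset.sum_congr rfl fun C hC => ?_
      have hcard : C.card = j + 1 := (Finset.mem_powersetCard.1 hC).2
      rw [Finset.mul_sum, ← Finset.sum_sub_distrib]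
      have h2 : ∀ n ∈ Finset.range M,
          (∏ c ∈ C, u ((n : ℤ) - c)) * (∑ e ∈ I \ C, σ C e * h ((n : ℤ) - e)) ^ 2 -
            4 ^ (j + 1) * (∑ e ∈ I \ C, σ C e * h ((n : ℤ) - e)) ^ 2 =
          ∑ t ∈ C, (u ((n : ℤ) - t) - 4) *
            AA (fun _ => (4 : ℝ)) (fun c => u ((n : ℤ) - c) - 4) (C.erase t) *
            (∑ e ∈ I \ C, σ C e * h ((n : ℤ) - e)) ^ 2 := by
        intro n _
        have h3 := ALG (fun _ => (4 : ℝ)) (fun c => u ((n : ℤ) - c) - 4) C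
        have h4 : ∏ c ∈ C, ((4 : ℝ) + (u ((n : ℤ) - c) - 4)) = ∏ c ∈ C, u ((n : ℤ) - c) :=
          Finset.prod_congr rfl fun c _ => by ring
        simp only [h4, Finset.prod_const, hcard] at h3
        rw [← sub_mul, h3, Finset.sum_mul]
      rw [Finset.sum_congr rfl h2, Finset.sum_comm]
      refine Finset.sum_congr rfl fun t ht => ?_
      simp only [Finset.insert_erase ht]
    refine h1.trans ((ISO1 I j (fun (S : Finset ℤ) (t : ℤ) => ∑ n ∈ Finset.range M,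
            (u ((n : ℤ) - t) - 4) * AA (fun _ => (4 : ℝ)) (fun c => u ((n : ℤ) - c) - 4) S *
            (∑ e ∈ I \ insert t S, σ (insert t S) e * h ((n : ℤ) - e)) ^ 2)).trans ?_)
    refine Finset.sum_congr rfl fun S _ => ?_
    exact CO2_S I S M u h σ (fun n => AA (fun _ => (4 : ℝ)) (fun c => u (n - c) - 4) S)
  rw [hX]
  have hw : ∀ (S : Finset ℤ) (e e' : ℤ) (n : ℕ),
      0 ≤ (∏ c ∈ S, u ((n : ℤ) - c)) * (u ((n : ℤ) - e) * u ((n : ℤ) - e')) := by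
    intro S e e' n
    have h1 : ∀ m, 0 ≤ u m := fun m => le_trans zero_le_one (hu m)
    exact mul_nonneg (Finset.prod_nonneg fun c _ => h1 _) (mul_nonneg (h1 _) (h1 _))
  have hcs := CO2_cs (Finset.powersetCard j I) (fun S => I \ S) (Finset.range M)
    (fun S e e' n => (∏ c ∈ S, u ((n : ℤ) - c)) * (u ((n : ℤ) - e) * u ((n : ℤ) - e')))
    (fun S e e' n => ∑ t ∈ I \ insert e (insert e' S), (σ (insert t S) e * σ (insert t S) e') *
          (u ((n : ℤ) - t) - 4)) hw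
  have habs : |∑ S ∈ Finset.powersetCard j I, ∑ e ∈ I \ S, ∑ e' ∈ I \ S, ∑ n ∈ Finset.range M,
        AA (fun _ => (4 : ℝ)) (fun c => u ((n : ℤ) - c) - 4) S *
          (h ((n : ℤ) - e) * h ((n : ℤ) - e')) *
        (∑ t ∈ I \ insert e (insert e' S), (σ (insert t S) e * σ (insert t S) e') *
          (u ((n : ℤ) - t) - 4))| ≤
      (9 ^ j * A ^ 2) * ∑ S ∈ Finset.powersetCard j I, ∑ e ∈ I \ S, ∑ e' ∈ I \ S,
        ∑ n ∈ Finset.range M, ((∏ c ∈ S, u ((n : ℤ) - c)) * (u ((n : ℤ) - e) * u ((n : ℤ) - e'))) *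
        |∑ t ∈ I \ insert e (insert e' S), (σ (insert t S) e * σ (insert t S) e') *
          (u ((n : ℤ) - t) - 4)| := by
    rw [Finset.mul_sum]
    refine (Finset.abs_sum_le_sum_abs _ _).trans (Finset.sum_le_sum fun S hS => ?_)
    have hcard : S.card = j := (Finset.mem_powersetCard.1 hS).2
    rw [Finset.mul_sum]
    refine (Finset.abs_sum_le_sum_abs _ _).trans (Finset.sum_le_sum fun e _ => ?_)
    rw [Finset.mul_sum]
    refine (Finset.abs_sum_le_sum_abs _ _).trans (Finset.sum_le_sum fun e' _ => ?_)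
    rw [Finset.mul_sum]
    refine (Finset.abs_sum_le_sum_abs _ _).trans (Finset.sum_le_sum fun n _ => ?_)
    rw [abs_mul, abs_mul, abs_mul, ← mul_assoc (9 ^ j * A ^ 2)]
    refine mul_le_mul_of_nonneg_right ?_ (abs_nonneg _)
    have h1 := CO2_AA u hu n S
    rw [hcard] at h1
    have h2 : |h ((n : ℤ) - e)| * |h ((n : ℤ) - e')| ≤
        (A * u ((n : ℤ) - e)) * (A * u ((n : ℤ) - e')) :=
      mul_le_mul (hh _) (hh _) (abs_nonneg _)
        (mul_nonneg hA (le_trans zero_le_one (hu _)))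
    have h3 : 0 ≤ (9 : ℝ) ^ j * ∏ c ∈ S, u ((n : ℤ) - c) :=
      mul_nonneg (by positivity) (Finset.prod_nonneg fun c _ => le_trans zero_le_one (hu _))
    calc |AA (fun _ => (4 : ℝ)) (fun c => u ((n : ℤ) - c) - 4) S| *
          (|h ((n : ℤ) - e)| * |h ((n : ℤ) - e')|) ≤
        (9 ^ j * ∏ c ∈ S, u ((n : ℤ) - c)) * ((A * u ((n : ℤ) - e)) * (A * u ((n : ℤ) - e'))) :=
          mul_le_mul h1 h2 (by positivity) h3
      _ = (9 ^ j * A ^ 2) * ((∏ c ∈ S, u ((n : ℤ) - c)) *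
          (u ((n : ℤ) - e) * u ((n : ℤ) - e'))) := by ring
  refine (le_of_eq (sq_abs _).symm).trans ?_
  refine (pow_le_pow_left₀ (abs_nonneg _) habs 2).trans ?_
  rw [mul_pow, mul_assoc]
  exact mul_le_mul_of_nonneg_left hcs (by positivity)

end Pool.Agent.H96.AE
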