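import Pool.Agent.H96.AE.SUb
import Pool.Agent.H96.AE.CO2
import Pool.Agent.H12.DM.Bu

/-!
# CORE: a function with small windows is orthogonal to products of other functions, on average over the shifts

`N = ⌊x⌋₊ + 1`, `M = N + H ≤ 2 N` (for large `x`: `H ≤ 4 (log x)^2 ≤ x ≤ N`), `rgH x H = range M`, `x ≤ N ≤ M`, `I = Icc 1 H`, `P_i = powersetCard i I`, `u = uu y₁ y x V ≥ 1` (`one_le_uu`, as `V ≥ 0`), `m = j + 4`,
`Y S n = ∑_{e ∈ I \ S} σ S e * h (n - e)`, `τ = (1/2)^b + 1/y₁ + log x/H`.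
1. The sum is at most `B ∑_{S ∈ P_{j+1}} ∑_n (∏_S u(n-c)) |Y S n| ≤ B (∑ ∑ ∏_S u)^{1/2} W^{1/2}`, `W = ∑_{S ∈ P_{j+1}} ∑_n (∏_S u) Y^2` (Cauchy-Schwarz). The first factor is `≤ (C₁ M H^(j+1))^{1/2}` (`SU1` with `i = j + 1`).
2. Windows: for every `S`, `∑_{n<M} (Y S n)^2 ≤ 10 δ N H^2`: `Bu1` (`Pool/Agent/H12/DM/Bu.lean`) with `f = h`, `S := δ N H^2`, `w e = if e ∈ S then 0 else σ S e` (`wf H w h n = Y S n`; `nf D h n = ∑_{d∈D} h(n-d)` by definition). So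
   `∑_{S ∈ P_{j+1}} ∑_n Y^2 ≤ 10 δ N H^(j+3)` (`ISO_card`, `Int.card_Icc`).
3. `CO2` with this `u`, `h`, `A`, `σ`; `SU2` and `SU3` (`m = j + 4`, the `s` given by `CO2`): `W ≤ 4^(j+1) * 10 δ N H^(j+3) + 9^j A^2 √(C₂ M H^(j+2) * C₃ M H^(j+4) τ) ≤ C₄ (δ + A^2 √τ) N H^(j+3)` (`M ≤ 2N`, `√(H^(2j+6)) = H^(j+3)`).
4. Together `≤ B √(2 C₁ N H^(j+1)) √(C₄ (δ + A^2 √τ) N H^(j+3)) = B √(2 C₁ C₄) √(δ + A^2 √τ) N H^(j+2)`.
-/

set_option autoImplicit false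

namespace Pool.Agent.H96.AE

open Finset Pool.Agent.H17 Pool.Agent.H6.MF Pool.Agent.H6.MB Pool.Agent.H12.DM Pool.Agent.H6.AE

/-- Cauchy-Schwarz over two nested sums -/
lemma CORE_cs (P : Finset (Finset ℤ)) (R : Finset ℕ) (a Y : Finset ℤ → ℕ → ℝ) (ha : ∀ S n, 0 ≤ a S n) :
    (∑ S ∈ P, ∑ n ∈ R, a S n * |Y S n|) ^ 2 ≤
      (∑ S ∈ P, ∑ n ∈ R, a S n) * (∑ S ∈ P, ∑ n ∈ R, a S n * (Y S n) ^ 2) := by
  rw [← Finset.sum_product' P R (fun S n => a S n * |Y S n|), ← Finset.sum_product' P R (fun S n => a S n),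
    ← Finset.sum_product' P R (fun S n => a S n * (Y S n) ^ 2)]
  refine Finset.sum_sq_le_sum_mul_sum_of_sq_le_mul _ (fun i _ => ha _ _)
    (fun i _ => mul_nonneg (ha _ _) (sq_nonneg _)) (fun i _ => ?_)
  rw [mul_pow, sq_abs]
  exact le_of_eq (by ring)

/-- the windows with arbitrary signs -/
lemma CORE_win {M H : ℕ} {h : ℤ → ℝ} {T : ℝ}
    (hD : ∀ D : Finset ℤ, D ⊆ Finset.Icc 1 (H : ℤ) → ∑ n ∈ Finset.range M, (nf D h (n : ℤ)) ^ 2 ≤ T)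
    (S : Finset ℤ) (σ : ℤ → ℝ) (hσ : ∀ e, |σ e| ≤ 1) :
    ∑ n ∈ Finset.range M, (∑ e ∈ Finset.Icc 1 (H : ℤ) \ S, σ e * h ((n : ℤ) - e)) ^ 2 ≤ 10 * T := by
  have h1 := Bu1 M H h T (fun D hDI => hD D hDI) (fun e => if e ∈ S then 0 else σ e) (fun d => by
    by_cases hd : d ∈ S
    · simp [hd]
    · simp only [hd, if_false]
      exact hσ d)
  have h2 : ∀ n : ℕ, wf H (fun e => if e ∈ S then 0 else σ e) h (n : ℤ) =
      ∑ e ∈ Finset.Icc 1 (H : ℤ) \ S, σ e * h ((n : ℤ) - e) := by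
    intro n
    unfold wf
    rw [← Finset.filter_notMem_eq_sdiff, Finset.sum_filter]
    refine Finset.sum_congr rfl fun d _ => ?_
    by_cases hd : d ∈ S
    · simp [hd]
    · simp [hd]
  simp only [h2] at h1
  exact h1

/-- a bound from a bound of the square of a difference -/
lemma CORE_sq {W W0 k Q Z : ℝ} (hk : 0 ≤ k) (hZ : 0 ≤ Z) (h : (W - W0) ^ 2 ≤ k ^ 2 * Q) (hQ : Q ≤ Z ^ 2) :
    W ≤ W0 + k * Z := by
  have h1 : (W - W0) ^ 2 ≤ (k * Z) ^ 2 := by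
    rw [mul_pow]
    exact h.trans (mul_le_mul_of_nonneg_left hQ (sq_nonneg k))
  have h2 : W - W0 ≤ k * Z := (abs_le_of_sq_le_sq' h1 (mul_nonneg hk hZ)).2
  linarith

/-- the last step -/
lemma CORE_fin {T B N M C₁ C₂ C₃ K δ A τ h q W : ℝ} (hB : 0 ≤ B) (hN : 0 ≤ N) (hM : M ≤ 2 * N) (hM0 : 0 ≤ M)
    (hC₁ : 0 ≤ C₁) (hC₂ : 0 ≤ C₂) (hC₃ : 0 ≤ C₃) (hK : 0 ≤ K) (hδ : 0 ≤ δ) (hh : 0 ≤ h) (hq : 0 ≤ q)
    (hT : T ^ 2 ≤ (C₁ * M * q) * W)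
    (hW : W ≤ K * (10 * (δ * N * h ^ 2)) * q + C₂ * A ^ 2 * (C₃ * M * (q * h ^ 2) * Real.sqrt τ)) :
    B * T ≤ Real.sqrt (2 * C₁ * (10 * K + 2 * C₂ * C₃)) * B * Real.sqrt (δ + A ^ 2 * Real.sqrt τ) * N * (q * h) := by
  have hs : 0 ≤ Real.sqrt τ := Real.sqrt_nonneg _
  have h1 : W ≤ (10 * K + 2 * C₂ * C₃) * (δ + A ^ 2 * Real.sqrt τ) * N * (q * h ^ 2) := by
    have e1 : C₂ * A ^ 2 * (C₃ * M * (q * h ^ 2) * Real.sqrt τ) ≤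
        C₂ * A ^ 2 * (C₃ * (2 * N) * (q * h ^ 2) * Real.sqrt τ) := by
      gcongr
    have e2 : 0 ≤ 10 * K * (A ^ 2 * Real.sqrt τ) * N * (q * h ^ 2) := by positivity
    have e3 : 0 ≤ 2 * C₂ * C₃ * δ * N * (q * h ^ 2) := by positivity
    nlinarith [hW, e1, e2, e3]
  have h2 : T ^ 2 ≤ (Real.sqrt (2 * C₁ * (10 * K + 2 * C₂ * C₃)) * Real.sqrt (δ + A ^ 2 * Real.sqrt τ) * N * (q * h)) ^ 2 := by
    rw [mul_pow, mul_pow, mul_pow, Real.sq_sqrt (by positivity), Real.sq_sqrt (by positivity)]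
    calc T ^ 2 ≤ (C₁ * M * q) * W := hT
      _ ≤ (C₁ * (2 * N) * q) * ((10 * K + 2 * C₂ * C₃) * (δ + A ^ 2 * Real.sqrt τ) * N * (q * h ^ 2)) := by
          refine (mul_le_mul_of_nonneg_left h1 (by positivity)).trans ?_
          refine mul_le_mul_of_nonneg_right ?_ (by positivity)
          gcongr
      _ = _ := by ring
  have h3 : T ≤ Real.sqrt (2 * C₁ * (10 * K + 2 * C₂ * C₃)) * Real.sqrt (δ + A ^ 2 * Real.sqrt τ) * N * (q * h) :=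
    (abs_le_of_sq_le_sq' h2 (by positivity)).2
  calc B * T ≤ B * (Real.sqrt (2 * C₁ * (10 * K + 2 * C₂ * C₃)) * Real.sqrt (δ + A ^ 2 * Real.sqrt τ) * N * (q * h)) :=
        mul_le_mul_of_nonneg_left h3 hB
    _ = _ := by ring

theorem CORE (j : ℕ) : ∃ C : ℝ, 0 < C ∧ ∀ b y₁ y : ℕ, 2 * (j + 4) + 3 ≤ y₁ → y₁ ≤ y → ∃ X : ℝ,
    ∀ x : ℝ, X ≤ x → ∀ V : ℤ → ℝ, GoodVm (j + 4) b x V → ∀ H : ℕ, Real.log x ≤ (H : ℝ) →
    (H : ℝ) ≤ 4 * (Real.log x) ^ 2 → ∀ A B δ : ℝ, 0 ≤ A → 0 ≤ B → 0 ≤ δ → ∀ h : ℤ → ℝ,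
    (∀ n, |h n| ≤ A * uu y₁ y x V n) →
    (∀ D : Finset ℤ, D ⊆ Finset.Icc 1 (H : ℤ) →
      ∑ n ∈ rgH x H, (nf D h (n : ℤ)) ^ 2 ≤ δ * ((⌊x⌋₊ : ℝ) + 1) * (H : ℝ) ^ 2) →
    ∀ σ : Finset ℤ → ℤ → ℝ, (∀ S e, |σ S e| ≤ 1) → ∀ G : Finset ℤ → ℤ → ℝ,
    (∀ S ∈ Finset.powersetCard (j + 1) (Finset.Icc 1 (H : ℤ)), ∀ n, |G S n| ≤ B * ∏ c ∈ S, uu y₁ y x V (n - c)) →
    |∑ S ∈ Finset.powersetCard (j + 1) (Finset.Icc 1 (H : ℤ)), ∑ n ∈ rgH x H,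
        G S (n : ℤ) * ∑ e ∈ Finset.Icc 1 (H : ℤ) \ S, σ S e * h ((n : ℤ) - e)|
      ≤ C * B * Real.sqrt (δ + A ^ 2 * Real.sqrt ((1 / 2 : ℝ) ^ b + 1 / (y₁ : ℝ) + Real.log x / (H : ℝ))) *
        ((⌊x⌋₊ : ℝ) + 1) * (H : ℝ) ^ (j + 2) := by
  obtain ⟨C₁, hC₁, h₁⟩ := SU1 (j + 4) (j + 1) (by omega) (by omega)
  obtain ⟨C₂, hC₂, h₂⟩ := SU2 (j + 4) j (by omega)
  obtain ⟨C₃, hC₃, h₃⟩ := SU3 (j + 4) j le_rfl
  refine ⟨Real.sqrt (2 * C₁ * (10 * 4 ^ (j + 1) + 2 * 9 ^ j * Real.sqrt (C₂ * C₃))), Real.sqrt_pos.2 (by positivity),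
    fun b y₁ y hy h1 => ?_⟩
  obtain ⟨X1, hX1⟩ := h₁ b y₁ y (by omega) h1
  obtain ⟨X2, hX2⟩ := h₂ b y₁ y (by omega) h1
  obtain ⟨X3, hX3⟩ := h₃ b y₁ y hy h1
  obtain ⟨X4, hX4⟩ : ∃ X : ℝ, ∀ x : ℝ, X ≤ x → 4 * (Real.log x) ^ 2 ≤ x := by
    have h5 := (Real.isLittleO_pow_log_id_atTop (n := 2)).bound (c := 1 / 4) (by norm_num)
    obtain ⟨X, hX⟩ := Filter.eventually_atTop.1 h5
    refine ⟨max X 0, fun x hx => ?_⟩
    have h6 := hX x (le_trans (le_max_left _ _) hx)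
    have h7 : 0 ≤ x := le_trans (le_max_right _ _) hx
    simp only [id, Real.norm_eq_abs, abs_of_nonneg h7, abs_of_nonneg (sq_nonneg (Real.log x))] at h6
    linarith
  refine ⟨max (max (max X1 X2) (max X3 X4)) (Real.exp 1), fun x hx V hV H hH1 hH2 A B δ hA hB hδ h hh hD σ hσ G hG => ?_⟩
  have hx1 : X1 ≤ x := le_trans (le_trans (le_trans (le_max_left _ _) (le_max_left _ _)) (le_max_left _ _)) hx
  have hx2 : X2 ≤ x := le_trans (le_trans (le_trans (le_max_right _ _) (le_max_left _ _)) (le_max_left _ _)) hx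
  have hx3 : X3 ≤ x := le_trans (le_trans (le_trans (le_max_left _ _) (le_max_right _ _)) (le_max_left _ _)) hx
  have hx4 : X4 ≤ x := le_trans (le_trans (le_trans (le_max_right _ _) (le_max_right _ _)) (le_max_left _ _)) hx
  have hxe : Real.exp 1 ≤ x := le_trans (le_max_right _ _) hx
  have hL1 : 1 ≤ Real.log x := (Real.le_log_iff_exp_le (lt_of_lt_of_le (Real.exp_pos 1) hxe)).2 hxe
  have hH0 : (0 : ℝ) < H := by linarith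
  have hV0 : ∀ n, 0 ≤ V n := hV.1
  have hu1 : ∀ n : ℤ, 1 ≤ uu y₁ y x V n := fun n => one_le_uu hV0 n
  have hu0 : ∀ n : ℤ, 0 ≤ uu y₁ y x V n := fun n => uu_nonneg hV0 n
  have hxN : x ≤ (⌊x⌋₊ : ℝ) + 1 := (Nat.lt_floor_add_one x).le
  have hM : x ≤ ((⌊x⌋₊ + 1 + H : ℕ) : ℝ) := by
    push_cast
    linarith
  have hM2 : ((⌊x⌋₊ + 1 + H : ℕ) : ℝ) ≤ 2 * ((⌊x⌋₊ : ℝ) + 1) := by
    have h5 := hX4 x hx4
    push_cast
    linarith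
  have hIc : (Finset.Icc 1 (H : ℤ)).card = H := by
    rw [Int.card_Icc]
    omega
  set M : ℕ := ⌊x⌋₊ + 1 + H with hMdef
  set N : ℝ := (⌊x⌋₊ : ℝ) + 1 with hNdef
  have hN0 : 0 ≤ N := by positivity
  set I : Finset ℤ := Finset.Icc 1 (H : ℤ) with hI
  set τ : ℝ := (1 / 2 : ℝ) ^ b + 1 / (y₁ : ℝ) + Real.log x / (H : ℝ) with hτ
  have hτ0 : 0 ≤ τ := by
    have : 0 ≤ Real.log x := by linarith
    positivity
  have hr : rgH x H = Finset.range M := rfl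
  rw [hr] at *
  obtain ⟨s, hs, hco⟩ := CO2 I j M (uu y₁ y x V) h A σ hu1 hA hh hσ
  have hSU1 := hX1 x hx1 V hV H hH1 hH2 M hM
  have hSU2 := hX2 x hx2 V hV H hH1 hH2 M hM
  have hSU3 := hX3 x hx3 V hV H hH1 hH2 M hM s hs
  -- the main sum
  set T : ℝ := ∑ S ∈ Finset.powersetCard (j + 1) I, ∑ n ∈ Finset.range M,
    (∏ c ∈ S, uu y₁ y x V ((n : ℤ) - c)) * |∑ e ∈ I \ S, σ S e * h ((n : ℤ) - e)| with hT
  have hpn : ∀ (S : Finset ℤ) (n : ℕ), 0 ≤ ∏ c ∈ S, uu y₁ y x V ((n : ℤ) - c) :=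
    fun S n => Finset.prod_nonneg fun c _ => hu0 _
  have hT0 : 0 ≤ T := Finset.sum_nonneg fun S _ => Finset.sum_nonneg fun n _ => mul_nonneg (hpn S n) (abs_nonneg _)
  have hstep : |∑ S ∈ Finset.powersetCard (j + 1) I, ∑ n ∈ Finset.range M,
        G S (n : ℤ) * ∑ e ∈ I \ S, σ S e * h ((n : ℤ) - e)| ≤ B * T := by
    rw [hT, Finset.mul_sum]
    refine (Finset.abs_sum_le_sum_abs _ _).trans (Finset.sum_le_sum fun S hS => ?_)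
    rw [Finset.mul_sum]
    refine (Finset.abs_sum_le_sum_abs _ _).trans (Finset.sum_le_sum fun n _ => ?_)
    rw [abs_mul, ← mul_assoc]
    exact mul_le_mul_of_nonneg_right (hG S hS (n : ℤ)) (abs_nonneg _)
  refine hstep.trans ?_
  set W : ℝ := ∑ S ∈ Finset.powersetCard (j + 1) I, ∑ n ∈ Finset.range M,
    (∏ c ∈ S, uu y₁ y x V ((n : ℤ) - c)) * (∑ e ∈ I \ S, σ S e * h ((n : ℤ) - e)) ^ 2 with hWdef
  have hW0 : 0 ≤ W := Finset.sum_nonneg fun S _ => Finset.sum_nonneg fun n _ => mul_nonneg (hpn S n) (sq_nonneg _)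
  have hcs : T ^ 2 ≤ (C₁ * (M : ℝ) * (H : ℝ) ^ (j + 1)) * W := by
    refine (CORE_cs (Finset.powersetCard (j + 1) I) (Finset.range M)
      (fun S n => ∏ c ∈ S, uu y₁ y x V ((n : ℤ) - c)) (fun S n => ∑ e ∈ I \ S, σ S e * h ((n : ℤ) - e)) hpn).trans ?_
    exact mul_le_mul_of_nonneg_right hSU1 hW0
  have hwin : ∑ S ∈ Finset.powersetCard (j + 1) I, ∑ n ∈ Finset.range M,
      (∑ e ∈ I \ S, σ S e * h ((n : ℤ) - e)) ^ 2 ≤ (10 * (δ * N * (H : ℝ) ^ 2)) * (H : ℝ) ^ (j + 1) := by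
    calc _ ≤ ∑ S ∈ Finset.powersetCard (j + 1) I, 10 * (δ * N * (H : ℝ) ^ 2) :=
          Finset.sum_le_sum fun S _ => CORE_win hD S (σ S) (hσ S)
      _ = ((Finset.powersetCard (j + 1) I).card : ℝ) * (10 * (δ * N * (H : ℝ) ^ 2)) := by
          rw [Finset.sum_const, nsmul_eq_mul]
      _ ≤ (H : ℝ) ^ (j + 1) * (10 * (δ * N * (H : ℝ) ^ 2)) := by
          refine mul_le_mul_of_nonneg_right ?_ (by positivity)
          have h5 := ISO_card I (j + 1)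
          rw [hIc] at h5
          exact_mod_cast h5
      _ = _ := by ring
  have hWb : W ≤ 4 ^ (j + 1) * (10 * (δ * N * (H : ℝ) ^ 2)) * (H : ℝ) ^ (j + 1) +
      9 ^ j * A ^ 2 * (Real.sqrt (C₂ * C₃) * (M : ℝ) * ((H : ℝ) ^ (j + 1) * (H : ℝ) ^ 2) * Real.sqrt τ) := by
    have h5 := CORE_sq (Z := Real.sqrt (C₂ * C₃) * (M : ℝ) * ((H : ℝ) ^ (j + 1) * (H : ℝ) ^ 2) * Real.sqrt τ)
      (k := 9 ^ j * A ^ 2) (W := W) (by positivity) (by positivity) (le_trans hco (le_of_eq (mul_assoc _ _ _))) (by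
        rw [mul_pow, mul_pow, mul_pow, Real.sq_sqrt (by positivity), Real.sq_sqrt hτ0]
        calc _ ≤ (C₂ * (M : ℝ) * (H : ℝ) ^ (j + 2)) * (C₃ * (M : ℝ) * (H : ℝ) ^ (j + 4) * τ) := by
              refine mul_le_mul hSU2 hSU3 ?_ (by positivity)
              refine Finset.sum_nonneg fun S _ => Finset.sum_nonneg fun e _ => Finset.sum_nonneg fun e' _ =>
                Finset.sum_nonneg fun n _ => mul_nonneg (mul_nonneg (hpn S n) (mul_nonneg (hu0 _) (hu0 _))) (sq_nonneg _)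
          _ = _ := by ring)
    refine h5.trans ?_
    have h6 := mul_le_mul_of_nonneg_left hwin (show (0 : ℝ) ≤ 4 ^ (j + 1) by positivity)
    linarith
  have hfin := CORE_fin (T := T) (B := B) (N := N) (M := (M : ℝ)) (C₁ := C₁) (C₂ := 9 ^ j) (C₃ := Real.sqrt (C₂ * C₃))
    (K := 4 ^ (j + 1)) (δ := δ) (A := A) (τ := τ) (h := (H : ℝ)) (q := (H : ℝ) ^ (j + 1)) (W := W) hB hN0 hM2
    (Nat.cast_nonneg M) hC₁.le (by positivity) (Real.sqrt_nonneg _) (by positivity) hδ hH0.le (by positivity)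
    hcs hWb
  refine hfin.trans (le_of_eq ?_)
  ring

end Pool.Agent.H96.AE
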