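import Pool.Agent.H96.AE.RRm
import Pool.Agent.H96.AE.TRm
import Pool.Agent.H96.AE.OBm
import Pool.Agent.H12.DM.Cd

/-!
# CSm: crude correlation bounds, with exponents

(As `Cd` in `Pool/Agent/H12/DM/Cd.lean`, but simpler.) `w = yy x`, `ρ = (EP w z)⁻¹ ≥ 1`, `L = log x ≥ 1`.

1. `uu = ∑_{i < 4} wt i`, and `(∑_i a_i)^e ≤ 4 ∑_i a_i^e` for `e = 1, 2`, `a_i ≥ 0` (Cauchy-Schwarz). So
   `∏_{a ∈ s} uu(n-a)^{e a} ≤ 4^m ∏_{a ∈ s} ∑_i wt i (n-a)^{e a}`; expand (`Finset.prod_sum`, or induction on `s`, or `Finset.prod_univ_sum` over the subtype): at most `4^m` terms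
   `∏_{a ∈ s} wt (τ a) (n-a)^{e a}`, `τ : s → Fin 4`.
2. Such a term is (after the reflection `a ↦ -a` as in `ASm`) `∏_{s₁} rr y₁ y^{e} (∏_{s₂} rr y w^{e} ∏_{s₃} V^{e})` with `s₃ ⊆ s₂ ⊆ s₁ ⊆ s'`. `TRm` (`∑_{s₃} e ≤ m + 2` because `∑ (e-1) ≤ 2`): the sum over
   `n < M` is `≤ M a₁ a₂ a₃ + x^{1/2} ≤ M (a₁ a₂ a₃ + 1)` (`x ≤ M`, `x ≥ 1`).
3. `RR_up`: `a₁ ≤ (wp y/wp y₁)^{∑_{s₁}(e-1)} Dp`, `a₂ ≤ (wp w/wp y)^{∑_{s₂}(e-1)} Dp`; `GoodVm` (exponents `≤ 2 ≤ m`): `a₃ ≤ 5 ρ^{∑_{s₃}(e-1)} Dp`. All the bases are `≥ 1`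
   (`wp` is monotone: `wp_mul`/`wp_eq`), `∑_{s_i}(e-1) ≤ E := ∑_s (e-1) ≤ 2`: the product of the three powers is `≤ (wp y/wp y₁ * (wp w/wp y) * ρ)^E ≤ (wp w * ρ)^E` (`wp y₁ ≥ 1`).
   `wp w * ρ = (EP 0 z)⁻¹ ≤ log z/c ≤ L/c` (`wp_eq`, `EP_mul`, `mer2`; exactly as at the end of the proof of `Cd`), so `≤ max(1,1/c)^2 L^E`.
4. `OBm`, `OB_neg`: the product of the three `Dp` is `≤ Gs m y₁ s`. As `L^E ≥ 1`, `Gs ≥ 1`, the `+1` is absorbed: `C = 16^m (5 max(1,1/c)^2 + 1)`.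
-/

set_option autoImplicit false

namespace Pool.Agent.H96.AE

open Finset Pool.Agent.H17 Pool.Agent.H6.MF Pool.Agent.H6.MB Pool.Agent.H12.DM Pool.Agent.H6.AE

/-- powers of sums of four terms -/
private theorem CSm_pw {f : Fin 4 → ℝ} (hf : ∀ i, 0 ≤ f i) {e : ℕ} (h1 : 1 ≤ e) (h2 : e ≤ 2) :
    (∑ i, f i) ^ e ≤ 4 * ∑ i, f i ^ e := by
  have hs : 0 ≤ ∑ i, f i := Finset.sum_nonneg fun i _ => hf i
  obtain rfl | rfl : e = 1 ∨ e = 2 := by omega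
  · simp only [pow_one]
    linarith
  · have := sq_sum_le_card_mul_sum_sq (s := (Finset.univ : Finset (Fin 4))) (f := f)
    simpa using this

/-- expanding the product of the sums -/
private theorem CSm_expand (s : Finset ℤ) (M : ℕ) (F : Fin 4 → ℤ → ℤ → ℝ) (B : ℝ)
    (hB : ∀ τ : ℤ → Fin 4, ∑ n ∈ Finset.range M, ∏ a ∈ s, F (τ a) (n : ℤ) a ≤ B) :
    ∑ n ∈ Finset.range M, ∏ a ∈ s, ∑ i, F i (n : ℤ) a ≤ 4 ^ s.card * B := by
  classical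
  have h1 : ∀ n : ℤ, ∏ a ∈ s, ∑ i, F i n a =
      ∑ p : s → Fin 4, ∏ a ∈ s, F (if h : a ∈ s then p ⟨a, h⟩ else 0) n a := by
    intro n
    rw [← Finset.prod_coe_sort s (fun a => ∑ i, F i n a), Finset.prod_univ_sum, Fintype.piFinset_univ]
    refine Finset.sum_congr rfl fun p _ => ?_
    rw [← Finset.prod_coe_sort s (fun a => F (if h : a ∈ s then p ⟨a, h⟩ else 0) n a)]
    refine Finset.prod_congr rfl fun a _ => ?_
    simp
  simp only [h1]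
  rw [Finset.sum_comm]
  refine (Finset.sum_le_sum fun p _ => hB (fun a => if h : a ∈ s then p ⟨a, h⟩ else 0)).trans (le_of_eq ?_)
  rw [Finset.sum_const, nsmul_eq_mul]
  simp

/-- splitting the product of the weights -/
private theorem CSm_split (y₁ y : ℕ) (x : ℝ) (V : ℤ → ℝ) (s : Finset ℤ) (e : ℤ → ℕ) (τ : ℤ → Fin 4) (n : ℤ) :
    ∏ a ∈ s, wt y₁ y x V (τ a) (n - a) ^ e a =
      (∏ a ∈ (s.image (fun a => -a)).filter (fun a => 1 ≤ (τ (-a)).val), rr y₁ y (n + a) ^ e (-a)) *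
        ((∏ a ∈ (s.image (fun a => -a)).filter (fun a => 2 ≤ (τ (-a)).val), rr y (yy x) (n + a) ^ e (-a)) *
          ∏ a ∈ (s.image (fun a => -a)).filter (fun a => 3 ≤ (τ (-a)).val), V (n + a) ^ e (-a)) := by
  have h : ∏ a ∈ s, wt y₁ y x V (τ a) (n - a) ^ e a =
      ∏ a ∈ s.image (fun a => -a), wt y₁ y x V (τ (-a)) (n + a) ^ e (-a) := by
    rw [Finset.prod_image (fun a _ b _ h => neg_injective h)]
    refine Finset.prod_congr rfl fun a _ => ?_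
    rw [neg_neg, sub_eq_add_neg]
  rw [h]
  unfold wt
  simp only [mul_pow, ite_pow, one_pow]
  rw [Finset.prod_mul_distrib, Finset.prod_mul_distrib, Finset.prod_filter, Finset.prod_filter,
    Finset.prod_filter]

/-- facts for large `x` -/
private theorem CSm_ev (m b : ℕ) : ∃ X : ℝ, ∀ x : ℝ, X ≤ x →
    1 ≤ x ∧ 1 ≤ Real.log x ∧ 2 ≤ x ^ dlm m b ∧ (yy x : ℝ) ≤ x ^ dlm m b := by
  have h1 : ∀ᶠ x : ℝ in Filter.atTop, 1 ≤ x ∧ 1 ≤ Real.log x ∧ 2 ≤ x ^ dlm m b ∧ (yy x : ℝ) ≤ x ^ dlm m b := by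
    have e1 := tendsto_rpow_atTop (dlm_pos m b)
    have e3 := (isLittleO_log_rpow_atTop (dlm_pos m b)).bound (show (0 : ℝ) < 1 by norm_num)
    filter_upwards [Filter.eventually_ge_atTop (1 : ℝ), Real.tendsto_log_atTop.eventually_ge_atTop 1,
      e1.eventually_ge_atTop 2, e3] with x a1 a2 a3 a5
    refine ⟨a1, a2, a3, ?_⟩
    rw [one_mul, Real.norm_of_nonneg (by linarith), Real.norm_of_nonneg (by positivity)] at a5
    have hll : 0 ≤ Real.log (Real.log x) := Real.log_nonneg a2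
    have b1 : (yy x : ℝ) ≤ Real.log (Real.log x) / 100 := Nat.floor_le (by positivity)
    have b2 : Real.log (Real.log x) ≤ Real.log x - 1 := Real.log_le_sub_one_of_pos (by linarith)
    linarith
  exact Filter.eventually_atTop.1 h1

/-- `wp` is monotone -/
private theorem CSm_wp {y w : ℕ} (h : y ≤ w) : wp y ≤ wp w := by
  rw [wp_eq, wp_eq, EP_mul (Nat.cast_nonneg y) (Nat.cast_le.2 h)]
  have h1 := EP_pos 0 (y : ℝ)
  have h2 := EP_pos (y : ℝ) (w : ℝ)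
  have h3 := EP_le_one (y : ℝ) (w : ℝ)
  refine inv_anti₀ (mul_pos h1 h2) ?_
  nlinarith

/-- the numerical part -/
private theorem CSm_num {A B R L C0 : ℝ} {k1 k2 k3 E : ℕ} (hA : 1 ≤ A) (hB : 1 ≤ B) (hR : 1 ≤ R) (hC0 : 1 ≤ C0)
    (hL : 1 ≤ L) (h1 : k1 ≤ E) (h2 : k2 ≤ E) (h3 : k3 ≤ E) (hE : E ≤ 2) (hp : A * (B * R) ≤ L * C0) :
    A ^ k1 * (B ^ k2 * R ^ k3) ≤ C0 ^ 2 * L ^ E := by
  have a1 : A ^ k1 ≤ A ^ E := pow_le_pow_right₀ hA h1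
  have a2 : B ^ k2 ≤ B ^ E := pow_le_pow_right₀ hB h2
  have a3 : R ^ k3 ≤ R ^ E := pow_le_pow_right₀ hR h3
  have p1 : 0 ≤ A := by linarith
  have p2 : 0 ≤ B := by linarith
  have p3 : 0 ≤ R := by linarith
  calc A ^ k1 * (B ^ k2 * R ^ k3) ≤ A ^ E * (B ^ E * R ^ E) := by gcongr
    _ = (A * (B * R)) ^ E := by rw [mul_pow, mul_pow]
    _ ≤ (L * C0) ^ E := pow_le_pow_left₀ (by positivity) hp _
    _ = C0 ^ E * L ^ E := by rw [mul_pow, mul_comm]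
    _ ≤ C0 ^ 2 * L ^ E := mul_le_mul_of_nonneg_right (pow_le_pow_right₀ hC0 hE) (by positivity)

/-- the final combination -/
private theorem CSm_fin {S M xx a1 a2 a3 q1 q2 q3 d1 d2 d3 G T K : ℝ} (hM : 0 ≤ M) (hS : |S - M * (a1 * (a2 * a3))| ≤ xx)
    (hxx : xx ≤ M) (n2 : 0 ≤ a2) (n3 : 0 ≤ a3) (hq1 : 0 ≤ q1) (hq2 : 0 ≤ q2) (hq3 : 0 ≤ q3)
    (hd1 : 0 ≤ d1) (hd2 : 0 ≤ d2) (hd3 : 0 ≤ d3)
    (u1 : a1 ≤ q1 * d1) (u2 : a2 ≤ q2 * d2) (u3 : a3 ≤ 5 * q3 * d3) (hd : d1 * (d2 * d3) ≤ G) (hG : 1 ≤ G)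
    (hq : q1 * (q2 * q3) ≤ K * T) (hT : 1 ≤ T) :
    S ≤ (5 * K + 1) * (M * T * G) := by
  have e1 : a2 * a3 ≤ (q2 * d2) * (5 * q3 * d3) := mul_le_mul u2 u3 n3 (by positivity)
  have e2 : a1 * (a2 * a3) ≤ (q1 * d1) * ((q2 * d2) * (5 * q3 * d3)) :=
    mul_le_mul u1 e1 (mul_nonneg n2 n3) (by positivity)
  have e3 : (q1 * d1) * ((q2 * d2) * (5 * q3 * d3)) = 5 * ((q1 * (q2 * q3)) * (d1 * (d2 * d3))) := by ring
  have e4 : (q1 * (q2 * q3)) * (d1 * (d2 * d3)) ≤ (K * T) * G := by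
    refine mul_le_mul hq hd (by positivity) ?_
    exact le_trans (by positivity) hq
  have e5 : a1 * (a2 * a3) ≤ 5 * ((K * T) * G) := by linarith
  have e6 : S ≤ M * (a1 * (a2 * a3)) + xx := by
    have := (abs_le.1 hS).2
    linarith
  have e7 : M * (a1 * (a2 * a3)) ≤ M * (5 * ((K * T) * G)) := mul_le_mul_of_nonneg_left e5 hM
  have e8 : 1 ≤ T * G := one_le_mul_of_one_le_of_one_le hT hG
  have e9 : M * 1 ≤ M * (T * G) := mul_le_mul_of_nonneg_left e8 hM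
  nlinarith

theorem CSm (m : ℕ) (hm : 2 ≤ m) : ∃ C : ℝ, 0 < C ∧ ∀ b y₁ y : ℕ, 3 ≤ y₁ → y₁ ≤ y → ∃ X : ℝ, ∀ x : ℝ, X ≤ x →
    ∀ V : ℤ → ℝ, GoodVm m b x V → ∀ s : Finset ℤ, s.card ≤ m → ∀ e : ℤ → ℕ, (∀ a, 1 ≤ e a ∧ e a ≤ 2) →
    ∑ a ∈ s, (e a - 1) ≤ 2 → ∀ M : ℕ, x ≤ (M : ℝ) →
    ∑ n ∈ Finset.range M, ∏ a ∈ s, uu y₁ y x V ((n : ℤ) - a) ^ e a
      ≤ C * (M : ℝ) * (Real.log x) ^ (∑ a ∈ s, (e a - 1)) * Gs m y₁ s := by
  obtain ⟨c, hc, hmer⟩ := mer2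
  set C0 : ℝ := max 1 (1 / c) with hC0
  have hC01 : 1 ≤ C0 := le_max_left _ _
  have hC0c : 1 / c ≤ C0 := le_max_right _ _
  refine ⟨16 ^ m * (5 * C0 ^ 2 + 1), by positivity, ?_⟩
  intro b y₁ y hy₁ h1
  obtain ⟨X1, hX1⟩ := TRm m b y₁ y h1
  obtain ⟨X2, hX2⟩ := CSm_ev m b
  refine ⟨max X1 X2, ?_⟩
  intro x hx V hV s hs e he hE M hM
  obtain ⟨hyx, hT⟩ := hX1 x (le_trans (le_max_left _ _) hx)
  obtain ⟨hx1, hL1, hz2, hwz⟩ := hX2 x (le_trans (le_max_right _ _) hx)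
  have hx0 : 0 < x := by linarith
  have hM0 : (0 : ℝ) ≤ M := Nat.cast_nonneg M
  have hV0 := hV.1
  set E : ℕ := ∑ a ∈ s, (e a - 1) with hEdef
  set L : ℝ := Real.log x with hLdef
  set G : ℝ := Gs m y₁ s with hGdef
  have hG1 : 1 ≤ G := one_le_Gs m y₁ s
  have hLE : 1 ≤ L ^ E := one_le_pow₀ hL1
  set ρ : ℝ := (EP (yy x : ℝ) (x ^ dlm m b))⁻¹ with hρ
  have hρ1 : 1 ≤ ρ := (one_le_inv₀ (EP_pos _ _)).2 (EP_le_one _ _)
  have hwy1 := wp_pos y₁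
  have hwy := wp_pos y
  have hww := wp_pos (yy x)
  have hsieve : wp (yy x) * ρ ≤ L * C0 := by
    rw [wp_eq, hρ, ← mul_inv, ← EP_mul (Nat.cast_nonneg (yy x)) hwz]
    have h1 := hmer _ hz2
    have hlz : 0 < Real.log (x ^ dlm m b) := Real.log_pos (by linarith)
    have hlzx : Real.log (x ^ dlm m b) ≤ Real.log x := by
      refine Real.log_le_log (by linarith) ?_
      have h2 : dlm m b ≤ 1 := (dlm_le m b).trans (by norm_num)
      calc x ^ dlm m b ≤ x ^ (1 : ℝ) := Real.rpow_le_rpow_of_exponent_le hx1 h2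
        _ = x := Real.rpow_one x
    have h3 : (EP 0 (x ^ dlm m b))⁻¹ ≤ (c / Real.log (x ^ dlm m b))⁻¹ := inv_anti₀ (by positivity) h1
    rw [inv_div] at h3
    refine le_trans h3 ?_
    rw [div_eq_mul_one_div]
    exact mul_le_mul hlzx hC0c (by positivity) (by linarith)
  have hA1 : 1 ≤ wp y / wp y₁ := (one_le_div hwy1).2 (CSm_wp h1)
  have hB1 : 1 ≤ wp (yy x) / wp y := (one_le_div hwy).2 (CSm_wp hyx)
  have hprod : wp y / wp y₁ * (wp (yy x) / wp y * ρ) ≤ L * C0 := by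
    refine le_trans ?_ hsieve
    have e1 : wp y / wp y₁ * (wp (yy x) / wp y * ρ) = (wp (yy x) * ρ) / wp y₁ := by
      field_simp
    rw [e1]
    exact div_le_self (by positivity) (one_le_wp y₁)
  -- the bound for one term
  have hterm : ∀ τ : ℤ → Fin 4, ∑ n ∈ Finset.range M, ∏ a ∈ s, wt y₁ y x V (τ a) ((n : ℤ) - a) ^ e a
      ≤ (5 * C0 ^ 2 + 1) * ((M : ℝ) * L ^ E * G) := by
    intro τ
    set s' : Finset ℤ := s.image (fun a => -a) with hs'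
    have hc : s'.card ≤ m := Finset.card_image_le.trans hs
    set s₁ := s'.filter (fun a => 1 ≤ (τ (-a)).val) with hs₁
    set s₂ := s'.filter (fun a => 2 ≤ (τ (-a)).val) with hs₂
    set s₃ := s'.filter (fun a => 3 ≤ (τ (-a)).val) with hs₃
    have k1 : s₁ ⊆ s' := Finset.filter_subset _ _
    have k2 : s₂ ⊆ s' := Finset.filter_subset _ _
    have k3 : s₃ ⊆ s' := Finset.filter_subset _ _
    have c1 : s₁.card ≤ m := (Finset.card_le_card k1).trans hc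
    have c2 : s₂.card ≤ m := (Finset.card_le_card k2).trans hc
    have c3 : s₃.card ≤ m := (Finset.card_le_card k3).trans hc
    have hE' : ∑ a ∈ s', (e (-a) - 1) = E := by
      rw [hs', Finset.sum_image (fun a _ b _ h => neg_injective h)]
      exact Finset.sum_congr rfl fun a _ => by rw [neg_neg]
    have hk : ∀ t : Finset ℤ, t ⊆ s' → ∑ a ∈ t, (e (-a) - 1) ≤ E := by
      intro t ht
      rw [← hE']
      exact Finset.sum_le_sum_of_subset ht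
    have hT' := hT V hV s₁ s₂ s₃ c1 c2 (fun a => e (-a)) (fun a => (he (-a)).2)
      (by
        have h2 : ∑ a ∈ s₃, e (-a) = ∑ a ∈ s₃, (e (-a) - 1) + s₃.card := by
          rw [Finset.card_eq_sum_ones, ← Finset.sum_add_distrib]
          refine Finset.sum_congr rfl fun a _ => ?_
          have := (he (-a)).1
          omega
        have h3 := hk s₃ k3
        rw [h2]
        omega) M
    have hsum : ∑ n ∈ Finset.range M, ∏ a ∈ s, wt y₁ y x V (τ a) ((n : ℤ) - a) ^ e a =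
        ∑ n ∈ Finset.range M, ((∏ a ∈ s₁, rr y₁ y ((n : ℤ) + a) ^ e (-a)) *
          ((∏ a ∈ s₂, rr y (yy x) ((n : ℤ) + a) ^ e (-a)) * ∏ a ∈ s₃, V ((n : ℤ) + a) ^ e (-a))) :=
      Finset.sum_congr rfl fun n _ => CSm_split y₁ y x V s e τ n
    rw [hsum]
    obtain ⟨v0, v1, v2, v3, v4⟩ := hV
    have u1 := RR_up m h1 s₁ c1 (fun a => e (-a)) (fun a _ => (he (-a)).1)
    have u2 := RR_up m hyx s₂ c2 (fun a => e (-a)) (fun a _ => (he (-a)).1)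
    have u3 := v3 s₃ c3 (fun a => e (-a)) (fun a => ⟨(he (-a)).1, (he (-a)).2.trans hm⟩)
    have n2 : 0 ≤ avgP (PR (y : ℝ) (yy x : ℝ)) (fun n => ∏ a ∈ s₂, rr y (yy x) (n + a) ^ e (-a)) :=
      MAJ_avg_nonneg fun n => Finset.prod_nonneg fun a _ => pow_nonneg (rr_nonneg _ _ _) _
    have n3 : 0 ≤ avgP (PR (yy x : ℝ) (x ^ dlm m b)) (fun n => ∏ a ∈ s₃, V (n + a) ^ e (-a)) :=
      MAJ_avg_nonneg fun n => Finset.prod_nonneg fun a _ => pow_nonneg (v0 _) _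
    have hy1 : (y₁ : ℝ) ≤ y := by exact_mod_cast h1
    have hy2 : (y : ℝ) ≤ yy x := by exact_mod_cast hyx
    have hz : (0 : ℝ) ≤ x ^ dlm m b := Real.rpow_nonneg hx0.le _
    have hob := OBm m y₁ hy1 hy2 hz s' s₁ s₂ s₃ k1 k2 k3
    rw [OB_neg] at hob
    have d1 := one_le_Dp m (y₁ : ℝ) y s₁
    have d2 := one_le_Dp m (y : ℝ) (yy x) s₂
    have d3 := one_le_Dp m (yy x : ℝ) (x ^ dlm m b) s₃
    have hxx : x ^ (1 / 2 : ℝ) ≤ (M : ℝ) := by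
      refine le_trans ?_ hM
      calc x ^ (1 / 2 : ℝ) ≤ x ^ (1 : ℝ) := Real.rpow_le_rpow_of_exponent_le hx1 (by norm_num)
        _ = x := Real.rpow_one x
    have hq := CSm_num (k1 := ∑ a ∈ s₁, (e (-a) - 1)) (k2 := ∑ a ∈ s₂, (e (-a) - 1))
      (k3 := ∑ a ∈ s₃, (e (-a) - 1)) hA1 hB1 hρ1 hC01 hL1 (hk s₁ k1) (hk s₂ k2) (hk s₃ k3) hE hprod
    have u3' : avgP (PR (yy x : ℝ) (x ^ dlm m b)) (fun n => ∏ a ∈ s₃, V (n + a) ^ e (-a)) ≤
        5 * ρ ^ (∑ a ∈ s₃, (e (-a) - 1)) * Dp m (yy x : ℝ) (x ^ dlm m b) s₃ := by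
      refine le_trans u3 ?_
      have h4 : 1 + 4 * (1 / 2 : ℝ) ^ b ≤ 5 := by
        have : (1 / 2 : ℝ) ^ b ≤ 1 := pow_le_one₀ (by norm_num) (by norm_num)
        linarith
      refine mul_le_mul_of_nonneg_right (mul_le_mul_of_nonneg_right h4 (by positivity)) ?_
      exact le_trans zero_le_one d3
    exact CSm_fin hM0 hT' hxx n2 n3 (by positivity) (by positivity) (by positivity) (by linarith) (by linarith)
      (by linarith) u1 u2 u3' hob hG1 hq hLE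
  -- the pointwise bound
  have hpt : ∀ n ∈ Finset.range M, ∏ a ∈ s, uu y₁ y x V ((n : ℤ) - a) ^ e a
      ≤ 4 ^ s.card * ∏ a ∈ s, ∑ i, wt y₁ y x V i ((n : ℤ) - a) ^ e a := by
    intro n _
    rw [← Finset.prod_const, ← Finset.prod_mul_distrib]
    refine Finset.prod_le_prod (fun a _ => pow_nonneg (uu_nonneg hV0 _) _) fun a _ => ?_
    exact CSm_pw (fun i => wt_nonneg hV0 i _) (he a).1 (he a).2
  refine le_trans (Finset.sum_le_sum hpt) ?_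
  rw [← Finset.mul_sum]
  have hexp := CSm_expand s M (fun i n a => wt y₁ y x V i (n - a) ^ e a) _ hterm
  have h4 : (4 : ℝ) ^ s.card ≤ 4 ^ m := pow_le_pow_right₀ (by norm_num) hs
  have h5 : 0 ≤ (5 * C0 ^ 2 + 1) * ((M : ℝ) * L ^ E * G) := by positivity
  calc (4 : ℝ) ^ s.card * ∑ n ∈ Finset.range M, ∏ a ∈ s, ∑ i, wt y₁ y x V i ((n : ℤ) - a) ^ e a
      ≤ 4 ^ s.card * (4 ^ s.card * ((5 * C0 ^ 2 + 1) * ((M : ℝ) * L ^ E * G))) :=
        mul_le_mul_of_nonneg_left hexp (by positivity)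
    _ ≤ 4 ^ m * (4 ^ m * ((5 * C0 ^ 2 + 1) * ((M : ℝ) * L ^ E * G))) := by
        refine mul_le_mul h4 (mul_le_mul_of_nonneg_right h4 h5) (by positivity) (by positivity)
    _ = 16 ^ m * (5 * C0 ^ 2 + 1) * (M : ℝ) * L ^ E * G := by
        have : (16 : ℝ) ^ m = 4 ^ m * 4 ^ m := by rw [← mul_pow]; norm_num
        rw [this]
        ring

end Pool.Agent.H96.AE
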