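import Pool.Agent.H96.AE.CVc
import Pool.Agent.H96.AE.AAd
import Pool.Agent.H96.AE.TRN
import Pool.Agent.H96.AE.CNT
import Pool.Agent.H6.AE.Sgm

/-!
# CVd: sums over the sets of shifts in `[1,H]` (all translates) instead of sets `{0} ∪ D`

`N = ⌊x⌋₊ + 1`, `x ≤ N ≤ x + 1`, `L = log x ≤ H ≤ L^2`, `j = i + 1 ≥ 1`, `P_(j+1) = powersetCard (j+1) (Icc 1 H)`. Always `TRNb` (`D ∈ powersetCard j (Icc 1 H)`, `C = (insert 0 D) + t`). `sing` and `sW x` are invariant under translations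
(`sing_tr`: from the definition, `nuH` is invariant under translations (`H12/DM` or `H6/MF` have `sW_tr`, and `nuH (tr s r) p = nuH s p`; search for `nuH_tr`/`loc_tr`), `tr s t = s.image (· + t)`).
* `CVd_sing`: `∑_{C} |sing C - sW x C| ≤ H * ∑_D |sing (insert 0 D) - sW x (insert 0 D)| ≤ H * (C/√y) H^j` by `Sgm` (`k := j`, `y` fixed large with `C/√y ≤ ε`, `y' = yy x ≥ y` for large `x`, `sW_eq_Sy`).
* `CVd_sum`: `∑_C sW x C ≤ ∑_C sing C + ∑_C |sing C - sW x C|`, `∑_C sing C ≤ H * ∑_D sing (insert 0 D) ≤ C H^(j+1)` (`Sgm_sum`; `sing ≥ 0`: `Sgm` file or `sing_nonneg`).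
* `CVd_AA` (one-sided): let `Φ C = max 0 (∑_{n ∈ rgH x H} ∏_C La x (n-c) - N sing C)`, `Ψ D = max 0 (cf x (La x) D - N sing (insert 0 D))`. For `C = (insert 0 D) + t`, `1 ≤ t ≤ H`: `∏_C La x (n-c) = La x (n-t) ∏_D La x (n-t-d)`, zero unless `0 ≤ n - t < N`, so the sum over `n < N + H` is `cf x (La x) D`
  (`n' = n - t`) and `Φ C = Ψ D`. `Ψ D ≤ |cf - L^(j+1) cnt| + L^(j+1) max 0 (cnt - sing x/L^(j+1))` (`x ≤ N`, `sing ≥ 0`). Sum over `D`: by `CNT` (`k = j + 1`), `|powersetCard j (Icc 1 H)| ≤ H^j` (`ISO_card`), the hypothesis (`UAk (j+1)`):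
  `≤ ε' x H^j + δ H^j x ≤ (ε' + δ) N H^j`. Multiply by `H` (`TRNb`). `δ = ε/2`, `ε' = ε/4`.
-/

set_option autoImplicit false

namespace Pool.Agent.H96.AE

open Finset Pool.Agent.H17 Pool.Agent.H6.MF Pool.Agent.H6.MB Pool.Agent.H12.DM Pool.Agent.H6.AE

lemma CVd_shift (F : ℤ → ℝ) (N M : ℕ) (t : ℤ) (h0 : 0 ≤ t) (ht : t ≤ (M : ℤ))
    (hF : ∀ m : ℤ, m < 0 ∨ (N : ℤ) ≤ m → F m = 0) :
    ∑ n ∈ Finset.range (N + M), F ((n : ℤ) - t) = ∑ n ∈ Finset.range N, F (n : ℤ) := by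
  lift t to ℕ using h0
  have ht' : t ≤ M := by exact_mod_cast ht
  obtain ⟨k, rfl⟩ := Nat.exists_eq_add_of_le ht'
  have e1 : N + (t + k) = t + (N + k) := by omega
  rw [e1, Finset.sum_range_add, Finset.sum_range_add]
  have h1 : ∑ n ∈ Finset.range t, F ((n : ℤ) - (t : ℤ)) = 0 := by
    refine Finset.sum_eq_zero fun n hn => hF _ (Or.inl ?_)
    rw [Finset.mem_range] at hn
    omega
  have h2 : ∑ n ∈ Finset.range k, F (((t + (N + n) : ℕ) : ℤ) - (t : ℤ)) = 0 := by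
    refine Finset.sum_eq_zero fun n _ => hF _ (Or.inr ?_)
    push_cast
    omega
  rw [h1, h2, zero_add, add_zero]
  refine Finset.sum_congr rfl fun n _ => ?_
  congr 1
  push_cast
  ring

lemma CVd_cf (x : ℝ) {H j : ℕ} {D : Finset ℤ}
    (hD : D ∈ Finset.powersetCard j (Finset.Icc 1 (H : ℤ))) {t : ℤ} (ht : t ∈ Finset.Icc 1 (H : ℤ)) :
    ∑ n ∈ rgH x H, ∏ c ∈ (insert 0 D).image (fun d => d + t), La x ((n : ℤ) - c) = cf x (La x) D := by
  have ht' := Finset.mem_Icc.1 ht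
  have h1 : ∀ n : ℕ, ∏ c ∈ (insert 0 D).image (fun d => d + t), La x ((n : ℤ) - c) =
      (fun m : ℤ => La x m * ∏ d ∈ D, La x (m - d)) ((n : ℤ) - t) := by
    intro n
    rw [Finset.prod_image (fun a _ b _ h => add_left_injective t h),
      Finset.prod_insert (TRN_zero hD)]
    show La x ((n : ℤ) - (0 + t)) * ∏ d ∈ D, La x ((n : ℤ) - (d + t)) =
      La x ((n : ℤ) - t) * ∏ d ∈ D, La x ((n : ℤ) - t - d)
    rw [zero_add]
    congr 1
    refine Finset.prod_congr rfl fun d _ => ?_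
    congr 1
    ring
  unfold rgH cf
  rw [Finset.sum_congr rfl fun n _ => h1 n]
  rw [CVd_shift (fun m : ℤ => La x m * ∏ d ∈ D, La x (m - d)) (⌊x⌋₊ + 1) H t (by omega) ht'.2]
  intro m hm
  show La x m * ∏ d ∈ D, La x (m - d) = 0
  have h2 : La x m = 0 := by
    unfold La
    rw [if_neg]
    rintro ⟨hp, _, hle⟩
    rcases hm with hm | hm
    · have h3 : m.toNat = 0 := Int.toNat_eq_zero.2 hm.le
      unfold isP at hp
      rw [h3] at hp
      exact Nat.not_prime_zero hp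
    · have h3 : ((⌊x⌋₊ : ℝ) + 1) ≤ (m : ℝ) := by
        have : (((⌊x⌋₊ + 1 : ℕ) : ℤ) : ℝ) ≤ (m : ℝ) := by exact_mod_cast hm
        push_cast at this
        exact this
      have h4 := Nat.lt_floor_add_one x
      linarith
  rw [h2, zero_mul]

theorem CVd_sing (i : ℕ) (ε : ℝ) (hε : 0 < ε) : ∃ X : ℝ, ∀ x : ℝ, X ≤ x → ∀ H : ℕ, Real.log x ≤ (H : ℝ) →
    (H : ℝ) ≤ (Real.log x) ^ 2 →
    ∑ C ∈ Finset.powersetCard (i + 2) (Finset.Icc 1 (H : ℤ)), |sing C - sW x C| ≤ ε * (H : ℝ) ^ (i + 2) := by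
  obtain ⟨C, hC, hm⟩ := Sgm (i + 1)
  obtain ⟨y, hy1, hy2⟩ : ∃ y : ℕ, 1 ≤ y ∧ C / Real.sqrt (y : ℝ) ≤ ε := by
    refine ⟨⌈(C / ε) ^ 2⌉₊ + 1, by omega, ?_⟩
    have h0 : 0 < C / ε := by positivity
    have h1 : C / ε ≤ Real.sqrt ((⌈(C / ε) ^ 2⌉₊ + 1 : ℕ) : ℝ) := by
      refine Real.le_sqrt_of_sq_le ?_
      have := Nat.le_ceil ((C / ε) ^ 2)
      push_cast
      linarith
    rw [div_le_iff₀ (lt_of_lt_of_le h0 h1)]
    rw [div_le_iff₀ hε] at h1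
    linarith
  obtain ⟨X1, hX1⟩ := hm y hy1
  obtain ⟨X2, hX2⟩ := Filter.eventually_atTop.1 (tendsto_yy.eventually_ge_atTop y)
  refine ⟨max X1 X2, fun x hx H hH1 hH2 => ?_⟩
  have hL2 : 0 ≤ (Real.log x) ^ 2 := sq_nonneg _
  have h1 := hX1 x (le_trans (le_max_left _ _) hx) H hH1 (by linarith) (yy x)
    (hX2 x (le_trans (le_max_right _ _) hx))
  have hH0 : (0 : ℝ) ≤ H := Nat.cast_nonneg H
  have h2 := TRNb H (i + 1) (fun C => |sing C - sW x C|)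
    (fun D => |Sy (yy x) (insert 0 D) - sing (insert 0 D)|) (fun D => abs_nonneg _)
    (fun D _ t _ => by
      show |sing (tr (insert 0 D) t) - sW x (tr (insert 0 D) t)| ≤ |Sy (yy x) (insert 0 D) - sing (insert 0 D)|
      rw [sing_tr, sW_tr, sW_eq_Sy, abs_sub_comm])
  refine h2.trans ?_
  refine (mul_le_mul_of_nonneg_left h1 hH0).trans ?_
  calc (H : ℝ) * (C / Real.sqrt (y : ℝ) * (H : ℝ) ^ (i + 1))
      ≤ (H : ℝ) * (ε * (H : ℝ) ^ (i + 1)) :=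
        mul_le_mul_of_nonneg_left (mul_le_mul_of_nonneg_right hy2 (by positivity)) hH0
    _ = ε * (H : ℝ) ^ (i + 2) := by ring

theorem CVd_sum (i : ℕ) : ∃ C₀ X : ℝ, 0 < C₀ ∧ ∀ x : ℝ, X ≤ x → ∀ H : ℕ, Real.log x ≤ (H : ℝ) →
    (H : ℝ) ≤ (Real.log x) ^ 2 →
    ∑ C ∈ Finset.powersetCard (i + 2) (Finset.Icc 1 (H : ℤ)), sW x C ≤ C₀ * (H : ℝ) ^ (i + 2) := by
  obtain ⟨C, hC, X1, hX1⟩ := Sgm_sum (i + 1)
  obtain ⟨X2, hX2⟩ := CVd_sing i 1 one_pos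
  refine ⟨C + 1, max X1 X2, by linarith, fun x hx H hH1 hH2 => ?_⟩
  have hL2 : 0 ≤ (Real.log x) ^ 2 := sq_nonneg _
  have h1 := hX1 x (le_trans (le_max_left _ _) hx) H hH1 (by linarith)
  have h2 := hX2 x (le_trans (le_max_right _ _) hx) H hH1 hH2
  have hH0 : (0 : ℝ) ≤ H := Nat.cast_nonneg H
  have h3 := TRNb H (i + 1) (fun C => sing C) (fun D => sing (insert 0 D)) (fun D => sing_nonneg _)
    (fun D _ t _ => by
      show sing (tr (insert 0 D) t) ≤ sing (insert 0 D)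
      rw [sing_tr])
  have h4 : ∑ C ∈ Finset.powersetCard (i + 2) (Finset.Icc 1 (H : ℤ)), sW x C ≤
      ∑ C ∈ Finset.powersetCard (i + 2) (Finset.Icc 1 (H : ℤ)), (sing C + |sing C - sW x C|) := by
    refine Finset.sum_le_sum fun C _ => ?_
    have := neg_abs_le (sing C - sW x C)
    linarith
  rw [Finset.sum_add_distrib] at h4
  have h5 : ∑ C ∈ Finset.powersetCard (i + 2) (Finset.Icc 1 (H : ℤ)), sing C ≤
      (H : ℝ) * (C * (H : ℝ) ^ (i + 1)) := h3.trans (mul_le_mul_of_nonneg_left h1 hH0)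
  have h6 : (H : ℝ) * (C * (H : ℝ) ^ (i + 1)) = C * (H : ℝ) ^ (i + 2) := by ring
  linarith

theorem CVd_AA (i : ℕ) (ε : ℝ) (hε : 0 < ε) : ∃ δ X : ℝ, 0 < δ ∧ ∀ x : ℝ, X ≤ x → ∀ H : ℕ, Real.log x ≤ (H : ℝ) →
    (H : ℝ) ≤ (Real.log x) ^ 2 → UAk (i + 2) x H δ →
    ∑ C ∈ Finset.powersetCard (i + 2) (Finset.Icc 1 (H : ℤ)),
      max 0 (∑ n ∈ rgH x H, ∏ c ∈ C, La x ((n : ℤ) - c) - ((⌊x⌋₊ : ℝ) + 1) * sing C)
      ≤ ε * ((⌊x⌋₊ : ℝ) + 1) * (H : ℝ) ^ (i + 2) := by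
  obtain ⟨X2, hX2⟩ := CNT (i + 2) (ε / 4) (by positivity)
  refine ⟨ε / 2, max X2 3, by positivity, fun x hx H hH1 hH2 hA => ?_⟩
  have hx3 : 3 ≤ x := le_trans (le_max_right _ _) hx
  have hx0 : 0 ≤ x := by linarith
  have hL0 : 0 < Real.log x := Real.log_pos (by linarith)
  have hH0 : (0 : ℝ) ≤ H := Nat.cast_nonneg H
  have hLk : 0 < (Real.log x) ^ (i + 2) := pow_pos hL0 _
  have hfl2 := Nat.lt_floor_add_one x
  -- the bound for one set
  have hpt : ∀ D ∈ Finset.powersetCard (i + 1) (Finset.Icc 1 (H : ℤ)),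
      max 0 (cf x (La x) D - ((⌊x⌋₊ : ℝ) + 1) * sing (insert 0 D)) ≤
      ε / 4 * x + (Real.log x) ^ (i + 2) *
        max 0 ((cnt x (insert 0 D) : ℝ) - sing (insert 0 D) * x / (Real.log x) ^ (i + 2)) := by
    intro D hD
    have hcard : D.card = i + 1 := (Finset.mem_powersetCard.1 hD).2
    have e1 := hX2 x (le_trans (le_max_left _ _) hx) D
      (fun d hd => by
        have := TRN_pos hD hd
        refine ⟨this.1, ?_⟩
        have h4 : (d : ℝ) ≤ (H : ℝ) := by exact_mod_cast this.2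
        linarith) (by omega)
    rw [hcard] at e1
    have e1' : |(Real.log x) ^ (i + 2) * (cnt x (insert 0 D) : ℝ) - cf x (La x) D| ≤ ε / 4 * x := e1
    have e1a := (abs_le.1 e1').1
    have e2 : (Real.log x) ^ (i + 2) *
        ((cnt x (insert 0 D) : ℝ) - sing (insert 0 D) * x / (Real.log x) ^ (i + 2)) =
        (Real.log x) ^ (i + 2) * (cnt x (insert 0 D) : ℝ) - sing (insert 0 D) * x := by
      field_simp
    have e3 : (Real.log x) ^ (i + 2) *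
        ((cnt x (insert 0 D) : ℝ) - sing (insert 0 D) * x / (Real.log x) ^ (i + 2)) ≤
        (Real.log x) ^ (i + 2) *
        max 0 ((cnt x (insert 0 D) : ℝ) - sing (insert 0 D) * x / (Real.log x) ^ (i + 2)) :=
      mul_le_mul_of_nonneg_left (le_max_right _ _) hLk.le
    have hs := sing_nonneg (insert 0 D)
    have e4 : sing (insert 0 D) * x ≤ ((⌊x⌋₊ : ℝ) + 1) * sing (insert 0 D) := by
      rw [mul_comm]
      exact mul_le_mul_of_nonneg_right hfl2.le hs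
    refine max_le ?_ ?_
    · have : 0 ≤ (Real.log x) ^ (i + 2) *
        max 0 ((cnt x (insert 0 D) : ℝ) - sing (insert 0 D) * x / (Real.log x) ^ (i + 2)) :=
        mul_nonneg hLk.le (le_max_left _ _)
      have h5 : 0 ≤ ε / 4 * x := by positivity
      linarith
    · rw [e2] at e3
      linarith
  have h2 := TRNb H (i + 1)
    (fun C => max 0 (∑ n ∈ rgH x H, ∏ c ∈ C, La x ((n : ℤ) - c) - ((⌊x⌋₊ : ℝ) + 1) * sing C))
    (fun D => max 0 (cf x (La x) D - ((⌊x⌋₊ : ℝ) + 1) * sing (insert 0 D))) (fun D => le_max_left _ _)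
    (fun D hD t ht => by
      have e := CVd_cf x hD ht
      show max 0 (∑ n ∈ rgH x H, ∏ c ∈ (insert 0 D).image (fun d => d + t), La x ((n : ℤ) - c) -
        ((⌊x⌋₊ : ℝ) + 1) * sing (tr (insert 0 D) t)) ≤ _
      rw [e, sing_tr])
  refine h2.trans ?_
  have h3 := Finset.sum_le_sum hpt
  rw [Finset.sum_add_distrib, Finset.sum_const, nsmul_eq_mul, ← Finset.mul_sum] at h3
  have h4 : ((Finset.powersetCard (i + 1) (Finset.Icc 1 (H : ℤ))).card : ℝ) ≤ (H : ℝ) ^ (i + 1) := by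
    have := ISO_card (Finset.Icc 1 (H : ℤ)) (i + 1)
    have hc : (Finset.Icc 1 (H : ℤ)).card = H := by simp
    rw [hc] at this
    exact_mod_cast this
  have h5 : (Real.log x) ^ (i + 2) * ∑ D ∈ Finset.powersetCard (i + 1) (Finset.Icc 1 (H : ℤ)),
      max 0 ((cnt x (insert 0 D) : ℝ) - sing (insert 0 D) * x / (Real.log x) ^ (i + 2)) ≤
      ε / 2 * ((H : ℝ) ^ (i + 1) * x) := by
    have h6 : ∑ D ∈ Finset.powersetCard (i + 1) (Finset.Icc 1 (H : ℤ)),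
      max 0 ((cnt x (insert 0 D) : ℝ) - sing (insert 0 D) * x / (Real.log x) ^ (i + 2)) ≤
      ε / 2 * ((H : ℝ) ^ (i + 1) * x / (Real.log x) ^ (i + 2)) := hA
    refine (mul_le_mul_of_nonneg_left h6 hLk.le).trans (le_of_eq ?_)
    field_simp
  have h7 : ((Finset.powersetCard (i + 1) (Finset.Icc 1 (H : ℤ))).card : ℝ) * (ε / 4 * x) ≤
      (H : ℝ) ^ (i + 1) * (ε / 4 * x) := mul_le_mul_of_nonneg_right h4 (by positivity)
  have hHp : 0 ≤ (H : ℝ) ^ (i + 1) := by positivity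
  have h8 : 0 ≤ ε / 4 * x * (H : ℝ) ^ (i + 1) := by positivity
  have h9 : ∑ D ∈ Finset.powersetCard (i + 1) (Finset.Icc 1 (H : ℤ)),
      max 0 (cf x (La x) D - ((⌊x⌋₊ : ℝ) + 1) * sing (insert 0 D)) ≤ ε * x * (H : ℝ) ^ (i + 1) := by
    have h10 : (H : ℝ) ^ (i + 1) * (ε / 4 * x) + ε / 2 * ((H : ℝ) ^ (i + 1) * x) +
        ε / 4 * x * (H : ℝ) ^ (i + 1) = ε * x * (H : ℝ) ^ (i + 1) := by ring
    linarith
  calc (H : ℝ) * ∑ D ∈ Finset.powersetCard (i + 1) (Finset.Icc 1 (H : ℤ)),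
      max 0 (cf x (La x) D - ((⌊x⌋₊ : ℝ) + 1) * sing (insert 0 D))
      ≤ (H : ℝ) * (ε * x * (H : ℝ) ^ (i + 1)) := mul_le_mul_of_nonneg_left h9 hH0
    _ = ε * x * (H : ℝ) ^ (i + 2) := by ring
    _ ≤ ε * ((⌊x⌋₊ : ℝ) + 1) * (H : ℝ) ^ (i + 2) := by
        refine mul_le_mul_of_nonneg_right (mul_le_mul_of_nonneg_left hfl2.le hε.le) (by positivity)

end Pool.Agent.H96.AE
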