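import Pool.Agent.H96.AE.CVb
import Pool.Agent.H96.AE.CVd

/-!
# CV: the converse: the Hardy-Littlewood upper bound for almost all `j`-tuples gives small windows

`j = i + 2`, `N = ⌊x⌋₊ + 1`, `M = N + H ≤ 2N`, `L = log x`, `1 ≤ K L ≤ H ≤ L^2`, `I = Icc 1 H`, `D ⊆ I`, `A = nf D (La x) n`, `B = nf D (Mi x) n`, `0 ≤ A ≤ nf I (La x) n`, `0 ≤ B ≤ 2H` (`Mi_win_le`, `WW (yy x) ≤ L ≤ H`), `La ≤ L`, `Mi ≤ wp (yy x) ≤ L`... more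
precisely `wp (yy x) ≤ η L` for every `η > 0` and large `x` (`wp ≤ WW (yy x)`, `WW^68 ≤ L`: `WW_yy_pow_le`). `nf D (fB x) n = A - B`. All sums over `n ∈ rgH x H`, `P_j(D) = powersetCard j D`.
1. `CV_pow`: `∑ |A-B|^j ≤ ∑ A^j + (j-1) ∑ B^j - j ∑ B^(j-1) A`.
2. `CV_exp_up` (`B₀ = L`): `∑ A^j ≤ j! ∑_{C ∈ P_j(D)} ∑_n ∏_C La(n-c) + j^2 L ∑ A^(j-1)`, `∑ A^(j-1) ≤ C₁ N H^(j-1)` (`CV_mom`).
   `∑_{C ∈ P_j(D)} ∑_n ∏_C La ≤ N ∑_{C ∈ P_j(D)} sing C + ∑_{C ∈ P_j(I)} max 0 (∑_n ∏_C La - N sing C)`, the last sum is `≤ ε₁ N H^j` (`CVd_AA`).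
   And `N ∑_{C ∈ P_j(D)} sing C ≤ N ∑_{C ∈ P_j(D)} sW x C + N ∑_{C ∈ P_j(I)} |sing C - sW x C|`, the last sum is `≤ ε₁ H^j` (`CVd_sing`).
3. `CV_exp_up` (`B₀ = wp (yy x)`): `∑ B^j ≤ j! ∑_{C ∈ P_j(D)} ∑_n ∏_C Mi + j^2 wp * M (2H)^(j-1)`, `∑_n ∏_C Mi ≤ N sW x C + ε₁ N` (`CV_M`), `|P_j(D)| ≤ H^j`.
4. `CV_exp_lo`: `B^(j-1) ≥ (j-1)! ∑_{C ∈ P_(j-1)(D)} ∏_C Mi(n-c)`, `A ≥ ∑_{e ∈ D \ C} La(n-e)`, so `∑ B^(j-1) A ≥ (j-1)! ∑_{C ∈ P_(j-1)(D)} ∑_{e ∈ D\C} ∑_n ∏_C Mi * La(n-e) ≥ (j-1)! ∑_C ∑_e ((1 - ε₁) N sW x (insert e C) - ε₁ N)` (`CV_L`)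
   `≥ (1-ε₁) N j! ∑_{C ∈ P_j(D)} sW x C - (j-1)! ε₁ N H^j` (`ISO2`; the number of pairs `(C,e)` is `≤ H^(j-1) * H`).
5. Sum: the main terms `j! N ∑_{C ∈ P_j(D)} sW x C (1 + (j-1) - j (1 - ε₁)) = j ε₁ j! N ∑_{C ∈ P_j(D)} sW x C ≤ j ε₁ j! C₀ N H^j` (`CVd_sum`, `sW ≥ 0`). The errors: `≤ C(j) (ε₁ + L/H + wp/H) N H^j` with `L/H ≤ 1/K`, `wp/H ≤ η`. So `∑ |A-B|^j ≤ ε₂ N H^j` for suitable
   `ε₁, K, δ, X`.
6. `CV_sq` with `t = |A - B|/H` (or `t = |A-B|`, `θ = θ₀ H`): `∑ (A-B)^2 ≤ θ₀^2 H^2 M + ∑ |A-B|^j/(θ₀ H)^i ≤ (2 θ₀^2 + ε₂/θ₀^i) N H^2`: `θ₀^2 = ε/4`, `ε₂ = θ₀^i ε/2`.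
-/

set_option autoImplicit false

namespace Pool.Agent.H96.AE

open Finset Pool.Agent.H17 Pool.Agent.H6.MF Pool.Agent.H6.MB Pool.Agent.H12.DM Pool.Agent.H6.AE

lemma CV_A (i : ℕ) {x C₁ ε₁ K : ℝ} {H : ℕ} {D : Finset ℤ} (hx : 1 ≤ x) (hK : 1 ≤ K)
    (hKL : K * Real.log x ≤ (H : ℝ)) (hD : D ⊆ Finset.Icc 1 (H : ℤ)) (hC₁ : 0 < C₁)
    (hm : ∑ n ∈ rgH x H, (nf (Finset.Icc 1 (H : ℤ)) (La x) (n : ℤ)) ^ (i + 1) ≤
      C₁ * ((⌊x⌋₊ : ℝ) + 1) * (H : ℝ) ^ (i + 1))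
    (hs : ∑ C ∈ Finset.powersetCard (i + 2) (Finset.Icc 1 (H : ℤ)), |sing C - sW x C| ≤ ε₁ * (H : ℝ) ^ (i + 2))
    (hA : ∑ C ∈ Finset.powersetCard (i + 2) D,
      max 0 (∑ n ∈ rgH x H, ∏ c ∈ C, La x ((n : ℤ) - c) - ((⌊x⌋₊ : ℝ) + 1) * sing C)
      ≤ ε₁ * ((⌊x⌋₊ : ℝ) + 1) * (H : ℝ) ^ (i + 2)) :
    ∑ n ∈ rgH x H, (nf D (La x) (n : ℤ)) ^ (i + 2) ≤
      ((i + 2).factorial : ℝ) * (((⌊x⌋₊ : ℝ) + 1) * ∑ C ∈ Finset.powersetCard (i + 2) D, sW x C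
        + 2 * ε₁ * (((⌊x⌋₊ : ℝ) + 1) * (H : ℝ) ^ (i + 2)))
      + ((i : ℝ) + 2) ^ 2 * (C₁ / K) * (((⌊x⌋₊ : ℝ) + 1) * (H : ℝ) ^ (i + 2)) := by
  set N : ℝ := (⌊x⌋₊ : ℝ) + 1 with hN
  have hN0 : 0 ≤ N := by positivity
  have hH0 : (0 : ℝ) ≤ H := Nat.cast_nonneg H
  have hL0 : 0 ≤ Real.log x := Real.log_nonneg hx
  have hsub : Finset.powersetCard (i + 2) D ⊆ Finset.powersetCard (i + 2) (Finset.Icc 1 (H : ℤ)) :=
    Finset.powersetCard_mono hD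
  have h1 : ∀ n : ℕ, (nf D (La x) (n : ℤ)) ^ (i + 2) ≤
      ((i + 2).factorial : ℝ) * (∑ C ∈ Finset.powersetCard (i + 2) D, ∏ c ∈ C, La x ((n : ℤ) - c))
        + ((i : ℝ) + 2) ^ 2 * Real.log x * (nf (Finset.Icc 1 (H : ℤ)) (La x) (n : ℤ)) ^ (i + 1) := by
    intro n
    have h := CV_exp_up D (fun d => La x ((n : ℤ) - d)) (Real.log x) (fun d => La_nonneg hx _)
      (fun d => La_le hx _) (i + 1)
    have hle : nf D (La x) (n : ℤ) ≤ nf (Finset.Icc 1 (H : ℤ)) (La x) (n : ℤ) :=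
      Finset.sum_le_sum_of_subset_of_nonneg hD (fun _ _ _ => La_nonneg hx _)
    have hnn : 0 ≤ nf D (La x) (n : ℤ) := Finset.sum_nonneg fun _ _ => La_nonneg hx _
    have hp : (nf D (La x) (n : ℤ)) ^ (i + 1) ≤ (nf (Finset.Icc 1 (H : ℤ)) (La x) (n : ℤ)) ^ (i + 1) :=
      pow_le_pow_left₀ hnn hle _
    have e1 : (((i + 1 : ℕ) : ℝ) + 1) ^ 2 = ((i : ℝ) + 2) ^ 2 := by push_cast; ring
    rw [e1] at h
    refine h.trans ?_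
    exact add_le_add le_rfl (mul_le_mul_of_nonneg_left hp (by positivity))
  have h2 : ∑ n ∈ rgH x H, (nf D (La x) (n : ℤ)) ^ (i + 2) ≤
      ((i + 2).factorial : ℝ) * (∑ C ∈ Finset.powersetCard (i + 2) D, ∑ n ∈ rgH x H, ∏ c ∈ C, La x ((n : ℤ) - c))
        + ((i : ℝ) + 2) ^ 2 * (Real.log x *
          ∑ n ∈ rgH x H, (nf (Finset.Icc 1 (H : ℤ)) (La x) (n : ℤ)) ^ (i + 1)) := by
    rw [Finset.sum_comm, Finset.mul_sum, Finset.mul_sum, Finset.mul_sum, ← Finset.sum_add_distrib]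
    refine Finset.sum_le_sum fun n _ => (h1 n).trans (le_of_eq ?_)
    ring
  have h3 : ∑ C ∈ Finset.powersetCard (i + 2) D, ∑ n ∈ rgH x H, ∏ c ∈ C, La x ((n : ℤ) - c) ≤
      N * ∑ C ∈ Finset.powersetCard (i + 2) D, sW x C + 2 * ε₁ * (N * (H : ℝ) ^ (i + 2)) := by
    have a1 : ∑ C ∈ Finset.powersetCard (i + 2) D, ∑ n ∈ rgH x H, ∏ c ∈ C, La x ((n : ℤ) - c) ≤
        ∑ C ∈ Finset.powersetCard (i + 2) D, (N * sW x C + N * |sing C - sW x C| +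
          max 0 (∑ n ∈ rgH x H, ∏ c ∈ C, La x ((n : ℤ) - c) - N * sing C)) := by
      refine Finset.sum_le_sum fun C _ => ?_
      have b1 := le_max_right 0 (∑ n ∈ rgH x H, ∏ c ∈ C, La x ((n : ℤ) - c) - N * sing C)
      have b2 : N * sing C ≤ N * sW x C + N * |sing C - sW x C| := by
        rw [← mul_add]
        apply mul_le_mul_of_nonneg_left _ hN0
        have := le_abs_self (sing C - sW x C)
        linarith
      linarith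
    rw [Finset.sum_add_distrib, Finset.sum_add_distrib, ← Finset.mul_sum, ← Finset.mul_sum] at a1
    have a2 : ∑ C ∈ Finset.powersetCard (i + 2) D, |sing C - sW x C| ≤ ε₁ * (H : ℝ) ^ (i + 2) :=
      (Finset.sum_le_sum_of_subset_of_nonneg hsub (fun _ _ _ => abs_nonneg _)).trans hs
    have a3 : ∑ C ∈ Finset.powersetCard (i + 2) D,
        max 0 (∑ n ∈ rgH x H, ∏ c ∈ C, La x ((n : ℤ) - c) - N * sing C) ≤ ε₁ * N * (H : ℝ) ^ (i + 2) := hA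
    have a4 := mul_le_mul_of_nonneg_left a2 hN0
    linarith
  have h4 : Real.log x * ∑ n ∈ rgH x H, (nf (Finset.Icc 1 (H : ℤ)) (La x) (n : ℤ)) ^ (i + 1) ≤
      (C₁ / K) * (N * (H : ℝ) ^ (i + 2)) := by
    have hK0 : 0 < K := by linarith
    have a1 : Real.log x ≤ (H : ℝ) / K := by
      rw [le_div_iff₀ hK0]
      linarith
    calc Real.log x * ∑ n ∈ rgH x H, (nf (Finset.Icc 1 (H : ℤ)) (La x) (n : ℤ)) ^ (i + 1)
        ≤ Real.log x * (C₁ * N * (H : ℝ) ^ (i + 1)) := mul_le_mul_of_nonneg_left hm hL0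
      _ ≤ ((H : ℝ) / K) * (C₁ * N * (H : ℝ) ^ (i + 1)) :=
          mul_le_mul_of_nonneg_right a1 (by positivity)
      _ = (C₁ / K) * (N * (H : ℝ) ^ (i + 2)) := by
          field_simp
          ring
  have h5 : (0 : ℝ) ≤ ((i + 2).factorial : ℝ) := by positivity
  have h6 := mul_le_mul_of_nonneg_left h3 h5
  have h7 := mul_le_mul_of_nonneg_left h4 (show (0 : ℝ) ≤ ((i : ℝ) + 2) ^ 2 by positivity)
  calc ∑ n ∈ rgH x H, (nf D (La x) (n : ℤ)) ^ (i + 2) ≤ _ := h2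
    _ ≤ _ := add_le_add h6 h7
    _ = _ := by ring

lemma CV_card_le {H : ℕ} {D : Finset ℤ} (hD : D ⊆ Finset.Icc 1 (H : ℤ)) (j : ℕ) :
    ((Finset.powersetCard j D).card : ℝ) ≤ (H : ℝ) ^ j := by
  have h1 : D.card ≤ H := by
    have := Finset.card_le_card hD
    rw [Int.card_Icc] at this
    omega
  have h2 := (ISO_card D j).trans (Nat.pow_le_pow_left h1 j)
  exact_mod_cast h2

lemma CV_B (i : ℕ) {x ε₁ K : ℝ} {H : ℕ} {D : Finset ℤ} (hK : 1 ≤ K) (hL0 : 0 ≤ Real.log x)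
    (hKL : K * Real.log x ≤ (H : ℝ)) (hD : D ⊆ Finset.Icc 1 (H : ℤ)) (hε₁ : 0 ≤ ε₁)
    (hHN : (H : ℝ) ≤ (⌊x⌋₊ : ℝ) + 1)
    (hW : (WW (yy x) : ℝ) ≤ Real.log x) (hwp : wp (yy x) ≤ Real.log x)
    (hM : ∀ C : Finset ℤ, C ⊆ Finset.Icc 1 (H : ℤ) → C.card ≤ i + 2 →
      ∑ n ∈ rgH x H, ∏ c ∈ C, Mi x ((n : ℤ) - c) ≤ ((⌊x⌋₊ : ℝ) + 1) * sW x C + ε₁ * ((⌊x⌋₊ : ℝ) + 1)) :
    ∑ n ∈ rgH x H, (nf D (Mi x) (n : ℤ)) ^ (i + 2) ≤
      ((i + 2).factorial : ℝ) * (((⌊x⌋₊ : ℝ) + 1) * ∑ C ∈ Finset.powersetCard (i + 2) D, sW x C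
        + ε₁ * (((⌊x⌋₊ : ℝ) + 1) * (H : ℝ) ^ (i + 2)))
      + ((i : ℝ) + 2) ^ 2 * (2 ^ (i + 2) / K) * (((⌊x⌋₊ : ℝ) + 1) * (H : ℝ) ^ (i + 2)) := by
  set N : ℝ := (⌊x⌋₊ : ℝ) + 1 with hN
  have hN0 : 0 ≤ N := by positivity
  have hH0 : (0 : ℝ) ≤ H := Nat.cast_nonneg H
  have hK0 : 0 < K := by linarith
  have hLH : Real.log x ≤ (H : ℝ) := by nlinarith
  have hwp0 : 0 < wp (yy x) := wp_pos _
  have h1 : ∀ n : ℕ, (nf D (Mi x) (n : ℤ)) ^ (i + 2) ≤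
      ((i + 2).factorial : ℝ) * (∑ C ∈ Finset.powersetCard (i + 2) D, ∏ c ∈ C, Mi x ((n : ℤ) - c))
        + ((i : ℝ) + 2) ^ 2 * wp (yy x) * (2 * (H : ℝ)) ^ (i + 1) := by
    intro n
    have h := CV_exp_up D (fun d => Mi x ((n : ℤ) - d)) (wp (yy x)) (fun d => Mi_nonneg _ _)
      (fun d => (Mi_le _ _).trans (Mm_le _ _)) (i + 1)
    obtain ⟨hnn, hle⟩ := Mi_win_le x H D hD (n : ℤ)
    have hp : (nf D (Mi x) (n : ℤ)) ^ (i + 1) ≤ (2 * (H : ℝ)) ^ (i + 1) :=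
      pow_le_pow_left₀ hnn (by linarith) _
    have e1 : (((i + 1 : ℕ) : ℝ) + 1) ^ 2 = ((i : ℝ) + 2) ^ 2 := by push_cast; ring
    rw [e1] at h
    refine h.trans ?_
    have := mul_le_mul_of_nonneg_left hp (show (0 : ℝ) ≤ ((i : ℝ) + 2) ^ 2 * wp (yy x) by positivity)
    exact add_le_add le_rfl this
  have hcard : (((rgH x H).card : ℕ) : ℝ) ≤ 2 * N := by
    unfold rgH
    rw [Finset.card_range]
    push_cast
    linarith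
  have h2 : ∑ n ∈ rgH x H, (nf D (Mi x) (n : ℤ)) ^ (i + 2) ≤
      ((i + 2).factorial : ℝ) * (∑ C ∈ Finset.powersetCard (i + 2) D, ∑ n ∈ rgH x H, ∏ c ∈ C, Mi x ((n : ℤ) - c))
        + ((rgH x H).card : ℝ) * (((i : ℝ) + 2) ^ 2 * wp (yy x) * (2 * (H : ℝ)) ^ (i + 1)) := by
    rw [Finset.sum_comm, Finset.mul_sum, ← nsmul_eq_mul, ← Finset.sum_const, ← Finset.sum_add_distrib]
    exact Finset.sum_le_sum fun n _ => h1 n
  have h3 : ∑ C ∈ Finset.powersetCard (i + 2) D, ∑ n ∈ rgH x H, ∏ c ∈ C, Mi x ((n : ℤ) - c) ≤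
      N * ∑ C ∈ Finset.powersetCard (i + 2) D, sW x C + ε₁ * (N * (H : ℝ) ^ (i + 2)) := by
    have a1 : ∑ C ∈ Finset.powersetCard (i + 2) D, ∑ n ∈ rgH x H, ∏ c ∈ C, Mi x ((n : ℤ) - c) ≤
        ∑ C ∈ Finset.powersetCard (i + 2) D, (N * sW x C + ε₁ * N) := by
      refine Finset.sum_le_sum fun C hC => ?_
      rw [Finset.mem_powersetCard] at hC
      exact hM C (hC.1.trans hD) hC.2.le
    rw [Finset.sum_add_distrib, ← Finset.mul_sum, Finset.sum_const, nsmul_eq_mul] at a1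
    have a2 := mul_le_mul_of_nonneg_right (CV_card_le hD (i + 2)) (show 0 ≤ ε₁ * N by positivity)
    linarith
  have h4 : ((rgH x H).card : ℝ) * (((i : ℝ) + 2) ^ 2 * wp (yy x) * (2 * (H : ℝ)) ^ (i + 1)) ≤
      ((i : ℝ) + 2) ^ 2 * (2 ^ (i + 2) / K) * (N * (H : ℝ) ^ (i + 2)) := by
    have a1 : wp (yy x) ≤ (H : ℝ) / K := by
      rw [le_div_iff₀ hK0]
      nlinarith
    calc ((rgH x H).card : ℝ) * (((i : ℝ) + 2) ^ 2 * wp (yy x) * (2 * (H : ℝ)) ^ (i + 1))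
        ≤ (2 * N) * (((i : ℝ) + 2) ^ 2 * ((H : ℝ) / K) * (2 * (H : ℝ)) ^ (i + 1)) := by
          apply mul_le_mul hcard _ (by positivity) (by positivity)
          apply mul_le_mul_of_nonneg_right _ (by positivity)
          exact mul_le_mul_of_nonneg_left a1 (by positivity)
      _ = ((i : ℝ) + 2) ^ 2 * (2 ^ (i + 2) / K) * (N * (H : ℝ) ^ (i + 2)) := by
          rw [mul_pow]
          field_simp
          ring
  have h6 := mul_le_mul_of_nonneg_left h3 (show (0 : ℝ) ≤ ((i + 2).factorial : ℝ) by positivity)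
  linarith

lemma CV_C (i : ℕ) {x ε₁ : ℝ} {H : ℕ} {D : Finset ℤ} (hx : 1 ≤ x)
    (hD : D ⊆ Finset.Icc 1 (H : ℤ)) (hε₁ : 0 ≤ ε₁)
    (hLL : ∀ C : Finset ℤ, C ⊆ Finset.Icc 1 (H : ℤ) → C.card ≤ i + 1 → ∀ e ∈ Finset.Icc 1 (H : ℤ) \ C,
      (1 - ε₁) * ((⌊x⌋₊ : ℝ) + 1) * sW x (insert e C) - ε₁ * ((⌊x⌋₊ : ℝ) + 1) ≤
        ∑ n ∈ rgH x H, (∏ c ∈ C, Mi x ((n : ℤ) - c)) * La x ((n : ℤ) - e)) :
    (1 - ε₁) * ((i + 2).factorial : ℝ) * (((⌊x⌋₊ : ℝ) + 1) * ∑ C ∈ Finset.powersetCard (i + 2) D, sW x C)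
      - ((i + 1).factorial : ℝ) * ε₁ * (((⌊x⌋₊ : ℝ) + 1) * (H : ℝ) ^ (i + 2)) ≤
    ∑ n ∈ rgH x H, (nf D (Mi x) (n : ℤ)) ^ (i + 1) * nf D (La x) (n : ℤ) := by
  set N : ℝ := (⌊x⌋₊ : ℝ) + 1 with hN
  have hN0 : 0 ≤ N := by positivity
  have hH0 : (0 : ℝ) ≤ H := Nat.cast_nonneg H
  have h1 : ∀ n : ℕ, ((i + 1).factorial : ℝ) * (∑ C ∈ Finset.powersetCard (i + 1) D, ∑ e ∈ D \ C,
      (∏ c ∈ C, Mi x ((n : ℤ) - c)) * La x ((n : ℤ) - e)) ≤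
      (nf D (Mi x) (n : ℤ)) ^ (i + 1) * nf D (La x) (n : ℤ) := by
    intro n
    have a1 := CV_exp_lo D (fun d => Mi x ((n : ℤ) - d)) (fun d => Mi_nonneg _ _) (i + 1)
    have hnn : 0 ≤ nf D (La x) (n : ℤ) := Finset.sum_nonneg fun _ _ => La_nonneg hx _
    have a2 : ∑ C ∈ Finset.powersetCard (i + 1) D, ∑ e ∈ D \ C,
        (∏ c ∈ C, Mi x ((n : ℤ) - c)) * La x ((n : ℤ) - e) ≤
        (∑ C ∈ Finset.powersetCard (i + 1) D, ∏ c ∈ C, Mi x ((n : ℤ) - c)) * nf D (La x) (n : ℤ) := by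
      rw [Finset.sum_mul]
      refine Finset.sum_le_sum fun C _ => ?_
      rw [← Finset.mul_sum]
      apply mul_le_mul_of_nonneg_left _ (Finset.prod_nonneg fun _ _ => Mi_nonneg _ _)
      exact Finset.sum_le_sum_of_subset_of_nonneg Finset.sdiff_subset (fun _ _ _ => La_nonneg hx _)
    calc ((i + 1).factorial : ℝ) * (∑ C ∈ Finset.powersetCard (i + 1) D, ∑ e ∈ D \ C,
          (∏ c ∈ C, Mi x ((n : ℤ) - c)) * La x ((n : ℤ) - e))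
        ≤ ((i + 1).factorial : ℝ) * ((∑ C ∈ Finset.powersetCard (i + 1) D, ∏ c ∈ C, Mi x ((n : ℤ) - c)) *
            nf D (La x) (n : ℤ)) := mul_le_mul_of_nonneg_left a2 (by positivity)
      _ = (((i + 1).factorial : ℝ) * (∑ C ∈ Finset.powersetCard (i + 1) D, ∏ c ∈ C, Mi x ((n : ℤ) - c))) *
            nf D (La x) (n : ℤ) := by ring
      _ ≤ (nf D (Mi x) (n : ℤ)) ^ (i + 1) * nf D (La x) (n : ℤ) :=
          mul_le_mul_of_nonneg_right a1 hnn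
  have h2 : ((i + 1).factorial : ℝ) * (∑ C ∈ Finset.powersetCard (i + 1) D, ∑ e ∈ D \ C,
      ∑ n ∈ rgH x H, (∏ c ∈ C, Mi x ((n : ℤ) - c)) * La x ((n : ℤ) - e)) ≤
      ∑ n ∈ rgH x H, (nf D (Mi x) (n : ℤ)) ^ (i + 1) * nf D (La x) (n : ℤ) := by
    have e1 : ∑ C ∈ Finset.powersetCard (i + 1) D, ∑ e ∈ D \ C,
        ∑ n ∈ rgH x H, (∏ c ∈ C, Mi x ((n : ℤ) - c)) * La x ((n : ℤ) - e) =
        ∑ n ∈ rgH x H, ∑ C ∈ Finset.powersetCard (i + 1) D, ∑ e ∈ D \ C,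
          (∏ c ∈ C, Mi x ((n : ℤ) - c)) * La x ((n : ℤ) - e) := by
      rw [Finset.sum_comm (s := rgH x H)]
      refine Finset.sum_congr rfl fun C _ => ?_
      rw [Finset.sum_comm]
    rw [e1, Finset.mul_sum]
    exact Finset.sum_le_sum fun n _ => h1 n
  have h3 : (1 - ε₁) * N * (((i + 1 : ℕ) : ℝ) + 1) * (∑ C ∈ Finset.powersetCard (i + 2) D, sW x C)
      - ε₁ * N * (H : ℝ) ^ (i + 2) ≤
      ∑ C ∈ Finset.powersetCard (i + 1) D, ∑ e ∈ D \ C,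
        ∑ n ∈ rgH x H, (∏ c ∈ C, Mi x ((n : ℤ) - c)) * La x ((n : ℤ) - e) := by
    have a1 : ∑ C ∈ Finset.powersetCard (i + 1) D, ∑ e ∈ D \ C,
        ((1 - ε₁) * N * sW x (insert e C) - ε₁ * N) ≤
        ∑ C ∈ Finset.powersetCard (i + 1) D, ∑ e ∈ D \ C,
        ∑ n ∈ rgH x H, (∏ c ∈ C, Mi x ((n : ℤ) - c)) * La x ((n : ℤ) - e) := by
      refine Finset.sum_le_sum fun C hC => Finset.sum_le_sum fun e he => ?_
      rw [Finset.mem_powersetCard] at hC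
      rw [Finset.mem_sdiff] at he
      exact hLL C (hC.1.trans hD) hC.2.le e (Finset.mem_sdiff.2 ⟨hD he.1, he.2⟩)
    have a2 : ∑ C ∈ Finset.powersetCard (i + 1) D, ∑ e ∈ D \ C,
        ((1 - ε₁) * N * sW x (insert e C) - ε₁ * N) =
        (1 - ε₁) * N * ((((i + 1 : ℕ) : ℝ) + 1) * ∑ C ∈ Finset.powersetCard (i + 2) D, sW x C) -
        ∑ C ∈ Finset.powersetCard (i + 1) D, ((D \ C).card : ℝ) * (ε₁ * N) := by
      have := ISO2 D (i + 1) (fun C => sW x C)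
      rw [← this, Finset.mul_sum, ← Finset.sum_sub_distrib]
      refine Finset.sum_congr rfl fun C _ => ?_
      rw [Finset.sum_sub_distrib, Finset.mul_sum, Finset.sum_const, nsmul_eq_mul]
    have a3 : ∑ C ∈ Finset.powersetCard (i + 1) D, ((D \ C).card : ℝ) * (ε₁ * N) ≤
        ε₁ * N * (H : ℝ) ^ (i + 2) := by
      have b1 : ∀ C ∈ Finset.powersetCard (i + 1) D, ((D \ C).card : ℝ) * (ε₁ * N) ≤ (H : ℝ) * (ε₁ * N) := by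
        intro C _
        apply mul_le_mul_of_nonneg_right _ (by positivity)
        have c1 : (D \ C).card ≤ H := by
          have := Finset.card_le_card (Finset.sdiff_subset.trans hD : D \ C ⊆ _)
          rw [Int.card_Icc] at this
          omega
        exact_mod_cast c1
      refine (Finset.sum_le_sum b1).trans ?_
      rw [Finset.sum_const, nsmul_eq_mul]
      have b2 := mul_le_mul_of_nonneg_right (CV_card_le hD (i + 1)) (show 0 ≤ (H : ℝ) * (ε₁ * N) by positivity)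
      refine b2.trans (le_of_eq (by ring))
    rw [a2] at a1
    linarith
  have h4 := mul_le_mul_of_nonneg_left h3 (show (0 : ℝ) ≤ ((i + 1).factorial : ℝ) by positivity)
  have e2 : ((i + 2).factorial : ℝ) = ((i : ℝ) + 2) * ((i + 1).factorial : ℝ) := by
    rw [Nat.factorial_succ (i + 1)]
    push_cast
    ring
  refine le_trans (le_of_eq ?_) (h4.trans h2)
  rw [e2]
  push_cast
  ring

/-- the excess over the Hardy-Littlewood prediction for the `(i+2)`-element subsets of `D` -/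
def CVex (i : ℕ) (x : ℝ) (H : ℕ) (δ : ℝ) (D : Finset ℤ) : Prop :=
  ∑ C ∈ Finset.powersetCard (i + 2) D,
    max 0 (∑ n ∈ rgH x H, ∏ c ∈ C, La x ((n : ℤ) - c) - ((⌊x⌋₊ : ℝ) + 1) * sing C)
      ≤ δ * ((⌊x⌋₊ : ℝ) + 1) * (H : ℝ) ^ (i + 2)

/-- the `j`-th moment of the difference of the window sums, `j = i + 2` -/
theorem CV_diffG (i : ℕ) (ε : ℝ) (hε : 0 < ε) : ∃ δ K X : ℝ, 0 < δ ∧ 1 ≤ K ∧ ∀ x : ℝ, X ≤ x → ∀ H : ℕ,
    K * Real.log x ≤ (H : ℝ) → (H : ℝ) ≤ (Real.log x) ^ 2 → ∀ D : Finset ℤ,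
    D ⊆ Finset.Icc 1 (H : ℤ) → CVex i x H δ D →
    ∑ n ∈ rgH x H, |nf D (La x) (n : ℤ) - nf D (Mi x) (n : ℤ)| ^ (i + 2) ≤ ε * ((⌊x⌋₊ : ℝ) + 1) * (H : ℝ) ^ (i + 2) := by
  obtain ⟨C₁, X₁, hC₁, h₁⟩ := CV_mom (i + 1)
  obtain ⟨C₀, X₂, hC₀, h₂⟩ := CVd_sum i
  set F : ℝ := ((i + 2).factorial : ℝ) with hF
  set F' : ℝ := ((i + 1).factorial : ℝ) with hF'
  have hF0 : 0 < F := by positivity
  have hF'0 : 0 < F' := by positivity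
  set E₁ : ℝ := ((i : ℝ) + 2) * F * C₀ + 2 * F + ((i : ℝ) + 1) * F + ((i : ℝ) + 2) * F' with hE₁
  set E₂ : ℝ := ((i : ℝ) + 2) ^ 2 * C₁ + ((i : ℝ) + 1) * (((i : ℝ) + 2) ^ 2 * 2 ^ (i + 2)) with hE₂
  have hE₁0 : 0 < E₁ := by positivity
  have hE₂0 : 0 < E₂ := by positivity
  set ε₁ : ℝ := ε / (2 * E₁) with hε₁
  have hε₁0 : 0 < ε₁ := by positivity
  set K : ℝ := max 1 (2 * E₂ / ε) with hK
  have hK1 : 1 ≤ K := le_max_left _ _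
  have hK2 : 2 * E₂ / ε ≤ K := le_max_right _ _
  have hK0 : 0 < K := by linarith
  obtain ⟨X₃, h₃⟩ := CVd_sing i ε₁ hε₁0
  obtain ⟨X₅, h₅⟩ := CV_M (i + 2) ε₁ hε₁0
  obtain ⟨X₆, h₆⟩ := CV_L (i + 1) ε₁ hε₁0
  obtain ⟨X₇, h₇⟩ := CVc_large 0 1 one_pos
  obtain ⟨X₈, hX₈1, h₈⟩ := CVb_H
  refine ⟨ε₁, K, max (max (max X₁ X₂) (max X₃ X₃)) (max (max X₅ X₆) (max X₇ X₈)), hε₁0, hK1,
    fun x hx H hKL hHL D hD hU => ?_⟩
  have g₁ : X₁ ≤ x := le_trans (le_trans (le_trans (le_max_left _ _) (le_max_left _ _)) (le_max_left _ _)) hx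
  have g₂ : X₂ ≤ x := le_trans (le_trans (le_trans (le_max_right _ _) (le_max_left _ _)) (le_max_left _ _)) hx
  have g₃ : X₃ ≤ x := le_trans (le_trans (le_trans (le_max_left _ _) (le_max_right _ _)) (le_max_left _ _)) hx
  have g₅ : X₅ ≤ x := le_trans (le_trans (le_trans (le_max_left _ _) (le_max_left _ _)) (le_max_right _ _)) hx
  have g₆ : X₆ ≤ x := le_trans (le_trans (le_trans (le_max_right _ _) (le_max_left _ _)) (le_max_right _ _)) hx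
  have g₇ : X₇ ≤ x := le_trans (le_trans (le_trans (le_max_left _ _) (le_max_right _ _)) (le_max_right _ _)) hx
  have g₈ : X₈ ≤ x := le_trans (le_trans (le_trans (le_max_right _ _) (le_max_right _ _)) (le_max_right _ _)) hx
  obtain ⟨hx1, hL1, hWL, hwpL, -⟩ := h₇ x g₇
  have hL0 : 0 ≤ Real.log x := by linarith
  have hLH : Real.log x ≤ (H : ℝ) := by nlinarith
  have hHL4 : (H : ℝ) ≤ 4 * (Real.log x) ^ 2 := by nlinarith [sq_nonneg (Real.log x)]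
  have hHN := h₈ x g₈ H hHL4
  have hA := CV_A i hx1 hK1 hKL hD hC₁ (h₁ x g₁ H hLH hHL4) (h₃ x g₃ H hLH hHL) hU
  have hB := CV_B i hK1 hL0 hKL hD hε₁0.le hHN hWL hwpL (fun C hC hc => h₅ x g₅ H hHL C hC hc)
  have hC := CV_C i hx1 hD hε₁0.le (fun C hC hc e he => h₆ x g₆ H hHL C hC hc e he)
  have hS := h₂ x g₂ H hLH hHL
  set N : ℝ := (⌊x⌋₊ : ℝ) + 1 with hN
  have hN0 : 0 ≤ N := by positivity
  set Q : ℝ := N * (H : ℝ) ^ (i + 2) with hQ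
  have hQ0 : 0 ≤ Q := by positivity
  have hT : ∑ C ∈ Finset.powersetCard (i + 2) D, sW x C ≤ C₀ * (H : ℝ) ^ (i + 2) :=
    (Finset.sum_le_sum_of_subset_of_nonneg (Finset.powersetCard_mono hD) (fun _ _ _ => sW_nonneg _ _)).trans hS
  set T : ℝ := ∑ C ∈ Finset.powersetCard (i + 2) D, sW x C with hTd
  have hNT : N * T ≤ C₀ * Q := by
    have := mul_le_mul_of_nonneg_left hT hN0
    refine this.trans (le_of_eq (by rw [hQ]; ring))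
  have h1 : ∑ n ∈ rgH x H, |nf D (La x) (n : ℤ) - nf D (Mi x) (n : ℤ)| ^ (i + 2) ≤
      ∑ n ∈ rgH x H, (nf D (La x) (n : ℤ)) ^ (i + 2) +
      ((i : ℝ) + 1) * ∑ n ∈ rgH x H, (nf D (Mi x) (n : ℤ)) ^ (i + 2) -
      ((i : ℝ) + 2) * ∑ n ∈ rgH x H, (nf D (Mi x) (n : ℤ)) ^ (i + 1) * nf D (La x) (n : ℤ) := by
    rw [Finset.mul_sum, Finset.mul_sum, ← Finset.sum_add_distrib, ← Finset.sum_sub_distrib]
    refine Finset.sum_le_sum fun n _ => ?_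
    have a1 : 0 ≤ nf D (La x) (n : ℤ) := Finset.sum_nonneg fun _ _ => La_nonneg hx1 _
    have a2 : 0 ≤ nf D (Mi x) (n : ℤ) := Finset.sum_nonneg fun _ _ => Mi_nonneg _ _
    refine (CV_pow i a1 a2).trans (le_of_eq (by ring))
  have hi1 : (0 : ℝ) ≤ (i : ℝ) + 1 := by positivity
  have hi2 : (0 : ℝ) ≤ (i : ℝ) + 2 := by positivity
  have hB' := mul_le_mul_of_nonneg_left hB hi1
  have hC' := mul_le_mul_of_nonneg_left hC hi2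
  have hm1 : ((i : ℝ) + 2) * ε₁ * F * (N * T) ≤ ((i : ℝ) + 2) * ε₁ * F * (C₀ * Q) :=
    mul_le_mul_of_nonneg_left hNT (by positivity)
  have hEK : E₂ / K ≤ ε / 2 := by
    rw [div_le_iff₀ hK0]
    have := (div_le_iff₀ hε).1 hK2
    linarith
  have hEε : ε₁ * E₁ = ε / 2 := by
    rw [hε₁]
    field_simp
  have hfin : ε₁ * E₁ * Q + E₂ / K * Q ≤ ε * Q := by
    rw [hEε]
    have := mul_le_mul_of_nonneg_right hEK hQ0
    linarith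
  have hexp1 : ε₁ * E₁ * Q = ((i : ℝ) + 2) * ε₁ * F * (C₀ * Q) + F * (2 * ε₁ * Q) +
      ((i : ℝ) + 1) * (F * (ε₁ * Q)) + ((i : ℝ) + 2) * (F' * ε₁ * Q) := by
    rw [hE₁]; ring
  have hexp2 : E₂ / K * Q = ((i : ℝ) + 2) ^ 2 * (C₁ / K) * Q +
      ((i : ℝ) + 1) * (((i : ℝ) + 2) ^ 2 * (2 ^ (i + 2) / K) * Q) := by
    rw [hE₂]; ring
  have hgoal : ε * N * (H : ℝ) ^ (i + 2) = ε * Q := by rw [hQ]; ring
  rw [hgoal]
  have hmain : F * (N * T) + ((i : ℝ) + 1) * (F * (N * T)) - ((i : ℝ) + 2) * ((1 - ε₁) * F * (N * T)) =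
      ((i : ℝ) + 2) * ε₁ * F * (N * T) := by ring
  have k1 : F * (N * T + 2 * ε₁ * Q) = F * (N * T) + F * (2 * ε₁ * Q) := by ring
  have k2 : ((i : ℝ) + 1) * (F * (N * T + ε₁ * Q) + ((i : ℝ) + 2) ^ 2 * (2 ^ (i + 2) / K) * Q) =
      ((i : ℝ) + 1) * (F * (N * T)) + ((i : ℝ) + 1) * (F * (ε₁ * Q)) +
      ((i : ℝ) + 1) * (((i : ℝ) + 2) ^ 2 * (2 ^ (i + 2) / K) * Q) := by ring
  have k3 : ((i : ℝ) + 2) * ((1 - ε₁) * F * (N * T) - F' * ε₁ * Q) =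
      ((i : ℝ) + 2) * ((1 - ε₁) * F * (N * T)) - ((i : ℝ) + 2) * (F' * ε₁ * Q) := by ring
  rw [k1] at hA
  rw [k2] at hB'
  rw [k3] at hC'
  linarith

/-- the same in `L²`, for one set `D` -/
theorem CVG (i : ℕ) (ε : ℝ) (hε : 0 < ε) : ∃ δ K X : ℝ, 0 < δ ∧ 1 ≤ K ∧ ∀ x : ℝ, X ≤ x → ∀ H : ℕ,
    K * Real.log x ≤ (H : ℝ) → (H : ℝ) ≤ (Real.log x) ^ 2 → ∀ D : Finset ℤ,
    D ⊆ Finset.Icc 1 (H : ℤ) → CVex i x H δ D → SW x H ε D := by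
  set θ : ℝ := Real.sqrt (ε / 4) with hθ
  have hθ0 : 0 < θ := Real.sqrt_pos.2 (by positivity)
  have hθ2 : θ ^ 2 = ε / 4 := Real.sq_sqrt (by positivity)
  obtain ⟨δ, K, X, hδ, hK, h⟩ := CV_diffG i (θ ^ i * (ε / 2)) (by positivity)
  obtain ⟨X₇, h₇⟩ := CVc_large 0 1 one_pos
  obtain ⟨X₈, hX₈1, h₈⟩ := CVb_H
  refine ⟨δ, K, max X (max X₇ X₈), hδ, hK, fun x hx H hKL hHL D hD hU => ?_⟩
  have g₁ : X ≤ x := (le_max_left _ _).trans hx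
  have g₇ : X₇ ≤ x := ((le_max_left _ _).trans (le_max_right _ _)).trans hx
  have g₈ : X₈ ≤ x := ((le_max_right _ _).trans (le_max_right _ _)).trans hx
  obtain ⟨hx1, hL1, -, -, -⟩ := h₇ x g₇
  have hL0 : 0 ≤ Real.log x := by linarith
  have hLH : Real.log x ≤ (H : ℝ) := by nlinarith
  have hHL4 : (H : ℝ) ≤ 4 * (Real.log x) ^ 2 := by nlinarith [sq_nonneg (Real.log x)]
  have hHN := h₈ x g₈ H hHL4
  have hd := h x g₁ H hKL hHL D hD hU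
  have hH0 : (0 : ℝ) < H := by linarith
  set N : ℝ := (⌊x⌋₊ : ℝ) + 1 with hN
  have hN0 : 0 ≤ N := by positivity
  have hcard : (((rgH x H).card : ℕ) : ℝ) ≤ 2 * N := by
    unfold rgH
    rw [Finset.card_range]
    push_cast
    linarith
  unfold SW
  have h1 : ∀ n : ℕ, (nf D (fB x) (n : ℤ)) ^ 2 ≤ (θ * H) ^ 2 +
      |nf D (La x) (n : ℤ) - nf D (Mi x) (n : ℤ)| ^ (i + 2) / (θ * H) ^ i := by
    intro n
    have e1 : nf D (fB x) (n : ℤ) = nf D (La x) (n : ℤ) - nf D (Mi x) (n : ℤ) := by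
      unfold nf fB
      rw [Finset.sum_sub_distrib]
    rw [e1, ← sq_abs]
    exact CV_sq i (abs_nonneg _) (by positivity)
  calc ∑ n ∈ rgH x H, (nf D (fB x) (n : ℤ)) ^ 2
      ≤ ∑ n ∈ rgH x H, ((θ * H) ^ 2 +
        |nf D (La x) (n : ℤ) - nf D (Mi x) (n : ℤ)| ^ (i + 2) / (θ * H) ^ i) :=
        Finset.sum_le_sum fun n _ => h1 n
    _ = ((rgH x H).card : ℝ) * (θ * H) ^ 2 +
        (∑ n ∈ rgH x H, |nf D (La x) (n : ℤ) - nf D (Mi x) (n : ℤ)| ^ (i + 2)) / (θ * H) ^ i := by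
        rw [Finset.sum_add_distrib, Finset.sum_const, nsmul_eq_mul, Finset.sum_div]
    _ ≤ (2 * N) * (θ * H) ^ 2 + (θ ^ i * (ε / 2) * N * (H : ℝ) ^ (i + 2)) / (θ * H) ^ i := by
        apply add_le_add
        · exact mul_le_mul_of_nonneg_right hcard (by positivity)
        · exact div_le_div_of_nonneg_right hd (by positivity)
    _ = ε * N * (H : ℝ) ^ 2 := by
        have e2 : (θ ^ i * (ε / 2) * N * (H : ℝ) ^ (i + 2)) / (θ * H) ^ i = (ε / 2) * N * (H : ℝ) ^ 2 := by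
          rw [mul_pow, pow_add]
          field_simp
        rw [e2, mul_pow, hθ2]
        ring

/-- one-sided Hardy-Littlewood for almost all `(i+2)`-tuples gives small windows -/
theorem CV (i : ℕ) (ε : ℝ) (hε : 0 < ε) : ∃ δ K X : ℝ, 0 < δ ∧ 1 ≤ K ∧ ∀ x : ℝ, X ≤ x → ∀ H : ℕ,
    K * Real.log x ≤ (H : ℝ) → (H : ℝ) ≤ (Real.log x) ^ 2 → UAk (i + 2) x H δ → ∀ D : Finset ℤ,
    D ⊆ Finset.Icc 1 (H : ℤ) → SW x H ε D := by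
  obtain ⟨δ, K, X, hδ, hK, h⟩ := CVG i ε hε
  obtain ⟨δ', X', hδ', h'⟩ := CVd_AA i δ hδ
  obtain ⟨X₇, h₇⟩ := CVc_large 0 1 one_pos
  refine ⟨δ', K, max X (max X' X₇), hδ', hK, fun x hx H hKL hHL hU D hD => ?_⟩
  have g₁ : X ≤ x := (le_max_left _ _).trans hx
  have g₂ : X' ≤ x := ((le_max_left _ _).trans (le_max_right _ _)).trans hx
  have g₇ : X₇ ≤ x := ((le_max_right _ _).trans (le_max_right _ _)).trans hx
  obtain ⟨hx1, hL1, -, -, -⟩ := h₇ x g₇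
  have hLH : Real.log x ≤ (H : ℝ) := by nlinarith
  refine h x g₁ H hKL hHL D hD ?_
  exact (Finset.sum_le_sum_of_subset_of_nonneg (Finset.powersetCard_mono hD)
    (fun _ _ _ => le_max_left _ _)).trans (h' x g₂ H hLH hHL hU)

end Pool.Agent.H96.AE
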