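import Pool.Agent.H96.AE.ISO

/-!
# CVa: a convexity inequality; powers of sums

* `CV_pow`: let `P_j = A^j - B^j - j B^(j-1) (A - B)`; the claim is `|A - B|^j ≤ P_j` for `j ≥ 2` (`j = i + 2`; `P_j = A^j + (j-1) B^j - j B^(j-1) A`). Induction: `P_2 = (A-B)^2`; `P_(j+1) = A P_j + j B^(j-1) (A-B)^2`. With `t = |A - B|`:
  if `A ≥ B`, then `t ≤ A` and `P_(j+1) ≥ A t^j ≥ t^(j+1)`; if `A < B` then `t ≤ B` and `P_(j+1) ≥ j B^(j-1) t^2 ≥ t^(j-1) t^2`.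
* `CV_sq`: if `t ≤ θ` clear, otherwise `t^(i+2)/θ^i = t^2 (t/θ)^i ≥ t^2`.
* `CV_exp`: `S = ∑_D a`, `e_j = ∑_{C ∈ powersetCard j D} ∏_C a`. `S e_j = ∑_C ∑_{e ∈ D \ C} a e ∏_C a + ∑_C ∑_{e∈C} a e ∏_C a`; the first part is `(j+1) e_(j+1)` (`ISO2` with `Φ = ∏ a`), the second is `≥ 0` and
  `= ∑_{C' ∈ P_(j-1)} ∑_{e ∈ D \ C'} (a e)^2 ∏_{C'} a ≤ B₀ S e_(j-1)` (`ISO1`; zero for `j = 0`). So with `E_j = S^j - j! e_j`: `E_0 = E_1 = 0`, `E_(j+1) = S E_j + j! X_j`, `0 ≤ X_j ≤ B₀ S e_(j-1)`, and by `CV_exp_lo`, `j! e_(j-1) = j (j-1)! e_(j-1) ≤ j S^(j-1)`,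
  `0 ≤ E_(j+1) ≤ S E_j + j B₀ S^j`. By induction `0 ≤ E_(j+1) ≤ (1 + ... + j) B₀ S^j ≤ (j+1)^2 B₀ S^j`.
-/

set_option autoImplicit false

namespace Pool.Agent.H96.AE

open Finset

theorem CV_pow (i : ℕ) {A B : ℝ} (hA : 0 ≤ A) (hB : 0 ≤ B) :
    |A - B| ^ (i + 2) ≤ A ^ (i + 2) + ((i : ℝ) + 1) * B ^ (i + 2) - ((i : ℝ) + 2) * B ^ (i + 1) * A := by
  induction i with
  | zero =>
    have h : |A - B| ^ (0 + 2) = (A - B) ^ 2 := sq_abs _
    rw [h]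
    push_cast
    nlinarith
  | succ i ih =>
    have hid : A ^ (i + 1 + 2) + (((i + 1 : ℕ) : ℝ) + 1) * B ^ (i + 1 + 2)
        - (((i + 1 : ℕ) : ℝ) + 2) * B ^ (i + 1 + 1) * A
        = A * (A ^ (i + 2) + ((i : ℝ) + 1) * B ^ (i + 2) - ((i : ℝ) + 2) * B ^ (i + 1) * A)
          + ((i : ℝ) + 2) * B ^ (i + 1) * (A - B) ^ 2 := by
      push_cast
      ring
    rw [hid]
    have h0 : 0 ≤ |A - B| := abs_nonneg _
    have hP : 0 ≤ A ^ (i + 2) + ((i : ℝ) + 1) * B ^ (i + 2) - ((i : ℝ) + 2) * B ^ (i + 1) * A :=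
      (pow_nonneg h0 _).trans ih
    have hsq : |A - B| ^ 2 = (A - B) ^ 2 := sq_abs _
    rcases le_total B A with h | h
    · have ht : |A - B| ≤ A := by
        rw [abs_of_nonneg (by linarith)]
        linarith
      have h1 : |A - B| ^ (i + 1 + 2) ≤ A * |A - B| ^ (i + 2) := by
        have : |A - B| ^ (i + 1 + 2) = |A - B| * |A - B| ^ (i + 2) := by ring
        rw [this]
        exact mul_le_mul_of_nonneg_right ht (pow_nonneg h0 _)
      have h2 : A * |A - B| ^ (i + 2)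
          ≤ A * (A ^ (i + 2) + ((i : ℝ) + 1) * B ^ (i + 2) - ((i : ℝ) + 2) * B ^ (i + 1) * A) :=
        mul_le_mul_of_nonneg_left ih hA
      have h3 : 0 ≤ ((i : ℝ) + 2) * B ^ (i + 1) * (A - B) ^ 2 := by positivity
      linarith
    · have ht : |A - B| ≤ B := by
        rw [abs_of_nonpos (by linarith)]
        linarith
      have h1 : |A - B| ^ (i + 1 + 2) ≤ B ^ (i + 1) * (A - B) ^ 2 := by
        have : |A - B| ^ (i + 1 + 2) = |A - B| ^ (i + 1) * |A - B| ^ 2 := by ring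
        rw [this, hsq]
        exact mul_le_mul_of_nonneg_right (pow_le_pow_left₀ h0 ht _) (sq_nonneg _)
      have h2 : B ^ (i + 1) * (A - B) ^ 2 ≤ ((i : ℝ) + 2) * B ^ (i + 1) * (A - B) ^ 2 := by
        have h4 : 0 ≤ B ^ (i + 1) * (A - B) ^ 2 := by positivity
        have h5 : (1 : ℝ) ≤ (i : ℝ) + 2 := by
          have : (0 : ℝ) ≤ (i : ℝ) := Nat.cast_nonneg _
          linarith
        have := mul_le_mul_of_nonneg_right h5 h4
        nlinarith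
      have h3 : 0 ≤ A * (A ^ (i + 2) + ((i : ℝ) + 1) * B ^ (i + 2) - ((i : ℝ) + 2) * B ^ (i + 1) * A) :=
        mul_nonneg hA hP
      linarith

theorem CV_sq (i : ℕ) {t θ : ℝ} (ht : 0 ≤ t) (hθ : 0 < θ) : t ^ 2 ≤ θ ^ 2 + t ^ (i + 2) / θ ^ i := by
  rcases le_total t θ with h | h
  · have h1 : t ^ 2 ≤ θ ^ 2 := pow_le_pow_left₀ ht h 2
    have h2 : 0 ≤ t ^ (i + 2) / θ ^ i := by positivity
    linarith
  · have h1 : t ^ 2 ≤ t ^ (i + 2) / θ ^ i := by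
      rw [le_div_iff₀ (pow_pos hθ i)]
      have h3 : t ^ (i + 2) = t ^ 2 * t ^ i := by ring
      rw [h3]
      exact mul_le_mul_of_nonneg_left (pow_le_pow_left₀ hθ.le h i) (sq_nonneg _)
    have h2 : 0 ≤ θ ^ 2 := sq_nonneg _
    linarith

theorem CV_exp_lo (D : Finset ℤ) (a : ℤ → ℝ) (ha : ∀ d, 0 ≤ a d) (j : ℕ) :
    (j.factorial : ℝ) * ∑ C ∈ Finset.powersetCard j D, ∏ c ∈ C, a c ≤ (∑ d ∈ D, a d) ^ j := by
  induction j with
  | zero => simp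
  | succ j ih =>
    have hS : 0 ≤ ∑ d ∈ D, a d := Finset.sum_nonneg fun d _ => ha d
    have h1 := ISO2 D j (fun C => ∏ c ∈ C, a c)
    have h2 : ∑ C ∈ Finset.powersetCard j D, ∑ t ∈ D \ C, ∏ c ∈ insert t C, a c
        ≤ (∑ C ∈ Finset.powersetCard j D, ∏ c ∈ C, a c) * ∑ d ∈ D, a d := by
      rw [Finset.sum_mul]
      refine Finset.sum_le_sum fun C _ => ?_
      have h3 : ∑ t ∈ D \ C, ∏ c ∈ insert t C, a c = (∏ c ∈ C, a c) * ∑ t ∈ D \ C, a t := by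
        rw [Finset.mul_sum]
        refine Finset.sum_congr rfl fun t ht => ?_
        rw [Finset.prod_insert (Finset.mem_sdiff.1 ht).2, mul_comm]
      rw [h3]
      exact mul_le_mul_of_nonneg_left
        (Finset.sum_le_sum_of_subset_of_nonneg Finset.sdiff_subset fun d _ _ => ha d)
        (Finset.prod_nonneg fun d _ => ha d)
    rw [h1] at h2
    have h4 : (((j + 1).factorial : ℕ) : ℝ) = (j.factorial : ℝ) * ((j : ℝ) + 1) := by
      rw [Nat.factorial_succ]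
      push_cast
      ring
    have h5 : (0 : ℝ) ≤ (j.factorial : ℝ) := Nat.cast_nonneg _
    calc (((j + 1).factorial : ℕ) : ℝ) * ∑ C ∈ Finset.powersetCard (j + 1) D, ∏ c ∈ C, a c
        = (j.factorial : ℝ) * (((j : ℝ) + 1) * ∑ C ∈ Finset.powersetCard (j + 1) D, ∏ c ∈ C, a c) := by
          rw [h4]
          ring
      _ ≤ (j.factorial : ℝ) * ((∑ C ∈ Finset.powersetCard j D, ∏ c ∈ C, a c) * ∑ d ∈ D, a d) :=
          mul_le_mul_of_nonneg_left h2 h5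
      _ = ((j.factorial : ℝ) * ∑ C ∈ Finset.powersetCard j D, ∏ c ∈ C, a c) * ∑ d ∈ D, a d := by
          ring
      _ ≤ (∑ d ∈ D, a d) ^ j * ∑ d ∈ D, a d := mul_le_mul_of_nonneg_right ih hS
      _ = (∑ d ∈ D, a d) ^ (j + 1) := by ring

theorem CV_exp_up (D : Finset ℤ) (a : ℤ → ℝ) (B₀ : ℝ) (ha : ∀ d, 0 ≤ a d) (hB : ∀ d, a d ≤ B₀) (j : ℕ) :
    (∑ d ∈ D, a d) ^ (j + 1) ≤ ((j + 1).factorial : ℝ) * (∑ C ∈ Finset.powersetCard (j + 1) D, ∏ c ∈ C, a c)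
      + ((j : ℝ) + 1) ^ 2 * B₀ * (∑ d ∈ D, a d) ^ j := by
  have hB0 : 0 ≤ B₀ := (ha 0).trans (hB 0)
  have hS : 0 ≤ ∑ d ∈ D, a d := Finset.sum_nonneg fun d _ => ha d
  induction j with
  | zero =>
    have h1 : ∑ C ∈ Finset.powersetCard (0 + 1) D, ∏ c ∈ C, a c = ∑ d ∈ D, a d := by
      rw [Nat.zero_add, Finset.powersetCard_one, Finset.sum_map]
      simp
    rw [h1]
    simp only [Nat.zero_add, Nat.factorial_one, Nat.cast_one, one_mul, pow_one, pow_zero,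
      Nat.cast_zero, zero_add, one_pow, mul_one]
    linarith
  | succ j ih =>
    have hlo := CV_exp_lo D a ha j
    have h1 := ISO2 D (j + 1) (fun C => ∏ c ∈ C, a c)
    have h2 := ISO1 D j (fun C t => a t ^ 2 * ∏ c ∈ C, a c)
    set S := ∑ d ∈ D, a d with hSdef
    set e0 := ∑ C ∈ Finset.powersetCard j D, ∏ c ∈ C, a c with he0
    set e1 := ∑ C ∈ Finset.powersetCard (j + 1) D, ∏ c ∈ C, a c with he1
    set e2 := ∑ C ∈ Finset.powersetCard (j + 1 + 1) D, ∏ c ∈ C, a c with he2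
    have h3 : S * e1 = (((j + 1 : ℕ) : ℝ) + 1) * e2
        + ∑ C ∈ Finset.powersetCard (j + 1) D, ∑ t ∈ C, a t ^ 2 * ∏ c ∈ C.erase t, a c := by
      rw [← h1, ← Finset.sum_add_distrib, he1, Finset.mul_sum]
      refine Finset.sum_congr rfl fun C hC => ?_
      have hCD : C ⊆ D := (Finset.mem_powersetCard.1 hC).1
      have h4 : ∑ t ∈ D \ C, ∏ c ∈ insert t C, a c = (∑ t ∈ D \ C, a t) * ∏ c ∈ C, a c := by
        rw [Finset.sum_mul]
        refine Finset.sum_congr rfl fun t ht => ?_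
        rw [Finset.prod_insert (Finset.mem_sdiff.1 ht).2]
      have h5 : ∑ t ∈ C, a t ^ 2 * ∏ c ∈ C.erase t, a c = (∑ t ∈ C, a t) * ∏ c ∈ C, a c := by
        rw [Finset.sum_mul]
        refine Finset.sum_congr rfl fun t ht => ?_
        rw [← Finset.mul_prod_erase C a ht]
        ring
      rw [h4, h5, ← add_mul, hSdef, ← Finset.sum_sdiff hCD]
    have h6 : ∑ C ∈ Finset.powersetCard (j + 1) D, ∑ t ∈ C, a t ^ 2 * ∏ c ∈ C.erase t, a c
        ≤ B₀ * S * e0 := by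
      rw [h2, he0, Finset.mul_sum]
      refine Finset.sum_le_sum fun C _ => ?_
      rw [← Finset.sum_mul]
      refine mul_le_mul_of_nonneg_right ?_ (Finset.prod_nonneg fun d _ => ha d)
      rw [hSdef, Finset.mul_sum]
      calc ∑ t ∈ D \ C, a t ^ 2 ≤ ∑ t ∈ D, a t ^ 2 :=
            Finset.sum_le_sum_of_subset_of_nonneg Finset.sdiff_subset fun d _ _ => sq_nonneg _
        _ ≤ ∑ t ∈ D, B₀ * a t := Finset.sum_le_sum fun t _ => by
            rw [sq]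
            exact mul_le_mul_of_nonneg_right (hB t) (ha t)
    have hf1 : (((j + 1).factorial : ℕ) : ℝ) = ((j : ℝ) + 1) * (j.factorial : ℝ) := by
      rw [Nat.factorial_succ]
      push_cast
      ring
    have hf2 : (((j + 1 + 1).factorial : ℕ) : ℝ)
        = (((j + 1 : ℕ) : ℝ) + 1) * ((j + 1).factorial : ℝ) := by
      rw [Nat.factorial_succ (j + 1)]
      push_cast
      ring
    have hf0 : (0 : ℝ) ≤ (((j + 1).factorial : ℕ) : ℝ) := Nat.cast_nonneg _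
    have hj0 : (0 : ℝ) ≤ (j : ℝ) := Nat.cast_nonneg _
    have h7 : (((j + 1).factorial : ℕ) : ℝ) * (S * e1)
        ≤ (((j + 1 + 1).factorial : ℕ) : ℝ) * e2 + ((j : ℝ) + 1) * B₀ * S ^ (j + 1) := by
      rw [h3, mul_add, hf2]
      have h8 : (((j + 1).factorial : ℕ) : ℝ)
          * (∑ C ∈ Finset.powersetCard (j + 1) D, ∑ t ∈ C, a t ^ 2 * ∏ c ∈ C.erase t, a c)
          ≤ (((j + 1).factorial : ℕ) : ℝ) * (B₀ * S * e0) := mul_le_mul_of_nonneg_left h6 hf0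
      have h9 : (((j + 1).factorial : ℕ) : ℝ) * (B₀ * S * e0)
          = ((j : ℝ) + 1) * B₀ * S * ((j.factorial : ℝ) * e0) := by
        rw [hf1]
        ring
      have h10 : ((j : ℝ) + 1) * B₀ * S * ((j.factorial : ℝ) * e0)
          ≤ ((j : ℝ) + 1) * B₀ * S * S ^ j :=
        mul_le_mul_of_nonneg_left hlo (by positivity)
      have h11 : ((j : ℝ) + 1) * B₀ * S * S ^ j = ((j : ℝ) + 1) * B₀ * S ^ (j + 1) := by ring
      have h12 : (((j + 1).factorial : ℕ) : ℝ) * ((((j + 1 : ℕ) : ℝ) + 1) * e2)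
          = (((j + 1 : ℕ) : ℝ) + 1) * (((j + 1).factorial : ℕ) : ℝ) * e2 := by ring
      linarith
    have h13 : S ^ (j + 1 + 1) ≤ S * ((((j + 1).factorial : ℕ) : ℝ) * e1
        + ((j : ℝ) + 1) ^ 2 * B₀ * S ^ j) := by
      have : S ^ (j + 1 + 1) = S * S ^ (j + 1) := by ring
      rw [this]
      exact mul_le_mul_of_nonneg_left ih hS
    have h14 : S * ((((j + 1).factorial : ℕ) : ℝ) * e1 + ((j : ℝ) + 1) ^ 2 * B₀ * S ^ j)
        = (((j + 1).factorial : ℕ) : ℝ) * (S * e1) + ((j : ℝ) + 1) ^ 2 * (B₀ * S ^ (j + 1)) := by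
      ring
    have hX : 0 ≤ B₀ * S ^ (j + 1) := mul_nonneg hB0 (pow_nonneg hS _)
    have h15 : ((j : ℝ) + 1) * B₀ * S ^ (j + 1) = ((j : ℝ) + 1) * (B₀ * S ^ (j + 1)) := by ring
    have h16 : (((j + 1 : ℕ) : ℝ) + 1) ^ 2 * B₀ * S ^ (j + 1)
        = ((j : ℝ) + 2) ^ 2 * (B₀ * S ^ (j + 1)) := by
      push_cast
      ring
    have h17 : ((j : ℝ) + 1) * (B₀ * S ^ (j + 1)) + ((j : ℝ) + 1) ^ 2 * (B₀ * S ^ (j + 1))
        ≤ ((j : ℝ) + 2) ^ 2 * (B₀ * S ^ (j + 1)) := by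
      rw [← add_mul]
      refine mul_le_mul_of_nonneg_right ?_ hX
      nlinarith
    rw [h16]
    linarith

end Pool.Agent.H96.AE
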