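import Pool.Agent.H96.AE.Df
import Pool.Agent.H12.DM.Ba
import Pool.Agent.H12.DM.Bs
import Pool.Agent.H12.DM.Bb

/-!
# CVc: correlations of `Mi`, and of `La` with `Mi`

`L = log x`, `N = ⌊x⌋₊ + 1`, `w = yy x`, `W = WW w`, `φ = wp w ≤ W`, `W^68 ≤ L` (`WW_yy_pow_le`), so `φ^i L^4 ≤ ε N` for every fixed `i` and large `x` (`φ ≤ L`, any power of `L` is `≤ ε x`). `0 ≤ Mi x n ≤ Mm w n ≤ φ`; `sW x s` is the average over a period of `∏_{h ∈ s} Mm w (t - h)`, `0 ≤ sW x s ≤ φ^|s|`.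
* `CV_M`: `∏_C Mi(n-c) ≤ ∏_C Mm w (n-c)`, which has period `W` (`Mm_period`): the sum over `n < N + H` is at most (number of periods `≤ (N+H)/W + 1`) `(N + H + W) sW x C ≤ N sW x C + (H + W) φ^j` (as in `Mi_corr` or `Mm_le_sum`; `⌈(N+H)/W⌉` full periods; all terms are `≥ 0`).
  `(H + W) φ^j ≤ 2 L^2 L^j ≤ ε N`.
* `CV_L`: drop the `n < e`, put `n = n' + e`, `n' < N + H - e`, in particular all `n' < N` (`e ≤ H`): the sum is at least `∑_{n'<N} La x n' ∏_{c∈C} Mi x (n' - (c - e))`. For `H ≤ n' < N - H`: `0 ≤ n' - (c-e) < N`, so `Mi = Mm w` there; for the at most `2H + 1` other `n'`: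
  `La x n' ∏ Mm w (n' - (c-e)) ≤ L φ^j`. So the sum is `≥ ∑_{n'<N} La x n' ∏_{h ∈ s} Mm w (n' - h) - (2H+1) L φ^j` with `s = C.image (· - e)`, `0 ∉ s`; `Ba` (with this `ε`): `≥ (1 - ε) N sW x (insert 0 s)`, and `sW x (insert 0 s) = sW x (insert e C)` (`sW_tr`:
  `tr (insert 0 s) e = insert e C`).
-/

set_option autoImplicit false

namespace Pool.Agent.H96.AE

open Finset Pool.Agent.H17 Pool.Agent.H6.MF Pool.Agent.H6.MB Pool.Agent.H12.DM Pool.Agent.H6.AE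

/-- the facts about large `x` -/
theorem CVc_large (j : ℕ) (ε : ℝ) (hε : 0 < ε) : ∃ X : ℝ, ∀ x : ℝ, X ≤ x → 1 ≤ x ∧ 1 ≤ Real.log x ∧
    (WW (yy x) : ℝ) ≤ Real.log x ∧ wp (yy x) ≤ Real.log x ∧ 2 * Real.log x ^ (j + 3) ≤ ε * x := by
  have e2 : ∀ᶠ x : ℝ in Filter.atTop, 1 ≤ Real.log x :=
    Real.tendsto_log_atTop.eventually_ge_atTop 1
  have e3 := (Real.isLittleO_pow_log_id_atTop (n := j + 3)).bound (show (0 : ℝ) < ε / 2 by positivity)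
  obtain ⟨X, hX⟩ := Filter.eventually_atTop.1 (e2.and (e3.and (Filter.eventually_ge_atTop (1 : ℝ))))
  refine ⟨X, fun x hx => ?_⟩
  obtain ⟨hL, hp, hx1⟩ := hX x hx
  have hL0 : 0 < Real.log x := by linarith
  have hW1 : (1 : ℝ) ≤ (WW (yy x) : ℝ) := by exact_mod_cast WW_pos (yy x)
  have hWL : (WW (yy x) : ℝ) ≤ Real.log x := by
    have h1 := WW_yy_pow_le hL
    have h2 : Real.sqrt (Real.log x) ≤ Real.log x := by
      rw [Real.sqrt_le_left hL0.le]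
      nlinarith
    exact (le_self_pow₀ hW1 (by norm_num)).trans (h1.trans h2)
  refine ⟨hx1, hL, hWL, (Bb_wp_le _).trans hWL, ?_⟩
  have h3 : Real.log x ^ (j + 3) ≤ ε / 2 * x := by
    have h4 : ‖Real.log x ^ (j + 3)‖ = Real.log x ^ (j + 3) := by
      rw [Real.norm_eq_abs, abs_of_nonneg (by positivity)]
    have h5 : ‖id x‖ = x := by
      rw [id, Real.norm_eq_abs, abs_of_nonneg (by linarith)]
    rw [h4, h5] at hp
    exact hp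
  linarith

theorem CVc_prod_le (y : ℕ) (C : Finset ℤ) (f : ℤ → ℤ) {j : ℕ} (hC : C.card ≤ j) :
    ∏ c ∈ C, Mm y (f c) ≤ wp y ^ j := by
  calc ∏ c ∈ C, Mm y (f c) ≤ ∏ _c ∈ C, wp y :=
        Finset.prod_le_prod (fun c _ => Mm_nonneg _ _) fun c _ => Mm_le _ _
    _ = wp y ^ C.card := by rw [Finset.prod_const]
    _ ≤ wp y ^ j := pow_le_pow_right₀ (one_le_wp y) hC

theorem CVc_sW_le (x : ℝ) (C : Finset ℤ) {j : ℕ} (hC : C.card ≤ j) : sW x C ≤ wp (yy x) ^ j := by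
  unfold sW avgP
  rw [div_le_iff₀ (WW_pos_real _)]
  refine (Finset.sum_le_card_nsmul _ _ _ fun i _ => CVc_prod_le (yy x) C _ hC).trans ?_
  rw [Finset.card_range, nsmul_eq_mul, mul_comm]

theorem CV_M (j : ℕ) (ε : ℝ) (hε : 0 < ε) : ∃ X : ℝ, ∀ x : ℝ, X ≤ x → ∀ H : ℕ, (H : ℝ) ≤ (Real.log x) ^ 2 →
    ∀ C : Finset ℤ, C ⊆ Finset.Icc 1 (H : ℤ) → C.card ≤ j →
    ∑ n ∈ rgH x H, ∏ c ∈ C, Mi x ((n : ℤ) - c) ≤ ((⌊x⌋₊ : ℝ) + 1) * sW x C + ε * ((⌊x⌋₊ : ℝ) + 1) := by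
  obtain ⟨X, hX⟩ := CVc_large j ε hε
  refine ⟨X, fun x hx H hH C _ hC => ?_⟩
  obtain ⟨hx1, hL, hWL, hφL, hpow⟩ := hX x hx
  set L : ℝ := Real.log x with hLdef
  have hxN : x ≤ (⌊x⌋₊ : ℝ) + 1 := (Nat.lt_floor_add_one x).le
  have h1 : ∑ n ∈ rgH x H, ∏ c ∈ C, Mi x ((n : ℤ) - c) ≤
      ∑ n ∈ Finset.range (⌊x⌋₊ + 1 + H), (fun n : ℤ => ∏ c ∈ C, Mm (yy x) (n - c)) (n : ℤ) := by
    unfold rgH
    exact Finset.sum_le_sum fun n _ => Finset.prod_le_prod (fun c _ => Mi_nonneg _ _) fun c _ => Mi_le _ _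
  have hper : ∀ n : ℤ, (fun n : ℤ => ∏ c ∈ C, Mm (yy x) (n - c)) (n + (WW (yy x) : ℕ)) =
      (fun n : ℤ => ∏ c ∈ C, Mm (yy x) (n - c)) n := by
    intro n
    refine Finset.prod_congr rfl fun c _ => ?_
    rw [show n + ((WW (yy x) : ℕ) : ℤ) - c = (n - c) + ((WW (yy x) : ℕ) : ℤ) by ring, Bb_Mper]
  have h2 := (Bb_bounds (fun n : ℤ => ∏ c ∈ C, Mm (yy x) (n - c)) (WW (yy x)) (WW_pos _) hper
    (fun n => Finset.prod_nonneg fun c _ => Mm_nonneg _ _)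
    (u := -1) (v := ((⌊x⌋₊ + 1 + H : ℕ) : ℤ) - 1) (by push_cast; have := Int.natCast_nonneg ⌊x⌋₊; omega)).2
  rw [← Bb_range (fun n : ℤ => ∏ c ∈ C, Mm (yy x) (n - c)) (⌊x⌋₊ + 1 + H)] at h2
  have h3 : (∑ i ∈ Finset.range (WW (yy x)), (fun n : ℤ => ∏ c ∈ C, Mm (yy x) (n - c)) (i : ℤ)) /
      (WW (yy x) : ℝ) = sW x C := rfl
  rw [h3] at h2
  refine h1.trans (h2.trans ?_)
  have h4 : ((((⌊x⌋₊ + 1 + H : ℕ) : ℤ) - 1 : ℤ) : ℝ) - ((-1 : ℤ) : ℝ) + (WW (yy x) : ℝ) =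
      ((⌊x⌋₊ : ℝ) + 1) + ((H : ℝ) + (WW (yy x) : ℝ)) := by push_cast; ring
  rw [h4, add_mul]
  have h5 : ((H : ℝ) + (WW (yy x) : ℝ)) * sW x C ≤ ε * ((⌊x⌋₊ : ℝ) + 1) := by
    have hs0 := sW_nonneg x C
    have hs1 : sW x C ≤ L ^ j := (CVc_sW_le x C hC).trans (pow_le_pow_left₀ (wp_pos _).le hφL _)
    have h6 : (H : ℝ) + (WW (yy x) : ℝ) ≤ 2 * L ^ 3 := by
      have h7 : L ^ 2 ≤ L ^ 3 := pow_le_pow_right₀ hL (by norm_num)
      have h8 : L ≤ L ^ 3 := le_self_pow₀ hL (by norm_num)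
      linarith
    calc ((H : ℝ) + (WW (yy x) : ℝ)) * sW x C ≤ (2 * L ^ 3) * L ^ j :=
          mul_le_mul h6 hs1 hs0 (by positivity)
      _ = 2 * L ^ (j + 3) := by ring
      _ ≤ ε * x := hpow
      _ ≤ ε * ((⌊x⌋₊ : ℝ) + 1) := mul_le_mul_of_nonneg_left hxN hε.le
  linarith

theorem CVc_tr (C : Finset ℤ) (e : ℤ) : tr (insert 0 (C.image (fun c => c - e))) e = insert e C := by
  unfold tr
  rw [Finset.image_insert, zero_add, Finset.image_image]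
  congr 1
  have : ((fun h : ℤ => h + e) ∘ fun c : ℤ => c - e) = id := by
    funext c
    simp
  rw [this, Finset.image_id]

theorem CV_L (j : ℕ) (ε : ℝ) (hε : 0 < ε) : ∃ X : ℝ, ∀ x : ℝ, X ≤ x → ∀ H : ℕ, (H : ℝ) ≤ (Real.log x) ^ 2 →
    ∀ C : Finset ℤ, C ⊆ Finset.Icc 1 (H : ℤ) → C.card ≤ j → ∀ e ∈ Finset.Icc 1 (H : ℤ) \ C,
    (1 - ε) * ((⌊x⌋₊ : ℝ) + 1) * sW x (insert e C) - ε * ((⌊x⌋₊ : ℝ) + 1) ≤
      ∑ n ∈ rgH x H, (∏ c ∈ C, Mi x ((n : ℤ) - c)) * La x ((n : ℤ) - e) := by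
  obtain ⟨X1, hX1⟩ := CVc_large j ε hε
  obtain ⟨X2, hX2⟩ := Ba ε hε
  refine ⟨max X1 X2, fun x hx H hH C hCI hC e he => ?_⟩
  obtain ⟨hx1, hL, hWL, hφL, hpow⟩ := hX1 x ((le_max_left _ _).trans hx)
  have hBa := hX2 x ((le_max_right _ _).trans hx)
  rw [Finset.mem_sdiff, Finset.mem_Icc] at he
  obtain ⟨⟨he1, he2⟩, heC⟩ := he
  set L : ℝ := Real.log x with hLdef
  set w : ℕ := yy x with hw
  have hxN : x ≤ (⌊x⌋₊ : ℝ) + 1 := (Nat.lt_floor_add_one x).le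
  obtain ⟨k, hk⟩ : ∃ k : ℕ, (k : ℤ) = e := ⟨e.toNat, Int.toNat_of_nonneg (by omega)⟩
  have hkH : k ≤ H := by omega
  have hLa0 : ∀ n, 0 ≤ La x n := fun n => La_nonneg hx1 n
  -- step 1: restrict and shift
  have h1 : ∑ n ∈ Finset.range (⌊x⌋₊ + 1), (∏ c ∈ C, Mi x ((n : ℤ) + e - c)) * La x (n : ℤ) ≤
      ∑ n ∈ rgH x H, (∏ c ∈ C, Mi x ((n : ℤ) - c)) * La x ((n : ℤ) - e) := by
    have hinj : ∀ a ∈ Finset.range (⌊x⌋₊ + 1), ∀ b ∈ Finset.range (⌊x⌋₊ + 1), a + k = b + k → a = b :=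
      fun a _ b _ h => by omega
    have h2 : ∑ n ∈ (Finset.range (⌊x⌋₊ + 1)).image (fun n => n + k),
        (∏ c ∈ C, Mi x ((n : ℤ) - c)) * La x ((n : ℤ) - e) =
        ∑ n ∈ Finset.range (⌊x⌋₊ + 1), (∏ c ∈ C, Mi x ((n : ℤ) + e - c)) * La x (n : ℤ) := by
      rw [Finset.sum_image hinj]
      refine Finset.sum_congr rfl fun n _ => ?_
      have e1 : ((n + k : ℕ) : ℤ) = (n : ℤ) + e := by push_cast; rw [hk]
      rw [e1, add_sub_cancel_right]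
    rw [← h2]
    refine Finset.sum_le_sum_of_subset_of_nonneg ?_ fun n _ _ =>
      mul_nonneg (Finset.prod_nonneg fun c _ => Mi_nonneg _ _) (hLa0 _)
    intro n hn
    rw [Finset.mem_image] at hn
    obtain ⟨a, ha, rfl⟩ := hn
    rw [Finset.mem_range] at ha
    unfold rgH
    rw [Finset.mem_range]
    omega
  refine le_trans ?_ h1
  -- step 2: replace `Mi` by `Mm`
  have hC1 : ∀ c ∈ C, 1 ≤ c ∧ c ≤ (H : ℤ) := fun c hc => Finset.mem_Icc.1 (hCI hc)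
  set φ : ℝ := wp w with hφ
  have hB0 : 0 ≤ L * φ ^ j := mul_nonneg (by linarith) (pow_nonneg (wp_pos _).le _)
  have h3 : ∀ n ∈ Finset.range (⌊x⌋₊ + 1), La x (n : ℤ) * ∏ c ∈ C, Mm w ((n : ℤ) - (c - e)) -
      (if n < H ∨ ⌊x⌋₊ + 1 ≤ n + H then L * φ ^ j else 0) ≤
      (∏ c ∈ C, Mi x ((n : ℤ) + e - c)) * La x (n : ℤ) := by
    intro n hn
    rw [Finset.mem_range] at hn
    split_ifs with hc
    · have h4 : La x (n : ℤ) * ∏ c ∈ C, Mm w ((n : ℤ) - (c - e)) ≤ L * φ ^ j :=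
        mul_le_mul (La_le hx1 _) (CVc_prod_le w C _ hC) (Finset.prod_nonneg fun c _ => Mm_nonneg _ _) (by linarith)
      have h5 : 0 ≤ (∏ c ∈ C, Mi x ((n : ℤ) + e - c)) * La x (n : ℤ) :=
        mul_nonneg (Finset.prod_nonneg fun c _ => Mi_nonneg _ _) (hLa0 _)
      linarith
    · push Not at hc
      have h4 : ∏ c ∈ C, Mi x ((n : ℤ) + e - c) = ∏ c ∈ C, Mm w ((n : ℤ) - (c - e)) := by
        refine Finset.prod_congr rfl fun c hcC => ?_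
        obtain ⟨g1, g2⟩ := hC1 c hcC
        rw [Mi_of_mem (by omega) (by omega)]
        congr 1
        ring
      rw [h4, sub_zero, mul_comm]
  have h4 := Finset.sum_le_sum h3
  rw [Finset.sum_sub_distrib] at h4
  refine le_trans ?_ h4
  -- the exceptional `n`
  have h5 : ∑ n ∈ Finset.range (⌊x⌋₊ + 1), (if n < H ∨ ⌊x⌋₊ + 1 ≤ n + H then L * φ ^ j else 0) ≤
      ε * ((⌊x⌋₊ : ℝ) + 1) := by
    rw [← Finset.sum_filter, Finset.sum_const, nsmul_eq_mul]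
    have hcard : ((Finset.range (⌊x⌋₊ + 1)).filter (fun n => n < H ∨ ⌊x⌋₊ + 1 ≤ n + H)).card ≤ 2 * H := by
      have hsub : (Finset.range (⌊x⌋₊ + 1)).filter (fun n => n < H ∨ ⌊x⌋₊ + 1 ≤ n + H) ⊆
          Finset.range H ∪ Finset.Ico (⌊x⌋₊ + 1 - H) (⌊x⌋₊ + 1) := by
        intro n hn
        rw [Finset.mem_filter, Finset.mem_range] at hn
        rw [Finset.mem_union, Finset.mem_range, Finset.mem_Ico]
        omega
      refine (Finset.card_le_card hsub).trans ((Finset.card_union_le _ _).trans ?_)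
      rw [Finset.card_range, Nat.card_Ico]
      omega
    have hcard' : (((Finset.range (⌊x⌋₊ + 1)).filter (fun n => n < H ∨ ⌊x⌋₊ + 1 ≤ n + H)).card : ℝ) ≤
        2 * (H : ℝ) := by exact_mod_cast hcard
    have hφj : φ ^ j ≤ L ^ j := pow_le_pow_left₀ (wp_pos _).le hφL _
    calc (((Finset.range (⌊x⌋₊ + 1)).filter (fun n => n < H ∨ ⌊x⌋₊ + 1 ≤ n + H)).card : ℝ) * (L * φ ^ j)
        ≤ (2 * (H : ℝ)) * (L * φ ^ j) := mul_le_mul_of_nonneg_right hcard' hB0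
      _ ≤ (2 * L ^ 2) * (L * L ^ j) := by
          refine mul_le_mul (by linarith) (mul_le_mul_of_nonneg_left hφj (by linarith)) hB0 (by positivity)
      _ = 2 * L ^ (j + 3) := by ring
      _ ≤ ε * x := hpow
      _ ≤ ε * ((⌊x⌋₊ : ℝ) + 1) := mul_le_mul_of_nonneg_left hxN hε.le
  -- step 3: the main term
  set s : Finset ℤ := C.image (fun c => c - e) with hs
  have hs0 : (0 : ℤ) ∉ s := by
    rw [hs, Finset.mem_image]
    rintro ⟨c, hc, h⟩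
    apply heC
    rw [show e = c by omega]
    exact hc
  have h6 := hBa s hs0
  have hsW : sW x (insert 0 s) = sW x (insert e C) := by
    rw [← sW_tr x (insert 0 s) e, hs, CVc_tr]
  rw [hsW] at h6
  have h7 : ∑ n ∈ Finset.range (⌊x⌋₊ + 1), La x (n : ℤ) * ∏ h ∈ s, Mm (yy x) ((n : ℤ) - h) =
      ∑ n ∈ Finset.range (⌊x⌋₊ + 1), La x (n : ℤ) * ∏ c ∈ C, Mm w ((n : ℤ) - (c - e)) := by
    refine Finset.sum_congr rfl fun n _ => ?_
    rw [hs, Finset.prod_image (fun a _ b _ h => by omega)]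
  rw [h7] at h6
  have h8 := (abs_le.1 h6).1
  have h9 : (1 - ε) * ((⌊x⌋₊ : ℝ) + 1) * sW x (insert e C) =
      ((⌊x⌋₊ : ℝ) + 1) * sW x (insert e C) - ε * ((⌊x⌋₊ : ℝ) + 1) * sW x (insert e C) := by ring
  rw [h9]
  linarith

end Pool.Agent.H96.AE
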