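import Pool.Agent.H96.AE.Df
import Pool.Agent.H6.MB.BLK

/-!
# RRm: averages of `rr` over a period, for any number of points

Adapt the proofs of `rr_upper` and `rr_lower` in `Pool/Agent/H12/DM/Rr.lean` (four points) to `m` points.

* `RR_real`: for `0 ≤ u ≤ 1/2`: `1 ≤ (1 - u)^j * (1 + (2^(j+1) - 2) * u)`: induction on `j`:
  `(1 - u) (1 + (2^(j+2) - 2) u) ≥ 1 + (2^(j+1) - 2) u` because `(2^(j+2) - 2) u^2 ≤ (2^(j+1) - 1) u`.
* `RR_up`: as `rr_upper`: `∏_{a ∈ s} rr (n+a)^{e a} = ∏_{p ∈ PI y w} g_p n`, the average is `∏_p avgP p g_p` with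
  `avgP p g_p = c_p^E (1 - hit/p)`, `E = ∑ e a`, `k = s.card`, `c_p = (1-1/p)⁻¹` (`Rr_avg` is general in `s`, `e`). If `p` divides no difference: `hit = k`,
  `1 - k/p ≤ (1-1/p)^k`. Otherwise `hit ≥ 1` and `c_p^(k-1) ≤ c_p^(m-1) ≤ 1 + 2^m/p` by `RR_real` (`j = m - 1`; here `k ≥ 2`, so `m ≥ 2`).
  Product over `p`: `∏ c_p = wp w / wp y`. For `s = ∅` both sides are `1` (`Dp = 1`, avg of the constant `1`; `PR > 0`).
* `RR_lo`: `e = 1`, `hit ≤ k ≤ m` (`BLK_hit_le`), `p > y ≥ 2m + 3`: `avgP p g_p ≥ (1 - k/p)/(1-1/p)^k ≥ 1 - k^2/p^2`: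
  for `u = 1/p`, `k u ≤ 1/2`: `(1-u)^k ≤ 1 - k u + (k u)^2/2` (for instance `(1-u)^k ≤ exp(-k u) ≤ 1 - k u + (k u)^2/2`, or induction) and
  `(1 - k u) ≥ (1 - (k u)^2) (1 - k u + (k u)^2/2)`, since the right-hand side is `1 - ku + (ku)^2/2 - (ku)^2(1 - ku + (ku)^2/2) ≤ 1 - k u` as
  `1 - t + t^2/2 ≥ 1/2`. Then `∏_{p ∈ PI y w} (1 - k^2/p^2) ≥ 1 - k^2 ∑_{n > y} 1/n^2 ≥ 1 - k^2/y` (`SNG_one_sub`, `SNG_inv_sq` in
  `Pool/Agent/H6/MF/SNG.lean`, as in `rr_lower`).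
-/

set_option autoImplicit false

namespace Pool.Agent.H96.AE

open Finset Pool.Agent.H17 Pool.Agent.H6.MF Pool.Agent.H6.MB Pool.Agent.H12.DM Pool.Agent.H6.AE

theorem RR_real (j : ℕ) {u : ℝ} (hu0 : 0 ≤ u) (hu : u ≤ 1 / 2) : 1 ≤ (1 - u) ^ j * (1 + (2 ^ (j + 1) - 2) * u) := by
  induction j with
  | zero => norm_num
  | succ j ih =>
    have hT : (1 : ℝ) ≤ 2 ^ (j + 1) := one_le_pow₀ (by norm_num)
    have h1 : 1 + ((2 : ℝ) ^ (j + 1) - 2) * u ≤ (1 - u) * (1 + (2 ^ (j + 1 + 1) - 2) * u) := by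
      have h2 : (0 : ℝ) ≤ (2 ^ (j + 1) - 1) * (u * (1 - 2 * u)) :=
        mul_nonneg (by linarith) (mul_nonneg hu0 (by linarith))
      have h3 : (1 - u) * (1 + ((2 : ℝ) ^ (j + 1 + 1) - 2) * u) -
          (1 + ((2 : ℝ) ^ (j + 1) - 2) * u) = (2 ^ (j + 1) - 1) * (u * (1 - 2 * u)) := by
        rw [pow_succ (2 : ℝ) (j + 1)]
        ring
      linarith
    have h4 : (0 : ℝ) ≤ (1 - u) ^ j := pow_nonneg (by linarith) _
    calc (1 : ℝ) ≤ (1 - u) ^ j * (1 + (2 ^ (j + 1) - 2) * u) := ih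
      _ ≤ (1 - u) ^ j * ((1 - u) * (1 + (2 ^ (j + 1 + 1) - 2) * u)) := mul_le_mul_of_nonneg_left h1 h4
      _ = (1 - u) ^ (j + 1) * (1 + (2 ^ (j + 1 + 1) - 2) * u) := by ring

theorem RRm_main_factor (m : ℕ) {p : ℕ} (hp : p.Prime) (s : Finset ℤ) (hs : s.card ≤ m) :
    avgP p (fun n => if ∃ a ∈ s, (p : ℤ) ∣ n + a then (0 : ℝ) else 1) ≤
      (1 - 1 / (p : ℝ)) ^ s.card *
        (if ∃ a ∈ s, ∃ a' ∈ s, a ≠ a' ∧ (p : ℤ) ∣ a - a' then (1 + 2 ^ m / (p : ℝ)) else 1) := by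
  have hp0 : (0 : ℝ) < p := by exact_mod_cast hp.pos
  have hp2 : (2 : ℝ) ≤ p := by exact_mod_cast hp.two_le
  have hu0 : (0 : ℝ) ≤ 1 / p := by positivity
  have hu : 1 / (p : ℝ) ≤ 1 / 2 := one_div_le_one_div_of_le (by norm_num) hp2
  rw [BLK_avg0 hp.pos s]
  split_ifs with h
  · obtain ⟨a, ha, _⟩ := h
    have hs1 : 1 ≤ s.card := Finset.card_pos.mpr ⟨a, ha⟩
    have h1 : (1 : ℝ) ≤ ((Finset.range p).filter (fun m : ℕ => ∃ a ∈ s, (p : ℤ) ∣ (m : ℤ) + a)).card := by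
      exact_mod_cast BLK_hit_pos hp.pos s hs1
    have h2 : 1 - (((Finset.range p).filter (fun m : ℕ => ∃ a ∈ s, (p : ℤ) ∣ (m : ℤ) + a)).card : ℝ) / (p : ℝ) ≤
        1 - 1 / (p : ℝ) := by
      have := div_le_div_of_nonneg_right h1 hp0.le
      linarith
    refine h2.trans ?_
    obtain ⟨j, rfl⟩ : ∃ j, m = j + 1 := ⟨m - 1, by omega⟩
    have h3 := RR_real j hu0 hu
    have h4 : (0 : ℝ) ≤ 1 - 1 / p := by linarith
    have h5 : (1 - 1 / (p : ℝ)) ^ (j + 1) ≤ (1 - 1 / (p : ℝ)) ^ s.card := pow_le_pow_of_le_one h4 (by linarith) hs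
    have h6 : (0 : ℝ) ≤ 1 + 2 ^ (j + 1) / p := by positivity
    have h7 : 1 + ((2 : ℝ) ^ (j + 1) - 2) * (1 / p) ≤ 1 + 2 ^ (j + 1) / p := by
      have : 1 + (2 : ℝ) ^ (j + 1) / p = 1 + (2 ^ (j + 1) - 2) * (1 / p) + 2 * (1 / p) := by ring
      rw [this]
      linarith
    calc 1 - 1 / (p : ℝ) ≤ (1 - 1 / p) * ((1 - 1 / p) ^ j * (1 + (2 ^ (j + 1) - 2) * (1 / p))) :=
          le_mul_of_one_le_right h4 h3
      _ = (1 - 1 / p) ^ (j + 1) * (1 + (2 ^ (j + 1) - 2) * (1 / p)) := by ring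
      _ ≤ (1 - 1 / p) ^ (j + 1) * (1 + 2 ^ (j + 1) / p) := mul_le_mul_of_nonneg_left h7 (pow_nonneg h4 _)
      _ ≤ (1 - 1 / (p : ℝ)) ^ s.card * (1 + 2 ^ (j + 1) / (p : ℝ)) := mul_le_mul_of_nonneg_right h5 h6
  · push Not at h
    rw [BLK_hit_eq hp.pos s (fun a ha a' ha' hne => h a ha a' ha' hne), mul_one]
    have h1 := one_add_mul_le_pow (a := -(1 / (p : ℝ))) (by linarith) s.card
    have h2 : 1 + (s.card : ℝ) * -(1 / (p : ℝ)) = 1 - (s.card : ℝ) / p := by ring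
    rw [h2, ← sub_eq_add_neg] at h1
    exact h1

theorem RRm_poly {u : ℝ} (k : ℕ) (hu0 : 0 ≤ u) (hu : (k : ℝ) * u ≤ 1) (hu1 : u ≤ 1) :
    (1 - ((k : ℝ) * u) ^ 2) * (1 - u) ^ k ≤ 1 - k * u := by
  have h1 : 1 + (k : ℝ) * u ≤ (1 + u) ^ k := one_add_mul_le_pow (by linarith) k
  have h2 : (1 + u) ^ k * (1 - u) ^ k ≤ 1 := by
    rw [← mul_pow]
    refine pow_le_one₀ ?_ ?_
    · exact mul_nonneg (by linarith) (by linarith)
    · nlinarith [sq_nonneg u]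
  have h3 : (0 : ℝ) ≤ (1 - u) ^ k := pow_nonneg (by linarith) _
  have h4 : (1 + (k : ℝ) * u) * (1 - u) ^ k ≤ 1 := (mul_le_mul_of_nonneg_right h1 h3).trans h2
  calc (1 - ((k : ℝ) * u) ^ 2) * (1 - u) ^ k = (1 - k * u) * ((1 + (k : ℝ) * u) * (1 - u) ^ k) := by ring
    _ ≤ (1 - k * u) * 1 := mul_le_mul_of_nonneg_left h4 (by linarith)
    _ = 1 - k * u := mul_one _

theorem RR_up (m : ℕ) {y w : ℕ} (h : y ≤ w) (s : Finset ℤ) (hs : s.card ≤ m) (e : ℤ → ℕ) (he : ∀ a ∈ s, 1 ≤ e a) :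
    avgP (PR (y : ℝ) (w : ℝ)) (fun n => ∏ a ∈ s, rr y w (n + a) ^ e a)
      ≤ (wp w / wp y) ^ (∑ a ∈ s, (e a - 1)) * Dp m y w s := by
  classical
  rw [Rr_avg y w s e he]
  have hE : ∑ a ∈ s, e a = ∑ a ∈ s, (e a - 1) + s.card := by
    rw [Finset.card_eq_sum_ones, ← Finset.sum_add_distrib]
    refine Finset.sum_congr rfl fun a ha => ?_
    have := he a ha
    omega
  have hR : (wp w / wp y) ^ (∑ a ∈ s, (e a - 1)) * Dp m y w s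
      = ∏ p ∈ PI (y : ℝ) (w : ℝ), ((1 - 1 / (p : ℝ))⁻¹ ^ (∑ a ∈ s, (e a - 1)) *
          (if ∃ a ∈ s, ∃ a' ∈ s, a ≠ a' ∧ (p : ℤ) ∣ a - a' then (1 + 2 ^ m / (p : ℝ)) else 1)) := by
    rw [Rr_div h, Dp, Finset.prod_mul_distrib, Finset.prod_pow, Finset.prod_filter]
  rw [hR]
  refine Finset.prod_le_prod (fun p hp => ?_) (fun p hp => ?_)
  · have hf := Rr_fac (Rr_mem.mp hp).1
    exact mul_nonneg (pow_nonneg hf.2.le _) (MAJ_avg_nonneg fun n => by split_ifs <;> norm_num)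
  · have hpp := (Rr_mem.mp hp).1
    have hf := Rr_fac hpp
    have hm := RRm_main_factor m hpp s hs
    have hc : (1 - 1 / (p : ℝ))⁻¹ ^ s.card * (1 - 1 / (p : ℝ)) ^ s.card = 1 := by
      rw [← mul_pow, inv_mul_cancel₀ hf.1.ne', one_pow]
    rw [hE, pow_add, mul_assoc]
    refine mul_le_mul_of_nonneg_left ?_ (pow_nonneg hf.2.le _)
    calc (1 - 1 / (p : ℝ))⁻¹ ^ s.card * avgP p (fun n => if ∃ a ∈ s, (p : ℤ) ∣ n + a then (0 : ℝ) else 1)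
        ≤ (1 - 1 / (p : ℝ))⁻¹ ^ s.card * ((1 - 1 / (p : ℝ)) ^ s.card *
          (if ∃ a ∈ s, ∃ a' ∈ s, a ≠ a' ∧ (p : ℤ) ∣ a - a' then (1 + 2 ^ m / (p : ℝ)) else 1)) :=
          mul_le_mul_of_nonneg_left hm (pow_nonneg hf.2.le _)
      _ = _ := by rw [← mul_assoc, hc, one_mul]

theorem RR_lo (m : ℕ) {y w : ℕ} (hy : 2 * m + 3 ≤ y) (h : y ≤ w) (s : Finset ℤ) (hs : s.card ≤ m) :
    1 - 2 * (m : ℝ) ^ 2 / (y : ℝ) ≤ avgP (PR (y : ℝ) (w : ℝ)) (fun n => ∏ a ∈ s, rr y w (n + a)) := by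
  classical
  have _ := h
  have h1 : (fun m => ∏ a ∈ s, rr y w (m + a)) = fun m => ∏ a ∈ s, rr y w (m + a) ^ (fun _ : ℤ => 1) a := by
    funext m
    simp
  rw [h1, Rr_avg y w s (fun _ => 1) (fun _ _ => le_rfl)]
  have hy0 : (0 : ℝ) < y := by exact_mod_cast (by omega : 0 < y)
  have hkm : (s.card : ℝ) ≤ m := by exact_mod_cast hs
  have hk0 : (0 : ℝ) ≤ s.card := Nat.cast_nonneg _
  have h5 : ∀ p ∈ PI (y : ℝ) (w : ℝ), (2 : ℝ) * m + 3 ≤ p := by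
    intro p hp
    have h2 := Rr_mem.mp hp
    have h3 : 2 * m + 3 ≤ p := by omega
    exact_mod_cast h3
  have hprod : 1 - ∑ p ∈ PI (y : ℝ) (w : ℝ), (s.card : ℝ) ^ 2 / (p : ℝ) ^ 2 ≤
      ∏ p ∈ PI (y : ℝ) (w : ℝ), ((1 - 1 / (p : ℝ))⁻¹ ^ (∑ a ∈ s, (fun _ : ℤ => 1) a) *
          avgP p (fun n => if ∃ a ∈ s, (p : ℤ) ∣ n + a then (0 : ℝ) else 1)) := by
    refine SNG_one_sub _ _ _ (fun p _ => by positivity) (fun p hp => ?_) (fun p hp => ?_)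
    · have := h5 p hp
      have hp0 : (0 : ℝ) < p := by linarith
      rw [div_le_one (by positivity)]
      exact pow_le_pow_left₀ hk0 (by linarith) 2
    · have hp5 := h5 p hp
      have hpp := (Rr_mem.mp hp).1
      have hf := Rr_fac hpp
      have hp0 : (0 : ℝ) < p := by linarith
      rw [BLK_avg0 hpp.pos s]
      have hk : ∑ a ∈ s, (fun _ : ℤ => 1) a = s.card := by simp
      rw [hk]
      have hhit : (((Finset.range p).filter (fun m : ℕ => ∃ a ∈ s, (p : ℤ) ∣ (m : ℤ) + a)).card : ℝ) ≤ s.card := by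
        exact_mod_cast BLK_hit_le hpp.pos s
      have hu : (s.card : ℝ) * (1 / (p : ℝ)) ≤ 1 := by
        rw [mul_one_div, div_le_one hp0]
        linarith
      have hu1 : 1 / (p : ℝ) ≤ 1 := by
        rw [div_le_one hp0]
        linarith
      have hpoly := RRm_poly (u := 1 / (p : ℝ)) s.card (by positivity) hu hu1
      have h6 : (1 : ℝ) - s.card * (1 / (p : ℝ)) ≤
          1 - ((Finset.range p).filter (fun m : ℕ => ∃ a ∈ s, (p : ℤ) ∣ (m : ℤ) + a)).card / (p : ℝ) := by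
        have := div_le_div_of_nonneg_right hhit hp0.le
        have h7 : (s.card : ℝ) * (1 / (p : ℝ)) = s.card / p := by ring
        rw [h7]
        linarith
      have hc : (1 - 1 / (p : ℝ))⁻¹ ^ s.card * (1 - 1 / (p : ℝ)) ^ s.card = 1 := by
        rw [← mul_pow, inv_mul_cancel₀ hf.1.ne', one_pow]
      calc 1 - (s.card : ℝ) ^ 2 / (p : ℝ) ^ 2 = (1 - ((s.card : ℝ) * (1 / (p : ℝ))) ^ 2) * 1 := by ring
        _ = (1 - ((s.card : ℝ) * (1 / (p : ℝ))) ^ 2) *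
            ((1 - 1 / (p : ℝ))⁻¹ ^ s.card * (1 - 1 / (p : ℝ)) ^ s.card) := by
          rw [hc]
        _ = (1 - 1 / (p : ℝ))⁻¹ ^ s.card *
            ((1 - ((s.card : ℝ) * (1 / (p : ℝ))) ^ 2) * (1 - 1 / (p : ℝ)) ^ s.card) := by
          ring
        _ ≤ (1 - 1 / (p : ℝ))⁻¹ ^ s.card *
            (1 - ((Finset.range p).filter (fun m : ℕ => ∃ a ∈ s, (p : ℤ) ∣ (m : ℤ) + a)).card / (p : ℝ)) :=
          mul_le_mul_of_nonneg_left (hpoly.trans h6) (pow_nonneg hf.2.le _)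
  have hsum : ∑ p ∈ PI (y : ℝ) (w : ℝ), (s.card : ℝ) ^ 2 / (p : ℝ) ^ 2 ≤ (s.card : ℝ) ^ 2 / (y : ℝ) :=
    SNG_inv_sq (by positivity) (by omega) _ (fun n hn => (Rr_mem.mp hn).2.1)
  have h100 : (s.card : ℝ) ^ 2 / (y : ℝ) ≤ 2 * (m : ℝ) ^ 2 / (y : ℝ) := by
    refine div_le_div_of_nonneg_right ?_ hy0.le
    have := pow_le_pow_left₀ hk0 hkm 2
    have hm0 : (0 : ℝ) ≤ (m : ℝ) ^ 2 := by positivity
    linarith
  linarith

end Pool.Agent.H96.AE
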