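import Pool.Agent.H96.AE.ASm

/-!
# TTm: two factors `uu - 4` make the correlation small

Let `S = insert t (insert t' s)` (`t ≠ t'`, `t, t' ∉ s`; `S.card ≤ m`). For `a ∈ S` let `κ a : Fin 4 → ℝ` be `(1,1,1,1)` for `a ∈ s` and `(-3,1,1,1)` for `a = t, t'`. As `wt 0 = 1`,
`uu(n-a) = ∑_i κ a i * wt i (n-a)` for `a ∈ s` and `uu(n-a) - 4 = ∑_i κ a i * wt i (n-a)` for `a = t, t'`. So the summand is
`∏_{a ∈ S} ∑_i κ a i * wt i (n-a) = ∑_τ ∏_{a ∈ S} κ a (τ a) * ∏_{a ∈ S} wt (τ a) (n-a)`, `τ` over the functions `S → Fin 4` (`Finset.prod_univ_sum` for the subtype `{a // a ∈ S}`, `Finset.prod_coe_sort`;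
a function on the subtype is extended to `ℤ` by `0`). Exchange the sums and apply `ASm` to each `τ`, with `err = 5 (Gs m y₁ S - 1) + 5 (1/2)^b + 6 m²/y₁`:
`∑_n = M ∑_τ ∏_a κ a (τ a) + O*(M err ∑_τ ∏_a |κ a (τ a)|)`. The first sum is `∏_{a∈S} ∑_i κ a i = 0` (the factor `a = t`), the second is `∏_{a∈S} ∑_i |κ a i| = 4^{|s|} * 6 * 6 ≤ 36 * 4^m`.
-/

set_option autoImplicit false

namespace Pool.Agent.H96.AE

open Finset Pool.Agent.H17 Pool.Agent.H6.MF Pool.Agent.H6.MB Pool.Agent.H12.DM Pool.Agent.H6.AE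

/-- the coefficients of the weights -/
noncomputable def TTmK (t t' : ℤ) (a : ℤ) (i : Fin 4) : ℝ := if (a = t ∨ a = t') ∧ i = 0 then -3 else 1

lemma TTm_wt0 (y₁ y : ℕ) (x : ℝ) (V : ℤ → ℝ) (n : ℤ) : wt y₁ y x V 0 n = 1 := by
  unfold wt
  simp

lemma TTm_u (y₁ y : ℕ) (x : ℝ) (V : ℤ → ℝ) (t t' a : ℤ) (h : ¬ (a = t ∨ a = t')) (n : ℤ) :
    uu y₁ y x V n = ∑ i : Fin 4, TTmK t t' a i * wt y₁ y x V i n := by
  unfold uu TTmK
  refine Finset.sum_congr rfl fun i _ => ?_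
  rw [if_neg (fun hh => h hh.1), one_mul]

lemma TTm_v (y₁ y : ℕ) (x : ℝ) (V : ℤ → ℝ) (t t' a : ℤ) (h : a = t ∨ a = t') (n : ℤ) :
    uu y₁ y x V n - 4 = ∑ i : Fin 4, TTmK t t' a i * wt y₁ y x V i n := by
  unfold uu TTmK
  rw [Fin.sum_univ_four, Fin.sum_univ_four]
  have h1 : ((1 : Fin 4) = 0) = False := by simp
  have h2 : ((2 : Fin 4) = 0) = False := by simp
  have h3 : ((3 : Fin 4) = 0) = False := by simp
  simp only [h, h1, h2, h3, and_false, and_true, if_true, if_false, TTm_wt0]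
  ring

lemma TTm_sum (t t' a : ℤ) : ∑ i : Fin 4, TTmK t t' a i = if a = t ∨ a = t' then 0 else 4 := by
  unfold TTmK
  rw [Fin.sum_univ_four]
  have h1 : ((1 : Fin 4) = 0) = False := by simp
  have h2 : ((2 : Fin 4) = 0) = False := by simp
  have h3 : ((3 : Fin 4) = 0) = False := by simp
  by_cases h : a = t ∨ a = t'
  · simp only [h, h1, h2, h3, and_false, and_true, if_true, if_false]
    norm_num
  · simp only [h, h1, h2, h3, false_and, if_false]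
    norm_num

lemma TTm_abs (t t' a : ℤ) : ∑ i : Fin 4, |TTmK t t' a i| = if a = t ∨ a = t' then 6 else 4 := by
  unfold TTmK
  rw [Fin.sum_univ_four]
  have h1 : ((1 : Fin 4) = 0) = False := by simp
  have h2 : ((2 : Fin 4) = 0) = False := by simp
  have h3 : ((3 : Fin 4) = 0) = False := by simp
  by_cases h : a = t ∨ a = t'
  · simp only [h, h1, h2, h3, and_false, and_true, if_true, if_false]
    norm_num
  · simp only [h, h1, h2, h3, false_and, if_false]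
    norm_num

/-- expansion of a product of sums over a finset of integers -/
lemma TTm_exp (S : Finset ℤ) (f : ℤ → Fin 4 → ℝ) :
    ∏ a ∈ S, ∑ i : Fin 4, f a i = ∑ τ : (S → Fin 4), ∏ a : S, f a (τ a) := by
  rw [← Finset.prod_coe_sort S (fun a => ∑ i : Fin 4, f a i), Finset.prod_univ_sum]
  rw [Fintype.piFinset_univ]

/-- extension of a choice function by `0` -/
def TTmT (S : Finset ℤ) (τ : S → Fin 4) (a : ℤ) : Fin 4 := if h : a ∈ S then τ ⟨a, h⟩ else 0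

lemma TTm_ext (S : Finset ℤ) (τ : S → Fin 4) (g : Fin 4 → ℤ → ℝ) :
    ∏ a ∈ S, g (TTmT S τ a) a = ∏ a : S, g (τ a) a := by
  rw [← Finset.prod_coe_sort S (fun a => g (TTmT S τ a) a)]
  refine Finset.prod_congr rfl fun a _ => ?_
  have : TTmT S τ (a : ℤ) = τ a := by
    unfold TTmT
    rw [dif_pos a.2]
  rw [this]

theorem TTm (m b y₁ y : ℕ) (hm : 1 ≤ m) (hy : 2 * m + 3 ≤ y₁) (h1 : y₁ ≤ y) : ∃ X : ℝ, ∀ x : ℝ, X ≤ x →
    ∀ V : ℤ → ℝ, GoodVm m b x V → ∀ (s : Finset ℤ) (t t' : ℤ), t ∉ s → t' ∉ s → t ≠ t' →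
    (insert t (insert t' s)).card ≤ m → ∀ M : ℕ, x ≤ (M : ℝ) →
    |∑ n ∈ Finset.range M, (∏ a ∈ s, uu y₁ y x V ((n : ℤ) - a)) *
        ((uu y₁ y x V ((n : ℤ) - t) - 4) * (uu y₁ y x V ((n : ℤ) - t') - 4))|
      ≤ 36 * 4 ^ m * (M : ℝ) *
        (5 * (Gs m y₁ (insert t (insert t' s)) - 1) + 5 * (1 / 2 : ℝ) ^ b + 6 * (m : ℝ) ^ 2 / (y₁ : ℝ)) := by
  obtain ⟨X, hX⟩ := ASm m b y₁ y hm hy h1
  refine ⟨X, fun x hx V hV s t t' ht ht' htt hc M hM => ?_⟩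
  set S : Finset ℤ := insert t (insert t' s) with hS
  set E : ℝ := 5 * (Gs m y₁ S - 1) + 5 * (1 / 2 : ℝ) ^ b + 6 * (m : ℝ) ^ 2 / (y₁ : ℝ) with hE
  have htS : t ∉ insert t' s := by
    rw [Finset.mem_insert]
    push Not
    exact ⟨htt, ht⟩
  -- the pointwise expansion
  have hpt : ∀ n : ℕ, (∏ a ∈ s, uu y₁ y x V ((n : ℤ) - a)) *
        ((uu y₁ y x V ((n : ℤ) - t) - 4) * (uu y₁ y x V ((n : ℤ) - t') - 4))
      = ∑ τ : (S → Fin 4), (∏ a : S, TTmK t t' a (τ a)) * ∏ a ∈ S, wt y₁ y x V (TTmT S τ a) ((n : ℤ) - a) := by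
    intro n
    have e1 : (∏ a ∈ s, uu y₁ y x V ((n : ℤ) - a)) *
        ((uu y₁ y x V ((n : ℤ) - t) - 4) * (uu y₁ y x V ((n : ℤ) - t') - 4))
        = ∏ a ∈ S, ∑ i : Fin 4, TTmK t t' a i * wt y₁ y x V i ((n : ℤ) - a) := by
      rw [hS, Finset.prod_insert htS, Finset.prod_insert ht',
        ← TTm_v y₁ y x V t t' t (Or.inl rfl), ← TTm_v y₁ y x V t t' t' (Or.inr rfl)]
      have e2 : ∏ a ∈ s, ∑ i : Fin 4, TTmK t t' a i * wt y₁ y x V i ((n : ℤ) - a)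
          = ∏ a ∈ s, uu y₁ y x V ((n : ℤ) - a) := by
        refine Finset.prod_congr rfl fun a ha => ?_
        refine (TTm_u y₁ y x V t t' a ?_ _).symm
        rintro (h | h)
        · exact ht (h ▸ ha)
        · exact ht' (h ▸ ha)
      rw [e2]
      ring
    rw [e1, TTm_exp S (fun a i => TTmK t t' a i * wt y₁ y x V i ((n : ℤ) - a))]
    refine Finset.sum_congr rfl fun τ _ => ?_
    rw [TTm_ext S τ (fun i a => wt y₁ y x V i ((n : ℤ) - a)), ← Finset.prod_mul_distrib]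
  have hsum : ∑ n ∈ Finset.range M, (∏ a ∈ s, uu y₁ y x V ((n : ℤ) - a)) *
        ((uu y₁ y x V ((n : ℤ) - t) - 4) * (uu y₁ y x V ((n : ℤ) - t') - 4))
      = ∑ τ : (S → Fin 4), (∏ a : S, TTmK t t' a (τ a)) *
          (∑ n ∈ Finset.range M, ∏ a ∈ S, wt y₁ y x V (TTmT S τ a) ((n : ℤ) - a) - (M : ℝ)) := by
    have z : ∑ τ : (S → Fin 4), (∏ a : S, TTmK t t' a (τ a)) = 0 := by
      rw [← TTm_exp S (fun a i => TTmK t t' a i)]
      refine Finset.prod_eq_zero (Finset.mem_insert_self t _ : t ∈ S) ?_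
      rw [TTm_sum, if_pos (Or.inl rfl)]
    have e3 : ∑ τ : (S → Fin 4), (∏ a : S, TTmK t t' a (τ a)) *
          (∑ n ∈ Finset.range M, ∏ a ∈ S, wt y₁ y x V (TTmT S τ a) ((n : ℤ) - a) - (M : ℝ))
        = ∑ τ : (S → Fin 4), (∏ a : S, TTmK t t' a (τ a)) *
          (∑ n ∈ Finset.range M, ∏ a ∈ S, wt y₁ y x V (TTmT S τ a) ((n : ℤ) - a))
          - (∑ τ : (S → Fin 4), (∏ a : S, TTmK t t' a (τ a))) * (M : ℝ) := by
      rw [Finset.sum_mul, ← Finset.sum_sub_distrib]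
      refine Finset.sum_congr rfl fun τ _ => ?_
      ring
    rw [e3, z, zero_mul, sub_zero, Finset.sum_congr rfl (fun n _ => hpt n), Finset.sum_comm]
    refine Finset.sum_congr rfl fun τ _ => ?_
    rw [Finset.mul_sum]
  rw [hsum]
  have hME : 0 ≤ (M : ℝ) * E := by
    have := hX x hx V hV S hc (fun _ => 0) M hM
    exact (abs_nonneg _).trans this
  have habs : ∑ τ : (S → Fin 4), |∏ a : S, TTmK t t' a (τ a)| ≤ 36 * 4 ^ m := by
    have e4 : ∑ τ : (S → Fin 4), |∏ a : S, TTmK t t' a (τ a)| = ∏ a ∈ S, ∑ i : Fin 4, |TTmK t t' a i| := by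
      rw [TTm_exp S (fun a i => |TTmK t t' a i|)]
      refine Finset.sum_congr rfl fun τ _ => ?_
      rw [Finset.abs_prod]
    rw [e4, hS, Finset.prod_insert htS, Finset.prod_insert ht', TTm_abs, TTm_abs,
      if_pos (Or.inl rfl), if_pos (Or.inr rfl)]
    have e5 : ∏ a ∈ s, ∑ i : Fin 4, |TTmK t t' a i| = 4 ^ s.card := by
      rw [← Finset.prod_const]
      refine Finset.prod_congr rfl fun a ha => ?_
      rw [TTm_abs, if_neg]
      rintro (h | h)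
      · exact ht (h ▸ ha)
      · exact ht' (h ▸ ha)
    rw [e5]
    have hcard : s.card ≤ m := by
      have h3 : s.card ≤ S.card := Finset.card_le_card (fun a ha => by
        rw [hS]
        exact Finset.mem_insert_of_mem (Finset.mem_insert_of_mem ha))
      exact h3.trans hc
    have h4 : (4 : ℝ) ^ s.card ≤ 4 ^ m := pow_le_pow_right₀ (by norm_num) hcard
    linarith
  calc |∑ τ : (S → Fin 4), (∏ a : S, TTmK t t' a (τ a)) *
          (∑ n ∈ Finset.range M, ∏ a ∈ S, wt y₁ y x V (TTmT S τ a) ((n : ℤ) - a) - (M : ℝ))|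
      ≤ ∑ τ : (S → Fin 4), |(∏ a : S, TTmK t t' a (τ a)) *
          (∑ n ∈ Finset.range M, ∏ a ∈ S, wt y₁ y x V (TTmT S τ a) ((n : ℤ) - a) - (M : ℝ))| :=
        Finset.abs_sum_le_sum_abs _ _
    _ ≤ ∑ τ : (S → Fin 4), |∏ a : S, TTmK t t' a (τ a)| * ((M : ℝ) * E) := by
        refine Finset.sum_le_sum fun τ _ => ?_
        rw [abs_mul]
        exact mul_le_mul_of_nonneg_left (hX x hx V hV S hc (TTmT S τ) M hM) (abs_nonneg _)
    _ = (∑ τ : (S → Fin 4), |∏ a : S, TTmK t t' a (τ a)|) * ((M : ℝ) * E) := by rw [Finset.sum_mul]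
    _ ≤ (36 * 4 ^ m) * ((M : ℝ) * E) := mul_le_mul_of_nonneg_right habs hME
    _ = 36 * 4 ^ m * (M : ℝ) * E := by ring

end Pool.Agent.H96.AE
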