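import Pool.Agent.H96.AE.SUa
import Pool.Agent.H96.AE.TTm

/-!
# SUb: the sums with the square of a signed sum of `uu - 4`

`I = Icc 1 H`, `L = log x`, `1 ≤ L ≤ H ≤ 4 L^2`, `u = uu y₁ y x V ≥ 1`, so `|u - 4| ≤ 5 u`. `Gs = Gs m y₁`. `Gam` and `Gam_sum` (`Pool/Agent/H6/AE/Gam.lean`, `r = 1`):
`∑_{S ∈ powersetCard i I} (Gs S - 1) ≤ (C'/y₁) H^i`, `∑_{S ∈ powersetCard i I} Gs S ≤ C' H^i`; `ISO_card`: `|powersetCard i I| ≤ H^i`.

Fix `S ∈ powersetCard j I`, `e, e' ∈ I \ S` and put `S' = insert e (insert e' S)`. Expand the square: the sum over `n` is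
`∑_{t,t' ∈ I \ S'} s_t s_t' ∑_n (∏_S u(n-c)) u(n-e) u(n-e') (u(n-t) - 4) (u(n-t') - 4)`, `|s_t s_t'| ≤ 1`. Split the sum over `(e,e')` into `e' = e` and `e' ∈ I \ insert e S`, and the sum over `(t,t')` in the same way.
1. `e ≠ e'`, `t ≠ t'`: `TTm` with `s = insert e' (insert e S)` (`∏_{a ∈ s} = ∏_S * u(e) u(e')`; `insert e (insert e' S) = insert e' (insert e S)`): the inner sum is, in absolute value, at most
   `36 * 4^m M (5 (Gs T - 1) + 5 (1/2)^b + 6 m^2/y₁)`, `T = insert t' (insert t (insert e' (insert e S)))`, `|T| = j + 4 ≤ m`. By `SU_it4`, `Gam` and `ISO_card` the sum over all `S, e, e', t, t'` is at most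
   `(j+4)^4 * 36 * 4^m M (5 C'/y₁ + 5 (1/2)^b + 6 m^2/y₁) H^(j+4)`.
2. `e = e'`, `t ≠ t'`: at most `25 ∑_n ∏_{a ∈ T} u(n-a)^(if a = e then 2 else 1)`, `T = insert t' (insert t (insert e S))`; `CSm`: `≤ 25 C M L Gs T`; `SU_it3` and `Gam_sum`: the total is `≤ C'' M L H^(j+3) = C'' M H^(j+4) (L/H)`.
3. `e ≠ e'`, `t = t'`: the same with `T = insert t (insert e' (insert e S))` and exponent `2` at `t`.
4. `e = e'`, `t = t'`: `T = insert t (insert e S)`, exponents `2` at `t` and `e`; `CSm`: `≤ 25 C M L^2 Gs T`; `SU_it2`: total `≤ C'' M L^2 H^(j+2) ≤ C'' M H^(j+4) (L/H)` as `L ≤ H`.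
-/


set_option autoImplicit false

namespace Pool.Agent.H96.AE

open Finset Pool.Agent.H17 Pool.Agent.H6.MF Pool.Agent.H6.MB Pool.Agent.H12.DM Pool.Agent.H6.AE

lemma SUb_sp (I S : Finset ℤ) {e : ℤ} (he : e ∈ I \ S) (f : ℤ → ℝ) :
    ∑ x ∈ I \ S, f x = f e + ∑ x ∈ I \ insert e S, f x := by
  have h : I \ S = insert e (I \ insert e S) := by
    rw [Finset.mem_sdiff] at he
    ext a
    simp only [Finset.mem_sdiff, Finset.mem_insert]
    by_cases h : a = e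
    · subst h
      tauto
    · tauto
  rw [h, Finset.sum_insert (by simp)]

lemma SUb_sq {T : Finset ℤ} {M : ℕ} (A : ℕ → ℝ) (g : ℕ → ℤ → ℝ) (s : ℤ → ℝ) (hs : ∀ t, |s t| ≤ 1) :
    ∑ n ∈ Finset.range M, A n * (∑ t ∈ T, s t * g n t) ^ 2 ≤
      ∑ t ∈ T, ∑ t' ∈ T, |∑ n ∈ Finset.range M, A n * (g n t * g n t')| := by
  have h1 : ∑ n ∈ Finset.range M, A n * (∑ t ∈ T, s t * g n t) ^ 2 =
      ∑ t ∈ T, ∑ t' ∈ T, (s t * s t') * ∑ n ∈ Finset.range M, A n * (g n t * g n t') := by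
    calc _ = ∑ n ∈ Finset.range M, ∑ t ∈ T, ∑ t' ∈ T, (s t * s t') * (A n * (g n t * g n t')) := by
          refine Finset.sum_congr rfl fun n _ => ?_
          rw [pow_two, Finset.sum_mul_sum, Finset.mul_sum]
          refine Finset.sum_congr rfl fun t _ => ?_
          rw [Finset.mul_sum]
          refine Finset.sum_congr rfl fun t' _ => ?_
          ring
      _ = _ := by
          rw [Finset.sum_comm]
          refine Finset.sum_congr rfl fun t _ => ?_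
          rw [Finset.sum_comm]
          refine Finset.sum_congr rfl fun t' _ => ?_
          rw [Finset.mul_sum]
  rw [h1]
  refine Finset.sum_le_sum fun t _ => Finset.sum_le_sum fun t' _ => ?_
  refine (le_abs_self _).trans ?_
  rw [abs_mul]
  refine mul_le_of_le_one_left (abs_nonneg _) ?_
  rw [abs_mul]
  exact mul_le_one₀ (hs t) (abs_nonneg _) (hs t')

lemma SUb_pow (T D : Finset ℤ) (hD : D ⊆ T) (f : ℤ → ℝ) :
    ∏ a ∈ T, f a ^ (if a ∈ D then 2 else 1) = (∏ a ∈ T, f a) * ∏ a ∈ D, f a := by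
  have h1 : ∀ a ∈ T, f a ^ (if a ∈ D then 2 else 1) = f a * (if a ∈ D then f a else 1) := by
    intro a _
    split_ifs
    · ring
    · ring
  rw [Finset.prod_congr rfl h1, Finset.prod_mul_distrib]
  congr 1
  rw [Finset.prod_ite_mem, Finset.inter_eq_right.2 hD]

lemma SUb_exp (T D : Finset ℤ) (hD : D ⊆ T) :
    ∑ a ∈ T, ((if a ∈ D then 2 else 1) - 1) = D.card := by
  have h1 : ∀ a ∈ T, ((if a ∈ D then 2 else 1) - 1) = (if a ∈ D then 1 else 0) := by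
    intro a _
    split_ifs <;> rfl
  rw [Finset.sum_congr rfl h1, Finset.sum_ite_mem, Finset.inter_eq_right.2 hD]
  simp

lemma SUb_cr {C L : ℝ} {m y₁ y M : ℕ} {x : ℝ} {V : ℤ → ℝ}
    (hX1 : ∀ s : Finset ℤ, s.card ≤ m → ∀ e : ℤ → ℕ, (∀ a, 1 ≤ e a ∧ e a ≤ 2) →
      ∑ a ∈ s, (e a - 1) ≤ 2 →
      ∑ n ∈ Finset.range M, ∏ a ∈ s, uu y₁ y x V ((n : ℤ) - a) ^ e a
        ≤ C * (M : ℝ) * L ^ (∑ a ∈ s, (e a - 1)) * Gs m y₁ s)
    (T D : Finset ℤ) (hT : T.card ≤ m) (hD : D ⊆ T) (hD2 : D.card ≤ 2) (f : ℕ → ℝ)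
    (hf : ∀ n : ℕ, |f n| ≤ 25 * ((∏ a ∈ T, uu y₁ y x V ((n : ℤ) - a)) * ∏ a ∈ D, uu y₁ y x V ((n : ℤ) - a))) :
    |∑ n ∈ Finset.range M, f n| ≤ 25 * (C * (M : ℝ) * L ^ D.card * Gs m y₁ T) := by
  have h1 := hX1 T hT (fun a => if a ∈ D then 2 else 1) (fun a => by split_ifs <;> simp)
    (by rw [SUb_exp T D hD]; exact hD2)
  rw [SUb_exp T D hD] at h1
  calc |∑ n ∈ Finset.range M, f n| ≤ ∑ n ∈ Finset.range M, |f n| := Finset.abs_sum_le_sum_abs _ _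
    _ ≤ ∑ n ∈ Finset.range M, 25 * ((∏ a ∈ T, uu y₁ y x V ((n : ℤ) - a)) * ∏ a ∈ D, uu y₁ y x V ((n : ℤ) - a)) :=
        Finset.sum_le_sum fun n _ => hf n
    _ = 25 * ∑ n ∈ Finset.range M, ∏ a ∈ T, uu y₁ y x V ((n : ℤ) - a) ^ (if a ∈ D then 2 else 1) := by
        rw [Finset.mul_sum]
        refine Finset.sum_congr rfl fun n _ => ?_
        rw [SUb_pow T D hD]
    _ ≤ _ := by
        apply mul_le_mul_of_nonneg_left h1 (by norm_num)

lemma SUb_four {u : ℝ} (hu : 1 ≤ u) : |u - 4| ≤ 5 * u := by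
  rw [abs_le]
  constructor <;> linarith

/-- the total splits into four sums -/
lemma SUb_tot (I S : Finset ℤ) (q : ℤ → ℤ → ℤ → ℤ → ℝ) :
    ∑ e ∈ I \ S, ∑ e' ∈ I \ S, ∑ t ∈ I \ insert e (insert e' S), ∑ t' ∈ I \ insert e (insert e' S), q e e' t t' =
    ∑ e ∈ I \ S, (∑ t ∈ I \ insert e S, q e e t t) + ∑ e ∈ I \ S, (∑ t ∈ I \ insert e S, ∑ t' ∈ I \ insert t (insert e S), q e e t t') +
      ∑ e ∈ I \ S, (∑ e' ∈ I \ insert e S, ∑ t ∈ I \ insert e' (insert e S), q e e' t t) +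
      ∑ e ∈ I \ S, (∑ e' ∈ I \ insert e S, ∑ t ∈ I \ insert e' (insert e S),
        ∑ t' ∈ I \ insert t (insert e' (insert e S)), q e e' t t') := by
  have hw : ∀ (R : Finset ℤ) (p : ℤ → ℤ → ℝ), ∑ t ∈ I \ R, ∑ t' ∈ I \ R, p t t' =
      ∑ t ∈ I \ R, p t t + ∑ t ∈ I \ R, ∑ t' ∈ I \ insert t R, p t t' := by
    intro R p
    rw [← Finset.sum_add_distrib]
    refine Finset.sum_congr rfl fun t ht => ?_
    exact SUb_sp I R ht (fun t' => p t t')
  rw [← Finset.sum_add_distrib, ← Finset.sum_add_distrib, ← Finset.sum_add_distrib]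
  refine Finset.sum_congr rfl fun e he => ?_
  rw [SUb_sp I S he (fun e' => ∑ t ∈ I \ insert e (insert e' S), ∑ t' ∈ I \ insert e (insert e' S), q e e' t t')]
  simp only [Finset.insert_idem]
  rw [hw (insert e S) (q e e)]
  have h2 : ∀ e' ∈ I \ insert e S, ∑ t ∈ I \ insert e (insert e' S), ∑ t' ∈ I \ insert e (insert e' S), q e e' t t' =
      ∑ t ∈ I \ insert e' (insert e S), q e e' t t +
        ∑ t ∈ I \ insert e' (insert e S), ∑ t' ∈ I \ insert t (insert e' (insert e S)), q e e' t t' := by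
    intro e' _
    rw [Finset.insert_comm e e' S]
    exact hw (insert e' (insert e S)) (q e e')
  rw [Finset.sum_congr rfl h2, Finset.sum_add_distrib]
  ring

theorem SU3 (m j : ℕ) (hm : j + 4 ≤ m) : ∃ C : ℝ, 0 < C ∧ ∀ b y₁ y : ℕ, 2 * m + 3 ≤ y₁ → y₁ ≤ y → ∃ X : ℝ,
    ∀ x : ℝ, X ≤ x → ∀ V : ℤ → ℝ, GoodVm m b x V → ∀ H : ℕ, Real.log x ≤ (H : ℝ) → (H : ℝ) ≤ 4 * (Real.log x) ^ 2 →
    ∀ M : ℕ, x ≤ (M : ℝ) → ∀ s : Finset ℤ → ℤ → ℤ → ℤ → ℝ, (∀ S e e' t, |s S e e' t| ≤ 1) →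
    ∑ S ∈ Finset.powersetCard j (Finset.Icc 1 (H : ℤ)), ∑ e ∈ Finset.Icc 1 (H : ℤ) \ S,
      ∑ e' ∈ Finset.Icc 1 (H : ℤ) \ S, ∑ n ∈ Finset.range M, (∏ c ∈ S, uu y₁ y x V ((n : ℤ) - c)) *
        (uu y₁ y x V ((n : ℤ) - e) * uu y₁ y x V ((n : ℤ) - e')) *
        (∑ t ∈ Finset.Icc 1 (H : ℤ) \ insert e (insert e' S), s S e e' t * (uu y₁ y x V ((n : ℤ) - t) - 4)) ^ 2
      ≤ C * (M : ℝ) * (H : ℝ) ^ (j + 4) * ((1 / 2 : ℝ) ^ b + 1 / (y₁ : ℝ) + Real.log x / (H : ℝ)) := by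
  obtain ⟨C, hC, hCS⟩ := CSm m (by omega)
  obtain ⟨G4, hG4, hGam⟩ := Gam m (j + 4) 1
  obtain ⟨G3, hG3, hGs3⟩ := Gam_sum m (j + 3) 1
  obtain ⟨G2, hG2, hGs2⟩ := Gam_sum m (j + 2) 1
  refine ⟨((j : ℝ) + 1) * ((j : ℝ) + 2) * ((j : ℝ) + 3) * ((j : ℝ) + 4) * (36 * 4 ^ m) * (5 * G4 + 5 + 6 * (m : ℝ) ^ 2) +
    2 * (((j : ℝ) + 1) * ((j : ℝ) + 2) * ((j : ℝ) + 3) * (25 * C * G3)) + ((j : ℝ) + 1) * ((j : ℝ) + 2) * (25 * C * G2),
    by positivity, fun b y₁ y hy h1 => ?_⟩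
  obtain ⟨X1, hX1⟩ := hCS b y₁ y (by omega) h1
  obtain ⟨X2, hX2⟩ := TTm m b y₁ y (by omega) hy h1
  obtain ⟨X3, hX3⟩ := hGam y₁ (by omega)
  obtain ⟨X4, hX4⟩ := hGs3 y₁ (by omega)
  obtain ⟨X5, hX5⟩ := hGs2 y₁ (by omega)
  refine ⟨max (max (max X1 X2) (max X3 X4)) (max X5 (Real.exp 1)), fun x hx V hV H hH1 hH2 M hM s hs => ?_⟩
  have hx1 : X1 ≤ x := le_trans (le_trans (le_trans (le_max_left _ _) (le_max_left _ _)) (le_max_left _ _)) hx
  have hx2 : X2 ≤ x := le_trans (le_trans (le_trans (le_max_right _ _) (le_max_left _ _)) (le_max_left _ _)) hx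
  have hx3 : X3 ≤ x := le_trans (le_trans (le_trans (le_max_left _ _) (le_max_right _ _)) (le_max_left _ _)) hx
  have hx4 : X4 ≤ x := le_trans (le_trans (le_trans (le_max_right _ _) (le_max_right _ _)) (le_max_left _ _)) hx
  have hx5 : X5 ≤ x := le_trans (le_trans (le_max_left _ _) (le_max_right _ _)) hx
  have hxe : Real.exp 1 ≤ x := le_trans (le_trans (le_max_right _ _) (le_max_right _ _)) hx
  have hL1 : 1 ≤ Real.log x := (Real.le_log_iff_exp_le (lt_of_lt_of_le (Real.exp_pos 1) hxe)).2 hxe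
  have hH0 : (0 : ℝ) < H := by linarith
  have hV0 : ∀ n, 0 ≤ V n := hV.1
  have hu1 : ∀ n : ℤ, 1 ≤ uu y₁ y x V n := fun n => one_le_uu hV0 n
  have hu0 : ∀ n : ℤ, 0 ≤ uu y₁ y x V n := fun n => uu_nonneg hV0 n
  have hy0 : (0 : ℝ) < y₁ := by
    have : 0 < y₁ := by omega
    exact_mod_cast this
  have hM0 : (0 : ℝ) ≤ M := Nat.cast_nonneg M
  set L : ℝ := Real.log x with hL
  set I : Finset ℤ := Finset.Icc 1 (H : ℤ) with hI
  have hIc : (I.card : ℝ) = H := by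
    rw [hI, Int.card_Icc]
    have : ((H : ℤ) + 1 - 1).toNat = H := by omega
    rw [this]
  -- the crude bound
  have hB := SUb_cr (C := C) (L := L) (m := m) (y₁ := y₁) (y := y) (M := M) (x := x) (V := V)
    (fun s' hs' e he he2 => hX1 x hx1 V hV s' hs' e he he2 M hM)
  set q : Finset ℤ → ℤ → ℤ → ℤ → ℤ → ℝ := fun S e e' t t' =>
    |∑ n ∈ Finset.range M, ((∏ c ∈ S, uu y₁ y x V ((n : ℤ) - c)) * (uu y₁ y x V ((n : ℤ) - e) * uu y₁ y x V ((n : ℤ) - e'))) *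
      ((uu y₁ y x V ((n : ℤ) - t) - 4) * (uu y₁ y x V ((n : ℤ) - t') - 4))| with hq
  -- pointwise bound of a summand
  have hpt : ∀ (S : Finset ℤ) (e e' t t' : ℤ) (n : ℕ),
      |((∏ c ∈ S, uu y₁ y x V ((n : ℤ) - c)) * (uu y₁ y x V ((n : ℤ) - e) * uu y₁ y x V ((n : ℤ) - e'))) *
        ((uu y₁ y x V ((n : ℤ) - t) - 4) * (uu y₁ y x V ((n : ℤ) - t') - 4))| ≤
      25 * (((∏ c ∈ S, uu y₁ y x V ((n : ℤ) - c)) * (uu y₁ y x V ((n : ℤ) - e) * uu y₁ y x V ((n : ℤ) - e'))) *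
        (uu y₁ y x V ((n : ℤ) - t) * uu y₁ y x V ((n : ℤ) - t'))) := by
    intro S e e' t t' n
    have hp : 0 ≤ (∏ c ∈ S, uu y₁ y x V ((n : ℤ) - c)) * (uu y₁ y x V ((n : ℤ) - e) * uu y₁ y x V ((n : ℤ) - e')) :=
      mul_nonneg (Finset.prod_nonneg fun c _ => hu0 _) (mul_nonneg (hu0 _) (hu0 _))
    rw [abs_mul, abs_of_nonneg hp, abs_mul]
    have h3 : |uu y₁ y x V ((n : ℤ) - t) - 4| * |uu y₁ y x V ((n : ℤ) - t') - 4| ≤
        (5 * uu y₁ y x V ((n : ℤ) - t)) * (5 * uu y₁ y x V ((n : ℤ) - t')) :=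
      mul_le_mul (SUb_four (hu1 _)) (SUb_four (hu1 _)) (abs_nonneg _) (by have := hu0 ((n : ℤ) - t); positivity)
    calc _ ≤ ((∏ c ∈ S, uu y₁ y x V ((n : ℤ) - c)) * (uu y₁ y x V ((n : ℤ) - e) * uu y₁ y x V ((n : ℤ) - e'))) *
          ((5 * uu y₁ y x V ((n : ℤ) - t)) * (5 * uu y₁ y x V ((n : ℤ) - t'))) := mul_le_mul_of_nonneg_left h3 hp
      _ = _ := by ring
  -- step 1: expand the square
  have hstep1 : ∑ S ∈ Finset.powersetCard j I, ∑ e ∈ I \ S,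
      ∑ e' ∈ I \ S, ∑ n ∈ Finset.range M, (∏ c ∈ S, uu y₁ y x V ((n : ℤ) - c)) *
        (uu y₁ y x V ((n : ℤ) - e) * uu y₁ y x V ((n : ℤ) - e')) *
        (∑ t ∈ I \ insert e (insert e' S), s S e e' t * (uu y₁ y x V ((n : ℤ) - t) - 4)) ^ 2 ≤
      ∑ S ∈ Finset.powersetCard j I, ∑ e ∈ I \ S, ∑ e' ∈ I \ S, ∑ t ∈ I \ insert e (insert e' S),
        ∑ t' ∈ I \ insert e (insert e' S), q S e e' t t' :=
    Finset.sum_le_sum fun S _ => Finset.sum_le_sum fun e _ => Finset.sum_le_sum fun e' _ =>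
      SUb_sq (fun n => (∏ c ∈ S, uu y₁ y x V ((n : ℤ) - c)) * (uu y₁ y x V ((n : ℤ) - e) * uu y₁ y x V ((n : ℤ) - e')))
        (fun n t => uu y₁ y x V ((n : ℤ) - t) - 4) (s S e e') (fun t => hs S e e' t)
  refine hstep1.trans ?_
  -- step 2: split
  have hstep2 : ∑ S ∈ Finset.powersetCard j I, ∑ e ∈ I \ S, ∑ e' ∈ I \ S, ∑ t ∈ I \ insert e (insert e' S),
        ∑ t' ∈ I \ insert e (insert e' S), q S e e' t t' =
      ∑ S ∈ Finset.powersetCard j I, ∑ e ∈ I \ S, ∑ t ∈ I \ insert e S, q S e e t t +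
      ∑ S ∈ Finset.powersetCard j I, ∑ e ∈ I \ S, ∑ t ∈ I \ insert e S, ∑ t' ∈ I \ insert t (insert e S), q S e e t t' +
      ∑ S ∈ Finset.powersetCard j I, ∑ e ∈ I \ S, ∑ e' ∈ I \ insert e S, ∑ t ∈ I \ insert e' (insert e S), q S e e' t t +
      ∑ S ∈ Finset.powersetCard j I, ∑ e ∈ I \ S, ∑ e' ∈ I \ insert e S, ∑ t ∈ I \ insert e' (insert e S),
        ∑ t' ∈ I \ insert t (insert e' (insert e S)), q S e e' t t' := by
    rw [← Finset.sum_add_distrib, ← Finset.sum_add_distrib, ← Finset.sum_add_distrib]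
    exact Finset.sum_congr rfl fun S _ => SUb_tot I S (q S)
  rw [hstep2]
  -- the four sums
  have hT4 : ∑ S ∈ Finset.powersetCard j I, ∑ e ∈ I \ S, ∑ t ∈ I \ insert e S, q S e e t t ≤
      ((j : ℝ) + 1) * ((j : ℝ) + 2) * (25 * (C * (M : ℝ) * L ^ 2) * (G2 * (H : ℝ) ^ (j + 2))) := by
    calc _ ≤ ∑ S ∈ Finset.powersetCard j I, ∑ e ∈ I \ S, ∑ t ∈ I \ insert e S,
          25 * (C * (M : ℝ) * L ^ 2) * Gs m y₁ (insert t (insert e S)) := by
          refine Finset.sum_le_sum fun S hS => Finset.sum_le_sum fun e he => Finset.sum_le_sum fun t ht => ?_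
          rw [Finset.mem_powersetCard] at hS
          rw [Finset.mem_sdiff] at he ht
          have het : e ≠ t := fun h => ht.2 (by rw [← h]; exact Finset.mem_insert_self _ _)
          have hD : ({t, e} : Finset ℤ) ⊆ insert t (insert e S) := by
            intro a ha
            simp only [Finset.mem_insert, Finset.mem_singleton] at ha ⊢
            tauto
          have hDc : ({t, e} : Finset ℤ).card = 2 := Finset.card_pair (Ne.symm het)
          have hTc : (insert t (insert e S)).card ≤ m := by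
            rw [Finset.card_insert_of_notMem ht.2, Finset.card_insert_of_notMem he.2, hS.2]
            omega
          have h3 := hB (insert t (insert e S)) {t, e} hTc hD (by rw [hDc])
            (fun n => ((∏ c ∈ S, uu y₁ y x V ((n : ℤ) - c)) * (uu y₁ y x V ((n : ℤ) - e) * uu y₁ y x V ((n : ℤ) - e))) *
              ((uu y₁ y x V ((n : ℤ) - t) - 4) * (uu y₁ y x V ((n : ℤ) - t) - 4))) (fun n => by
              refine (hpt S e e t t n).trans (le_of_eq ?_)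
              rw [Finset.prod_insert ht.2, Finset.prod_insert he.2, Finset.prod_pair (Ne.symm het)]
              ring)
          rw [hDc] at h3
          refine h3.trans (le_of_eq ?_)
          ring
      _ = ((j : ℝ) + 1) * ((j : ℝ) + 2) * (25 * (C * (M : ℝ) * L ^ 2) * ∑ T ∈ Finset.powersetCard (j + 2) I, Gs m y₁ T) := by
          rw [SU_it2 I j (fun T => 25 * (C * (M : ℝ) * L ^ 2) * Gs m y₁ T), ← Finset.mul_sum]
      _ ≤ _ := by
          have h3 := hX5 x hx5 H hH1 hH2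
          simp only [pow_one] at h3
          have h4 : ∑ T ∈ Finset.powersetCard (j + 2) I, Gs m y₁ T ≤ G2 * (H : ℝ) ^ (j + 2) := h3
          gcongr
  have hG3s : ∑ T ∈ Finset.powersetCard (j + 3) I, Gs m y₁ T ≤ G3 * (H : ℝ) ^ (j + 3) := by
    have h3 := hX4 x hx4 H hH1 hH2
    simp only [pow_one] at h3
    exact h3
  have hT2 : ∑ S ∈ Finset.powersetCard j I, ∑ e ∈ I \ S, ∑ t ∈ I \ insert e S, ∑ t' ∈ I \ insert t (insert e S), q S e e t t' ≤
      ((j : ℝ) + 1) * ((j : ℝ) + 2) * ((j : ℝ) + 3) * (25 * (C * (M : ℝ) * L) * (G3 * (H : ℝ) ^ (j + 3))) := by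
    calc _ ≤ ∑ S ∈ Finset.powersetCard j I, ∑ e ∈ I \ S, ∑ t ∈ I \ insert e S, ∑ t' ∈ I \ insert t (insert e S),
          25 * (C * (M : ℝ) * L) * Gs m y₁ (insert t' (insert t (insert e S))) := by
          refine Finset.sum_le_sum fun S hS => Finset.sum_le_sum fun e he => Finset.sum_le_sum fun t ht =>
            Finset.sum_le_sum fun t' ht' => ?_
          rw [Finset.mem_powersetCard] at hS
          rw [Finset.mem_sdiff] at he ht ht'
          have hD : ({e} : Finset ℤ) ⊆ insert t' (insert t (insert e S)) := by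
            intro a ha
            simp only [Finset.mem_insert, Finset.mem_singleton] at ha ⊢
            tauto
          have hTc : (insert t' (insert t (insert e S))).card ≤ m := by
            rw [Finset.card_insert_of_notMem ht'.2, Finset.card_insert_of_notMem ht.2, Finset.card_insert_of_notMem he.2, hS.2]
            omega
          have h3 := hB (insert t' (insert t (insert e S))) {e} hTc hD (by simp)
            (fun n => ((∏ c ∈ S, uu y₁ y x V ((n : ℤ) - c)) * (uu y₁ y x V ((n : ℤ) - e) * uu y₁ y x V ((n : ℤ) - e))) *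
              ((uu y₁ y x V ((n : ℤ) - t) - 4) * (uu y₁ y x V ((n : ℤ) - t') - 4))) (fun n => by
              refine (hpt S e e t t' n).trans (le_of_eq ?_)
              rw [Finset.prod_insert ht'.2, Finset.prod_insert ht.2, Finset.prod_insert he.2, Finset.prod_singleton]
              ring)
          rw [Finset.card_singleton] at h3
          refine h3.trans (le_of_eq ?_)
          ring
      _ = ((j : ℝ) + 1) * ((j : ℝ) + 2) * ((j : ℝ) + 3) *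
            (25 * (C * (M : ℝ) * L) * ∑ T ∈ Finset.powersetCard (j + 3) I, Gs m y₁ T) := by
          rw [SU_it3 I j (fun T => 25 * (C * (M : ℝ) * L) * Gs m y₁ T), ← Finset.mul_sum]
      _ ≤ _ := by
          gcongr
  have hT3 : ∑ S ∈ Finset.powersetCard j I, ∑ e ∈ I \ S, ∑ e' ∈ I \ insert e S, ∑ t ∈ I \ insert e' (insert e S), q S e e' t t ≤
      ((j : ℝ) + 1) * ((j : ℝ) + 2) * ((j : ℝ) + 3) * (25 * (C * (M : ℝ) * L) * (G3 * (H : ℝ) ^ (j + 3))) := by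
    calc _ ≤ ∑ S ∈ Finset.powersetCard j I, ∑ e ∈ I \ S, ∑ t ∈ I \ insert e S, ∑ t' ∈ I \ insert t (insert e S),
          25 * (C * (M : ℝ) * L) * Gs m y₁ (insert t' (insert t (insert e S))) := by
          refine Finset.sum_le_sum fun S hS => Finset.sum_le_sum fun e he => Finset.sum_le_sum fun t ht =>
            Finset.sum_le_sum fun t' ht' => ?_
          rw [Finset.mem_powersetCard] at hS
          rw [Finset.mem_sdiff] at he ht ht'
          have hD : ({t'} : Finset ℤ) ⊆ insert t' (insert t (insert e S)) := by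
            intro a ha
            simp only [Finset.mem_insert, Finset.mem_singleton] at ha ⊢
            tauto
          have hTc : (insert t' (insert t (insert e S))).card ≤ m := by
            rw [Finset.card_insert_of_notMem ht'.2, Finset.card_insert_of_notMem ht.2, Finset.card_insert_of_notMem he.2, hS.2]
            omega
          have h3 := hB (insert t' (insert t (insert e S))) {t'} hTc hD (by simp)
            (fun n => ((∏ c ∈ S, uu y₁ y x V ((n : ℤ) - c)) * (uu y₁ y x V ((n : ℤ) - e) * uu y₁ y x V ((n : ℤ) - t))) *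
              ((uu y₁ y x V ((n : ℤ) - t') - 4) * (uu y₁ y x V ((n : ℤ) - t') - 4))) (fun n => by
              refine (hpt S e t t' t' n).trans (le_of_eq ?_)
              rw [Finset.prod_insert ht'.2, Finset.prod_insert ht.2, Finset.prod_insert he.2, Finset.prod_singleton]
              ring)
          rw [Finset.card_singleton] at h3
          refine h3.trans (le_of_eq ?_)
          ring
      _ = ((j : ℝ) + 1) * ((j : ℝ) + 2) * ((j : ℝ) + 3) *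
            (25 * (C * (M : ℝ) * L) * ∑ T ∈ Finset.powersetCard (j + 3) I, Gs m y₁ T) := by
          rw [SU_it3 I j (fun T => 25 * (C * (M : ℝ) * L) * Gs m y₁ T), ← Finset.mul_sum]
      _ ≤ _ := by
          gcongr
  have hT1 : ∑ S ∈ Finset.powersetCard j I, ∑ e ∈ I \ S, ∑ e' ∈ I \ insert e S, ∑ t ∈ I \ insert e' (insert e S),
        ∑ t' ∈ I \ insert t (insert e' (insert e S)), q S e e' t t' ≤
      ((j : ℝ) + 1) * ((j : ℝ) + 2) * ((j : ℝ) + 3) * ((j : ℝ) + 4) * (36 * 4 ^ m * (M : ℝ) *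
        (5 * (G4 / (y₁ : ℝ) * (H : ℝ) ^ (j + 4)) + (5 * (1 / 2 : ℝ) ^ b + 6 * (m : ℝ) ^ 2 / (y₁ : ℝ)) * (H : ℝ) ^ (j + 4))) := by
    calc _ ≤ ∑ S ∈ Finset.powersetCard j I, ∑ e ∈ I \ S, ∑ e' ∈ I \ insert e S, ∑ t ∈ I \ insert e' (insert e S),
        ∑ t' ∈ I \ insert t (insert e' (insert e S)), (fun T => 36 * 4 ^ m * (M : ℝ) *
          (5 * (Gs m y₁ T - 1) + 5 * (1 / 2 : ℝ) ^ b + 6 * (m : ℝ) ^ 2 / (y₁ : ℝ))) (insert t' (insert t (insert e' (insert e S)))) := by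
          refine Finset.sum_le_sum fun S hS => Finset.sum_le_sum fun e he => Finset.sum_le_sum fun e' he' =>
            Finset.sum_le_sum fun t ht => Finset.sum_le_sum fun t' ht' => ?_
          rw [Finset.mem_powersetCard] at hS
          rw [Finset.mem_sdiff] at he he' ht ht'
          have htt : t' ≠ t := fun h => ht'.2 (by rw [h]; exact Finset.mem_insert_self _ _)
          have ht's : t' ∉ insert e' (insert e S) := fun h => ht'.2 (Finset.mem_insert_of_mem h)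
          have hTc : (insert t' (insert t (insert e' (insert e S)))).card ≤ m := by
            rw [Finset.card_insert_of_notMem ht'.2, Finset.card_insert_of_notMem ht.2, Finset.card_insert_of_notMem he'.2,
              Finset.card_insert_of_notMem he.2, hS.2]
            omega
          have h3 := hX2 x hx2 V hV (insert e' (insert e S)) t' t ht's ht.2 htt hTc M hM
          refine le_trans (le_of_eq ?_) h3
          rw [hq]
          simp only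
          congr 1
          refine Finset.sum_congr rfl fun n _ => ?_
          rw [Finset.prod_insert he'.2, Finset.prod_insert he.2]
          ring
      _ = ((j : ℝ) + 1) * ((j : ℝ) + 2) * ((j : ℝ) + 3) * ((j : ℝ) + 4) * (36 * 4 ^ m * (M : ℝ) *
            (5 * ∑ T ∈ Finset.powersetCard (j + 4) I, (Gs m y₁ T - 1) +
              (5 * (1 / 2 : ℝ) ^ b + 6 * (m : ℝ) ^ 2 / (y₁ : ℝ)) * ((Finset.powersetCard (j + 4) I).card : ℝ))) := by
          rw [SU_it4 I j (fun T => 36 * 4 ^ m * (M : ℝ) *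
          (5 * (Gs m y₁ T - 1) + 5 * (1 / 2 : ℝ) ^ b + 6 * (m : ℝ) ^ 2 / (y₁ : ℝ)))]
          congr 1
          rw [← Finset.mul_sum]
          congr 1
          rw [Finset.mul_sum, mul_comm (5 * (1 / 2 : ℝ) ^ b + 6 * (m : ℝ) ^ 2 / (y₁ : ℝ)), ← nsmul_eq_mul, ← Finset.sum_const,
            ← Finset.sum_add_distrib]
          refine Finset.sum_congr rfl fun T _ => ?_
          ring
      _ ≤ _ := by
          have h3 := hX3 x hx3 H hH1 hH2
          simp only [pow_one] at h3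
          have h4 : ∑ T ∈ Finset.powersetCard (j + 4) I, (Gs m y₁ T - 1) ≤ G4 / (y₁ : ℝ) * (H : ℝ) ^ (j + 4) := h3
          have h5 : ((Finset.powersetCard (j + 4) I).card : ℝ) ≤ (H : ℝ) ^ (j + 4) := by
            have := Gam_cardp (I := I) (j := j + 4)
            rwa [hIc] at this
          gcongr
  refine (add_le_add (add_le_add (add_le_add hT4 hT2) hT3) hT1).trans ?_
  -- the final computation
  have hLH : 0 ≤ L / (H : ℝ) := by positivity
  have hb0 : (0 : ℝ) ≤ (1 / 2 : ℝ) ^ b := by positivity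
  have hy1 : 0 ≤ 1 / (y₁ : ℝ) := by positivity
  have hP : (0 : ℝ) ≤ (H : ℝ) ^ (j + 4) := by positivity
  have e3 : L * (H : ℝ) ^ (j + 3) = (H : ℝ) ^ (j + 4) * (L / (H : ℝ)) := by
    field_simp
    ring
  have e2 : L ^ 2 * (H : ℝ) ^ (j + 2) ≤ (H : ℝ) ^ (j + 4) * (L / (H : ℝ)) := by
    rw [← e3, pow_two, mul_assoc, pow_succ' (H : ℝ) (j + 2)]
    apply mul_le_mul_of_nonneg_left _ (by linarith)
    exact mul_le_mul_of_nonneg_right hH1 (by positivity)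
  have k1 : ((j : ℝ) + 1) * ((j : ℝ) + 2) * (25 * (C * (M : ℝ) * L ^ 2) * (G2 * (H : ℝ) ^ (j + 2))) ≤
      ((j : ℝ) + 1) * ((j : ℝ) + 2) * (25 * C * G2) * (M : ℝ) * ((H : ℝ) ^ (j + 4) * (L / (H : ℝ))) := by
    calc _ = ((j : ℝ) + 1) * ((j : ℝ) + 2) * (25 * C * G2) * (M : ℝ) * (L ^ 2 * (H : ℝ) ^ (j + 2)) := by ring
      _ ≤ _ := by gcongr
  have k2 : ((j : ℝ) + 1) * ((j : ℝ) + 2) * ((j : ℝ) + 3) * (25 * (C * (M : ℝ) * L) * (G3 * (H : ℝ) ^ (j + 3))) =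
      ((j : ℝ) + 1) * ((j : ℝ) + 2) * ((j : ℝ) + 3) * (25 * C * G3) * (M : ℝ) * ((H : ℝ) ^ (j + 4) * (L / (H : ℝ))) := by
    rw [← e3]
    ring
  have k3 : ((j : ℝ) + 1) * ((j : ℝ) + 2) * ((j : ℝ) + 3) * ((j : ℝ) + 4) * (36 * 4 ^ m * (M : ℝ) *
        (5 * (G4 / (y₁ : ℝ) * (H : ℝ) ^ (j + 4)) + (5 * (1 / 2 : ℝ) ^ b + 6 * (m : ℝ) ^ 2 / (y₁ : ℝ)) * (H : ℝ) ^ (j + 4))) ≤
      ((j : ℝ) + 1) * ((j : ℝ) + 2) * ((j : ℝ) + 3) * ((j : ℝ) + 4) * (36 * 4 ^ m) * (5 * G4 + 5 + 6 * (m : ℝ) ^ 2) * (M : ℝ) *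
        ((H : ℝ) ^ (j + 4) * ((1 / 2 : ℝ) ^ b + 1 / (y₁ : ℝ))) := by
    have h6 : 5 * (G4 / (y₁ : ℝ) * (H : ℝ) ^ (j + 4)) + (5 * (1 / 2 : ℝ) ^ b + 6 * (m : ℝ) ^ 2 / (y₁ : ℝ)) * (H : ℝ) ^ (j + 4) ≤
        (5 * G4 + 5 + 6 * (m : ℝ) ^ 2) * ((H : ℝ) ^ (j + 4) * ((1 / 2 : ℝ) ^ b + 1 / (y₁ : ℝ))) := by
      have h7 : 5 * (G4 / (y₁ : ℝ) * (H : ℝ) ^ (j + 4)) + (5 * (1 / 2 : ℝ) ^ b + 6 * (m : ℝ) ^ 2 / (y₁ : ℝ)) * (H : ℝ) ^ (j + 4) =
          (H : ℝ) ^ (j + 4) * (5 * G4 * (1 / (y₁ : ℝ)) + 5 * (1 / 2 : ℝ) ^ b + 6 * (m : ℝ) ^ 2 * (1 / (y₁ : ℝ))) := by ring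
      rw [h7, mul_left_comm]
      apply mul_le_mul_of_nonneg_left _ hP
      have h8 : 0 ≤ G4 * (1 / 2 : ℝ) ^ b := by positivity
      have h9 : 0 ≤ (m : ℝ) ^ 2 * (1 / 2 : ℝ) ^ b := by positivity
      nlinarith
    calc _ = ((j : ℝ) + 1) * ((j : ℝ) + 2) * ((j : ℝ) + 3) * ((j : ℝ) + 4) * (36 * 4 ^ m) * (M : ℝ) *
          (5 * (G4 / (y₁ : ℝ) * (H : ℝ) ^ (j + 4)) + (5 * (1 / 2 : ℝ) ^ b + 6 * (m : ℝ) ^ 2 / (y₁ : ℝ)) * (H : ℝ) ^ (j + 4)) := by ring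
      _ ≤ ((j : ℝ) + 1) * ((j : ℝ) + 2) * ((j : ℝ) + 3) * ((j : ℝ) + 4) * (36 * 4 ^ m) * (M : ℝ) *
          ((5 * G4 + 5 + 6 * (m : ℝ) ^ 2) * ((H : ℝ) ^ (j + 4) * ((1 / 2 : ℝ) ^ b + 1 / (y₁ : ℝ)))) := by gcongr
      _ = _ := by ring
  have n1 : 0 ≤ ((j : ℝ) + 1) * ((j : ℝ) + 2) * ((j : ℝ) + 3) * ((j : ℝ) + 4) * (36 * 4 ^ m) * (5 * G4 + 5 + 6 * (m : ℝ) ^ 2) * (M : ℝ) *
      ((H : ℝ) ^ (j + 4) * (L / (H : ℝ))) := by positivity
  have n2 : 0 ≤ ((j : ℝ) + 1) * ((j : ℝ) + 2) * ((j : ℝ) + 3) * (25 * C * G3) * (M : ℝ) *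
      ((H : ℝ) ^ (j + 4) * ((1 / 2 : ℝ) ^ b + 1 / (y₁ : ℝ))) := by positivity
  have n3 : 0 ≤ ((j : ℝ) + 1) * ((j : ℝ) + 2) * (25 * C * G2) * (M : ℝ) *
      ((H : ℝ) ^ (j + 4) * ((1 / 2 : ℝ) ^ b + 1 / (y₁ : ℝ))) := by positivity
  rw [k2]
  linarith [k1, k3, n1, n2, n3]

end Pool.Agent.H96.AE
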